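import Pool.Agent.SHB.BzDefs

/-!
# Project SHB (MP_f77893_an), module BzDim: dimension of the space of polynomials of bidegree `≤ (N, N)`

`restrictDegree (Fin 2) ℂ N` is finite-dimensional of dimension `(N + 1) ^ 2` (the monomials `ex i j` with
`i, j ≤ N` are a basis), and the number of pairs `(i, j)` with `i + j < m` is `m (m + 1) / 2`.
-/

set_option autoImplicit false

namespace Pool.Agent.SHB

open MvPolynomial

theorem finite_restrict (N : ℕ) : Module.Finite ℂ (restrictDegree (Fin 2) ℂ N) := by
  exact inferInstance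

theorem finrank_restrict (N : ℕ) :
    Module.finrank ℂ (restrictDegree (Fin 2) ℂ N) = (N + 1) ^ 2 := by
  unfold restrictDegree
  rw [Module.finrank_eq_nat_card_basis
    (basisRestrictSupport ℂ ({n | ∀ i, n i ≤ N} : Set (Fin 2 →₀ ℕ)))]
  have e : ({n | ∀ i, n i ≤ N} : Set (Fin 2 →₀ ℕ)) ≃ Fin (N + 1) × Fin (N + 1) :=
    { toFun := fun d => (⟨d.1 0, Nat.lt_succ_of_le (d.2 0)⟩, ⟨d.1 1, Nat.lt_succ_of_le (d.2 1)⟩)
      invFun := fun p => ⟨ex p.1 p.2, fun i => by
        fin_cases i
        · exact (ex_zero_apply _ _).le.trans (Nat.le_of_lt_succ p.1.2)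
        · exact (ex_one_apply _ _).le.trans (Nat.le_of_lt_succ p.2.2)⟩
      left_inv := fun d => Subtype.ext (ex_eta d.1)
      right_inv := fun p => by
        refine Prod.ext (Fin.ext ?_) (Fin.ext ?_)
        · exact ex_zero_apply _ _
        · exact ex_one_apply _ _ }
  rw [Nat.card_congr e, Nat.card_prod, Nat.card_fin, sq]

theorem card_lt (m : ℕ) :
    ((Finset.range m ×ˢ Finset.range m).filter (fun p => p.1 + p.2 < m)).card =
      m * (m + 1) / 2 := by
  have h1 : ((Finset.range m ×ˢ Finset.range m).filter (fun p => p.1 + p.2 < m)).card =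
      ∑ i ∈ Finset.range m, (m - i) := by
    rw [Finset.card_filter, Finset.sum_product]
    apply Finset.sum_congr rfl
    intro i hi
    rw [← Finset.card_filter]
    have h2 : (Finset.range m).filter (fun j => i + j < m) = Finset.range (m - i) := by
      ext j
      rw [Finset.mem_filter, Finset.mem_range, Finset.mem_range]
      omega
    rw [h2, Finset.card_range]
  have h3 : ∑ i ∈ Finset.range (m + 1), (m - i) = ∑ i ∈ Finset.range (m + 1), i :=
    Finset.sum_flip (fun i => i)
  rw [Finset.sum_range_succ, Nat.sub_self, add_zero, Finset.sum_range_id] at h3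
  rw [h1, h3, Nat.add_sub_cancel, Nat.mul_comm]

end Pool.Agent.SHB
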