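import Pool.Agent.SHB.PtI
import Pool.Agent.SHB.BzDim

/-!
# Project SHB (MP_f77893_an), module BzUp: upper bound for the dimension of `Lsp`, `N` large

PLAN. The conditions `coeff (ex i j) (shift s.1 s.2 U) = 0` (`s ∈ S`, `i + j < m s`) are linearly
independent on polynomials of bidegree `≤ (N, N)` as soon as `N` is large:
for every `s0 ∈ S` and `(i0, j0)` with `i0 + j0 < m s0` there is a polynomial `P = P_{s0, i0, j0}`
with `coeff (ex i j) (shift s.1 s.2 P) = if (s, i, j) = (s0, i0, j0) then 1 else 0` for all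
`s ∈ S`, `i + j < m s`. Indeed the ideals `ptI s.1 s.2 ^ m s` are pairwise coprime (`ptI_isCoprime`,
`IsCoprime.pow`), so by the Chinese remainder theorem (`Ideal.quotientInfRingEquivPiQuotient`
or `Ideal.exists_forall_sub_mem_ideal`) there is `P` with
`P - shift (-s0.1) (-s0.2) (X 0 ^ i0 * X 1 ^ j0) ∈ ptI s0 ^ m s0` and `P ∈ ptI s ^ m s` for the other `s`.
There are finitely many such `P`; let `N0` be the maximum of their degrees `degreeOf 0`, `degreeOf 1`.
For `N ≥ N0` the linear map `L : restrictDegree (Fin 2) ℂ N → (index → ℂ)` of all these coefficients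
(same map as in `BzLow.lean`) is surjective (the images of the `P`'s are the standard basis), and its kernel
is `Lsp N S m` (comapped), so rank-nullity gives
`(N + 1)^2 = (number of conditions) + finrank (Lsp N S m)`.
(Alternatively: the `P`'s are linearly independent modulo `Lsp N S m`.)
-/

set_option autoImplicit false

namespace Pool.Agent.SHB

open MvPolynomial

/-- index type of the linear conditions -/
private abbrev UpIdx (S : Finset (ℂ × ℂ)) (m : ℂ × ℂ → ℕ) : Type :=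
  Σ s : S, {p : ℕ × ℕ // p ∈ (Finset.range (m s) ×ˢ Finset.range (m s)).filter
    (fun p => p.1 + p.2 < m s)}

/-- the linear conditions -/
private noncomputable def upMap (N : ℕ) (S : Finset (ℂ × ℂ)) (m : ℂ × ℂ → ℕ) :
    (restrictDegree (Fin 2) ℂ N) →ₗ[ℂ] (UpIdx S m → ℂ) :=
  LinearMap.pi (fun x => (lcoeff ℂ (ex x.2.1.1 x.2.1.2)) ∘ₗ
    (aeval ![X 0 + C x.1.1.1, X 1 + C x.1.1.2] : P2 →ₐ[ℂ] P2).toLinearMap ∘ₗ
    (restrictDegree (Fin 2) ℂ N).subtype)

private lemma upMap_apply (N : ℕ) (S : Finset (ℂ × ℂ)) (m : ℂ × ℂ → ℕ)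
    (U : restrictDegree (Fin 2) ℂ N) (x : UpIdx S m) :
    upMap N S m U x = coeff (ex x.2.1.1 x.2.1.2) (shift x.1.1.1 x.1.1.2 U.1) := rfl

private lemma card_upIdx (S : Finset (ℂ × ℂ)) (m : ℂ × ℂ → ℕ) :
    Fintype.card (UpIdx S m) = ∑ s ∈ S, m s * (m s + 1) / 2 := by
  rw [Fintype.card_sigma]
  refine (Finset.sum_congr rfl fun s _ => ?_).trans
    (Finset.sum_coe_sort S (fun s => m s * (m s + 1) / 2))
  rw [Fintype.card_coe, card_lt]

private lemma ker_upMap (N : ℕ) (S : Finset (ℂ × ℂ)) (m : ℂ × ℂ → ℕ) :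
    LinearMap.ker (upMap N S m) =
      (Lsp N S m).comap (restrictDegree (Fin 2) ℂ N).subtype := by
  ext U
  rw [LinearMap.mem_ker, Submodule.mem_comap, mem_Lsp]
  constructor
  · intro h
    refine ⟨mem_restrict_iff.1 U.2, fun s hs => ?_⟩
    rw [mem_ptI_pow_iff]
    intro i j hij
    have hmem : ((i, j) : ℕ × ℕ) ∈ (Finset.range (m s) ×ˢ Finset.range (m s)).filter
        (fun p => p.1 + p.2 < m s) := by
      simp only [Finset.mem_filter, Finset.mem_product, Finset.mem_range]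
      exact ⟨⟨by omega, by omega⟩, hij⟩
    have := congrFun h (⟨⟨s, hs⟩, ⟨(i, j), hmem⟩⟩ : UpIdx S m)
    rw [upMap_apply] at this
    exact this
  · rintro ⟨-, h⟩
    funext x
    rw [upMap_apply]
    obtain ⟨⟨s, hs⟩, ⟨⟨i, j⟩, hp⟩⟩ := x
    have := (mem_ptI_pow_iff s.1 s.2 (m s) U.1).1 (h s hs) i j
      (Finset.mem_filter.1 hp).2
    exact this

private lemma shift_sub (a b : ℂ) (U V : P2) :
    shift a b (U - V) = shift a b U - shift a b V := by
  unfold shift
  rw [map_sub]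

private lemma exists_dual (S : Finset (ℂ × ℂ)) (m : ℂ × ℂ → ℕ) (x0 : UpIdx S m) :
    ∃ P : P2, ∀ x : UpIdx S m,
      coeff (ex x.2.1.1 x.2.1.2) (shift x.1.1.1 x.1.1.2 P) = if x = x0 then 1 else 0 := by
  classical
  have hcop : Pairwise (Function.onFun IsCoprime
      (fun s : S => (ptI s.1.1 s.1.2 ^ m s.1 : Ideal P2))) := by
    intro s t hst
    refine IsCoprime.pow ?_
    apply ptI_isCoprime
    intro h
    apply hst
    apply Subtype.ext
    exact h
  obtain ⟨P, hP⟩ := Ideal.exists_forall_sub_mem_ideal hcop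
    (fun s : S => if s = x0.1 then
      shift (-x0.1.1.1) (-x0.1.1.2) (monomial (ex x0.2.1.1 x0.2.1.2) (1 : ℂ)) else 0)
  refine ⟨P, ?_⟩
  rintro ⟨s, ⟨⟨i, j⟩, hp⟩⟩
  have h1 := (mem_ptI_pow_iff s.1.1 s.1.2 (m s.1) _).1 (hP s) i j (Finset.mem_filter.1 hp).2
  rw [shift_sub, coeff_sub, sub_eq_zero] at h1
  show coeff (ex i j) (shift s.1.1 s.1.2 P) = _
  rw [h1]
  by_cases hs : s = x0.1
  · subst hs
    rw [if_pos rfl, shift_shift, add_neg_cancel, add_neg_cancel, shift_zero, coeff_monomial]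
    by_cases hx : (⟨x0.1, ⟨(i, j), hp⟩⟩ : UpIdx S m) = x0
    · rw [if_pos hx]
      obtain ⟨s0, ⟨⟨i0, j0⟩, hp0⟩⟩ := x0
      have h2 := eq_of_heq (Sigma.mk.inj hx).2
      have h3 : ((i, j) : ℕ × ℕ) = (i0, j0) := congrArg Subtype.val h2
      rw [Prod.mk.injEq] at h3
      rw [if_pos]
      exact ex_inj.2 ⟨h3.1.symm, h3.2.symm⟩
    · rw [if_neg hx, if_neg]
      intro h2
      apply hx
      obtain ⟨s0, ⟨⟨i0, j0⟩, hp0⟩⟩ := x0
      obtain ⟨h3, h4⟩ := ex_inj.1 h2
      simp only at h3 h4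
      subst h3 h4
      rfl
  · rw [if_neg hs, if_neg]
    · unfold shift
      rw [map_zero, coeff_zero]
    · intro h2
      exact hs (congrArg Sigma.fst h2)

theorem Lsp_upper (S : Finset (ℂ × ℂ)) (m : ℂ × ℂ → ℕ) :
    ∃ N0 : ℕ, ∀ N, N0 ≤ N →
      Module.finrank ℂ (Lsp N S m) + ∑ s ∈ S, m s * (m s + 1) / 2 ≤ (N + 1) ^ 2 := by
  classical
  choose P hP using exists_dual S m
  refine ⟨Finset.univ.sup (fun x => max (degreeOf 0 (P x)) (degreeOf 1 (P x))), ?_⟩
  intro N hN
  have hmem : ∀ x, P x ∈ restrictDegree (Fin 2) ℂ N := by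
    intro x
    have h1 : max (degreeOf 0 (P x)) (degreeOf 1 (P x)) ≤ N :=
      (Finset.le_sup (f := fun x => max (degreeOf 0 (P x)) (degreeOf 1 (P x)))
        (Finset.mem_univ x)).trans hN
    exact mem_restrict_iff.2 ⟨(le_max_left _ _).trans h1, (le_max_right _ _).trans h1⟩
  have hsurj : LinearMap.range (upMap N S m) = ⊤ := by
    rw [LinearMap.range_eq_top]
    intro y
    refine ⟨∑ x, y x • (⟨P x, hmem x⟩ : restrictDegree (Fin 2) ℂ N), ?_⟩
    rw [map_sum]
    funext z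
    rw [Finset.sum_apply, Finset.sum_eq_single z]
    · rw [map_smul, Pi.smul_apply, upMap_apply, hP, if_pos rfl, smul_eq_mul, mul_one]
    · intro x _ hx
      rw [map_smul, Pi.smul_apply, upMap_apply, hP, if_neg (Ne.symm hx), smul_zero]
    · intro h
      exact absurd (Finset.mem_univ z) h
  have := finite_restrict N
  have h1 := LinearMap.finrank_range_add_finrank_ker (upMap N S m)
  have h2 : Module.finrank ℂ (LinearMap.range (upMap N S m)) =
      ∑ s ∈ S, m s * (m s + 1) / 2 := by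
    rw [hsurj, finrank_top, Module.finrank_fintype_fun_eq_card, card_upIdx]
  have hle : Lsp N S m ≤ restrictDegree (Fin 2) ℂ N := inf_le_left
  have h3 : Module.finrank ℂ (LinearMap.ker (upMap N S m)) =
      Module.finrank ℂ (Lsp N S m) := by
    rw [ker_upMap]
    exact LinearEquiv.finrank_eq (Submodule.comapSubtypeEquivOfLe hle)
  rw [finrank_restrict, h3, h2] at h1
  omega

end Pool.Agent.SHB
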