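import Pool.Agent.SHB.BzLow
import Pool.Agent.SHB.BzUp

/-!
# Project SHB (MP_f77893_an), module Bez: Bezout inequality with multiplicities in bidegree `(n, n)`

Rank-nullity for the map `(A, B) ↦ A U + B W` between spaces of polynomials with prescribed
multiplicities (dimension count).
-/

set_option autoImplicit false

namespace Pool.Agent.SHB

open MvPolynomial

private lemma not_unit_mem (a b : ℂ) {U : P2} (hU : IsUnit U) : U ∉ ptI a b := by
  intro h
  have h1 : (1 : P2) ∈ ptI a b := by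
    have h2 := Ideal.eq_top_of_isUnit_mem _ h hU
    rw [h2]
    exact Submodule.mem_top
  rw [mem_ptI_iff] at h1
  simp at h1

private lemma unit_pow_zero (a b : ℂ) {U : P2} (hU : IsUnit U) {m : ℕ} (h : U ∈ ptI a b ^ m) :
    m = 0 := by
  by_contra hm
  exact not_unit_mem a b hU (Ideal.pow_le_self hm h)

private lemma tri_add (m k : ℕ) :
    (m + k) * ((m + k) + 1) / 2 = m * (m + 1) / 2 + k * (k + 1) / 2 + m * k := by
  obtain ⟨a, ha⟩ := (Nat.even_mul_succ_self m)
  obtain ⟨b, hb⟩ := (Nat.even_mul_succ_self k)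
  have h : (m + k) * ((m + k) + 1) = 2 * (a + b + m * k) := by
    nlinarith [ha, hb]
  have hm : m * (m + 1) = 2 * a := by rw [← Nat.succ_eq_add_one, ha]; ring
  have hk : k * (k + 1) = 2 * b := by rw [← Nat.succ_eq_add_one, hb]; ring
  rw [h, hm, hk]
  rw [Nat.mul_div_cancel_left _ (by norm_num), Nat.mul_div_cancel_left _ (by norm_num),
    Nat.mul_div_cancel_left _ (by norm_num)]

private lemma finite_Lsp (N : ℕ) (S : Finset (ℂ × ℂ)) (m : ℂ × ℂ → ℕ) :
    Module.Finite ℂ (Lsp N S m) := by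
  have := finite_restrict N
  exact Submodule.finiteDimensional_of_le (inf_le_left : Lsp N S m ≤ restrictDegree (Fin 2) ℂ N)

private lemma mul_mem_Lsp {N N' N'' : ℕ} {S : Finset (ℂ × ℂ)} {m k : ℂ × ℂ → ℕ} {A U : P2}
    (hA : A ∈ Lsp N S k) (h0 : degreeOf 0 U ≤ N') (h1 : degreeOf 1 U ≤ N')
    (hm : ∀ s ∈ S, U ∈ ptI s.1 s.2 ^ m s) (hN : N + N' ≤ N'') :
    A * U ∈ Lsp N'' S (fun s => m s + k s) := by
  rw [mem_Lsp] at hA ⊢
  refine ⟨⟨?_, ?_⟩, ?_⟩
  · exact (degreeOf_mul_le 0 A U).trans (by have := hA.1.1; omega)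
  · exact (degreeOf_mul_le 1 A U).trans (by have := hA.1.2; omega)
  · intro s hs
    have := Ideal.mul_mem_mul (hA.2 s hs) (hm s hs)
    rw [← pow_add, add_comm] at this
    exact this

private lemma main_case (n r : ℕ) (U W : P2) (hU0 : degreeOf 0 U = n) (hU1 : degreeOf 1 U = n)
    (hW0 : degreeOf 0 W ≤ n) (hW1 : degreeOf 1 W ≤ n) (hrel : IsRelPrime U W)
    (hUne : U ≠ 0) (hWne : W ≠ 0)
    (S : Finset (ℂ × ℂ)) (m k : ℂ × ℂ → ℕ)
    (hm : ∀ s ∈ S, U ∈ ptI s.1 s.2 ^ m s) (hk : ∀ s ∈ S, W ∈ ptI s.1 s.2 ^ k s) :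
    Module.finrank ℂ (Lsp (n + r) S k) + Module.finrank ℂ (Lsp (n + r) S m) ≤
      Module.finrank ℂ (Lsp (2 * n + r) S (fun s => m s + k s)) + (r + 1) ^ 2 := by
  have := finite_Lsp (n + r) S k
  have := finite_Lsp (n + r) S m
  have := finite_Lsp (2 * n + r) S (fun s => m s + k s)
  have := finite_restrict r
  let iota : (Lsp (n + r) S k × Lsp (n + r) S m) →ₗ[ℂ] P2 × P2 :=
    LinearMap.prodMap (Lsp (n + r) S k).subtype (Lsp (n + r) S m).subtype
  let F : P2 × P2 →ₗ[ℂ] P2 := (LinearMap.mulRight ℂ U).coprod (LinearMap.mulRight ℂ W)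
  let L := F.comp iota
  let G : P2 →ₗ[ℂ] P2 × P2 := (LinearMap.mulLeft ℂ W).prod (-(LinearMap.mulLeft ℂ U))
  have hiota : Function.Injective iota := by
    rintro ⟨a, b⟩ ⟨c, d⟩ h
    simp only [iota, LinearMap.prodMap_apply, Submodule.subtype_apply, Prod.mk.injEq] at h
    exact Prod.ext (Subtype.ext h.1) (Subtype.ext h.2)
  have hL : ∀ x, L x = (x.1 : P2) * U + (x.2 : P2) * W := by
    intro x
    simp [L, F, iota]
  have hrange : LinearMap.range L ≤ Lsp (2 * n + r) S (fun s => m s + k s) := by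
    rintro y ⟨x, rfl⟩
    rw [hL]
    refine Submodule.add_mem _ ?_ ?_
    · exact mul_mem_Lsp x.1.2 hU0.le hU1.le hm (by omega)
    · have := mul_mem_Lsp (k := m) (m := k) x.2.2 hW0 hW1 hk (show n + r + n ≤ 2 * n + r by omega)
      have e : (fun s => k s + m s) = (fun s => m s + k s) := by
        funext s; exact add_comm _ _
      rw [e] at this
      exact this
  have hker : (LinearMap.ker L).map iota ≤ (restrictDegree (Fin 2) ℂ r).map G := by
    rintro y ⟨x, hx, rfl⟩
    have hx0 : (x.1 : P2) * U + (x.2 : P2) * W = 0 := by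
      rw [← hL]; exact hx
    have hdvd : W ∣ (x.1 : P2) * U := by
      refine ⟨-(x.2 : P2), ?_⟩
      linear_combination hx0
    obtain ⟨Q, hQ⟩ := hrel.symm.dvd_of_dvd_mul_right hdvd
    have hB : (x.2 : P2) = -(U * Q) := by
      have h1 : W * ((x.2 : P2) + U * Q) = 0 := by
        rw [hQ] at hx0
        linear_combination hx0
      rcases mul_eq_zero.1 h1 with h | h
      · exact absurd h hWne
      · linear_combination h
    refine ⟨Q, ?_, ?_⟩
    · rw [SetLike.mem_coe, mem_restrict_iff]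
      by_cases hQ0 : Q = 0
      · subst hQ0; simp
      · have hB2 := (mem_Lsp.1 x.2.2).1
        rw [hB, degreeOf_neg, degreeOf_neg] at hB2
        rw [degreeOf_mul_eq hUne hQ0, degreeOf_mul_eq hUne hQ0, hU0, hU1] at hB2
        omega
    · simp only [G, iota, LinearMap.prod_apply, Function.prod, LinearMap.mulLeft_apply,
        LinearMap.neg_apply, LinearMap.prodMap_apply, Submodule.subtype_apply]
      rw [hB, hQ]
  have h1 := LinearMap.finrank_range_add_finrank_ker L
  rw [Module.finrank_prod] at h1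
  have h2 : Module.finrank ℂ (LinearMap.range L) ≤
      Module.finrank ℂ (Lsp (2 * n + r) S (fun s => m s + k s)) := Submodule.finrank_mono hrange
  have h3 : Module.finrank ℂ (LinearMap.ker L) = Module.finrank ℂ ((LinearMap.ker L).map iota) :=
    (Submodule.equivMapOfInjective iota hiota (LinearMap.ker L)).finrank_eq
  have h4 : Module.finrank ℂ ((LinearMap.ker L).map iota) ≤
      Module.finrank ℂ ((restrictDegree (Fin 2) ℂ r).map G) := Submodule.finrank_mono hker
  have h5 : Module.finrank ℂ ((restrictDegree (Fin 2) ℂ r).map G) ≤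
      Module.finrank ℂ (restrictDegree (Fin 2) ℂ r) := Submodule.finrank_map_le _ _
  rw [finrank_restrict] at h5
  omega

theorem bezout (n : ℕ) (U W : P2) (hU0 : degreeOf 0 U = n) (hU1 : degreeOf 1 U = n)
    (hW0 : degreeOf 0 W ≤ n) (hW1 : degreeOf 1 W ≤ n) (hrel : IsRelPrime U W)
    (S : Finset (ℂ × ℂ)) (m k : ℂ × ℂ → ℕ)
    (hm : ∀ s ∈ S, U ∈ ptI s.1 s.2 ^ m s) (hk : ∀ s ∈ S, W ∈ ptI s.1 s.2 ^ k s) :
    ∑ s ∈ S, m s * k s ≤ 2 * n ^ 2 := by
  by_cases hW : W = 0
  · subst hW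
    have hu : IsUnit U := hrel dvd_rfl (dvd_zero U)
    rw [Finset.sum_eq_zero]
    · exact Nat.zero_le _
    · intro s hs
      rw [unit_pow_zero _ _ hu (hm s hs), Nat.zero_mul]
  by_cases hU : U = 0
  · subst hU
    have hu : IsUnit W := hrel (dvd_zero W) dvd_rfl
    rw [Finset.sum_eq_zero]
    · exact Nat.zero_le _
    · intro s hs
      rw [unit_pow_zero _ _ hu (hk s hs), Nat.mul_zero]
  obtain ⟨N0, hN0⟩ := Lsp_upper S (fun s => m s + k s)
  have h1 := hN0 (2 * n + N0) (by omega)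
  have h2 := main_case n N0 U W hU0 hU1 hW0 hW1 hrel hU hW S m k hm hk
  have h3 := Lsp_lower (n + N0) S k
  have h4 := Lsp_lower (n + N0) S m
  have h5 : ∑ s ∈ S, (m s + k s) * ((m s + k s) + 1) / 2 =
      ∑ s ∈ S, m s * (m s + 1) / 2 + ∑ s ∈ S, k s * (k s + 1) / 2 + ∑ s ∈ S, m s * k s := by
    rw [← Finset.sum_add_distrib, ← Finset.sum_add_distrib]
    exact Finset.sum_congr rfl fun s _ => tri_add _ _
  rw [h5] at h1
  nlinarith [h1, h2, h3, h4]

end Pool.Agent.SHB
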