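import Pool.Agent.SHB.Ex

/-!
# Project SHB: spaces of polynomials of bidegree `≤ (N, N)` with prescribed multiplicities
-/

set_option autoImplicit false

namespace Pool.Agent.SHB

open MvPolynomial

/-- polynomials of bidegree `≤ (N, N)` in `(ptI s)^(m s)` for all `s ∈ S` -/
noncomputable def Lsp (N : ℕ) (S : Finset (ℂ × ℂ)) (m : ℂ × ℂ → ℕ) : Submodule ℂ P2 :=
  restrictDegree (Fin 2) ℂ N ⊓ ⨅ s ∈ S, (ptI s.1 s.2 ^ m s).restrictScalars ℂ

lemma mem_restrict_iff {N : ℕ} {U : P2} :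
    U ∈ restrictDegree (Fin 2) ℂ N ↔ degreeOf 0 U ≤ N ∧ degreeOf 1 U ≤ N := by
  rw [mem_restrictDegree]
  simp only [degreeOf_le_iff]
  constructor
  · intro h
    exact ⟨fun d hd => h d hd 0, fun d hd => h d hd 1⟩
  · rintro ⟨h0, h1⟩ d hd i
    fin_cases i
    · exact h0 d hd
    · exact h1 d hd

lemma mem_Lsp {N : ℕ} {S : Finset (ℂ × ℂ)} {m : ℂ × ℂ → ℕ} {U : P2} :
    U ∈ Lsp N S m ↔ (degreeOf 0 U ≤ N ∧ degreeOf 1 U ≤ N) ∧ ∀ s ∈ S, U ∈ ptI s.1 s.2 ^ m s := by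
  simp only [Lsp, Submodule.mem_inf, mem_restrict_iff, Submodule.mem_iInf,
    Submodule.restrictScalars_mem]

end Pool.Agent.SHB
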