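import Pool.Agent.SHB.PtI
import Pool.Agent.SHB.BzDim

/-!
# Project SHB (MP_f77893_an), module BzLow: lower bound for the dimension of `Lsp`

Inside the finite-dimensional space `V = restrictDegree (Fin 2) ℂ N` (finrank `(N+1)^2`),
`Lsp N S m` is cut out by `∑ s ∈ S, m s (m s + 1)/2` linear conditions.
-/

set_option autoImplicit false

namespace Pool.Agent.SHB

open MvPolynomial

/-- index type of the linear conditions -/
private abbrev LowIdx (S : Finset (ℂ × ℂ)) (m : ℂ × ℂ → ℕ) : Type :=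
  Σ s : S, {p : ℕ × ℕ // p ∈ (Finset.range (m s) ×ˢ Finset.range (m s)).filter
    (fun p => p.1 + p.2 < m s)}

/-- the linear conditions -/
private noncomputable def lowMap (N : ℕ) (S : Finset (ℂ × ℂ)) (m : ℂ × ℂ → ℕ) :
    (restrictDegree (Fin 2) ℂ N) →ₗ[ℂ] (LowIdx S m → ℂ) :=
  LinearMap.pi (fun x => (lcoeff ℂ (ex x.2.1.1 x.2.1.2)) ∘ₗ
    (aeval ![X 0 + C x.1.1.1, X 1 + C x.1.1.2] : P2 →ₐ[ℂ] P2).toLinearMap ∘ₗ
    (restrictDegree (Fin 2) ℂ N).subtype)

private lemma lowMap_apply (N : ℕ) (S : Finset (ℂ × ℂ)) (m : ℂ × ℂ → ℕ)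
    (U : restrictDegree (Fin 2) ℂ N) (x : LowIdx S m) :
    lowMap N S m U x = coeff (ex x.2.1.1 x.2.1.2) (shift x.1.1.1 x.1.1.2 U.1) := rfl

private lemma card_lowIdx (S : Finset (ℂ × ℂ)) (m : ℂ × ℂ → ℕ) :
    Fintype.card (LowIdx S m) = ∑ s ∈ S, m s * (m s + 1) / 2 := by
  rw [Fintype.card_sigma]
  refine (Finset.sum_congr rfl fun s _ => ?_).trans
    (Finset.sum_coe_sort S (fun s => m s * (m s + 1) / 2))
  rw [Fintype.card_coe, card_lt]

private lemma ker_lowMap (N : ℕ) (S : Finset (ℂ × ℂ)) (m : ℂ × ℂ → ℕ) :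
    LinearMap.ker (lowMap N S m) =
      (Lsp N S m).comap (restrictDegree (Fin 2) ℂ N).subtype := by
  ext U
  rw [LinearMap.mem_ker, Submodule.mem_comap, mem_Lsp]
  constructor
  · intro h
    refine ⟨mem_restrict_iff.1 U.2, fun s hs => ?_⟩
    rw [mem_ptI_pow_iff]
    intro i j hij
    have hmem : ((i, j) : ℕ × ℕ) ∈ (Finset.range (m s) ×ˢ Finset.range (m s)).filter
        (fun p => p.1 + p.2 < m s) := by
      simp only [Finset.mem_filter, Finset.mem_product, Finset.mem_range]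
      exact ⟨⟨by omega, by omega⟩, hij⟩
    have := congrFun h (⟨⟨s, hs⟩, ⟨(i, j), hmem⟩⟩ : LowIdx S m)
    rw [lowMap_apply] at this
    exact this
  · rintro ⟨-, h⟩
    funext x
    rw [lowMap_apply]
    obtain ⟨⟨s, hs⟩, ⟨⟨i, j⟩, hp⟩⟩ := x
    have := (mem_ptI_pow_iff s.1 s.2 (m s) U.1).1 (h s hs) i j
      (Finset.mem_filter.1 hp).2
    exact this

theorem Lsp_lower (N : ℕ) (S : Finset (ℂ × ℂ)) (m : ℂ × ℂ → ℕ) :
    (N + 1) ^ 2 ≤ Module.finrank ℂ (Lsp N S m) + ∑ s ∈ S, m s * (m s + 1) / 2 := by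
  have := finite_restrict N
  have h1 := LinearMap.finrank_range_add_finrank_ker (lowMap N S m)
  have h2 : Module.finrank ℂ (LinearMap.range (lowMap N S m)) ≤
      ∑ s ∈ S, m s * (m s + 1) / 2 := by
    refine (Submodule.finrank_le _).trans ?_
    rw [Module.finrank_fintype_fun_eq_card, card_lowIdx]
  have hle : Lsp N S m ≤ restrictDegree (Fin 2) ℂ N := inf_le_left
  have h3 : Module.finrank ℂ (LinearMap.ker (lowMap N S m)) =
      Module.finrank ℂ (Lsp N S m) := by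
    rw [ker_lowMap]
    exact LinearEquiv.finrank_eq (Submodule.comapSubtypeEquivOfLe hle)
  rw [finrank_restrict, h3] at h1
  omega

end Pool.Agent.SHB
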