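import Pool.Agent.SHB.Ex

/-!
# Project SHB (MP_f77893_an), module Chain: the differential equation of `U = u (w A + w' B + (1 - w w') P)`

PLAN. Let `Φ i = phi a b i`, `A = frA a`, `B = frB b`, `P = frP a b`. Chain rule (prove by `MvPolynomial.induction_on` or with
`Derivation`s): `pderiv k (aeval Φ p) = ∑ i, aeval Φ (pderiv i p) * pderiv k (Φ i)` (`chain`).
`∂_w Φ i = C (A i) - C (P i) X 1`, `∂_w' Φ i = C (B i) - C (P i) X 0`, `∂_w ∂_w' Φ i = - C (P i)`.
Frame identity (`frame`): `(A i * B j + A j * B i)/2 + P i * P j = if i = j then (1 + a b)^2 else 0` (9 ring identities, `I^2 = -1`).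
Hence, as polynomials: `(∂_w Φ i ∂_w' Φ j + ∂_w Φ j ∂_w' Φ i)/2 = (1 + a b)^2 δ_ij - (Φ i P j + Φ j P i)/2`
(check: `∂_wΦ_i ∂_w'Φ_j = A_i B_j - w A_i P_j - w' P_i B_j + w w' P_i P_j`, `Φ_i P_j = w A_i P_j + w' B_i P_j + (1 - w w') P_i P_j`).
So `∂_w ∂_w' U = ∑ u_i(Φ) (-P_i) + ∑_{i,j} u_ij(Φ) ∂_wΦ_i ∂_w'Φ_j = - ∑ P_i u_i(Φ) + (1+ab)^2 (Δu)(Φ) - ∑_{i,j} u_ij(Φ) Φ_i P_j`
(symmetrize: `u_ij = u_ji`), and Euler's identity `∑_i X_i u_ij = (l - 1) u_j` (homogeneity of `pderiv j u`;
Mathlib: `MvPolynomial.IsHomogeneous.sum_X_mul_pderiv` or similar, and `IsHomogeneous.pderiv`) gives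
`∂_w ∂_w' U = - l ∑ P_i u_i(Φ) =: - l R`. (For `l = 0`: `u` is constant and everything is `0`.)
`w ∂_w U + w' ∂_w' U = ∑ u_i(Φ) (w A_i + w' B_i - 2 w w' P_i) = ∑ u_i(Φ) (Φ_i - (1 + w w') P_i) = l U - (1 + w w') R`.
Hence the equation of `Spin`. Degrees: `degreeOf k (Φ i) ≤ 1`, and `u` has total degree `≤ l`: `degreeOf k (aeval Φ u) ≤ l`
(`aeval` as a sum over the support, `degreeOf_sum_le`, `degreeOf_mul_le`, `degreeOf_prod_le`, `degreeOf_pow_le`).
-/

set_option autoImplicit false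

namespace Pool.Agent.SHB

open MvPolynomial

theorem frame (a b : ℂ) (i j : Fin 3) :
    (frA a i * frB b j + frA a j * frB b i) / 2 + frP a b i * frP a b j =
      if i = j then (1 + a * b) ^ 2 else 0 := by
  have hI : Complex.I ^ 2 = -1 := Complex.I_sq
  fin_cases i <;> fin_cases j <;> simp [frA, frB, frP]
  · ring
  · ring
  · ring
  · ring
  · linear_combination (-(a ^ 2 + 1) * (b ^ 2 + 1) + (a - b) ^ 2) * hI
  · ring
  · ring
  · ring
  · ring

private lemma pd_comm (i j : Fin 3) (u : MvPolynomial (Fin 3) ℂ) :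
    pderiv i (pderiv j u) = pderiv j (pderiv i u) := by
  ext m
  rw [coeff_pderiv, coeff_pderiv, coeff_pderiv, coeff_pderiv]
  rcases eq_or_ne i j with rfl | hij
  · rfl
  · have h1 : (m + Finsupp.single i 1 : Fin 3 →₀ ℕ) j = m j := by simp [hij]
    have h2 : (m + Finsupp.single j 1 : Fin 3 →₀ ℕ) i = m i := by simp [hij.symm]
    rw [h1, h2, add_right_comm]
    ring

private lemma chain (Φ : Fin 3 → P2) (k : Fin 2) (p : MvPolynomial (Fin 3) ℂ) :
    pderiv k (aeval Φ p) = ∑ i : Fin 3, aeval Φ (pderiv i p) * pderiv k (Φ i) := by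
  induction p using MvPolynomial.induction_on with
  | C c => simp
  | add p q hp hq =>
    simp only [map_add, hp, hq, add_mul, Finset.sum_add_distrib]
  | mul_X p n hp =>
    rw [map_mul, aeval_X, pderiv_mul, hp]
    simp only [pderiv_mul, map_add, map_mul, aeval_X, add_mul, Finset.sum_add_distrib,
      Finset.sum_mul]
    congr 1
    · apply Finset.sum_congr rfl
      intro i _
      ring
    · rw [Finset.sum_eq_single n]
      · simp
      · intro i _ hi
        rw [pderiv_X_of_ne hi.symm]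
        simp
      · simp

private lemma pd0_phi (a b : ℂ) (i : Fin 3) :
    pderiv 0 (phi a b i) = C (frA a i) - C (frP a b i) * X 1 := by
  simp only [phi, map_add, map_sub, pderiv_mul, pderiv_C, pderiv_one, pderiv_X_self,
    pderiv_X_of_ne (show (1 : Fin 2) ≠ 0 by decide)]
  ring

private lemma pd1_phi (a b : ℂ) (i : Fin 3) :
    pderiv 1 (phi a b i) = C (frB b i) - C (frP a b i) * X 0 := by
  simp only [phi, map_add, map_sub, pderiv_mul, pderiv_C, pderiv_one, pderiv_X_self,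
    pderiv_X_of_ne (show (0 : Fin 2) ≠ 1 by decide)]
  ring

private lemma pd01_phi (a b : ℂ) (i : Fin 3) :
    pderiv 0 (pderiv 1 (phi a b i)) = - C (frP a b i) := by
  rw [pd1_phi]
  simp only [map_sub, pderiv_mul, pderiv_C, pderiv_X_self]
  ring

private lemma sym (a b : ℂ) (i j : Fin 3) :
    (C (frA a i) - C (frP a b i) * X 1) * (C (frB b j) - C (frP a b j) * X 0) +
      (C (frA a j) - C (frP a b j) * X 1) * (C (frB b i) - C (frP a b i) * X 0) =
    (C (if i = j then 2 * (1 + a * b) ^ 2 else 0) : P2) - phi a b i * C (frP a b j) -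
      phi a b j * C (frP a b i) := by
  have h := frame a b i j
  have h2 : frA a i * frB b j + frA a j * frB b i + 2 * (frP a b i * frP a b j) =
      if i = j then 2 * (1 + a * b) ^ 2 else 0 := by
    split_ifs with hij
    · rw [if_pos hij] at h
      linear_combination 2 * h
    · rw [if_neg hij] at h
      linear_combination 2 * h
  rw [← h2]
  simp only [phi, map_add, map_mul, map_ofNat]
  ring

private lemma euler1 (u : MvPolynomial (Fin 3) ℂ) (l : ℕ) (hu : u.IsHomogeneous l) (j : Fin 3) :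
    ∑ i : Fin 3, X i * pderiv i (pderiv j u) = C (l : ℂ) * pderiv j u - pderiv j u := by
  rw [(hu.pderiv (i := j)).sum_X_mul_pderiv]
  rcases l with _ | l
  · have h : u = C (coeff 0 u) := by
      rw [← totalDegree_zero_iff_isHomogeneous, totalDegree_eq_zero_iff_eq_C] at hu
      exact hu
    rw [h, pderiv_C]; simp
  · simp only [Nat.add_sub_cancel, nsmul_eq_mul, Nat.cast_add, Nat.cast_one, map_add, map_one,
      map_natCast]
    ring

private lemma deg_phi (a b : ℂ) (i : Fin 3) (k : Fin 2) : degreeOf k (phi a b i) ≤ 1 := by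
  classical
  have hX : ∀ m : Fin 2, degreeOf k (X m : P2) ≤ 1 := by
    intro m
    rw [degreeOf_X]; split_ifs <;> simp
  have hC : ∀ c : ℂ, ∀ p : P2, degreeOf k p ≤ 1 → degreeOf k (C c * p) ≤ 1 := fun c p hp =>
    (degreeOf_C_mul_le p k c).trans hp
  have h01 : degreeOf k (X 0 * X 1 : P2) ≤ 1 := by
    refine (degreeOf_mul_le k _ _).trans ?_
    rw [degreeOf_X, degreeOf_X]
    fin_cases k <;> simp
  have h1 : degreeOf k (1 - X 0 * X 1 : P2) ≤ 1 := by
    rw [sub_eq_add_neg]
    refine (degreeOf_add_le k _ _).trans (max_le ?_ ?_)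
    · simp
    · have : (-(X 0 * X 1) : P2) = C (-1) * (X 0 * X 1) := by simp
      rw [this]; exact hC _ _ h01
  rw [phi]
  refine (degreeOf_add_le k _ _).trans (max_le ((degreeOf_add_le k _ _).trans (max_le ?_ ?_)) ?_)
  · exact hC _ _ (hX 0)
  · exact hC _ _ (hX 1)
  · exact hC _ _ h1

private lemma deg_UU (u : MvPolynomial (Fin 3) ℂ) (l : ℕ) (hu : u.IsHomogeneous l) (a b : ℂ)
    (k : Fin 2) : degreeOf k (UU u a b) ≤ l := by
  classical
  rw [UU, aeval_def, eval₂_eq']
  refine (degreeOf_sum_le k _ _).trans (Finset.sup_le ?_)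
  intro d hd
  have hdeg : ∑ i : Fin 3, d i = l := by
    have h1 := hu (mem_support_iff.1 hd)
    rw [Finsupp.weight_apply, Finsupp.sum_fintype] at h1
    · simpa using h1
    · intro i; simp
  refine (degreeOf_mul_le k _ _).trans ?_
  have h0 : degreeOf k (algebraMap ℂ P2 (coeff d u)) = 0 := by
    rw [MvPolynomial.algebraMap_eq]; exact degreeOf_C _ _
  rw [h0, zero_add]
  refine (degreeOf_prod_le k _ _).trans ?_
  calc ∑ i : Fin 3, degreeOf k (phi a b i ^ d i) ≤ ∑ i : Fin 3, d i := by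
        apply Finset.sum_le_sum
        intro i _
        refine (degreeOf_pow_le k _ _).trans ?_
        calc d i * degreeOf k (phi a b i) ≤ d i * 1 := Nat.mul_le_mul_left _ (deg_phi a b i k)
          _ = d i := mul_one _
    _ = l := hdeg

theorem spin_UU (u : MvPolynomial (Fin 3) ℂ) (l : ℕ) (hu : u.IsHomogeneous l)
    (hh : ∑ i : Fin 3, pderiv i (pderiv i u) = 0) (a b : ℂ) : Spin l (UU u a b) := by
  refine ⟨deg_UU u l hu a b 0, deg_UU u l hu a b 1, ?_⟩
  set Φ := phi a b with hΦ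
  set P : Fin 3 → P2 := fun i => C (frP a b i) with hP
  set α : Fin 3 → P2 := fun i => C (frA a i) - C (frP a b i) * X 1 with hα
  set β : Fin 3 → P2 := fun i => C (frB b i) - C (frP a b i) * X 0 with hβ
  have hα' : ∀ i, pderiv 0 (Φ i) = α i := fun i => pd0_phi a b i
  have hβ' : ∀ i, pderiv 1 (Φ i) = β i := fun i => pd1_phi a b i
  have hβ0 : ∀ i, pderiv 0 (β i) = - P i := by
    intro i; rw [← hβ']; exact pd01_phi a b i
  have e0 : pderiv 0 (UU u a b) = ∑ i : Fin 3, aeval Φ (pderiv i u) * α i := by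
    rw [UU, chain]; exact Finset.sum_congr rfl fun i _ => by rw [hα']
  have e1 : pderiv 1 (UU u a b) = ∑ i : Fin 3, aeval Φ (pderiv i u) * β i := by
    rw [UU, chain]; exact Finset.sum_congr rfl fun i _ => by rw [hβ']
  have e01 : pderiv 0 (pderiv 1 (UU u a b)) =
      ∑ j : Fin 3, ((∑ i : Fin 3, aeval Φ (pderiv i (pderiv j u)) * α i) * β j
        - aeval Φ (pderiv j u) * P j) := by
    rw [e1, map_sum]
    apply Finset.sum_congr rfl
    intro j _
    rw [pderiv_mul, chain, hβ0]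
    simp only [hα']
    ring
  -- Euler
  have eu1 : ∀ j, ∑ i : Fin 3, Φ i * aeval Φ (pderiv i (pderiv j u)) =
      C (l : ℂ) * aeval Φ (pderiv j u) - aeval Φ (pderiv j u) := by
    intro j
    have h := congrArg (aeval Φ) (euler1 u l hu j)
    simpa [map_sum] using h
  have eu0 : ∑ i : Fin 3, Φ i * aeval Φ (pderiv i u) = C (l : ℂ) * UU u a b := by
    have h := congrArg (aeval Φ) hu.sum_X_mul_pderiv
    simpa [map_sum, UU] using h
  have lap : ∑ i : Fin 3, aeval Φ (pderiv i (pderiv i u)) = 0 := by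
    have h := congrArg (aeval Φ) hh
    simpa [map_sum] using h
  have hs : ∀ i j, α i * β j + α j * β i =
      (C (if i = j then 2 * (1 + a * b) ^ 2 else 0) : P2) - Φ i * P j - Φ j * P i :=
    fun i j => sym a b i j
  have hcomm : ∀ i j, aeval Φ (pderiv i (pderiv j u)) = aeval Φ (pderiv j (pderiv i u)) :=
    fun i j => by rw [pd_comm]
  -- the second order terms
  have hsecond : ∑ j : Fin 3, (∑ i : Fin 3, aeval Φ (pderiv i (pderiv j u)) * α i) * β j =
      - ∑ j : Fin 3, P j * ∑ i : Fin 3, Φ i * aeval Φ (pderiv i (pderiv j u)) := by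
    have h00 := hs 0 0
    have h01 := hs 0 1
    have h02 := hs 0 2
    have h11 := hs 1 1
    have h12 := hs 1 2
    have h22 := hs 2 2
    simp only [if_true] at h00 h11 h22
    rw [if_neg (by decide)] at h01 h02 h12
    simp only [Fin.sum_univ_three] at lap ⊢
    rw [hcomm 1 0, hcomm 2 0, hcomm 2 1]
    rw [map_zero] at h01 h02 h12
    have h2 : (2 : P2) ≠ 0 := two_ne_zero
    apply mul_left_cancel₀ h2
    linear_combination (aeval Φ (pderiv 0 (pderiv 0 u))) * h00 +
      2 * (aeval Φ (pderiv 0 (pderiv 1 u))) * h01 + 2 * (aeval Φ (pderiv 0 (pderiv 2 u))) * h02 +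
      (aeval Φ (pderiv 1 (pderiv 1 u))) * h11 + 2 * (aeval Φ (pderiv 1 (pderiv 2 u))) * h12 +
      (aeval Φ (pderiv 2 (pderiv 2 u))) * h22 + (C (2 * (1 + a * b) ^ 2) : P2) * lap
  have hxy : ∀ i, X 0 * α i + X 1 * β i = Φ i - (1 + X 0 * X 1) * P i := by
    intro i
    simp only [hα, hβ, hP, hΦ, phi]
    ring
  have e2 : pderiv 0 (pderiv 1 (UU u a b)) =
      - (C (l : ℂ) * ∑ j : Fin 3, P j * aeval Φ (pderiv j u)) := by
    rw [e01, Finset.sum_sub_distrib, hsecond]
    simp only [eu1]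
    simp only [Fin.sum_univ_three]
    ring
  have e3 : X 0 * pderiv 0 (UU u a b) + X 1 * pderiv 1 (UU u a b) =
      C (l : ℂ) * UU u a b - (1 + X 0 * X 1) * ∑ j : Fin 3, P j * aeval Φ (pderiv j u) := by
    rw [e0, e1, ← eu0]
    simp only [Fin.sum_univ_three]
    linear_combination aeval Φ (pderiv 0 u) * hxy 0 + aeval Φ (pderiv 1 u) * hxy 1 +
      aeval Φ (pderiv 2 u) * hxy 2
  rw [e2, e3]
  ring

end Pool.Agent.SHB
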