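import Pool.Agent.SHB.Ex

/-!
# Project SHB (MP_f77893_an), module Win: harmonics with azimuthal frequencies in `[b, a]`

`zc u` is `u` in the coordinates `X 0 = x + i y`, `X 1 = x - i y`, `X 2 = z`.

PLAN. (A) `fIso (cx u) = aeval ![- 2 X^2, 2, 2 X] (zc u)` (in one variable `X`): the composition of the two substitutions:
`(1/2) (- 2 X^2 + 2) = 1 - X^2`, `(-I/2) (- 2 X^2 - 2) = I (1 + X^2)`. `zc u` is homogeneous of degree `l` (linear substitution), so a monomial
`d` of its support has `d 0 + d 1 + d 2 = l` and goes to a constant times `X^(2 d 0 + d 2)`, `2 d 0 + d 2 = l + (d 0 - d 1)`, which is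
between `l - a` and `l + a`. This gives both `X^(l - a) ∣ f` and `natDegree f ≤ l + a` (write `aeval` as a sum over the support).
(B) For `e = ![0, 0, ε]`, `ε = ±1`: let `J' = span {X i - C (e i : ℂ)}` in `MvPolynomial (Fin 3) ℂ`. `cx u = aeval ![X 0 + C I X 1, X 0 - C I X 1, X 2] (zc u)`
(inverse substitution) is a combination of the products `(X 0 + I X 1)^(d 0) (X 0 - I X 1)^(d 1) X 2^(d 2)`, which are in `J' ^ (d 0 + d 1)`
(`e 0 = e 1 = 0`), and `d 0 + d 1 ≥ |d 0 - d 1| ≥ b`. So `cx u ∈ J' ^ b`. Descent to `ℝ`: translate by `e` (an algebra automorphism over `ℝ` and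
over `ℂ`, compatible with `map`), then use `MvPolynomial.mem_pow_idealOfVars_iff'`: membership in the `b`-th power of the ideal
of the variables means that the coefficients of total degree `< b` vanish, which can be checked after `map (algebraMap ℝ ℂ)`.
-/

set_option autoImplicit false

namespace Pool.Agent.SHB

open MvPolynomial

/-- `u` in the coordinates `x + i y`, `x - i y`, `z` -/
noncomputable def zc (u : MvPolynomial (Fin 3) ℝ) : MvPolynomial (Fin 3) ℂ :=
  aeval ![C (1 / 2) * (X 0 + X 1), C (-Complex.I / 2) * (X 0 - X 1), X 2]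
    (MvPolynomial.map (algebraMap ℝ ℂ) u)

private lemma zc_eq (u : MvPolynomial (Fin 3) ℝ) : zc u =
    aeval ![C (1 / 2) * (X 0 + X 1), C (-Complex.I / 2) * (X 0 - X 1), X 2] (cx u) := rfl

private lemma half_C {A : Type*} [CommRing A] [Algebra ℂ A] (x : A) :
    algebraMap ℂ A (1 / 2) * (2 * x) = x := by
  have h : algebraMap ℂ A (1 / 2) * 2 = 1 := by
    have : (2 : A) = algebraMap ℂ A 2 := (map_ofNat (algebraMap ℂ A) 2).symm
    rw [this, ← map_mul]; norm_num
  rw [← mul_assoc, h, one_mul]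

private lemma fIso_zc_aux (u : MvPolynomial (Fin 3) ℝ) : fIso (cx u) =
    aeval ![- (2 * Polynomial.X ^ 2), (2 : Polynomial ℂ), 2 * Polynomial.X] (zc u) := by
  rw [zc_eq, fIso]
  have h : (aeval ![1 - Polynomial.X ^ 2, Polynomial.C Complex.I * (1 + Polynomial.X ^ 2),
      2 * Polynomial.X] : MvPolynomial (Fin 3) ℂ →ₐ[ℂ] Polynomial ℂ) =
      (aeval ![- (2 * Polynomial.X ^ 2), (2 : Polynomial ℂ), 2 * Polynomial.X]).comp
        (aeval ![C (1 / 2) * (X 0 + X 1), C (-Complex.I / 2) * (X 0 - X 1), X 2]) := by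
    apply MvPolynomial.algHom_ext
    intro i
    fin_cases i
    · simp only [Fin.zero_eta, aeval_X, AlgHom.comp_apply, Matrix.cons_val_zero, map_mul, map_add,
        MvPolynomial.algHom_C, Matrix.cons_val_one]
      have := half_C (1 - Polynomial.X ^ 2 : Polynomial ℂ)
      linear_combination -this
    · simp only [Fin.mk_one, aeval_X, AlgHom.comp_apply, Matrix.cons_val_zero, map_mul, map_sub,
        MvPolynomial.algHom_C, Matrix.cons_val_one]
      have := half_C (1 + Polynomial.X ^ 2 : Polynomial ℂ)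
      have h2 : algebraMap ℂ (Polynomial ℂ) (-Complex.I / 2) =
          - (Polynomial.C Complex.I * algebraMap ℂ (Polynomial ℂ) (1 / 2)) := by
        rw [Polynomial.algebraMap_eq, ← Polynomial.C_mul, ← Polynomial.C_neg]
        congr 1
        ring
      rw [h2]
      linear_combination - Polynomial.C Complex.I * this
    · simp
  rw [h]
  rfl

private lemma fIso_zc (u : MvPolynomial (Fin 3) ℝ) : fIso (cx u) =
    ∑ d ∈ (zc u).support, Polynomial.C (coeff d (zc u) * ((-2) ^ d 0 * 2 ^ d 1 * 2 ^ d 2)) *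
      Polynomial.X ^ (2 * d 0 + d 2) := by
  rw [fIso_zc_aux, aeval_def, eval₂_eq']
  apply Finset.sum_congr rfl
  intro d _
  rw [Fin.prod_univ_three]
  simp only [Matrix.cons_val_zero, Matrix.cons_val_one, Matrix.cons_val, Polynomial.algebraMap_eq,
    map_mul, map_pow, map_neg]
  have h2 : (Polynomial.C (2 : ℂ)) = 2 := rfl
  rw [h2]
  ring

private lemma isHomogeneous_C_mul_X_aux (a c : ℂ) (p q : MvPolynomial (Fin 3) ℂ)
    (hp : p.IsHomogeneous 1) (hq : q.IsHomogeneous 1) :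
    (C a * (p + q)).IsHomogeneous 1 ∧ (C c * (p - q)).IsHomogeneous 1 := by
  constructor
  · simpa using (isHomogeneous_C (Fin 3) a).mul (hp.add hq)
  · simpa using (isHomogeneous_C (Fin 3) c).mul (hp.sub hq)

private lemma zc_deg (u : MvPolynomial (Fin 3) ℝ) (l : ℕ) (hu : u.IsHomogeneous l)
    (d : Fin 3 →₀ ℕ) (hd : d ∈ (zc u).support) : d 0 + d 1 + d 2 = l := by
  have h1 : (zc u).IsHomogeneous (1 * l) := by
    apply (hu.map (algebraMap ℝ ℂ)).aeval
    intro i
    fin_cases i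
    · exact (isHomogeneous_C_mul_X_aux _ 0 _ _ (isHomogeneous_X ℂ (0 : Fin 3)) (isHomogeneous_X ℂ (1 : Fin 3))).1
    · exact (isHomogeneous_C_mul_X_aux 0 _ _ _ (isHomogeneous_X ℂ (0 : Fin 3)) (isHomogeneous_X ℂ (1 : Fin 3))).2
    · exact isHomogeneous_X ℂ (2 : Fin 3)
  have h2 := h1 (mem_support_iff.1 hd)
  have h3 : d.degree = 1 * l := by
    rw [← h2, Finsupp.degree_eq_weight_one]
    rfl
  rw [Finsupp.degree_eq_sum, Fin.sum_univ_three] at h3
  omega

/-- translation -/
private noncomputable def tr {k : Type*} [CommRing k] (e : k) :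
    MvPolynomial (Fin 3) k →ₐ[k] MvPolynomial (Fin 3) k :=
  aeval ![X 0, X 1, X 2 + C e]

private lemma tr_tr {k : Type*} [CommRing k] (e : k) (u : MvPolynomial (Fin 3) k) :
    tr (-e) (tr e u) = u := by
  have h : (tr (-e)).comp (tr e) = AlgHom.id k (MvPolynomial (Fin 3) k) := by
    apply MvPolynomial.algHom_ext
    intro i
    fin_cases i <;> simp [tr]
  exact DFunLike.congr_fun h u

private lemma cx_tr (e : ℝ) (u : MvPolynomial (Fin 3) ℝ) : cx (tr e u) = tr (e : ℂ) (cx u) := by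
  have h : (MvPolynomial.map (σ := Fin 3) (algebraMap ℝ ℂ)).comp (tr e).toRingHom =
      (tr (e : ℂ)).toRingHom.comp (MvPolynomial.map (σ := Fin 3) (algebraMap ℝ ℂ)) := by
    apply MvPolynomial.ringHom_ext
    · intro r
      simp [tr]
    · intro i
      fin_cases i <;> simp [tr]
  exact DFunLike.congr_fun h u

private lemma cx_zc (u : MvPolynomial (Fin 3) ℝ) : cx u =
    aeval ![X 0 + C Complex.I * X 1, X 0 - C Complex.I * X 1, X 2] (zc u) := by
  rw [zc_eq]
  have h : (AlgHom.id ℂ (MvPolynomial (Fin 3) ℂ)) =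
      (aeval ![X 0 + C Complex.I * X 1, X 0 - C Complex.I * X 1, X 2]).comp
        (aeval ![C (1 / 2) * (X 0 + X 1), C (-Complex.I / 2) * (X 0 - X 1), X 2]) := by
    apply MvPolynomial.algHom_ext
    intro i
    fin_cases i
    · simp only [Fin.zero_eta, aeval_X, AlgHom.comp_apply, Matrix.cons_val_zero, map_mul, map_add,
        MvPolynomial.algHom_C, Matrix.cons_val_one, AlgHom.id_apply]
      have := half_C (X 0 : MvPolynomial (Fin 3) ℂ)
      linear_combination -this
    · simp only [Fin.mk_one, aeval_X, AlgHom.comp_apply, Matrix.cons_val_zero, map_mul, map_sub,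
        MvPolynomial.algHom_C, Matrix.cons_val_one, AlgHom.id_apply]
      have h2 : algebraMap ℂ (MvPolynomial (Fin 3) ℂ) (-Complex.I / 2) =
          - (C Complex.I * C (1 / 2)) := by
        rw [MvPolynomial.algebraMap_eq, ← C_mul, ← C_neg]
        congr 1
        ring
      have h3 : (C Complex.I * C (1 / 2) * C Complex.I * 2 : MvPolynomial (Fin 3) ℂ) = -1 := by
        have : (2 : MvPolynomial (Fin 3) ℂ) = C 2 := rfl
        rw [this, ← C_mul, ← C_mul, ← C_mul]
        have h4 : Complex.I * (1 / 2) * Complex.I * 2 = -1 := by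
          have := Complex.I_mul_I
          linear_combination this
        rw [h4]
        simp
      rw [h2]
      linear_combination X 1 * h3
    · simp
  exact DFunLike.congr_fun h (cx u)

private lemma mem_vars (i : Fin 3) : (X i : MvPolynomial (Fin 3) ℂ) ∈ idealOfVars (Fin 3) ℂ :=
  Ideal.subset_span ⟨i, rfl⟩

private lemma tr_mem (u : MvPolynomial (Fin 3) ℝ) (b : ℕ)
    (hb : ∀ d ∈ (zc u).support, (b : ℤ) ≤ |((d 0 : ℕ) : ℤ) - ((d 1 : ℕ) : ℤ)|) (e : ℂ) :
    tr e (cx u) ∈ idealOfVars (Fin 3) ℂ ^ b := by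
  rw [cx_zc, aeval_def, eval₂_eq', map_sum]
  apply Ideal.sum_mem
  intro d hd
  rw [Fin.prod_univ_three]
  simp only [Matrix.cons_val_zero, Matrix.cons_val_one, Matrix.cons_val, map_mul, map_pow]
  apply Ideal.mul_mem_left
  apply Ideal.mul_mem_right
  have h1 : tr e (X 0 + C Complex.I * X 1) ∈ idealOfVars (Fin 3) ℂ := by
    have : tr e (X 0 + C Complex.I * X 1) = X 0 + C Complex.I * X 1 := by simp [tr]
    rw [this]
    exact Ideal.add_mem _ (mem_vars 0) (Ideal.mul_mem_left _ _ (mem_vars 1))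
  have h2 : tr e (X 0 - C Complex.I * X 1) ∈ idealOfVars (Fin 3) ℂ := by
    have : tr e (X 0 - C Complex.I * X 1) = X 0 - C Complex.I * X 1 := by simp [tr]
    rw [this]
    exact Ideal.sub_mem _ (mem_vars 0) (Ideal.mul_mem_left _ _ (mem_vars 1))
  have h3 := Ideal.mul_mem_mul (Ideal.pow_mem_pow h1 (d 0)) (Ideal.pow_mem_pow h2 (d 1))
  rw [← pow_add] at h3
  refine Ideal.pow_le_pow_right ?_ h3
  have h4 := hb d hd
  rcases abs_cases (((d 0 : ℕ) : ℤ) - ((d 1 : ℕ) : ℤ)) with h | h <;> omega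

private lemma pt_aux (u : MvPolynomial (Fin 3) ℝ) (b : ℕ)
    (hb : ∀ d ∈ (zc u).support, (b : ℤ) ≤ |((d 0 : ℕ) : ℤ) - ((d 1 : ℕ) : ℤ)|) (e : ℝ) :
    u ∈ ptJ ![0, 0, e] ^ b := by
  have h1 : tr e u ∈ idealOfVars (Fin 3) ℝ ^ b := by
    rw [mem_pow_idealOfVars_iff']
    intro x hx
    have h2 := tr_mem u b hb (e : ℂ)
    rw [← cx_tr, mem_pow_idealOfVars_iff'] at h2
    have h3 := h2 x hx
    rw [cx, coeff_map] at h3
    simpa using h3
  have h2 := Ideal.mem_map_of_mem (tr (-e)) h1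
  rw [tr_tr, Ideal.map_pow] at h2
  refine Ideal.pow_right_mono ?_ b h2
  rw [idealOfVars, Ideal.map_span, Ideal.span_le]
  rintro _ ⟨_, ⟨i, rfl⟩, rfl⟩
  apply Ideal.subset_span
  refine ⟨i, ?_⟩
  fin_cases i <;> simp [tr, sub_eq_add_neg]

theorem win_dvd (u : MvPolynomial (Fin 3) ℝ) (l : ℕ) (hu : u.IsHomogeneous l) (a : ℕ)
    (ha : ∀ d ∈ (zc u).support, |((d 0 : ℕ) : ℤ) - ((d 1 : ℕ) : ℤ)| ≤ a) :
    (Polynomial.X : Polynomial ℂ) ^ (l - a) ∣ fIso (cx u) ∧ (fIso (cx u)).natDegree ≤ l + a := by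
  rw [fIso_zc]
  constructor
  · apply Finset.dvd_sum
    intro d hd
    have h1 := ha d hd
    rw [abs_le] at h1
    have h2 := zc_deg u l hu d hd
    exact Dvd.dvd.mul_left (pow_dvd_pow _ (by omega)) _
  · apply Polynomial.natDegree_sum_le_of_forall_le
    intro d hd
    have h1 := ha d hd
    rw [abs_le] at h1
    have h2 := zc_deg u l hu d hd
    refine (Polynomial.natDegree_C_mul_X_pow_le _ _).trans (by omega)

theorem win_pt (u : MvPolynomial (Fin 3) ℝ) (b : ℕ)
    (hb : ∀ d ∈ (zc u).support, (b : ℤ) ≤ |((d 0 : ℕ) : ℤ) - ((d 1 : ℕ) : ℤ)|) :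
    u ∈ ptJ ![0, 0, 1] ^ b ∧ u ∈ ptJ ![0, 0, -1] ^ b :=
  ⟨pt_aux u b hb 1, pt_aux u b hb (-1)⟩

end Pool.Agent.SHB
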