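import Pool.Agent.SHB.Main
import Pool.Agent.SHB.Win

/-!
# Project SHB (MP_f77893_an), module Cor: consequences of `main_bound`
-/

set_option autoImplicit false

namespace Pool.Agent.SHB

open MvPolynomial

private lemma mono_mul_pred {m n : ℕ} (h : m ≤ n) : m * (m - 1) ≤ n * (n - 1) :=
  Nat.mul_le_mul h (by omega)

theorem window (u : MvPolynomial (Fin 3) ℝ) (l : ℕ) (hl : 1 ≤ l) (hu : u.IsHomogeneous l)
    (hh : ∑ i : Fin 3, pderiv i (pderiv i u) = 0) (h : u ≠ 0) (a b : ℕ)
    (hw : ∀ d ∈ (zc u).support, (b : ℤ) ≤ |((d 0 : ℕ) : ℤ) - ((d 1 : ℕ) : ℤ)| ∧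
      |((d 0 : ℕ) : ℤ) - ((d 1 : ℕ) : ℤ)| ≤ a) :
    Nat.card (ConnectedComponents (SphC u)) + (l - a) * (l - a - 1) + (b - 1) * (b - 2) ≤
      l ^ 2 + 1 := by
  classical
  have hpt := win_pt u b (fun d hd => (hw d hd).1)
  obtain ⟨hdvd, hdeg⟩ := win_dvd u l hu a (fun d hd => (hw d hd).2)
  have hne : (![0, 0, 1] : Fin 3 → ℝ) ≠ ![0, 0, -1] := by
    intro he
    have := congrFun he 2
    simp at this
    linarith
  obtain ⟨hf0, -, hb⟩ := main_bound u l hl hu hh h {![0, 0, 1], ![0, 0, -1]} (fun _ => b) (by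
    intro x hx
    simp only [Finset.mem_insert, Finset.mem_singleton] at hx
    rcases hx with rfl | rfl
    · exact ⟨by simp [Fin.sum_univ_three], hpt.1⟩
    · exact ⟨by simp [Fin.sum_univ_three], hpt.2⟩)
  rw [Finset.sum_pair hne] at hb
  have h1 : (l - a) * (l - a - 1) ≤ ∑ t ∈ (fIso (cx u)).roots.toFinset,
      (fIso (cx u)).rootMultiplicity t * ((fIso (cx u)).rootMultiplicity t - 1) := by
    rcases Nat.eq_zero_or_pos (l - a) with hz | hpos
    · rw [hz]; simp
    · have hm : l - a ≤ (fIso (cx u)).rootMultiplicity 0 := by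
        rw [Polynomial.le_rootMultiplicity_iff hf0]
        simpa using hdvd
      have hmem : (0 : ℂ) ∈ (fIso (cx u)).roots.toFinset := by
        rw [Multiset.mem_toFinset, Polynomial.mem_roots hf0]
        rw [← Polynomial.rootMultiplicity_pos hf0]
        omega
      exact (mono_mul_pred hm).trans
        (Finset.single_le_sum (f := fun t => (fIso (cx u)).rootMultiplicity t *
          ((fIso (cx u)).rootMultiplicity t - 1)) (fun _ _ => Nat.zero_le _) hmem)
  have h2 : (l - a) * (l - a - 1) ≤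
      (2 * l - (fIso (cx u)).natDegree) * (2 * l - (fIso (cx u)).natDegree - 1) :=
    mono_mul_pred (by omega)
  omega

theorem zero_order (u : MvPolynomial (Fin 3) ℝ) (l : ℕ) (hl : 1 ≤ l) (hu : u.IsHomogeneous l)
    (hh : ∑ i : Fin 3, pderiv i (pderiv i u) = 0) (h : u ≠ 0) (x : Fin 3 → ℝ)
    (hx : ∑ i : Fin 3, x i ^ 2 = 1) (b : ℕ) (hb : u ∈ ptJ x ^ b) :
    Nat.card (ConnectedComponents (SphC u)) + (b - 1) * (b - 2) ≤ l ^ 2 + 1 := by
  classical
  have hne : x ≠ (-1 : ℝ) • x := by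
    intro he
    have h0 : ∀ i, x i = 0 := by
      intro i
      have := congrFun he i
      simp only [Pi.smul_apply, smul_eq_mul] at this
      linarith
    simp [h0] at hx
  obtain ⟨-, -, hbd⟩ := main_bound u l hl hu hh h {x, (-1 : ℝ) • x} (fun _ => b) (by
    intro y hy
    simp only [Finset.mem_insert, Finset.mem_singleton] at hy
    rcases hy with rfl | rfl
    · exact ⟨hx, hb⟩
    · refine ⟨?_, scale_mem u l hu x (-1) (by norm_num) b hb⟩
      simpa [Pi.smul_apply, smul_eq_mul] using hx)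
  rw [Finset.sum_pair hne] at hbd
  omega

theorem axes (u : MvPolynomial (Fin 3) ℝ) (l : ℕ) (hl : 1 ≤ l) (hu : u.IsHomogeneous l)
    (hh : ∑ i : Fin 3, pderiv i (pderiv i u) = 0) (h : u ≠ 0) (k : ℕ) (_hk : 1 ≤ k)
    (hr : (fIso (cx u)).roots.toFinset.card +
      (if (fIso (cx u)).natDegree = 2 * l then 0 else 1) ≤ 2 * k) :
    k * Nat.card (ConnectedComponents (SphC u)) + l ^ 2 ≤ k * (l ^ 2 + l + 1) := by
  classical
  obtain ⟨hf0, -, hbd⟩ := main_bound u l hl hu hh h ∅ (fun _ => 0) (by simp)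
  set f := fIso (cx u) with hf
  have hnd : f.natDegree ≤ 2 * l := natDegree_fIso (cx u) l (cx_homog hu)
  set F := Nat.card (ConnectedComponents (SphC u)) with hF
  rw [Finset.sum_empty, add_zero] at hbd
  have hsum : ∑ t ∈ f.roots.toFinset, f.rootMultiplicity t = f.natDegree := by
    have h1 := Multiset.toFinset_sum_count_eq f.roots
    rw [← IsAlgClosed.card_roots_eq_natDegree (p := f), ← h1]
    apply Finset.sum_congr rfl
    intro t _
    rw [Polynomial.count_roots]
  set m : ℕ := 2 * l - f.natDegree with hm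
  -- integers
  have hpred : ∀ n : ℕ, ((n * (n - 1) : ℕ) : ℝ) = (n : ℝ) ^ 2 - n := by
    intro n
    rcases n with _ | n
    · simp
    · rw [Nat.add_sub_cancel]
      push_cast
      ring
  have hbdR : 2 * (F : ℝ) + (∑ t ∈ f.roots.toFinset, ((f.rootMultiplicity t : ℝ) ^ 2) - f.natDegree) +
      ((m : ℝ) ^ 2 - m) ≤ 2 * (l : ℝ) ^ 2 + 2 := by
    have h1 : ((2 * F + ∑ t ∈ f.roots.toFinset, f.rootMultiplicity t * (f.rootMultiplicity t - 1) +
        m * (m - 1) : ℕ) : ℝ) ≤ ((2 * l ^ 2 + 2 : ℕ) : ℝ) := by exact_mod_cast hbd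
    rw [Nat.cast_add, Nat.cast_add, Nat.cast_sum] at h1
    simp only [hpred] at h1
    rw [Finset.sum_sub_distrib, ← Nat.cast_sum, hsum] at h1
    push_cast at h1
    linarith
  have hmR : (m : ℝ) = 2 * l - f.natDegree := by
    rw [hm, Nat.cast_sub hnd]; push_cast; ring
  -- Cauchy-Schwarz
  have hsumR : ∑ t ∈ f.roots.toFinset, (f.rootMultiplicity t : ℝ) = f.natDegree := by
    rw [← Nat.cast_sum, hsum]
  set q : ℝ := ∑ t ∈ f.roots.toFinset, ((f.rootMultiplicity t : ℝ) ^ 2) with hq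
  set N : ℕ := f.roots.toFinset.card with hN
  have hkey : 2 * (l : ℝ) ^ 2 ≤ k * (q + (m : ℝ) ^ 2) := by
    have hcs : (f.natDegree : ℝ) ^ 2 ≤ N * q := by
      rw [← hsumR, hq, hN]
      exact sq_sum_le_card_mul_sum_sq
    have hq0 : 0 ≤ q := Finset.sum_nonneg (fun _ _ => sq_nonneg _)
    by_cases hd : f.natDegree = 2 * l
    · rw [if_pos hd, add_zero] at hr
      have hNR : (N : ℝ) ≤ 2 * k := by exact_mod_cast hr
      have h2 : (f.natDegree : ℝ) = 2 * l := by rw [hd]; push_cast; ring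
      rw [h2] at hcs
      nlinarith [mul_le_mul_of_nonneg_right hNR hq0, sq_nonneg (m : ℝ),
        mul_nonneg (Nat.cast_nonneg k : (0:ℝ) ≤ k) (sq_nonneg (m : ℝ))]
    · rw [if_neg hd] at hr
      have hNR : (N : ℝ) + 1 ≤ 2 * k := by exact_mod_cast hr
      have hd2 : (f.natDegree : ℝ) + m = 2 * l := by rw [hmR]; ring
      have hN0 : (0 : ℝ) ≤ N := Nat.cast_nonneg _
      -- (n + m)^2 ≤ (N + 1) (q + m^2)
      have h3 : ((f.natDegree : ℝ) + m) ^ 2 ≤ (N + 1) * (q + (m : ℝ) ^ 2) := by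
        rcases Nat.eq_zero_or_pos N with hz | hpos
        · have hn0 : (f.natDegree : ℝ) ^ 2 ≤ 0 := by
            rw [hz] at hcs; simpa using hcs
          have hn1 : (f.natDegree : ℝ) = 0 := by nlinarith
          rw [hn1, hz]; push_cast; nlinarith
        · have hNp : (0 : ℝ) < N := by exact_mod_cast hpos
          -- 2 n m ≤ n^2/N + N m^2
          have h4 : 2 * (f.natDegree : ℝ) * m * N ≤ (f.natDegree : ℝ) ^ 2 + (N : ℝ) ^ 2 * m ^ 2 := by
            nlinarith [sq_nonneg ((f.natDegree : ℝ) - N * m)]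
          have h5 : (f.natDegree : ℝ) ^ 2 + (N : ℝ) ^ 2 * m ^ 2 ≤ N * (q + N * m ^ 2) := by
            nlinarith
          have h6 : 2 * (f.natDegree : ℝ) * m ≤ q + N * m ^ 2 := by
            have : N * (2 * (f.natDegree : ℝ) * m) ≤ N * (q + N * m ^ 2) := by linarith
            exact le_of_mul_le_mul_left this hNp
          nlinarith
      rw [hd2] at h3
      have h7 : (0 : ℝ) ≤ q + (m : ℝ) ^ 2 := by positivity
      nlinarith [mul_le_mul_of_nonneg_right hNR h7]
  have hfin : (k : ℝ) * F + (l : ℝ) ^ 2 ≤ k * ((l : ℝ) ^ 2 + l + 1) := by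
    have hk0 : (0 : ℝ) ≤ k := Nat.cast_nonneg _
    have h8 : k * (2 * (F : ℝ) + (q - f.natDegree) + ((m : ℝ) ^ 2 - m)) ≤
        k * (2 * (l : ℝ) ^ 2 + 2) := mul_le_mul_of_nonneg_left hbdR hk0
    have h9 : (f.natDegree : ℝ) + m = 2 * l := by rw [hmR]; ring
    nlinarith
  exact_mod_cast hfin

theorem leydold_class (u : MvPolynomial (Fin 3) ℝ) (l : ℕ) (hl : 1 ≤ l) (hu : u.IsHomogeneous l)
    (hh : ∑ i : Fin 3, pderiv i (pderiv i u) = 0) (h : u ≠ 0)
    (hc : (∃ a b : ℕ, a ≤ l ∧ l ^ 2 ≤ 2 * ((l - a) ^ 2 + b ^ 2) ∧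
        ∀ d ∈ (zc u).support, (b : ℤ) ≤ |((d 0 : ℕ) : ℤ) - ((d 1 : ℕ) : ℤ)| ∧
          |((d 0 : ℕ) : ℤ) - ((d 1 : ℕ) : ℤ)| ≤ a) ∨
      (∃ (x : Fin 3 → ℝ) (b : ℕ), ∑ i : Fin 3, x i ^ 2 = 1 ∧ l ^ 2 ≤ 2 * b ^ 2 ∧ u ∈ ptJ x ^ b) ∨
      (fIso (cx u)).roots.toFinset.card +
        (if (fIso (cx u)).natDegree = 2 * l then 0 else 1) ≤ 4) :
    2 * Nat.card (ConnectedComponents (SphC u)) ≤ l ^ 2 + 8 * l + 2 := by
  have hpredp : ∀ n : ℕ, (n : ℤ) ^ 2 - 3 * n ≤ (((n - 1) * (n - 2) : ℕ) : ℤ) := by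
    intro n
    rcases n with _ | _ | n
    · simp
    · simp
    · have e1 : n + 1 + 1 - 1 = n + 1 := by omega
      have e2 : n + 1 + 1 - 2 = n := by omega
      rw [e1, e2]; push_cast; nlinarith
  rcases hc with ⟨a, b, hal, hab, hw⟩ | ⟨x, b, hx, hb2, hxb⟩ | hr
  · have hwin := window u l hl hu hh h a b hw
    -- b ≤ a
    have hba : b ≤ a := by
      have hz : zc u ≠ 0 := by
        intro hz0
        have hinv : aeval ![X 0 + C Complex.I * X 1, X 0 - C Complex.I * X 1, X 2] (zc u) =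
            MvPolynomial.map (algebraMap ℝ ℂ) u := by
          rw [zc, ← AlgHom.comp_apply]
          conv_rhs => rw [← AlgHom.id_apply (R := ℂ) (MvPolynomial.map (algebraMap ℝ ℂ) u)]
          congr 1
          apply MvPolynomial.algHom_ext
          intro i
          have h2 : (C (1 / 2) : MvPolynomial (Fin 3) ℂ) * 2 = 1 := by
            rw [← map_ofNat (C : ℂ →+* MvPolynomial (Fin 3) ℂ) 2, ← C_mul, ← C_1]
            norm_num
          have h3 : (C (-Complex.I / 2) : MvPolynomial (Fin 3) ℂ) * (2 * C Complex.I) = 1 := by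
            rw [← map_ofNat (C : ℂ →+* MvPolynomial (Fin 3) ℂ) 2, ← C_mul, ← C_mul, ← C_1]
            congr 1
            linear_combination -Complex.I_mul_I
          fin_cases i
          · have e : (aeval (![X 0 + C Complex.I * X 1, X 0 - C Complex.I * X 1, X 2] :
                Fin 3 → MvPolynomial (Fin 3) ℂ))
                (C (1 / 2) * (X 0 + X 1) : MvPolynomial (Fin 3) ℂ) =
                C (1 / 2) * ((X 0 + C Complex.I * X 1) + (X 0 - C Complex.I * X 1)) := by
              rw [map_mul, map_add, aeval_X, aeval_X, MvPolynomial.aeval_C]; rfl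
            simp only [AlgHom.comp_apply, aeval_X, AlgHom.id_apply, Fin.zero_eta, Matrix.cons_val_zero]
            refine e.trans ?_
            linear_combination (X 0 : MvPolynomial (Fin 3) ℂ) * h2
          · have e : (aeval (![X 0 + C Complex.I * X 1, X 0 - C Complex.I * X 1, X 2] :
                Fin 3 → MvPolynomial (Fin 3) ℂ))
                (C (-Complex.I / 2) * (X 0 - X 1) : MvPolynomial (Fin 3) ℂ) =
                C (-Complex.I / 2) * ((X 0 + C Complex.I * X 1) - (X 0 - C Complex.I * X 1)) := by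
              rw [map_mul, map_sub, aeval_X, aeval_X, MvPolynomial.aeval_C]; rfl
            simp only [AlgHom.comp_apply, aeval_X, AlgHom.id_apply, Fin.mk_one, Matrix.cons_val_one,
              Matrix.cons_val_zero]
            refine e.trans ?_
            linear_combination (X 1 : MvPolynomial (Fin 3) ℂ) * h3
          · simp
        rw [hz0, map_zero] at hinv
        apply h
        have hmi := MvPolynomial.map_injective (σ := Fin 3) (algebraMap ℝ ℂ) (algebraMap ℝ ℂ).injective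
        apply hmi
        rw [← hinv, map_zero]
      obtain ⟨d, hd⟩ := MvPolynomial.support_nonempty.2 hz
      have := hw d hd
      omega
    obtain ⟨c, rfl⟩ : ∃ c, l = a + c := ⟨l - a, by omega⟩
    have e1 : a + c - a = c := by omega
    rw [e1] at hwin hab
    have hp := hpredp b
    have hcc : (c : ℤ) ^ 2 - c = ((c * (c - 1) : ℕ) : ℤ) := by
      rcases c with _ | c
      · simp
      · rw [Nat.add_sub_cancel]; push_cast; ring
    zify at hwin hab hba hp hcc ⊢
    push_cast at hwin hab hp hcc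
    nlinarith
  · -- reduce b
    have hex : ∃ n, l ^ 2 ≤ 2 * n ^ 2 := ⟨b, hb2⟩
    classical
    set n := Nat.find hex with hn
    have hn1 : l ^ 2 ≤ 2 * n ^ 2 := Nat.find_spec hex
    have hnb : n ≤ b := Nat.find_min' hex hb2
    have hnl : n ≤ l := Nat.find_min' hex (by nlinarith)
    have hz := zero_order u l hl hu hh h x hx n (Ideal.pow_le_pow_right hnb hxb)
    have hp := hpredp n
    zify at hz hn1 hnl hp ⊢
    nlinarith
  · have ha := axes u l hl hu hh h 2 (by norm_num) (by simpa using hr)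
    nlinarith

end Pool.Agent.SHB
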