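import Mathlib

/-!
# Project SHB (MP_f77893_an), definitions

`P2 = ℂ[w, w']` with `w = X 0`, `w' = X 1`.
* `ptI a b` : the ideal of the point `(a, b)`;
* `ex i j` : the exponent of the monomial `w^i w'^j`;
* `shift a b U = U(w + a, w' + b)`;
* `rotW U = (w ∂_w - w' ∂_w') U`;
* `Spin l U` : bidegree at most `(l, l)` and
  `(1 + w w') U_{w w'} = l (w U_w + w' U_{w'} - l U)`;
* `RealP U` : `U (w, conj w)` is real;
* `Vf U w = Re U (w, conj w)`;
* `Gpoly l U = w^l U(w, -1/w)`;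
* frames `frA, frB, frP` and `UU u a b = u (w A + w' B + (1 - w w') P)`;
* `fIso u t = u (1 - t^2, i (1 + t^2), 2 t)`.
-/

set_option autoImplicit false

namespace Pool.Agent.SHB

open MvPolynomial

/-- polynomials in `w = X 0` and `w' = X 1` -/
abbrev P2 := MvPolynomial (Fin 2) ℂ

/-- the ideal of the point `(a, b)` -/
noncomputable def ptI (a b : ℂ) : Ideal P2 := Ideal.span {X 0 - C a, X 1 - C b}

/-- the exponent of `w^i w'^j` -/
noncomputable def ex (i j : ℕ) : Fin 2 →₀ ℕ := Finsupp.single 0 i + Finsupp.single 1 j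

/-- `U(w + a, w' + b)` -/
noncomputable def shift (a b : ℂ) (U : P2) : P2 := aeval ![X 0 + C a, X 1 + C b] U

/-- `(w ∂_w - w' ∂_w') U` -/
noncomputable def rotW (U : P2) : P2 := X 0 * pderiv 0 U - X 1 * pderiv 1 U

/-- bidegree `≤ (l, l)` and the differential equation of a spherical harmonic of degree `l` -/
structure Spin (l : ℕ) (U : P2) : Prop where
  deg0 : degreeOf 0 U ≤ l
  deg1 : degreeOf 1 U ≤ l
  pde : (1 + X 0 * X 1) * pderiv 0 (pderiv 1 U) =
    C (l : ℂ) * (X 0 * pderiv 0 U + X 1 * pderiv 1 U - C (l : ℂ) * U)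

/-- `U(w, conj w)` is real -/
def RealP (U : P2) : Prop := ∀ i j : ℕ, (starRingEnd ℂ) (coeff (ex i j) U) = coeff (ex j i) U

/-- `Re U(w, conj w)` -/
noncomputable def Vf (U : P2) (w : ℂ) : ℝ := (eval ![w, (starRingEnd ℂ) w] U).re

/-- `w^l U(w, -1/w)` -/
noncomputable def Gpoly (l : ℕ) (U : P2) : Polynomial ℂ :=
  ∑ i ∈ Finset.range (l + 1), ∑ j ∈ Finset.range (l + 1),
    Polynomial.C (coeff (ex i j) U * (-1) ^ j) * Polynomial.X ^ (l + i - j)

/-- the frame vector `a - i b` -/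
noncomputable def frA (a : ℂ) : Fin 3 → ℂ := ![a ^ 2 - 1, Complex.I * (a ^ 2 + 1), 2 * a]

/-- the frame vector `a + i b` -/
noncomputable def frB (b : ℂ) : Fin 3 → ℂ := ![b ^ 2 - 1, -Complex.I * (b ^ 2 + 1), 2 * b]

/-- the axis -/
noncomputable def frP (a b : ℂ) : Fin 3 → ℂ := ![a + b, Complex.I * (a - b), 1 - a * b]

/-- `w A + w' B + (1 - w w') P` -/
noncomputable def phi (a b : ℂ) (i : Fin 3) : P2 :=
  C (frA a i) * X 0 + C (frB b i) * X 1 + C (frP a b i) * (1 - X 0 * X 1)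

/-- `u (w A + w' B + (1 - w w') P)` -/
noncomputable def UU (u : MvPolynomial (Fin 3) ℂ) (a b : ℂ) : P2 := aeval (phi a b) u

/-- `u (1 - t^2, i (1 + t^2), 2 t)` -/
noncomputable def fIso (u : MvPolynomial (Fin 3) ℂ) : Polynomial ℂ :=
  aeval ![1 - Polynomial.X ^ 2, Polynomial.C Complex.I * (1 + Polynomial.X ^ 2),
    2 * Polynomial.X] u

/-- the ideal of the point `x` of the space -/
noncomputable def ptJ (x : Fin 3 → ℝ) : Ideal (MvPolynomial (Fin 3) ℝ) :=
  Ideal.span (Set.range fun i => X i - C (x i))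

/-- the complement of the zero set in the plane -/
abbrev PlaneC (U : P2) := {w : ℂ // Vf U w ≠ 0}

/-- the complement of the zero set in the sphere -/
abbrev SphC (u : MvPolynomial (Fin 3) ℝ) :=
  {x : Fin 3 → ℝ // ∑ i : Fin 3, x i ^ 2 = 1 ∧ MvPolynomial.eval x u ≠ 0}

/-- complexification -/
noncomputable def cx (u : MvPolynomial (Fin 3) ℝ) : MvPolynomial (Fin 3) ℂ :=
  MvPolynomial.map (algebraMap ℝ ℂ) u

end Pool.Agent.SHB
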