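import Pool.Agent.SHB.Defs

/-!
# Project SHB: coefficients of polynomials in `w, w'`
-/

set_option autoImplicit false

namespace Pool.Agent.SHB

open MvPolynomial

@[simp] lemma ex_zero_apply (i j : ℕ) : ex i j 0 = i := by simp [ex]

@[simp] lemma ex_one_apply (i j : ℕ) : ex i j 1 = j := by simp [ex]

lemma ex_eta (d : Fin 2 →₀ ℕ) : ex (d 0) (d 1) = d := by
  ext k
  fin_cases k
  · exact ex_zero_apply _ _
  · exact ex_one_apply _ _

lemma ex_inj {i j i' j' : ℕ} : ex i j = ex i' j' ↔ i = i' ∧ j = j' := by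
  constructor
  · intro h
    exact ⟨by simpa using DFunLike.congr_fun h 0, by simpa using DFunLike.congr_fun h 1⟩
  · rintro ⟨rfl, rfl⟩; rfl

lemma ex_add (i j i' j' : ℕ) : ex i j + ex i' j' = ex (i + i') (j + j') := by
  ext k
  fin_cases k
  · simp only [Fin.zero_eta, Finsupp.coe_add, Pi.add_apply, ex_zero_apply]
  · simp only [Fin.mk_one, Finsupp.coe_add, Pi.add_apply, ex_one_apply]

lemma ex_00 : ex 0 0 = 0 := by simp [ex]

lemma ex_degree (i j : ℕ) : (ex i j).degree = i + j := by
  simp [ex, map_add, Finsupp.degree_single]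

lemma single0 (i : ℕ) : Finsupp.single (0 : Fin 2) i = ex i 0 := by simp [ex]

lemma single1 (j : ℕ) : Finsupp.single (1 : Fin 2) j = ex 0 j := by simp [ex]

lemma ext_coeff {U V : P2} (h : ∀ i j, coeff (ex i j) U = coeff (ex i j) V) : U = V := by
  ext d
  rw [← ex_eta d]
  exact h _ _

lemma coeff_X0_mul (i j : ℕ) (U : P2) : coeff (ex (i + 1) j) (X 0 * U) = coeff (ex i j) U := by
  have h : ex (i + 1) j = Finsupp.single 0 1 + ex i j := by
    rw [single0, ex_add]; congr 1 <;> omega
  rw [h, coeff_X_mul]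

lemma coeff_X0_mul_zero (j : ℕ) (U : P2) : coeff (ex 0 j) (X 0 * U) = 0 := by
  rw [coeff_X_mul', if_neg]
  simp

lemma coeff_X1_mul (i j : ℕ) (U : P2) : coeff (ex i (j + 1)) (X 1 * U) = coeff (ex i j) U := by
  have h : ex i (j + 1) = Finsupp.single 1 1 + ex i j := by
    rw [single1, ex_add]; congr 1 <;> omega
  rw [h, coeff_X_mul]

lemma coeff_X1_mul_zero (i : ℕ) (U : P2) : coeff (ex i 0) (X 1 * U) = 0 := by
  rw [coeff_X_mul', if_neg]
  simp

lemma coeff_pderiv0 (i j : ℕ) (U : P2) :
    coeff (ex i j) (pderiv 0 U) = ((i : ℂ) + 1) * coeff (ex (i + 1) j) U := by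
  induction U using MvPolynomial.induction_on' with
  | monomial d a =>
    rw [pderiv_monomial, coeff_monomial, coeff_monomial, ← ex_eta d]
    by_cases h : ex (d 0) (d 1) = ex (i + 1) j
    · obtain ⟨h0, h1⟩ := ex_inj.1 h
      have e : ex (d 0) (d 1) - Finsupp.single 0 1 = ex i j := by
        rw [h, single0]
        ext k
        fin_cases k <;> simp
      rw [if_pos e, if_pos h, ex_zero_apply, h0]
      push_cast
      ring
    · rw [if_neg h]
      by_cases h0 : d 0 = 0
      · rw [ex_zero_apply, h0]; simp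
      · rw [if_neg]
        · simp
        · intro e
          apply h
          rw [ex_inj]
          have e0 := DFunLike.congr_fun e 0
          have e1 := DFunLike.congr_fun e 1
          simp at e0 e1
          exact ⟨by omega, e1⟩
  | add p q hp hq =>
    rw [map_add, coeff_add, coeff_add, hp, hq]; ring

lemma coeff_pderiv1 (i j : ℕ) (U : P2) :
    coeff (ex i j) (pderiv 1 U) = ((j : ℂ) + 1) * coeff (ex i (j + 1)) U := by
  induction U using MvPolynomial.induction_on' with
  | monomial d a =>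
    rw [pderiv_monomial, coeff_monomial, coeff_monomial, ← ex_eta d]
    by_cases h : ex (d 0) (d 1) = ex i (j + 1)
    · obtain ⟨h0, h1⟩ := ex_inj.1 h
      have e : ex (d 0) (d 1) - Finsupp.single 1 1 = ex i j := by
        rw [h, single1]
        ext k
        fin_cases k <;> simp
      rw [if_pos e, if_pos h, ex_one_apply, h1]
      push_cast
      ring
    · rw [if_neg h]
      by_cases h0 : d 1 = 0
      · rw [ex_one_apply, h0]; simp
      · rw [if_neg]
        · simp
        · intro e
          apply h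
          rw [ex_inj]
          have e0 := DFunLike.congr_fun e 0
          have e1 := DFunLike.congr_fun e 1
          simp at e0 e1
          exact ⟨e0, by omega⟩
  | add p q hp hq =>
    rw [map_add, coeff_add, coeff_add, hp, hq]; ring

/-- coefficients of `w ∂_w U` -/
lemma coeff_X0_pderiv (i j : ℕ) (U : P2) :
    coeff (ex i j) (X 0 * pderiv 0 U) = (i : ℂ) * coeff (ex i j) U := by
  rcases i with _ | i
  · rw [coeff_X0_mul_zero]; simp
  · rw [coeff_X0_mul, coeff_pderiv0]; push_cast; ring

/-- coefficients of `w' ∂_w' U` -/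
lemma coeff_X1_pderiv (i j : ℕ) (U : P2) :
    coeff (ex i j) (X 1 * pderiv 1 U) = (j : ℂ) * coeff (ex i j) U := by
  rcases j with _ | j
  · rw [coeff_X1_mul_zero]; simp
  · rw [coeff_X1_mul, coeff_pderiv1]; push_cast; ring

/-- coefficients of `rotW U` -/
lemma coeff_rotW (i j : ℕ) (U : P2) :
    coeff (ex i j) (rotW U) = ((i : ℂ) - j) * coeff (ex i j) U := by
  rw [rotW, coeff_sub, coeff_X0_pderiv, coeff_X1_pderiv]; ring

/-- coefficients of `∂_w ∂_w' U` -/
lemma coeff_pderiv01 (i j : ℕ) (U : P2) :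
    coeff (ex i j) (pderiv 0 (pderiv 1 U)) =
      ((i : ℂ) + 1) * ((j : ℂ) + 1) * coeff (ex (i + 1) (j + 1)) U := by
  rw [coeff_pderiv0, coeff_pderiv1]; ring

/-- coefficients of `w w' ∂_w ∂_w' U` -/
lemma coeff_XX_pderiv01 (i j : ℕ) (U : P2) :
    coeff (ex i j) (X 0 * X 1 * pderiv 0 (pderiv 1 U)) = (i : ℂ) * j * coeff (ex i j) U := by
  rw [mul_assoc]
  rcases i with _ | i
  · rw [coeff_X0_mul_zero]; simp
  · rcases j with _ | j
    · rw [coeff_X0_mul, coeff_X1_mul_zero]; simp
    · rw [coeff_X0_mul, coeff_X1_mul, coeff_pderiv01]; push_cast; ring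

lemma coeff_eq_zero_of_deg0 {U : P2} {l i j : ℕ} (h : degreeOf 0 U ≤ l) (hi : l < i) :
    coeff (ex i j) U = 0 := by
  by_contra hne
  have h1 := (degreeOf_le_iff.1 h) (ex i j) (mem_support_iff.2 hne)
  simp at h1
  omega

lemma coeff_eq_zero_of_deg1 {U : P2} {l i j : ℕ} (h : degreeOf 1 U ≤ l) (hj : l < j) :
    coeff (ex i j) U = 0 := by
  by_contra hne
  have h1 := (degreeOf_le_iff.1 h) (ex i j) (mem_support_iff.2 hne)
  simp at h1
  omega

lemma deg0_le_iff {U : P2} {l : ℕ} :
    degreeOf 0 U ≤ l ↔ ∀ i j, l < i → coeff (ex i j) U = 0 := by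
  constructor
  · intro h i j hi; exact coeff_eq_zero_of_deg0 h hi
  · intro h
    rw [degreeOf_le_iff]
    intro d hd
    by_contra hlt
    apply mem_support_iff.1 hd
    rw [← ex_eta d]
    exact h _ _ (by omega)

lemma deg1_le_iff {U : P2} {l : ℕ} :
    degreeOf 1 U ≤ l ↔ ∀ i j, l < j → coeff (ex i j) U = 0 := by
  constructor
  · intro h i j hi; exact coeff_eq_zero_of_deg1 h hi
  · intro h
    rw [degreeOf_le_iff]
    intro d hd
    by_contra hlt
    apply mem_support_iff.1 hd
    rw [← ex_eta d]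
    exact h _ _ (by omega)

/-- `U` as a double sum of monomials -/
lemma eq_sum_ex {U : P2} {l : ℕ} (h0 : degreeOf 0 U ≤ l) (h1 : degreeOf 1 U ≤ l) :
    U = ∑ i ∈ Finset.range (l + 1), ∑ j ∈ Finset.range (l + 1),
      C (coeff (ex i j) U) * X 0 ^ i * X 1 ^ j := by
  apply ext_coeff
  intro i j
  rw [coeff_sum]
  have key : ∀ i' j' : ℕ, coeff (ex i j) (C (coeff (ex i' j') U) * X 0 ^ i' * X 1 ^ j' : P2) =
      if i' = i ∧ j' = j then coeff (ex i' j') U else 0 := by
    intro i' j'
    have : (C (coeff (ex i' j') U) * X 0 ^ i' * X 1 ^ j' : P2) =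
        monomial (ex i' j') (coeff (ex i' j') U) := by
      rw [X_pow_eq_monomial, X_pow_eq_monomial, C_mul_monomial, monomial_mul, single0, single1,
        ex_add]
      simp
    rw [this, coeff_monomial]
    simp only [ex_inj]
  simp_rw [coeff_sum, key]
  by_cases hi : i ≤ l
  · by_cases hj : j ≤ l
    · rw [Finset.sum_eq_single_of_mem i (by simp; omega)]
      · rw [Finset.sum_eq_single_of_mem j (by simp; omega)]
        · simp
        · intro b _ hb; rw [if_neg]; tauto
      · intro b _ hb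
        apply Finset.sum_eq_zero
        intro x _; rw [if_neg]; tauto
    · rw [coeff_eq_zero_of_deg1 h1 (by omega)]
      symm
      apply Finset.sum_eq_zero
      intro x _
      apply Finset.sum_eq_zero
      intro y hy
      rw [if_neg]
      simp at hy
      omega
  · rw [coeff_eq_zero_of_deg0 h0 (by omega)]
    symm
    apply Finset.sum_eq_zero
    intro x hx
    apply Finset.sum_eq_zero
    intro y hy
    rw [if_neg]
    simp at hx
    omega

lemma eval_eq_sum {U : P2} {l : ℕ} (h0 : degreeOf 0 U ≤ l) (h1 : degreeOf 1 U ≤ l) (x y : ℂ) :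
    eval ![x, y] U = ∑ i ∈ Finset.range (l + 1), ∑ j ∈ Finset.range (l + 1),
      coeff (ex i j) U * x ^ i * y ^ j := by
  conv_lhs => rw [eq_sum_ex h0 h1]
  simp [map_sum]

@[simp] lemma eval_shift (a b x y : ℂ) (U : P2) :
    eval ![x, y] (shift a b U) = eval ![x + a, y + b] U := by
  rw [shift, ← MvPolynomial.coe_aeval_eq_eval, ← MvPolynomial.coe_aeval_eq_eval]
  simp only [RingHom.coe_coe]
  rw [← AlgHom.comp_apply]
  congr 1
  apply MvPolynomial.algHom_ext
  intro i
  fin_cases i <;> simp

lemma shift_shift (a b a' b' : ℂ) (U : P2) :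
    shift a b (shift a' b' U) = shift (a + a') (b + b') U := by
  rw [shift, shift, shift, ← AlgHom.comp_apply]
  congr 1
  apply MvPolynomial.algHom_ext
  intro i
  fin_cases i
  · simp; ring
  · simp; ring

lemma shift_zero (U : P2) : shift 0 0 U = U := by
  rw [shift]
  conv_rhs => rw [← AlgHom.id_apply (R := ℂ) U]
  congr 1
  apply MvPolynomial.algHom_ext
  intro i
  fin_cases i <;> simp

end Pool.Agent.SHB
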