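import Pool.Agent.SHB.Rec

/-!
# Project SHB (MP_f77893_an), module GZero: `U` does not vanish on `w w' = -1`

PLAN. `Gpoly l U = ∑_{i,j ≤ l} u i j (-1)^j X^(l + i - j)`; the coefficient of `X^(l + m)` (`m ≥ 0`) is
`∑_{j ≤ l - m} (-1)^j u (j + m) j`. By `Spin.rec_coeff`, with `t j = (-1)^j u (j+m) j`:
`(j + m + 1)(j + 1) t (j+1) = (l - j - m)(l - j) t j`, so `t j = r j * u m 0` with `r j ≥ 0` real, `r 0 = 1`;
hence the coefficient is `(∑ r j) u m 0` with `∑ r j ≥ 1`. Similarly the coefficient of `X^(l - m)` is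
`∑_i (-1)^(i+m) u i (i + m) = (-1)^m (∑ r i) u 0 m`. So `Gpoly l U = 0` gives `u m 0 = 0`, `u 0 m = 0` for `m ≤ l`
(and for `m > l` by the degree bound), and `U = 0` by `Spin.eq_zero_of_edges`.
`G_eval`: for `w ≠ 0`, `(Gpoly l U).eval w = w^l * eval ![w, -1/w] U` (from `eval_eq_sum`, `j ≤ l`).
`not_dvd_one_add`: if `1 + X 0 X 1 ∣ U` then `(Gpoly l U).eval w = 0` for all `w ≠ 0`, so `Gpoly l U = 0`
(infinitely many roots), contradiction.
-/

set_option autoImplicit false

namespace Pool.Agent.SHB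

open MvPolynomial

theorem G_eval (l : ℕ) (U : P2) (h0 : degreeOf 0 U ≤ l) (h1 : degreeOf 1 U ≤ l) (w : ℂ)
    (hw : w ≠ 0) : (Gpoly l U).eval w = w ^ l * eval ![w, -1 / w] U := by
  rw [eval_eq_sum h0 h1, Gpoly, Polynomial.eval_finsetSum, Finset.mul_sum]
  refine Finset.sum_congr rfl fun i _ => ?_
  rw [Polynomial.eval_finsetSum, Finset.mul_sum]
  refine Finset.sum_congr rfl fun j hj => ?_
  rw [Finset.mem_range] at hj
  have hjl : j ≤ l := by omega
  rw [Polynomial.eval_mul, Polynomial.eval_C, Polynomial.eval_pow, Polynomial.eval_X]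
  have hwj : w ^ j ≠ 0 := pow_ne_zero _ hw
  have e1 : w ^ (l + i - j) * w ^ j = w ^ l * w ^ i := by
    rw [← pow_add, ← pow_add]
    congr 1
    omega
  have e2 : (-1 / w) ^ j * w ^ j = (-1) ^ j := by
    rw [← mul_pow, div_mul_cancel₀ _ hw]
  apply mul_right_cancel₀ hwj
  calc coeff (ex i j) U * (-1) ^ j * w ^ (l + i - j) * w ^ j
      = coeff (ex i j) U * (-1) ^ j * (w ^ (l + i - j) * w ^ j) := by ring
    _ = coeff (ex i j) U * ((-1 / w) ^ j * w ^ j) * (w ^ l * w ^ i) := by rw [e1, e2]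
    _ = w ^ l * (coeff (ex i j) U * w ^ i * (-1 / w) ^ j) * w ^ j := by ring

private theorem gzero_aux (l m : ℕ) (f : ℕ → ℂ)
    (hrec : ∀ j : ℕ, ((j : ℂ) + m + 1) * ((j : ℂ) + 1) * f (j + 1) =
      -(((l : ℂ) - (j + m)) * ((l : ℂ) - j)) * f j)
    (hz : ∀ j : ℕ, l < j + m → f j = 0)
    (hs : ∑ j ∈ Finset.range (l + 1), (-1) ^ j * f j = 0) : f 0 = 0 := by
  have key : ∀ j : ℕ, ∃ r : ℝ, 0 ≤ r ∧ (-1) ^ j * f j = (r : ℂ) * f 0 := by
    intro j
    induction j with
    | zero => exact ⟨1, zero_le_one, by simp⟩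
    | succ j ih =>
      obtain ⟨r, hr, hrj⟩ := ih
      rcases Nat.lt_or_ge l (j + m) with h | h
      · refine ⟨0, le_refl _, ?_⟩
        rw [hz (j + 1) (by omega)]
        simp
      · refine ⟨((l : ℝ) - (j + m)) * ((l : ℝ) - j) / (((j : ℝ) + m + 1) * ((j : ℝ) + 1)) * r,
          ?_, ?_⟩
        · have a1 : (0 : ℝ) ≤ (l : ℝ) - (j + m) := by
            have : ((j + m : ℕ) : ℝ) ≤ (l : ℝ) := by exact_mod_cast h
            push_cast at this
            linarith
          have a2 : (0 : ℝ) ≤ (l : ℝ) - j := by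
            have : ((j : ℕ) : ℝ) ≤ (l : ℝ) := by exact_mod_cast (by omega : j ≤ l)
            linarith
          positivity
        · have b1 : ((j : ℂ) + m + 1) ≠ 0 := by
            have : ((j + m + 1 : ℕ) : ℂ) ≠ 0 := by exact_mod_cast (Nat.succ_ne_zero (j + m))
            push_cast at this
            exact this
          have b2 : ((j : ℂ) + 1) ≠ 0 := by
            have : ((j + 1 : ℕ) : ℂ) ≠ 0 := by exact_mod_cast (Nat.succ_ne_zero j)
            push_cast at this
            exact this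
          have hr' := hrec j
          apply mul_left_cancel₀ (mul_ne_zero b1 b2)
          have e1 : (((((l : ℝ) - (j + m)) * ((l : ℝ) - j) / (((j : ℝ) + m + 1) * ((j : ℝ) + 1)) * r
              : ℝ)) : ℂ) = ((l : ℂ) - (j + m)) * ((l : ℂ) - j) /
                (((j : ℂ) + m + 1) * ((j : ℂ) + 1)) * (r : ℂ) := by
            push_cast
            ring
          rw [e1]
          calc ((j : ℂ) + m + 1) * ((j : ℂ) + 1) * ((-1) ^ (j + 1) * f (j + 1))
              = (-1) ^ (j + 1) * (((j : ℂ) + m + 1) * ((j : ℂ) + 1) * f (j + 1)) := by ring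
            _ = (-1) ^ (j + 1) * (-(((l : ℂ) - (j + m)) * ((l : ℂ) - j)) * f j) := by rw [hr']
            _ = ((l : ℂ) - (j + m)) * ((l : ℂ) - j) * ((-1) ^ j * f j) := by ring
            _ = ((l : ℂ) - (j + m)) * ((l : ℂ) - j) * ((r : ℂ) * f 0) := by rw [hrj]
            _ = ((j : ℂ) + m + 1) * ((j : ℂ) + 1) * (((l : ℂ) - (j + m)) * ((l : ℂ) - j) /
                (((j : ℂ) + m + 1) * ((j : ℂ) + 1)) * (r : ℂ) * f 0) := by
              field_simp
  choose r hr hrf using key
  rw [Finset.sum_range_succ'] at hs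
  simp only [hrf] at hs
  have h0 : (r 0 : ℂ) * f 0 = f 0 := by
    rw [← hrf 0]
    simp
  rw [h0, ← Finset.sum_mul] at hs
  have hs' : ((1 + ∑ k ∈ Finset.range l, r (k + 1) : ℝ) : ℂ) * f 0 = 0 := by
    push_cast
    rw [add_mul, one_mul, add_comm]
    exact hs
  have hpos : (0 : ℝ) < 1 + ∑ k ∈ Finset.range l, r (k + 1) := by
    have : 0 ≤ ∑ k ∈ Finset.range l, r (k + 1) := Finset.sum_nonneg fun k _ => hr _
    linarith
  rcases mul_eq_zero.1 hs' with h | h
  · exfalso
    have : (1 + ∑ k ∈ Finset.range l, r (k + 1) : ℝ) = 0 := by exact_mod_cast h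
    linarith
  · exact h

private theorem gzero_coeff (l : ℕ) (U : P2) (n : ℕ) :
    (Gpoly l U).coeff n = ∑ i ∈ Finset.range (l + 1), ∑ j ∈ Finset.range (l + 1),
      if n = l + i - j then coeff (ex i j) U * (-1) ^ j else 0 := by
  rw [Gpoly, Polynomial.finsetSum_coeff]
  refine Finset.sum_congr rfl fun i _ => ?_
  rw [Polynomial.finsetSum_coeff]
  refine Finset.sum_congr rfl fun j _ => ?_
  rw [Polynomial.coeff_C_mul_X_pow]

private theorem gzero_up {l : ℕ} {U : P2} (h0 : degreeOf 0 U ≤ l) (m : ℕ) :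
    (Gpoly l U).coeff (l + m) =
      ∑ j ∈ Finset.range (l + 1), (-1) ^ j * coeff (ex (j + m) j) U := by
  rw [gzero_coeff, Finset.sum_comm]
  refine Finset.sum_congr rfl fun j hj => ?_
  rw [Finset.mem_range] at hj
  rcases Nat.lt_or_ge l (j + m) with h | h
  · rw [coeff_eq_zero_of_deg0 h0 h, mul_zero]
    apply Finset.sum_eq_zero
    intro i hi
    rw [Finset.mem_range] at hi
    rw [if_neg (by omega)]
  · rw [Finset.sum_eq_single_of_mem (j + m) (by rw [Finset.mem_range]; omega)]
    · rw [if_pos (by omega)]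
      ring
    · intro b _ hb
      rw [if_neg (by omega)]

private theorem gzero_down {l : ℕ} {U : P2} (h1 : degreeOf 1 U ≤ l) {m : ℕ} (hm : m ≤ l) :
    (Gpoly l U).coeff (l - m) =
      ∑ i ∈ Finset.range (l + 1), (-1) ^ (i + m) * coeff (ex i (i + m)) U := by
  rw [gzero_coeff]
  refine Finset.sum_congr rfl fun i hi => ?_
  rw [Finset.mem_range] at hi
  rcases Nat.lt_or_ge l (i + m) with h | h
  · rw [coeff_eq_zero_of_deg1 h1 h, mul_zero]
    apply Finset.sum_eq_zero
    intro j hj
    rw [Finset.mem_range] at hj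
    rw [if_neg (by omega)]
  · rw [Finset.sum_eq_single_of_mem (i + m) (by rw [Finset.mem_range]; omega)]
    · rw [if_pos (by omega)]
      ring
    · intro b hb hb'
      rw [Finset.mem_range] at hb
      rw [if_neg (by omega)]

theorem Spin.G_ne_zero {l : ℕ} {U : P2} (hU : Spin l U) (h : U ≠ 0) : Gpoly l U ≠ 0 := by
  intro hG
  apply h
  apply hU.eq_zero_of_edges
  · intro m
    have hup := gzero_up hU.deg0 m
    rw [hG, Polynomial.coeff_zero] at hup
    have := gzero_aux l m (fun j => coeff (ex (j + m) j) U) ?_ ?_ hup.symm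
    · simpa using this
    · intro j
      have hr := hU.rec_coeff (j + m) j
      have e : j + 1 + m = j + m + 1 := by omega
      beta_reduce
      rw [e]
      push_cast at hr ⊢
      linear_combination hr
    · intro j hj
      exact coeff_eq_zero_of_deg0 hU.deg0 hj
  · intro m
    rcases Nat.lt_or_ge l m with hm | hm
    · exact coeff_eq_zero_of_deg1 hU.deg1 hm
    · have hdn := gzero_down hU.deg1 hm
      rw [hG, Polynomial.coeff_zero] at hdn
      have hs : ∑ i ∈ Finset.range (l + 1), (-1) ^ i * coeff (ex i (i + m)) U = 0 := by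
        have e : ∑ i ∈ Finset.range (l + 1), (-1) ^ (i + m) * coeff (ex i (i + m)) U =
            (-1) ^ m * ∑ i ∈ Finset.range (l + 1), (-1) ^ i * coeff (ex i (i + m)) U := by
          rw [Finset.mul_sum]
          refine Finset.sum_congr rfl fun i _ => ?_
          rw [pow_add]
          ring
        rw [e] at hdn
        rcases mul_eq_zero.1 hdn.symm with h2 | h2
        · exfalso
          exact pow_ne_zero m (by norm_num : (-1 : ℂ) ≠ 0) h2
        · exact h2
      have := gzero_aux l m (fun j => coeff (ex j (j + m)) U) ?_ ?_ hs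
      · simpa using this
      · intro j
        have hr := hU.rec_coeff j (j + m)
        have e : j + 1 + m = j + m + 1 := by omega
        beta_reduce
        rw [e]
        push_cast at hr ⊢
        linear_combination hr
      · intro j hj
        exact coeff_eq_zero_of_deg1 hU.deg1 hj

theorem Spin.not_dvd_one_add {l : ℕ} {U : P2} (hU : Spin l U) (h : U ≠ 0) :
    ¬ ((1 + X 0 * X 1 : P2) ∣ U) := by
  rintro ⟨V, hV⟩
  apply hU.G_ne_zero h
  apply Polynomial.eq_zero_of_infinite_isRoot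
  have hsub : {w : ℂ | w ≠ 0} ⊆ {w : ℂ | (Gpoly l U).IsRoot w} := by
    intro w hw
    have hw' : w ≠ 0 := hw
    change (Gpoly l U).eval w = 0
    rw [G_eval l U hU.deg0 hU.deg1 w hw', hV, map_mul]
    have e : eval ![w, -1 / w] (1 + X 0 * X 1 : P2) = 0 := by
      simp only [map_add, map_mul, map_one, eval_X, Matrix.cons_val_zero, Matrix.cons_val_one]
      field_simp
      ring
    rw [e]
    ring
  refine Set.Infinite.mono hsub ?_
  have : ({w : ℂ | w ≠ 0}) = ({0} : Set ℂ)ᶜ := by
    ext w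
    simp
  rw [this]
  exact (Set.finite_singleton (0 : ℂ)).infinite_compl

end Pool.Agent.SHB
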