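import Pool.Agent.SHB.Ex

/-!
# Project SHB (MP_f77893_an), module RealU: real polynomials and the map of the plane into the space

`sphV a w` is the real vector `w A + conj w B + (1 - |w|^2) P` with `b = conj a`; `UU (cx u) a (conj a)`
is real and its value at `(w, conj w)` is `u (sphV a w)`.
-/

set_option autoImplicit false

namespace Pool.Agent.SHB

open MvPolynomial

/-- the real vector `w A + conj w B + (1 - |w|^2) P` -/
noncomputable def sphV (a w : ℂ) : Fin 3 → ℝ := fun i =>
  (eval ![w, (starRingEnd ℂ) w] (phi a ((starRingEnd ℂ) a) i)).re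

private lemma realU_im (a w : ℂ) (i : Fin 3) :
    (eval ![w, (starRingEnd ℂ) w] (phi a ((starRingEnd ℂ) a) i)).im = 0 := by
  fin_cases i
  · simp [phi, frA, frB, frP, pow_two]
    ring
  · simp [phi, frA, frB, frP, pow_two]
    ring
  · simp [phi, frA, frB, frP, pow_two]
    ring

theorem sphV_eq (a w : ℂ) (i : Fin 3) :
    eval ![w, (starRingEnd ℂ) w] (phi a ((starRingEnd ℂ) a) i) = (sphV a w i : ℂ) := by
  apply Complex.ext
  · rw [Complex.ofReal_re]
    rfl
  · rw [Complex.ofReal_im]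
    exact realU_im a w i

private lemma realU_norm (a b x y : ℂ) :
    ∑ i : Fin 3, (eval ![x, y] (phi a b i)) ^ 2 = ((1 + a * b) * (1 + x * y)) ^ 2 := by
  rw [Fin.sum_univ_three]
  simp only [phi, frA, frB, frP, map_add, map_mul, map_sub, map_one, eval_C, eval_X,
    Matrix.cons_val_zero, Matrix.cons_val_one, Matrix.cons_val]
  linear_combination ((a ^ 2 + 1) * x - (b ^ 2 + 1) * y + (a - b) * (1 - x * y)) ^ 2 *
    Complex.I_sq

theorem norm_sphV (a w : ℂ) :
    ∑ i : Fin 3, sphV a w i ^ 2 = ((1 + ‖a‖ ^ 2) * (1 + ‖w‖ ^ 2)) ^ 2 := by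
  have h1 := realU_norm a ((starRingEnd ℂ) a) w ((starRingEnd ℂ) w)
  have h2 : ∀ z : ℂ, z * (starRingEnd ℂ) z = ((‖z‖ ^ 2 : ℝ) : ℂ) := by
    intro z
    rw [Complex.mul_conj, Complex.normSq_eq_norm_sq]
  rw [h2, h2, Finset.sum_congr rfl fun i _ => by rw [sphV_eq a w i]] at h1
  exact_mod_cast h1

private lemma realU_C (r : ℝ) (a b : ℂ) : UU (cx (C r)) a b = C (r : ℂ) := by
  rw [cx, map_C, UU, aeval_C]
  rfl

private lemma realU_add (p q : MvPolynomial (Fin 3) ℝ) (a b : ℂ) :
    UU (cx (p + q)) a b = UU (cx p) a b + UU (cx q) a b := by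
  rw [cx, map_add, UU, map_add]
  rfl

private lemma realU_mulX (p : MvPolynomial (Fin 3) ℝ) (i : Fin 3) (a b : ℂ) :
    UU (cx (p * X i)) a b = UU (cx p) a b * phi a b i := by
  rw [cx, map_mul, map_X, UU, map_mul, aeval_X]
  rfl

theorem eval_UU (u : MvPolynomial (Fin 3) ℝ) (a w : ℂ) :
    eval ![w, (starRingEnd ℂ) w] (UU (cx u) a ((starRingEnd ℂ) a)) =
      ((eval (sphV a w) u : ℝ) : ℂ) := by
  induction u using MvPolynomial.induction_on with
  | C r => rw [realU_C, eval_C, eval_C]
  | add p q hp hq =>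
    rw [realU_add, map_add, map_add, hp, hq, Complex.ofReal_add]
  | mul_X p i hp =>
    rw [realU_mulX, map_mul, map_mul, hp, sphV_eq, eval_X, Complex.ofReal_mul]

theorem Vf_UU (u : MvPolynomial (Fin 3) ℝ) (a w : ℂ) :
    Vf (UU (cx u) a ((starRingEnd ℂ) a)) w = eval (sphV a w) u := by
  rw [Vf, eval_UU, Complex.ofReal_re]

/-- exchange of the variables and conjugation of the coefficients -/
private noncomputable def realU_tau : P2 →+* P2 :=
  ((rename (Equiv.swap (0 : Fin 2) 1) : P2 →ₐ[ℂ] P2) : P2 →+* P2).comp (map (starRingEnd ℂ))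

private lemma realU_tau_C (c : ℂ) : realU_tau (C c) = C ((starRingEnd ℂ) c) := by
  simp [realU_tau]

private lemma realU_tau_X0 : realU_tau (X 0) = X 1 := by
  simp [realU_tau]

private lemma realU_tau_X1 : realU_tau (X 1) = X 0 := by
  simp [realU_tau]

private lemma realU_tau_phi (a : ℂ) (i : Fin 3) :
    realU_tau (phi a ((starRingEnd ℂ) a) i) = phi a ((starRingEnd ℂ) a) i := by
  have h1 : (starRingEnd ℂ) (frA a i) = frB ((starRingEnd ℂ) a) i := by
    fin_cases i
    · simp [frA, frB]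
    · simp [frA, frB]
    · simp [frA, frB]
      left
      exact map_ofNat (starRingEnd ℂ) 2
  have h2 : (starRingEnd ℂ) (frB ((starRingEnd ℂ) a) i) = frA a i := by
    rw [← h1, Complex.conj_conj]
  have h3 : (starRingEnd ℂ) (frP a ((starRingEnd ℂ) a) i) = frP a ((starRingEnd ℂ) a) i := by
    fin_cases i
    · simp [frP]
      ring
    · simp [frP]
      ring
    · simp [frP]
      ring
  rw [phi, map_add, map_add, map_mul, map_mul, map_mul, map_sub, map_mul, map_one, realU_tau_C,
    realU_tau_C, realU_tau_C, realU_tau_X0, realU_tau_X1, h1, h2, h3]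
  ring

private lemma realU_tau_UU (u : MvPolynomial (Fin 3) ℝ) (a : ℂ) :
    realU_tau (UU (cx u) a ((starRingEnd ℂ) a)) = UU (cx u) a ((starRingEnd ℂ) a) := by
  induction u using MvPolynomial.induction_on with
  | C r => rw [realU_C, realU_tau_C, Complex.conj_ofReal]
  | add p q hp hq => rw [realU_add, map_add, hp, hq]
  | mul_X p i hp => rw [realU_mulX, map_mul, hp, realU_tau_phi]

private lemma realU_coeff (i j : ℕ) (U : P2) :
    coeff (ex j i) (realU_tau U) = (starRingEnd ℂ) (coeff (ex i j) U) := by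
  have h1 : Finsupp.mapDomain (Equiv.swap (0 : Fin 2) 1) (ex i j) = ex j i := by
    rw [ex, Finsupp.mapDomain_add, Finsupp.mapDomain_single, Finsupp.mapDomain_single,
      Equiv.swap_apply_left, Equiv.swap_apply_right, ex, add_comm]
  have h2 := coeff_rename_mapDomain (Equiv.swap (0 : Fin 2) 1)
    (Equiv.injective (Equiv.swap (0 : Fin 2) 1)) (map (starRingEnd ℂ) U) (ex i j)
  rw [h1, coeff_map] at h2
  exact h2

theorem real_UU (u : MvPolynomial (Fin 3) ℝ) (a : ℂ) : RealP (UU (cx u) a ((starRingEnd ℂ) a)) := by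
  intro i j
  rw [← realU_coeff, realU_tau_UU]

end Pool.Agent.SHB
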