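import Pool.Agent.SHB.Rec
import Pool.Agent.SHB.RealU

/-!
# Project SHB (MP_f77893_an), module Gen: a generic axis

PLAN. Let `Q : P2 = aeval ![X 0 + X 1, C I * (X 0 - X 1), 1 - X 0 * X 1] (cx u)` (so `eval ![a, b] Q = u(frP a b)`), and
`Q1 = C l * X 0 * Q - (1 + X 0 * X 1) * pderiv 1 Q`.
(1) `coeff (ex 0 0) (UU (cx u) a b) = eval ![a, b] Q` (value at `w = w' = 0`: `phi a b i` at `(0,0)` is `frP a b i`).
(2) `coeff (ex 1 0) (UU (cx u) a b) = eval ![a, b] Q1`: the left side is `∂_w U (0, 0) = ∑ u_i(P) A_i` (chain rule), and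
`A = a P - (1 + a b) ∂_b P` (check the three components: `∂_b P = (1, -I, -a)`), `∑ P_i u_i(P) = l u(P)` (Euler),
`∑ u_i(P) ∂_b P_i = ∂_b Q`.
(3) `Spin l Q`: hypothesis `hS` (for `a = b = 0`: `UU (cx u) 0 0 = u(-(w+w'), i(w - w'), 1 - w w')` is `Spin l`, and
`Q(a, b) = UU (cx u) 0 0 (-b, -a)`; the equation is invariant under `(w, w') ↦ (-w', -w)`: coefficients
`coeff (ex i j) Q = (-1)^(i+j) coeff (ex j i) (UU (cx u) 0 0)`).
(4) `Q ≠ 0`: if `Q = 0` then `u(P(a, conj a)) = 0` for all `a`; for `x` in the open set `{x 2 > 0}` put `r = |x|`,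
`a = (x 0 - i x 1)/(r + x 2)`: then `P(a, conj a) = (2/(r + x 2)) x`. (`P = (2 Re a, -2 Im a, 1 - |a|^2)`.) So `u` vanishes at all points of
`(0,1)^3`, and `u = 0` (`MvPolynomial.funext_set` or similar, with infinite sets), contradiction.
(5) `Q1 ≠ 0`: let `q i j = coeff (ex i j) Q`; `Q1 = 0` gives (coefficient of `ex i j`, `i ≥ 1`, resp. `i = 0`)
`(j+1) q i (j+1) = (l - j) q (i-1) j`, `(j + 1) q 0 (j+1) = 0`. With the recursion of `Spin`
(`(i+1)(j+1) q (i+1)(j+1) = -(l-i)(l-j) q i j`): `q 0 j = 0` for `j ≥ 1`; `j = 0`: `q (i+1) 1 = l q i 0` and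
`(i+1) q (i+1) 1 = -(l-i) l q i 0`, so `l (l + 1) q i 0 = 0` and `q i 0 = 0` (`l ≥ 1`) for all `i`; hence `Q = 0` by
`Spin.eq_zero_of_edges`, contradiction.
(6) The product `F = Q * Q1 * X 0 * ∏_{t ∈ T} ((1 - C t * X 0) * (X 1 + C t))` is a nonzero polynomial; `exists_conj`: a nonzero
`F : P2` has a point `(a, conj a)` with `eval ![a, conj a] F ≠ 0` (substitute `a = x + i y`, `conj a = x - i y`: an invertible linear change of
variables `F ↦ aeval ![X 0 + C I X 1, X 0 - C I X 1] F`, and a nonzero polynomial does not vanish on all real points,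
`MvPolynomial.funext_set` with the infinite set of reals).
-/

set_option autoImplicit false

namespace Pool.Agent.SHB

open MvPolynomial

private lemma eval_aeval {σ : Type*} (x : Fin 2 → ℂ) (g : σ → P2) (u : MvPolynomial σ ℂ) :
    eval x (aeval g u) = eval (fun i => eval x (g i)) u := by
  have h := comp_aeval_apply (R := ℂ) (f := g) (aeval x : P2 →ₐ[ℂ] ℂ) u
  simpa only [aeval_eq_eval] using h

theorem exists_conj {F : P2} (hF : F ≠ 0) : ∃ a : ℂ, eval ![a, (starRingEnd ℂ) a] F ≠ 0 := by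
  by_contra hne
  push Not at hne
  set g : Fin 2 → P2 := ![X 0 + C Complex.I * X 1, X 0 - C Complex.I * X 1] with hg
  set g' : Fin 2 → P2 := ![C (1 / 2) * (X 0 + X 1), C (-Complex.I / 2) * (X 0 - X 1)] with hg'
  have hG : (aeval g F : P2) = 0 := by
    apply funext_set (fun _ : Fin 2 => Set.range (fun t : ℝ => (t : ℂ)))
      (fun _ => Set.infinite_range_of_injective Complex.ofReal_injective)
    intro x hx
    obtain ⟨x0, hx0⟩ := hx 0 (Set.mem_univ _)
    obtain ⟨x1, hx1⟩ := hx 1 (Set.mem_univ _)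
    simp only at hx0 hx1
    rw [eval_aeval, map_zero]
    have h1 := hne ((x0 : ℂ) + Complex.I * x1)
    have h2 : (fun i => eval x (g i)) =
        ![(x0 : ℂ) + Complex.I * x1, (starRingEnd ℂ) ((x0 : ℂ) + Complex.I * x1)] := by
      funext i
      fin_cases i
      · simp [hg, ← hx0, ← hx1]
      · simp [hg, ← hx0, ← hx1, sub_eq_add_neg]
    rw [h2]
    exact h1
  apply hF
  have h3 : (aeval g' (aeval g F) : P2) = F := by
    rw [comp_aeval_apply (R := ℂ) (f := g) (aeval g' : P2 →ₐ[ℂ] P2) F]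
    have h4 : (fun i => aeval g' (g i)) = (X : Fin 2 → P2) := by
      funext i
      have e1 : (C (1 / 2 : ℂ) : P2) + C (1 / 2) = 1 := by
        rw [← C_add, ← C_1]; norm_num
      have e2 : (C Complex.I : P2) * C (-Complex.I / 2) = C (1 / 2) := by
        rw [← C_mul]
        congr 1
        linear_combination (-1 / 2 : ℂ) * Complex.I_mul_I
      fin_cases i
      · simp only [hg, hg', Fin.zero_eta, Matrix.cons_val_zero, map_add, map_mul, aeval_X, aeval_C,
          Matrix.cons_val_one, algebraMap_eq]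
        linear_combination (X 0 - X 1 : P2) * e2 + (X 0 : P2) * e1
      · simp only [hg, hg', Fin.mk_one, Matrix.cons_val_zero, map_sub, map_mul, aeval_X, aeval_C,
          Matrix.cons_val_one, algebraMap_eq]
        linear_combination -(X 0 - X 1 : P2) * e2 + (X 1 : P2) * e1
    rw [h4]
    exact aeval_X_left_apply F
  rw [← h3, hG, map_zero]

/-- `u (P)` -/
private noncomputable def QQ (u : MvPolynomial (Fin 3) ℂ) : P2 :=
  aeval (![X 0 + X 1, C Complex.I * (X 0 - X 1), 1 - X 0 * X 1] : Fin 3 → P2) u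

private lemma eval_QQ (u : MvPolynomial (Fin 3) ℂ) (a b : ℂ) :
    eval ![a, b] (QQ u) = eval (frP a b) u := by
  rw [QQ, eval_aeval]
  have : (fun i => eval ![a, b] ((![X 0 + X 1, C Complex.I * (X 0 - X 1), 1 - X 0 * X 1] :
      Fin 3 → P2) i)) = frP a b := by
    funext i
    fin_cases i
    · simp [frP]
    · simp [frP]
    · simp [frP]
  rw [this]

private lemma coeff00 (U : P2) : coeff (ex 0 0) U = eval ![0, 0] U := by
  have h : (![0, 0] : Fin 2 → ℂ) = fun _ => 0 := by
    funext i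
    fin_cases i <;> rfl
  rw [h, eval_zero', ex_00]
  rfl

private lemma eval00_phi (a b : ℂ) :
    (fun i => eval ![0, 0] (phi a b i)) = frP a b := by
  funext i
  simp [phi]

private lemma coeff00_UU (u : MvPolynomial (Fin 3) ℂ) (a b : ℂ) :
    coeff (ex 0 0) (UU u a b) = eval ![a, b] (QQ u) := by
  rw [coeff00, UU, eval_aeval, eval00_phi, eval_QQ]

/-- the chain rule -/
private lemma chain (D : Derivation ℂ P2 P2) (g : Fin 3 → P2) (u : MvPolynomial (Fin 3) ℂ) :
    D (aeval g u) = ∑ i, aeval g (pderiv i u) * D (g i) := by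
  induction u using MvPolynomial.induction_on with
  | C c =>
    rw [aeval_C, Derivation.map_algebraMap]
    simp
  | add p q hp hq =>
    rw [map_add, map_add, hp, hq, ← Finset.sum_add_distrib]
    refine Finset.sum_congr rfl fun i _ => ?_
    rw [map_add, map_add, add_mul]
  | mul_X p j hp =>
    rw [map_mul, aeval_X, Derivation.leibniz, hp]
    have h1 : ∀ i, aeval g (pderiv i (p * X j)) * D (g i) =
        g j * (aeval g (pderiv i p) * D (g i)) +
          (if i = j then aeval g p * D (g i) else 0) := by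
      intro i
      rw [Derivation.leibniz, pderiv_X, map_add, smul_eq_mul, smul_eq_mul, map_mul, map_mul,
        aeval_X]
      by_cases h : i = j
      · subst h
        simp only [Pi.single_eq_same, map_one, if_true]
        ring
      · have h2 : (Pi.single i (1 : MvPolynomial (Fin 3) ℂ) : Fin 3 → MvPolynomial (Fin 3) ℂ) j
            = 0 := Pi.single_eq_of_ne (Ne.symm h) _
        rw [h2, map_zero, if_neg h]
        ring
    rw [Finset.sum_congr rfl (fun i _ => h1 i), Finset.sum_add_distrib, ← Finset.mul_sum,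
      Finset.sum_ite_eq' Finset.univ j]
    simp only [Finset.mem_univ, if_true, smul_eq_mul]
    ring

private noncomputable def QQ1 (l : ℕ) (u : MvPolynomial (Fin 3) ℂ) : P2 :=
  C (l : ℂ) * X 0 * QQ u - (1 + X 0 * X 1) * pderiv 1 (QQ u)

private lemma coeff10_UU (l : ℕ) (u : MvPolynomial (Fin 3) ℂ) (hu : u.IsHomogeneous l) (a b : ℂ) :
    coeff (ex 1 0) (UU u a b) = eval ![a, b] (QQ1 l u) := by
  have h1 : coeff (ex 1 0) (UU u a b) = eval ![0, 0] (pderiv 0 (UU u a b)) := by
    rw [← coeff00, coeff_pderiv0]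
    simp
  have h2 : eval ![0, 0] (pderiv 0 (UU u a b)) =
      ∑ i, eval (frP a b) (pderiv i u) * frA a i := by
    rw [UU, chain, map_sum]
    refine Finset.sum_congr rfl fun i _ => ?_
    rw [map_mul, eval_aeval, eval00_phi]
    congr 1
    simp [phi, pderiv_X]
  have h3 : eval ![a, b] (pderiv 1 (QQ u)) =
      ∑ i, eval (frP a b) (pderiv i u) * (![1, -Complex.I, -a] : Fin 3 → ℂ) i := by
    rw [QQ, chain, map_sum]
    refine Finset.sum_congr rfl fun i _ => ?_
    have h4 : eval ![a, b] (aeval (![X 0 + X 1, C Complex.I * (X 0 - X 1), 1 - X 0 * X 1] :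
        Fin 3 → P2) (pderiv i u)) = eval (frP a b) (pderiv i u) := eval_QQ (pderiv i u) a b
    rw [map_mul, h4]
    congr 1
    fin_cases i
    · simp [pderiv_X]
    · simp [pderiv_X]
    · simp [pderiv_X]
  have h5 : ∑ i, frP a b i * eval (frP a b) (pderiv i u) = (l : ℂ) * eval (frP a b) u := by
    have h6 := congrArg (eval (frP a b)) hu.sum_X_mul_pderiv
    rw [map_sum, map_nsmul, nsmul_eq_mul] at h6
    rw [← h6]
    refine Finset.sum_congr rfl fun i _ => ?_
    rw [map_mul, eval_X]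
  rw [h1, h2, QQ1, map_sub, map_mul, map_mul, map_mul, h3, eval_QQ]
  simp only [eval_C, eval_X, map_add, map_one, map_mul, Matrix.cons_val_zero, Matrix.cons_val_one]
  have h7 : (l : ℂ) * a * eval (frP a b) u = a * ((l : ℂ) * eval (frP a b) u) := by ring
  rw [h7, ← h5]
  simp only [Fin.sum_univ_three, frA, frP, Matrix.cons_val_zero, Matrix.cons_val_one,
    Matrix.cons_val_two, Matrix.tail_cons, Matrix.head_cons, Matrix.cons_val]
  ring

private noncomputable def theta (U : P2) : P2 := aeval (![-X 1, -X 0] : Fin 2 → P2) U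

private lemma theta_monomial (d : Fin 2 →₀ ℕ) (c : ℂ) :
    theta (monomial d c) = monomial (ex (d 1) (d 0)) ((-1) ^ (d 0 + d 1) * c) := by
  rw [theta, aeval_monomial, Finsupp.prod_fintype _ _ (fun i => pow_zero _), Fin.prod_univ_two]
  simp only [Matrix.cons_val_zero, Matrix.cons_val_one, algebraMap_eq]
  rw [neg_pow (X 1 : P2), neg_pow (X 0 : P2), X_pow_eq_monomial, X_pow_eq_monomial, single0, single1]
  have h1 : (monomial (ex (d 1) (d 0)) ((-1) ^ (d 0 + d 1) * c) : P2) =
      C ((-1) ^ (d 0 + d 1) * c) * (monomial (ex 0 (d 0)) 1 * monomial (ex (d 1) 0) 1) := by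
    rw [monomial_mul, ex_add, C_mul_monomial]
    simp
  rw [h1, C_mul, C_pow, C_neg, C_1, pow_add]
  ring

private lemma coeff_theta (U : P2) (i j : ℕ) :
    coeff (ex i j) (theta U) = (-1) ^ (i + j) * coeff (ex j i) U := by
  induction U using MvPolynomial.induction_on' with
  | monomial d c =>
    rw [theta_monomial, coeff_monomial, coeff_monomial, ← ex_eta d]
    simp only [ex_zero_apply, ex_one_apply]
    by_cases h : ex (d 1) (d 0) = ex i j
    · obtain ⟨h0, h1⟩ := ex_inj.1 h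
      rw [if_pos h, if_pos (by rw [h0, h1]), h0, h1, add_comm j i]
    · rw [if_neg h, if_neg, mul_zero]
      intro h'
      obtain ⟨h0, h1⟩ := ex_inj.1 h'
      exact h (by rw [h0, h1])
  | add p q hp hq =>
    have h : theta (p + q) = theta p + theta q := by rw [theta, map_add]; rfl
    rw [h, coeff_add, coeff_add, hp, hq, mul_add]

private lemma spin_theta {l : ℕ} {U : P2} (hU : Spin l U) : Spin l (theta U) where
  deg0 := by
    rw [deg0_le_iff]
    intro i j hi
    rw [coeff_theta, coeff_eq_zero_of_deg1 hU.deg1 hi, mul_zero]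
  deg1 := by
    rw [deg1_le_iff]
    intro i j hj
    rw [coeff_theta, coeff_eq_zero_of_deg0 hU.deg0 hj, mul_zero]
  pde := by
    have key : ∀ (V : P2) (i j : ℕ), coeff (ex i j) ((1 + X 0 * X 1) * pderiv 0 (pderiv 1 V) -
        C (l : ℂ) * (X 0 * pderiv 0 V + X 1 * pderiv 1 V - C (l : ℂ) * V)) =
        ((i : ℂ) + 1) * ((j : ℂ) + 1) * coeff (ex (i + 1) (j + 1)) V
          + (i : ℂ) * j * coeff (ex i j) V - l * ((i : ℂ) * coeff (ex i j) V
          + (j : ℂ) * coeff (ex i j) V - l * coeff (ex i j) V) := by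
      intro V i j
      rw [add_mul, one_mul, coeff_sub, coeff_add, coeff_pderiv01, coeff_XX_pderiv01, coeff_C_mul,
        coeff_sub, coeff_add, coeff_X0_pderiv, coeff_X1_pderiv, coeff_C_mul]
    rw [← sub_eq_zero]
    apply ext_coeff
    intro i j
    rw [key, coeff_theta, coeff_theta, coeff_zero]
    have h1 := key U j i
    rw [sub_eq_zero.2 hU.pde, coeff_zero] at h1
    have h2 : ((-1 : ℂ)) ^ (i + 1 + (j + 1)) = (-1) ^ (i + j) := by
      rw [show i + 1 + (j + 1) = i + j + 2 by ring, pow_add]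
      norm_num
    rw [h2]
    linear_combination -((-1 : ℂ) ^ (i + j)) * h1

private lemma QQ_eq_theta (u : MvPolynomial (Fin 3) ℂ) : QQ u = theta (UU u 0 0) := by
  rw [theta, UU, comp_aeval_apply (R := ℂ) (f := phi 0 0)
    (aeval (![-X 1, -X 0] : Fin 2 → P2) : P2 →ₐ[ℂ] P2) u, QQ]
  have h : (![X 0 + X 1, C Complex.I * (X 0 - X 1), 1 - X 0 * X 1] : Fin 3 → P2) =
      fun i => aeval (![-X 1, -X 0] : Fin 2 → P2) (phi 0 0 i) := by
    funext i
    fin_cases i
    · simp [phi, frA, frB, frP]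
      ring
    · simp [phi, frA, frB, frP]
      ring
    · simp [phi, frA, frB, frP]
      ring
  rw [h]

private lemma eval_smul_hom {u : MvPolynomial (Fin 3) ℝ} {l : ℕ} (hu : u.IsHomogeneous l)
    (c : ℝ) (x : Fin 3 → ℝ) : eval (fun i => c * x i) u = c ^ l * eval x u := by
  rw [eval_eq', eval_eq', Finset.mul_sum]
  refine Finset.sum_congr rfl fun d hd => ?_
  have h1 : ∑ i, d i = l := by
    have h2 := hu (mem_support_iff.1 hd)
    rw [Finsupp.weight_apply, Finsupp.sum_fintype _ _ (fun i => by simp)] at h2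
    simpa using h2
  simp only [mul_pow]
  rw [Finset.prod_mul_distrib, Finset.prod_pow_eq_pow_sum, h1]
  ring

private lemma QQ_ne_zero {u : MvPolynomial (Fin 3) ℝ} {l : ℕ} (hu : u.IsHomogeneous l)
    (h : u ≠ 0) : QQ (cx u) ≠ 0 := by
  intro h0
  apply h
  apply funext_set (fun _ : Fin 3 => Set.Ioi (0 : ℝ)) (fun _ => Set.Ioi_infinite 0)
  intro x hx
  have hx2 : 0 < x 2 := hx 2 (Set.mem_univ _)
  rw [map_zero]
  set r : ℝ := Real.sqrt (x 0 ^ 2 + x 1 ^ 2 + x 2 ^ 2) with hr
  have hr2 : r ^ 2 = x 0 ^ 2 + x 1 ^ 2 + x 2 ^ 2 := Real.sq_sqrt (by positivity)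
  have hr0 : 0 ≤ r := Real.sqrt_nonneg _
  have hs : 0 < r + x 2 := by linarith
  set a : ℂ := ((x 0 / (r + x 2) : ℝ) : ℂ) - Complex.I * ((x 1 / (r + x 2) : ℝ) : ℂ) with ha
  have hP : frP a ((starRingEnd ℂ) a) = fun i => (((2 / (r + x 2)) * x i : ℝ) : ℂ) := by
    have hc : (starRingEnd ℂ) a =
        ((x 0 / (r + x 2) : ℝ) : ℂ) + Complex.I * ((x 1 / (r + x 2) : ℝ) : ℂ) := by
      simp [ha, Complex.conj_ofReal]
    rw [hc, ha]
    funext i
    fin_cases i
    · simp only [frP, Fin.zero_eta, Matrix.cons_val_zero]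
      push_cast
      ring
    · simp only [frP, Fin.mk_one, Matrix.cons_val_one, Matrix.cons_val_zero]
      push_cast
      linear_combination (-2 * ((x 1 : ℂ) / ((r : ℂ) + (x 2 : ℂ)))) * Complex.I_mul_I
    · simp only [frP, Fin.reduceFinMk, Matrix.cons_val]
      have h3 : (1 : ℝ) - ((x 0 / (r + x 2)) ^ 2 + (x 1 / (r + x 2)) ^ 2) =
          2 / (r + x 2) * x 2 := by
        field_simp
        nlinarith [hr2]
      rw [← h3]
      push_cast
      linear_combination (((x 1 : ℂ) / ((r : ℂ) + (x 2 : ℂ))) ^ 2) * Complex.I_mul_I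
  have h1 : eval (frP a ((starRingEnd ℂ) a)) (cx u) = 0 := by
    rw [← eval_QQ, h0, map_zero]
  have h2 : eval (fun i => (((2 / (r + x 2)) * x i : ℝ) : ℂ)) (cx u) =
      ((eval (fun i => (2 / (r + x 2)) * x i) u : ℝ) : ℂ) := by
    rw [cx, eval_map]
    exact (eval₂_comp (Complex.ofRealHom) (fun i => (2 / (r + x 2)) * x i) u).symm
  rw [hP, h2, eval_smul_hom hu] at h1
  have h3 : (2 / (r + x 2)) ^ l * eval x u = 0 := by exact_mod_cast h1
  rcases mul_eq_zero.1 h3 with h4 | h4
  · exact absurd h4 (by positivity)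
  · exact h4

private lemma QQ1_ne_zero {u : MvPolynomial (Fin 3) ℂ} {l : ℕ} (hl : 1 ≤ l)
    (hS : Spin l (QQ u)) (h : QQ u ≠ 0) : QQ1 l u ≠ 0 := by
  intro h0
  apply h
  have hc0 : ∀ j, coeff (ex 0 (j + 1)) (QQ u) = 0 := by
    intro j
    have h1 := congrArg (coeff (ex 0 j)) h0
    rw [QQ1, add_mul, one_mul, coeff_sub, coeff_add, mul_assoc (C (l : ℂ)), coeff_C_mul,
      coeff_X0_mul_zero, coeff_pderiv1, mul_assoc (X 0 : P2), coeff_X0_mul_zero, coeff_zero] at h1
    have h2 : ((j : ℂ) + 1) * coeff (ex 0 (j + 1)) (QQ u) = 0 := by linear_combination -h1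
    rcases mul_eq_zero.1 h2 with h3 | h3
    · exact absurd h3 (by exact_mod_cast Nat.succ_ne_zero j)
    · exact h3
  have hc1 : ∀ i, coeff (ex i 0) (QQ u) = 0 := by
    intro i
    have h1 := congrArg (coeff (ex (i + 1) 0)) h0
    rw [QQ1, add_mul, one_mul, coeff_sub, coeff_add, mul_assoc (C (l : ℂ)), coeff_C_mul,
      coeff_X0_mul, coeff_pderiv1, mul_assoc (X 0 : P2), coeff_X0_mul, coeff_X1_pderiv,
      coeff_zero] at h1
    have h2 := hS.rec_coeff i 0
    simp only [Nat.cast_zero, zero_add, zero_mul, add_zero, one_mul, mul_one, sub_zero] at h1 h2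
    have hl' : (l : ℂ) ≠ 0 := by exact_mod_cast (show l ≠ 0 by omega)
    have hl1 : (l : ℂ) + 1 ≠ 0 := by exact_mod_cast Nat.succ_ne_zero l
    have h3 : (l : ℂ) * (((l : ℂ) + 1) * coeff (ex i 0) (QQ u)) = 0 := by
      linear_combination ((i : ℂ) + 1) * h1 + h2
    rcases mul_eq_zero.1 h3 with h4 | h4
    · exact absurd h4 hl'
    · rcases mul_eq_zero.1 h4 with h5 | h5
      · exact absurd h5 hl1
      · exact h5
  apply hS.eq_zero_of_edges hc1
  intro j
  rcases j with _ | j
  · exact hc1 0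
  · exact hc0 j

theorem exists_generic (u : MvPolynomial (Fin 3) ℝ) (l : ℕ) (hl : 1 ≤ l) (hu : u.IsHomogeneous l)
    (hS : Spin l (UU (cx u) 0 0)) (h : u ≠ 0) (T : Finset ℂ) :
    ∃ a : ℂ, a ≠ 0 ∧ coeff (ex 0 0) (UU (cx u) a ((starRingEnd ℂ) a)) ≠ 0 ∧
      coeff (ex 1 0) (UU (cx u) a ((starRingEnd ℂ) a)) ≠ 0 ∧
      ∀ t ∈ T, 1 - t * a ≠ 0 ∧ (starRingEnd ℂ) a + t ≠ 0 := by
  have hS' : Spin l (QQ (cx u)) := by
    rw [QQ_eq_theta]
    exact spin_theta hS
  have hQ : QQ (cx u) ≠ 0 := QQ_ne_zero hu h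
  have hQ1 : QQ1 l (cx u) ≠ 0 := QQ1_ne_zero hl hS' hQ
  have hX : (X 0 : P2) ≠ 0 := X_ne_zero 0
  have hT : (∏ t ∈ T, ((1 - C t * X 0) * (X 1 + C t)) : P2) ≠ 0 := by
    apply Finset.prod_ne_zero_iff.2
    intro t _
    apply mul_ne_zero
    · intro h1
      have h2 := congrArg (eval ![0, 0]) h1
      simp at h2
    · intro h1
      have h2 := congrArg (eval ![0, 1 - t]) h1
      simp at h2
  obtain ⟨a, ha⟩ := exists_conj (mul_ne_zero (mul_ne_zero (mul_ne_zero hQ hQ1) hX) hT)
  rw [map_mul, map_mul, map_mul] at ha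
  have h1 := left_ne_zero_of_mul (left_ne_zero_of_mul (left_ne_zero_of_mul ha))
  have h2 := right_ne_zero_of_mul (left_ne_zero_of_mul (left_ne_zero_of_mul ha))
  have h3 := right_ne_zero_of_mul (left_ne_zero_of_mul ha)
  have h4 := right_ne_zero_of_mul ha
  rw [map_prod] at h4
  have h5 := Finset.prod_ne_zero_iff.1 h4
  refine ⟨a, by simpa using h3, by rw [coeff00_UU]; exact h1,
    by rw [coeff10_UU l (cx u) (hu.map _)]; exact h2, ?_⟩
  intro t ht
  have h6 := h5 t ht
  rw [map_mul] at h6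
  have h7 := left_ne_zero_of_mul h6
  have h8 := right_ne_zero_of_mul h6
  simp only [map_sub, map_add, map_mul, map_one, eval_C, eval_X, Matrix.cons_val_zero,
    Matrix.cons_val_one] at h7 h8
  exact ⟨h7, h8⟩

end Pool.Agent.SHB
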