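import Pool.Agent.SHB.GZero

/-!
# Project SHB (MP_f77893_an), module Hyp: `U` has no factor `w w' - c`, `c ≠ 0`

If `w w' - c` divides `U` then the sums `∑ coeff (ex (j + m) j) U c^j`, `m = 0, 1`, telescope to
zero; the ladder identity and the differential equation of `A(z) = ∑ coeff (ex j j) U z^j` give
a double zero of `A` at the ordinary point `c`, which is impossible.
-/

set_option autoImplicit false

namespace Pool.Agent.SHB

open MvPolynomial

/-- the diagonal sums of a multiple of `w w' - c` telescope -/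
private theorem hyp_tele {U Q : P2} {c : ℂ} (hUQ : U = (X 0 * X 1 - C c) * Q) (m N : ℕ) :
    ∑ j ∈ Finset.range (N + 1), coeff (ex (j + m) j) U * c ^ j =
      -(c ^ (N + 1) * coeff (ex (N + m) N) Q) := by
  have hU : U = X 0 * (X 1 * Q) - C c * Q := by rw [hUQ]; ring
  induction N with
  | zero =>
    have h1 : coeff (ex (0 + m) 0) (X 0 * (X 1 * Q)) = 0 := by
      rw [zero_add]
      rcases m with _ | m
      · exact coeff_X0_mul_zero _ _
      · rw [coeff_X0_mul, coeff_X1_mul_zero]
    rw [Finset.sum_range_one, hU, coeff_sub, coeff_C_mul, h1]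
    ring
  | succ N ih =>
    rw [Finset.sum_range_succ, ih]
    have h1 : coeff (ex (N + 1 + m) (N + 1)) (X 0 * (X 1 * Q)) = coeff (ex (N + m) N) Q := by
      rw [show N + 1 + m = (N + m) + 1 by ring, coeff_X0_mul, coeff_X1_mul]
    have h2 : coeff (ex (N + 1 + m) (N + 1)) U =
        coeff (ex (N + m) N) Q - c * coeff (ex (N + 1 + m) (N + 1)) Q := by
      conv_lhs => rw [hU]
      rw [coeff_sub, coeff_C_mul, h1]
    rw [h2]
    ring

private theorem hyp_sum_zero {U : P2} {c : ℂ} {l : ℕ} (hl : degreeOf 1 U ≤ l)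
    (hd : (X 0 * X 1 - C c : P2) ∣ U) (m : ℕ) :
    ∑ j ∈ Finset.range (l + 1), coeff (ex (j + m) j) U * c ^ j = 0 := by
  obtain ⟨Q, hQ⟩ := hd
  have h1 := hyp_tele hQ m (l + degreeOf 1 Q + 1)
  have h2 : coeff (ex (l + degreeOf 1 Q + 1 + m) (l + degreeOf 1 Q + 1)) Q = 0 :=
    coeff_eq_zero_of_deg1 le_rfl (by omega)
  rw [h2, mul_zero, neg_zero] at h1
  rw [← h1]
  refine Finset.sum_subset (Finset.range_mono (by omega)) fun j _ hj => ?_
  rw [Finset.mem_range, not_lt] at hj
  rw [coeff_eq_zero_of_deg1 hl (by omega), zero_mul]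

/-- the differential equation has no solution with a double zero at an ordinary point -/
private theorem hyp_ode {A : Polynomial ℂ} {c : ℂ} {l : ℕ} (hc : c ≠ 0) (hc1 : 1 + c ≠ 0)
    (hode : Polynomial.X * (1 + Polynomial.X) * Polynomial.derivative (Polynomial.derivative A) +
      (1 + Polynomial.X - 2 * Polynomial.C (l : ℂ) * Polynomial.X) * Polynomial.derivative A +
      Polynomial.C ((l : ℂ) ^ 2) * A = 0)
    (h0 : A.eval c = 0) (h1 : (Polynomial.derivative A).eval c = 0) : A = 0 := by
  by_contra hA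
  have hk : 1 < A.rootMultiplicity c :=
    (Polynomial.one_lt_rootMultiplicity_iff_isRoot hA).2 ⟨h0, h1⟩
  obtain ⟨g, hg, hng⟩ := Polynomial.exists_eq_pow_rootMultiplicity_mul_and_not_dvd A hA c
  obtain ⟨n, hn⟩ : ∃ n, A.rootMultiplicity c = n + 2 := ⟨A.rootMultiplicity c - 2, by omega⟩
  rw [hn] at hg
  have hd1 : Polynomial.derivative A = (Polynomial.X - Polynomial.C c) ^ n *
      (Polynomial.C ((n : ℂ) + 2) * (Polynomial.X - Polynomial.C c) * g +
        (Polynomial.X - Polynomial.C c) ^ 2 * Polynomial.derivative g) := by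
    rw [hg, Polynomial.derivative_mul, Polynomial.derivative_X_sub_C_pow]
    push_cast
    simp only [Polynomial.C_add, Polynomial.C_ofNat, map_natCast]
    ring
  have hd2 : Polynomial.derivative (Polynomial.derivative A) =
      (Polynomial.X - Polynomial.C c) ^ n *
      (Polynomial.C (((n : ℂ) + 2) * ((n : ℂ) + 1)) * g +
        Polynomial.C (2 * ((n : ℂ) + 2)) * (Polynomial.X - Polynomial.C c) *
          Polynomial.derivative g +
        (Polynomial.X - Polynomial.C c) ^ 2 *
          Polynomial.derivative (Polynomial.derivative g)) := by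
    have hd1' : Polynomial.derivative A =
        Polynomial.C ((n : ℂ) + 2) * ((Polynomial.X - Polynomial.C c) ^ (n + 1) * g) +
        (Polynomial.X - Polynomial.C c) ^ (n + 2) * Polynomial.derivative g := by
      rw [hd1]; ring
    rw [hd1', Polynomial.derivative_add, Polynomial.derivative_C_mul, Polynomial.derivative_mul,
      Polynomial.derivative_mul, Polynomial.derivative_X_sub_C_pow,
      Polynomial.derivative_X_sub_C_pow]
    push_cast
    simp only [Polynomial.C_add, Polynomial.C_mul, Polynomial.C_ofNat, map_natCast,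
      Polynomial.C_1]
    ring
  have hfac : (Polynomial.X - Polynomial.C c) ^ n *
      (Polynomial.X * (1 + Polynomial.X) *
        (Polynomial.C (((n : ℂ) + 2) * ((n : ℂ) + 1)) * g +
        Polynomial.C (2 * ((n : ℂ) + 2)) * (Polynomial.X - Polynomial.C c) *
          Polynomial.derivative g +
        (Polynomial.X - Polynomial.C c) ^ 2 *
          Polynomial.derivative (Polynomial.derivative g)) +
      (1 + Polynomial.X - 2 * Polynomial.C (l : ℂ) * Polynomial.X) *
        (Polynomial.C ((n : ℂ) + 2) * (Polynomial.X - Polynomial.C c) * g +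
        (Polynomial.X - Polynomial.C c) ^ 2 * Polynomial.derivative g) +
      Polynomial.C ((l : ℂ) ^ 2) * ((Polynomial.X - Polynomial.C c) ^ 2 * g)) = 0 := by
    rw [← hode, hd2, hd1]
    conv_rhs => rw [hg]
    ring
  have hne : (Polynomial.X - Polynomial.C c : Polynomial ℂ) ^ n ≠ 0 :=
    pow_ne_zero _ (Polynomial.X_sub_C_ne_zero c)
  have h2 := (mul_eq_zero.1 hfac).resolve_left hne
  have h3 := congrArg (Polynomial.eval c) h2
  simp only [Polynomial.eval_add, Polynomial.eval_mul, Polynomial.eval_X, Polynomial.eval_one,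
    Polynomial.eval_C, Polynomial.eval_sub, Polynomial.eval_pow, Polynomial.eval_zero,
    sub_self] at h3
  have h4 : c * (1 + c) * (((n : ℂ) + 2) * ((n : ℂ) + 1)) * g.eval c = 0 := by
    rw [← h3]; ring
  have hn2 : ((n : ℂ) + 2) ≠ 0 := by exact_mod_cast (by omega : n + 2 ≠ 0)
  have hn1 : ((n : ℂ) + 1) ≠ 0 := Nat.cast_add_one_ne_zero n
  have h5 : g.eval c = 0 := by
    rcases mul_eq_zero.1 h4 with h | h
    · exact absurd h (mul_ne_zero (mul_ne_zero hc hc1) (mul_ne_zero hn2 hn1))
    · exact h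
  exact hng (Polynomial.dvd_iff_isRoot.2 h5)

/-- the polynomial with coefficients `coeff (ex (j + m) j) U` -/
private noncomputable def hypP (l m : ℕ) (U : P2) : Polynomial ℂ :=
  ∑ j ∈ Finset.range (l + 1), Polynomial.monomial j (coeff (ex (j + m) j) U)

private theorem hypP_coeff {l m : ℕ} {U : P2} (hl : degreeOf 1 U ≤ l) (j : ℕ) :
    (hypP l m U).coeff j = coeff (ex (j + m) j) U := by
  unfold hypP
  simp only [Polynomial.finsetSum_coeff, Polynomial.coeff_monomial]
  rw [Finset.sum_ite_eq' (Finset.range (l + 1)) j]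
  split_ifs with h
  · rfl
  · rw [Finset.mem_range, not_lt] at h
    rw [coeff_eq_zero_of_deg1 hl (by omega)]

private theorem hypP_eval (l m : ℕ) (U : P2) (c : ℂ) :
    (hypP l m U).eval c = ∑ j ∈ Finset.range (l + 1), coeff (ex (j + m) j) U * c ^ j := by
  unfold hypP
  rw [Polynomial.eval_finsetSum]
  exact Finset.sum_congr rfl fun j _ => Polynomial.eval_monomial

private theorem hyp_coeff_X_der (A : Polynomial ℂ) (j : ℕ) :
    (Polynomial.X * Polynomial.derivative A).coeff j = (j : ℂ) * A.coeff j := by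
  rcases j with _ | j
  · simp
  · rw [Polynomial.coeff_X_mul, Polynomial.coeff_derivative]
    push_cast
    ring

private theorem hyp_coeff_X_dder (A : Polynomial ℂ) (j : ℕ) :
    (Polynomial.X * Polynomial.derivative (Polynomial.derivative A)).coeff j =
      (j : ℂ) * ((j : ℂ) + 1) * A.coeff (j + 1) := by
  rw [hyp_coeff_X_der, Polynomial.coeff_derivative]
  ring

private theorem hyp_coeff_XX_dder (A : Polynomial ℂ) (j : ℕ) :
    (Polynomial.X * (Polynomial.X * Polynomial.derivative (Polynomial.derivative A))).coeff j =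
      (j : ℂ) * ((j : ℂ) - 1) * A.coeff j := by
  rcases j with _ | j
  · simp
  · rw [Polynomial.coeff_X_mul, hyp_coeff_X_dder]
    push_cast
    ring

theorem Spin.not_dvd_hyp {l : ℕ} {U : P2} (hU : Spin l U) (hl : 1 ≤ l)
    (h0 : coeff (ex 0 0) U ≠ 0) (h1 : coeff (ex 1 0) U ≠ 0) (c : ℂ) (hc : c ≠ 0) :
    ¬ ((X 0 * X 1 - C c : P2) ∣ U) := by
  intro hd
  have hU0 : U ≠ 0 := by
    rintro rfl
    exact h0 (coeff_zero _)
  have hc1 : 1 + c ≠ 0 := by
    intro h
    have hc' : c = -1 := by linear_combination h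
    apply hU.not_dvd_one_add hU0
    have he : (1 + X 0 * X 1 : P2) = X 0 * X 1 - C c := by
      rw [hc', map_neg, C_1]; ring
    rw [he]
    exact hd
  have hA : ∀ j, (hypP l 0 U).coeff j = coeff (ex j j) U := fun j => by
    rw [hypP_coeff hU.deg1, add_zero]
  have hB : ∀ j, (hypP l 1 U).coeff j = coeff (ex (j + 1) j) U := fun j => hypP_coeff hU.deg1 j
  have hAc : (hypP l 0 U).eval c = 0 := by
    rw [hypP_eval]; exact hyp_sum_zero hU.deg1 hd 0
  have hBc : (hypP l 1 U).eval c = 0 := by
    rw [hypP_eval]; exact hyp_sum_zero hU.deg1 hd 1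
  have recA : ∀ j : ℕ, ((j : ℂ) + 1) ^ 2 * (hypP l 0 U).coeff (j + 1) =
      -((l : ℂ) - j) ^ 2 * (hypP l 0 U).coeff j := by
    intro j
    rw [hA, hA]
    have h := hU.rec_coeff j j
    linear_combination h
  have recB : ∀ j : ℕ, ((j : ℂ) + 2) * ((j : ℂ) + 1) * (hypP l 1 U).coeff (j + 1) =
      -(((l : ℂ) - j - 1) * ((l : ℂ) - j)) * (hypP l 1 U).coeff j := by
    intro j
    rw [hB, hB]
    have h := hU.rec_coeff (j + 1) j
    push_cast at h
    linear_combination h
  set A := hypP l 0 U with hAdef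
  set B := hypP l 1 U with hBdef
  have hL : ∀ j : ℕ, ((j : ℂ) + 1) * (((j : ℂ) + 1) * A.coeff (j + 1) -
      ((l : ℂ) - j) * A.coeff j) = -(((l : ℂ) - j) * ((l : ℂ) + 1)) * A.coeff j := by
    intro j
    linear_combination recA j
  have hLrec : ∀ j : ℕ, ((j : ℂ) + 2) * ((j : ℂ) + 1) *
      ((((j : ℂ) + 1) + 1) * A.coeff (j + 1 + 1) - ((l : ℂ) - (j + 1)) * A.coeff (j + 1)) =
      -(((l : ℂ) - j - 1) * ((l : ℂ) - j)) *
        (((j : ℂ) + 1) * A.coeff (j + 1) - ((l : ℂ) - j) * A.coeff j) := by
    intro j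
    have hj1 : ((j : ℂ) + 1) ≠ 0 := Nat.cast_add_one_ne_zero j
    have e1 := hL (j + 1)
    push_cast at e1
    have e0 := hL j
    have r0 := recA j
    apply mul_left_cancel₀ hj1
    linear_combination ((j : ℂ) + 1) ^ 2 * e1 - ((l : ℂ) - j - 1) * ((l : ℂ) + 1) * r0 +
      (((l : ℂ) - j - 1) * ((l : ℂ) - j)) * e0
  have hb0 : B.coeff 0 ≠ 0 := by rw [hB]; exact h1
  obtain ⟨κ, hκ⟩ : ∃ κ : ℂ, ((0 : ℂ) + 1) * A.coeff (0 + 1) - ((l : ℂ) - 0) * A.coeff 0 =
      κ * B.coeff 0 := by
    refine ⟨(((0 : ℂ) + 1) * A.coeff (0 + 1) - ((l : ℂ) - 0) * A.coeff 0) / B.coeff 0, ?_⟩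
    rw [div_mul_cancel₀ _ hb0]
  have hladder : ∀ j : ℕ, ((j : ℂ) + 1) * A.coeff (j + 1) - ((l : ℂ) - j) * A.coeff j =
      κ * B.coeff j := by
    intro j
    induction j with
    | zero => simpa using hκ
    | succ j ih =>
      have hj1 : ((j : ℂ) + 1) ≠ 0 := Nat.cast_add_one_ne_zero j
      have hj2 : ((j : ℂ) + 2) ≠ 0 := by exact_mod_cast (by omega : j + 2 ≠ 0)
      apply mul_left_cancel₀ (mul_ne_zero hj2 hj1)
      push_cast
      have e := hLrec j
      have r := recB j
      linear_combination e - κ * r - (((l : ℂ) - j - 1) * ((l : ℂ) - j)) * ih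
  have hpoly : Polynomial.derivative A - Polynomial.C (l : ℂ) * A +
      Polynomial.X * Polynomial.derivative A = Polynomial.C κ * B := by
    ext j
    rw [Polynomial.coeff_add, Polynomial.coeff_sub, Polynomial.coeff_C_mul,
      Polynomial.coeff_C_mul, hyp_coeff_X_der, Polynomial.coeff_derivative]
    linear_combination hladder j
  have hA'c : (Polynomial.derivative A).eval c = 0 := by
    have h := congrArg (Polynomial.eval c) hpoly
    simp only [Polynomial.eval_add, Polynomial.eval_sub, Polynomial.eval_mul,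
      Polynomial.eval_C, Polynomial.eval_X, hAc, hBc, mul_zero, sub_zero] at h
    have h2 : (1 + c) * (Polynomial.derivative A).eval c = 0 := by linear_combination h
    exact (mul_eq_zero.1 h2).resolve_left hc1
  have hode : Polynomial.X * (1 + Polynomial.X) *
      Polynomial.derivative (Polynomial.derivative A) +
      (1 + Polynomial.X - 2 * Polynomial.C (l : ℂ) * Polynomial.X) * Polynomial.derivative A +
      Polynomial.C ((l : ℂ) ^ 2) * A = 0 := by
    have e : Polynomial.X * (1 + Polynomial.X) *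
      Polynomial.derivative (Polynomial.derivative A) +
      (1 + Polynomial.X - 2 * Polynomial.C (l : ℂ) * Polynomial.X) * Polynomial.derivative A +
      Polynomial.C ((l : ℂ) ^ 2) * A =
      Polynomial.X * Polynomial.derivative (Polynomial.derivative A) +
      Polynomial.X * (Polynomial.X * Polynomial.derivative (Polynomial.derivative A)) +
      Polynomial.derivative A + Polynomial.X * Polynomial.derivative A -
      Polynomial.C (2 * (l : ℂ)) * (Polynomial.X * Polynomial.derivative A) +
      Polynomial.C ((l : ℂ) ^ 2) * A := by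
      simp only [Polynomial.C_mul, Polynomial.C_ofNat]
      ring
    rw [e]
    ext j
    rw [Polynomial.coeff_add, Polynomial.coeff_sub, Polynomial.coeff_add, Polynomial.coeff_add,
      Polynomial.coeff_add, Polynomial.coeff_C_mul, Polynomial.coeff_C_mul, hyp_coeff_X_dder,
      hyp_coeff_XX_dder, hyp_coeff_X_der, Polynomial.coeff_derivative, Polynomial.coeff_zero]
    linear_combination recA j
  have hA0 : A = 0 := hyp_ode hc hc1 hode hAc hA'c
  apply h0
  rw [← hA 0, hA0, Polynomial.coeff_zero]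

end Pool.Agent.SHB
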