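import Pool.Agent.SHB.Ex

/-!
# Project SHB (MP_f77893_an), module Shf: the recursion at a general point

PLAN. Let `V = shift a b U` (`shift a b` is an algebra homomorphism and commutes with `pderiv 0`, `pderiv 1`: check
`pderiv i (shift a b p) = shift a b (pderiv i p)` by `MvPolynomial.induction_on`, or by coefficients).
Applying `shift a b` to `hU.pde`:
`(1 + (X 0 + C a) (X 1 + C b)) ∂0∂1 V = C l ((X 0 + C a) ∂0 V + (X 1 + C b) ∂1 V - C l V)`.
Coefficient of `ex i j` (lemmas of `Ex.lean`; `X 0 ∂0∂1 V` has coefficient `i (j+1) v i (j+1)`: it is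
`X 0 ∂0 (∂1 V)`, use `coeff_X0_pderiv` and `coeff_pderiv1`; `X 1 ∂0∂1 V` has coefficient `(i+1) j v (i+1) j`,
use `pderiv` commutation `pderiv 0 (pderiv 1 V) = pderiv 1 (pderiv 0 V)` which also follows from coefficients):
`(1 + a b)(i+1)(j+1) v (i+1)(j+1) + a (i+1) j v (i+1) j + b i (j+1) v i (j+1) + i j v i j
  = l (a (i+1) v (i+1) j + i v i j + b (j+1) v i (j+1) + j v i j - l v i j)`. Rearrange to `shift_rec`.
(Here `(X 0 + a)(X 1 + b) = X 0 X 1 + a X 1 + b X 0 + a b`: the coefficient of `a X 1 ∂0∂1 V` is `a (i+1) j v (i+1) j`.)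
`shift_deg0/1`: the degree in each variable does not increase: `degreeOf_le_iff` or from `eq_sum_ex` and
`degreeOf_sum_le`, `degreeOf_mul_le`, `degreeOf_pow_le`.
-/

set_option autoImplicit false

namespace Pool.Agent.SHB

open MvPolynomial

private lemma shf_C (a b c : ℂ) : shift a b (C c) = C c := by
  simp [shift]

private lemma shf_X (a b : ℂ) (i : Fin 2) : shift a b (X i) = X i + C (![a, b] i) := by
  fin_cases i <;> simp [shift]

private lemma shf_add (a b : ℂ) (p q : P2) : shift a b (p + q) = shift a b p + shift a b q := by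
  simp [shift]

private lemma shf_sub (a b : ℂ) (p q : P2) : shift a b (p - q) = shift a b p - shift a b q := by
  simp [shift]

private lemma shf_mul (a b : ℂ) (p q : P2) : shift a b (p * q) = shift a b p * shift a b q := by
  simp [shift]

private lemma shf_zero (a b : ℂ) : shift a b 0 = 0 := by
  simp [shift]

private lemma shf_one (a b : ℂ) : shift a b 1 = 1 := by
  simp [shift]

theorem shift_pderiv (a b : ℂ) (U : P2) (i : Fin 2) :
    pderiv i (shift a b U) = shift a b (pderiv i U) := by
  induction U using MvPolynomial.induction_on with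
  | C c => rw [shf_C, pderiv_C, shf_zero]
  | add p q hp hq => rw [shf_add, map_add, map_add, shf_add, hp, hq]
  | mul_X p n hp =>
    rw [shf_mul, Derivation.leibniz, Derivation.leibniz, hp, shf_X, map_add, pderiv_C, add_zero]
    simp only [smul_eq_mul]
    rw [shf_add, shf_mul, shf_mul, shf_X, pderiv_X]
    by_cases hn : n = i
    · subst hn
      rw [Pi.single_eq_same, shf_one]
    · rw [Pi.single_eq_of_ne hn, shf_zero]

private lemma shf_pde {l : ℕ} {U : P2} (hU : Spin l U) (a b : ℂ) :
    (1 + (X 0 + C a) * (X 1 + C b)) * pderiv 0 (pderiv 1 (shift a b U)) =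
      C (l : ℂ) * ((X 0 + C a) * pderiv 0 (shift a b U) + (X 1 + C b) * pderiv 1 (shift a b U) -
        C (l : ℂ) * shift a b U) := by
  have h := congrArg (shift a b) hU.pde
  simp only [shf_mul, shf_add, shf_sub, shf_one, shf_C, shf_X] at h
  rw [shift_pderiv, shift_pderiv, shift_pderiv]
  simpa using h

private lemma shf_comm (V : P2) : pderiv 0 (pderiv 1 V) = pderiv 1 (pderiv 0 V) := by
  apply ext_coeff
  intro i j
  rw [coeff_pderiv0, coeff_pderiv1, coeff_pderiv1, coeff_pderiv0]
  ring

theorem Spin.shift_rec {l : ℕ} {U : P2} (hU : Spin l U) (a b : ℂ) (i j : ℕ) :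
    (1 + a * b) * (((i : ℂ) + 1) * ((j : ℂ) + 1)) * coeff (ex (i + 1) (j + 1)) (shift a b U) =
      a * ((i : ℂ) + 1) * ((l : ℂ) - j) * coeff (ex (i + 1) j) (shift a b U) +
      b * ((j : ℂ) + 1) * ((l : ℂ) - i) * coeff (ex i (j + 1)) (shift a b U) -
      ((l : ℂ) - i) * ((l : ℂ) - j) * coeff (ex i j) (shift a b U) := by
  have h := shf_pde hU a b
  generalize shift a b U = V at h ⊢
  have e1 : (1 + (X 0 + C a) * (X 1 + C b)) * pderiv 0 (pderiv 1 V) =
      C (1 + a * b) * pderiv 0 (pderiv 1 V) + X 0 * X 1 * pderiv 0 (pderiv 1 V) +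
        C a * (X 1 * pderiv 1 (pderiv 0 V)) + C b * (X 0 * pderiv 0 (pderiv 1 V)) := by
    rw [← shf_comm V]
    simp only [map_add, map_mul, map_one]
    ring
  have e2 : C (l : ℂ) * ((X 0 + C a) * pderiv 0 V + (X 1 + C b) * pderiv 1 V -
      C (l : ℂ) * V) = C (l : ℂ) * (X 0 * pderiv 0 V + C a * pderiv 0 V +
        X 1 * pderiv 1 V + C b * pderiv 1 V - C (l : ℂ) * V) := by
    ring
  rw [e1, e2] at h
  have h2 := congrArg (coeff (ex i j)) h
  simp only [coeff_add, coeff_sub, coeff_C_mul, coeff_X0_pderiv, coeff_X1_pderiv,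
    coeff_XX_pderiv01, coeff_pderiv0, coeff_pderiv1] at h2
  linear_combination h2

private lemma shf_deg (a b : ℂ) (k : Fin 2) {l : ℕ} {U : P2} (h : degreeOf k U ≤ l) :
    degreeOf k (shift a b U) ≤ l := by
  have hU : shift a b U = ∑ d ∈ U.support, C (coeff d U) * ∏ n : Fin 2,
      (X n + C (![a, b] n)) ^ d n := by
    conv_lhs => rw [U.as_sum]
    have hs : ∀ (s : Finset (Fin 2 →₀ ℕ)) (f : (Fin 2 →₀ ℕ) → P2),
        shift a b (∑ d ∈ s, f d) = ∑ d ∈ s, shift a b (f d) := by
      intro s f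
      simp only [shift, map_sum]
    rw [hs]
    apply Finset.sum_congr rfl
    intro d _
    rw [monomial_eq, shf_mul, shf_C, Finsupp.prod_fintype _ _ (fun _ => pow_zero _)]
    congr 1
    rw [Fin.prod_univ_two, Fin.prod_univ_two, shf_mul]
    have hp : ∀ (n : Fin 2) (e : ℕ), shift a b (X n ^ e) = (X n + C (![a, b] n)) ^ e := by
      intro n e
      rw [← shf_X]
      simp only [shift, map_pow]
    rw [hp, hp]
  rw [hU]
  refine (degreeOf_sum_le _ _ _).trans (Finset.sup_le fun d hd => ?_)
  have hd' : d k ≤ l := (degreeOf_le_iff.1 h) d hd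
  refine (degreeOf_C_mul_le _ _ _).trans ?_
  have hfac : ∀ n : Fin 2, degreeOf k ((X n + C (![a, b] n)) ^ d n : P2) ≤
      if n = k then d k else 0 := by
    intro n
    refine (degreeOf_pow_le _ _ _).trans ?_
    by_cases hn : n = k
    · rw [if_pos hn, hn]
      have h1 : degreeOf k (X k + C (![a, b] k) : P2) ≤ 1 := by
        refine (degreeOf_add_le _ _ _).trans ?_
        rw [degreeOf_C]
        simp
      calc d k * degreeOf k (X k + C (![a, b] k) : P2) ≤ d k * 1 := Nat.mul_le_mul_left _ h1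
        _ = d k := mul_one _
    · rw [if_neg hn]
      have h1 : degreeOf k (X n + C (![a, b] n) : P2) ≤ 0 := by
        refine (degreeOf_add_le _ _ _).trans ?_
        rw [degreeOf_C, degreeOf_X, if_neg (fun h => hn h.symm)]
        simp
      rw [Nat.le_zero.1 h1, mul_zero]
  rw [Fin.prod_univ_two]
  refine (degreeOf_mul_le _ _ _).trans ?_
  have h0 := hfac 0
  have h1 := hfac 1
  refine (Nat.add_le_add h0 h1).trans ?_
  have hs : (if (0 : Fin 2) = k then d k else 0) + (if (1 : Fin 2) = k then d k else 0) = d k := by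
    fin_cases k <;> simp
  rw [hs]
  exact hd'

theorem shift_deg0 (a b : ℂ) {l : ℕ} {U : P2} (h : degreeOf 0 U ≤ l) :
    degreeOf 0 (shift a b U) ≤ l := shf_deg a b 0 h

theorem shift_deg1 (a b : ℂ) {l : ℕ} {U : P2} (h : degreeOf 1 U ≤ l) :
    degreeOf 1 (shift a b U) ≤ l := shf_deg a b 1 h

/-- coefficientwise conjugation and exchange of the variables -/
private noncomputable def shfSig : P2 →+* P2 :=
  ((rename (Equiv.swap (0 : Fin 2) 1) : P2 →ₐ[ℂ] P2) : P2 →+* P2).comp
    (MvPolynomial.map (starRingEnd ℂ))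

private lemma coeff_shfSig (i j : ℕ) (U : P2) :
    coeff (ex i j) (shfSig U) = (starRingEnd ℂ) (coeff (ex j i) U) := by
  have h : ex i j = Finsupp.mapDomain (Equiv.swap (0 : Fin 2) 1) (ex j i) := by
    rw [ex, ex, Finsupp.mapDomain_add, Finsupp.mapDomain_single, Finsupp.mapDomain_single,
      Equiv.swap_apply_left, Equiv.swap_apply_right, add_comm]
  rw [h]
  show coeff _ (rename _ (MvPolynomial.map (starRingEnd ℂ) U)) = _
  rw [coeff_rename_mapDomain _ (Equiv.injective _), coeff_map]

private lemma shfSig_eq {U : P2} (h : RealP U) : shfSig U = U := by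
  apply ext_coeff
  intro i j
  rw [coeff_shfSig, h j i]

private lemma shfSig_shift (s : ℂ) (U : P2) :
    shfSig (shift s ((starRingEnd ℂ) s) U) = shift s ((starRingEnd ℂ) s) (shfSig U) := by
  have hC : ∀ c : ℂ, shfSig (C c) = C ((starRingEnd ℂ) c) := by
    intro c
    show rename _ (MvPolynomial.map (starRingEnd ℂ) (C c)) = _
    rw [map_C, rename_C]
  have hX0 : shfSig (X 0) = X 1 := by
    show rename _ (MvPolynomial.map (starRingEnd ℂ) (X 0)) = _
    rw [map_X, rename_X, Equiv.swap_apply_left]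
  have hX1 : shfSig (X 1) = X 0 := by
    show rename _ (MvPolynomial.map (starRingEnd ℂ) (X 1)) = _
    rw [map_X, rename_X, Equiv.swap_apply_right]
  induction U using MvPolynomial.induction_on with
  | C c => rw [shf_C, hC, shf_C]
  | add p q hp hq => rw [shf_add, map_add, map_add, shf_add, hp, hq]
  | mul_X p n hp =>
    rw [shf_mul, map_mul, map_mul, shf_mul, hp]
    congr 1
    rw [shf_X]
    fin_cases n
    · show shfSig (X 0 + C s) = shift s ((starRingEnd ℂ) s) (shfSig (X 0))
      rw [map_add, hX0, hC, shf_X]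
      rfl
    · show shfSig (X 1 + C ((starRingEnd ℂ) s)) = shift s ((starRingEnd ℂ) s) (shfSig (X 1))
      rw [map_add, hX1, hC, shf_X, Complex.conj_conj]
      rfl

theorem RealP.shift {U : P2} (h : RealP U) (s : ℂ) :
    RealP (Pool.Agent.SHB.shift s ((starRingEnd ℂ) s) U) := by
  intro i j
  rw [← coeff_shfSig, shfSig_shift, shfSig_eq h]

end Pool.Agent.SHB
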