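import Pool.Agent.SHB.PtI
import Pool.Agent.SHB.Shf
import Pool.Agent.SHB.GZero

/-!
# Project SHB (MP_f77893_an), module Iso: order of `U` at a point of the curve `w w' = -1`

PLAN. Let `b = -1/w0`, `v i j = coeff (ex i j) (shift w0 b U)`. We show by induction on `d ≤ μ` that `v i j = 0` for
`i + j < d` (`mem_ptI_pow_iff`). Let `d < μ` and `v i j = 0` for `i + j < d`; show `v i (d - i) = 0`.

(1) Polynomial identity: `Gpoly l U = ∑_{i,j ≤ l} C (v i j * w0^(-j)) * (X - C w0)^(i+j) * X^(l - j)`
(`Polynomial.funext`-type: at every `w ≠ 0` both sides are `w^l U(w, -1/w)`, because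
`-1/w - b = (w - w0)/(w0 w)` and `U(w, w') = ∑ v i j (w - w0)^i (w' - b)^j`, from `eval_eq_sum` for
`shift w0 b U` and `eval_shift`; then both polynomials agree at infinitely many points, `Polynomial.eq_of_infinite_eval_eq`).
(2) The terms with `i + j < d` vanish; `(X - C w0)^(d+1)` divides `Gpoly l U` and the terms with `i + j > d`; so it divides
`(X - C w0)^d * ∑_{i+j=d} C (v i j w0^(-j)) X^(l - j)`, hence `∑_{i + j = d} v i j w0^(l - 2j) = 0`, i.e.
`∑_{i + j = d} v i j w0^(-2j) = 0` (sum over `i, j ≤ l`).
(3) `Spin.shift_rec` with `1 + w0 b = 0` for `i + j = d - 1` (if `d ≥ 1`; for `d = 0` the claim is (2) itself):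
`w0 (i+1)(l - j) v (i+1) j + b (j+1)(l - i) v i (j+1) = 0`; with `y i = v i (d - i) * w0^(-2 (d-i))` and `b = -1/w0`
this is `(i+1)(l-j) y (i+1) = (j+1)(l-i) y i`, `j = d - 1 - i`. For `i, j < l` the factors are positive: all `y i`,
`max(0, d-l) ≤ i ≤ min(d, l)`, are nonnegative real multiples (positive) of `y i0`, `i0 = max(0, d - l)`;
outside this range `v` vanishes by the degree bound (`shift_deg0/1`). From (2) `∑ y i = 0` we get `y i0 = 0`, so
all `y i = 0`.
-/

set_option autoImplicit false

namespace Pool.Agent.SHB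

open MvPolynomial

private lemma Iso_choose (l k : ℕ) :
    (l.choose (k + 1) : ℂ) * ((k : ℂ) + 1) = l.choose k * ((l : ℂ) - k) := by
  have h := Nat.choose_succ_right_eq l k
  rcases le_or_gt k l with hk | hk
  · have h1 := congrArg (Nat.cast : ℕ → ℂ) h
    rw [Nat.cast_mul, Nat.cast_mul, Nat.cast_sub hk] at h1
    push_cast at h1
    exact h1
  · rw [Nat.choose_eq_zero_of_lt hk, Nat.choose_eq_zero_of_lt (by omega : l < k + 1)]
    simp

/-- the solution of the recursion -/
private def isoB (l d i : ℕ) : ℕ := if i ≤ d then l.choose i * l.choose (d - i) else 0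

private lemma isoB_rec (l d i j : ℕ) (h : i + j + 1 = d) :
    ((i : ℂ) + 1) * ((l : ℂ) - j) * isoB l d (i + 1) =
      ((j : ℂ) + 1) * ((l : ℂ) - i) * isoB l d i := by
  unfold isoB
  rw [if_pos (by omega), if_pos (by omega)]
  have e1 : d - (i + 1) = j := by omega
  have e2 : d - i = j + 1 := by omega
  rw [e1, e2]
  push_cast
  have h1 := Iso_choose l i
  have h2 := Iso_choose l j
  calc ((i : ℂ) + 1) * ((l : ℂ) - j) * ((l.choose (i + 1) : ℂ) * (l.choose j : ℂ))
      = ((l.choose (i + 1) : ℂ) * ((i : ℂ) + 1)) * ((l.choose j : ℂ) * ((l : ℂ) - j)) := by ring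
    _ = (l.choose i * ((l : ℂ) - i)) * ((l.choose (j + 1) : ℂ) * ((j : ℂ) + 1)) := by
      rw [h1, ← h2]
    _ = _ := by ring

private lemma iso_alg (l d : ℕ) (y : ℕ → ℂ) (h0 : ∀ i, l < i → y i = 0)
    (h1 : ∀ i, l < d - i → y i = 0) (hd : ∀ i, d < i → y i = 0)
    (hrec : ∀ i j, i + j + 1 = d → ((i : ℂ) + 1) * ((l : ℂ) - j) * y (i + 1) =
      ((j : ℂ) + 1) * ((l : ℂ) - i) * y i)
    (hsum : ∑ i ∈ Finset.range (l + 1), y i = 0) (i : ℕ) : y i = 0 := by
  by_cases hdl : d ≤ 2 * l
  swap
  · by_cases hi : l < i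
    · exact h0 i hi
    · exact h1 i (by omega)
  have hi0 : d - l ≤ l := by omega
  have hB0 : isoB l d (d - l) ≠ 0 := by
    unfold isoB
    rw [if_pos (by omega)]
    exact mul_ne_zero (Nat.choose_pos hi0).ne' (Nat.choose_pos (by omega)).ne'
  have hB0' : (isoB l d (d - l) : ℂ) ≠ 0 := Nat.cast_ne_zero.2 hB0
  have claim : ∀ k, d - l + k ≤ d →
      (isoB l d (d - l) : ℂ) * y (d - l + k) = isoB l d (d - l + k) * y (d - l) := by
    intro k
    induction k with
    | zero => intro _; rfl
    | succ k ih =>
      intro hk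
      have ih' := ih (by omega)
      rw [← add_assoc]
      set i := d - l + k with hi
      by_cases hil : l < i + 1
      · rw [h0 _ hil]
        have : isoB l d (i + 1) = 0 := by
          unfold isoB
          split_ifs
          · rw [Nat.choose_eq_zero_of_lt hil, zero_mul]
          · rfl
        rw [this]
        simp
      · obtain ⟨j, hj⟩ : ∃ j, i + j + 1 = d := ⟨d - 1 - i, by omega⟩
        have hjl : j < l := by omega
        have hne : ((i : ℂ) + 1) * ((l : ℂ) - j) ≠ 0 := by
          refine mul_ne_zero (Nat.cast_add_one_ne_zero i) (sub_ne_zero.2 ?_)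
          exact fun h => hjl.ne' (Nat.cast_injective h)
        apply mul_left_cancel₀ hne
        have e1 := hrec i j hj
        have e2 := isoB_rec l d i j hj
        linear_combination (isoB l d (d - l) : ℂ) * e1 - y (d - l) * e2 +
          ((j : ℂ) + 1) * ((l : ℂ) - i) * ih'
  have all : ∀ i, (isoB l d (d - l) : ℂ) * y i = isoB l d i * y (d - l) := by
    intro i
    by_cases hi : i ≤ d
    · by_cases hi' : d - l ≤ i
      · obtain ⟨k, rfl⟩ := Nat.exists_eq_add_of_le hi'
        exact claim k hi
      · rw [h1 i (by omega)]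
        have : isoB l d i = 0 := by
          unfold isoB
          rw [if_pos hi, Nat.choose_eq_zero_of_lt (by omega : l < d - i), mul_zero]
        rw [this]
        simp
    · rw [hd i (by omega)]
      have : isoB l d i = 0 := by
        unfold isoB
        rw [if_neg hi]
      rw [this]
      simp
  have hy0 : y (d - l) = 0 := by
    have e : ∑ i ∈ Finset.range (l + 1), (isoB l d (d - l) : ℂ) * y i =
        ∑ i ∈ Finset.range (l + 1), (isoB l d i : ℂ) * y (d - l) :=
      Finset.sum_congr rfl fun i _ => all i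
    rw [← Finset.mul_sum, hsum, mul_zero, ← Finset.sum_mul] at e
    refine (mul_eq_zero.1 e.symm).resolve_left ?_
    rw [← Nat.cast_sum, Nat.cast_eq_zero]
    intro hz
    exact hB0 (Finset.sum_eq_zero_iff.1 hz (d - l) (Finset.mem_range.2 (by omega)))
  have h2 := all i
  rw [hy0, mul_zero] at h2
  exact (mul_eq_zero.1 h2).resolve_left hB0'

/-- `Gpoly` by the coefficients at a point of the curve -/
private lemma iso_G {l : ℕ} {U : P2} (hU : Spin l U) (w0 : ℂ) (hw : w0 ≠ 0) :
    Gpoly l U = ∑ i ∈ Finset.range (l + 1), ∑ j ∈ Finset.range (l + 1),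
      Polynomial.C (coeff (ex i j) (shift w0 (-1 / w0) U) * w0⁻¹ ^ j) *
        (Polynomial.X - Polynomial.C w0) ^ (i + j) * Polynomial.X ^ (l - j) := by
  apply Polynomial.eq_of_infinite_eval_eq
  refine Set.Infinite.mono ?_ ((Set.finite_singleton (0 : ℂ)).infinite_compl)
  intro w hw0
  have hw' : w ≠ 0 := hw0
  show Polynomial.eval w (Gpoly l U) = Polynomial.eval w _
  rw [G_eval l U hU.deg0 hU.deg1 w hw']
  have e1 : eval ![w, -1 / w] U =
      eval ![w - w0, -1 / w - -1 / w0] (shift w0 (-1 / w0) U) := by
    rw [eval_shift, sub_add_cancel, sub_add_cancel]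
  rw [e1, eval_eq_sum (shift_deg0 _ _ hU.deg0) (shift_deg1 _ _ hU.deg1), Finset.mul_sum,
    Polynomial.eval_finsetSum]
  refine Finset.sum_congr rfl fun i _ => ?_
  rw [Finset.mul_sum, Polynomial.eval_finsetSum]
  refine Finset.sum_congr rfl fun j hj => ?_
  have hjl : j ≤ l := by
    have := Finset.mem_range.1 hj
    omega
  have e2 : -1 / w - -1 / w0 = (w - w0) * w0⁻¹ * w⁻¹ := by
    field_simp
    ring
  rw [e2]
  simp only [Polynomial.eval_mul, Polynomial.eval_C, Polynomial.eval_pow, Polynomial.eval_sub,
    Polynomial.eval_X]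
  rw [pow_sub₀ w hw' hjl, mul_pow, mul_pow, pow_add, inv_pow w]
  ring

theorem Spin.iso_order {l : ℕ} {U : P2} (hU : Spin l U) (w0 : ℂ) (hw : w0 ≠ 0) (μ : ℕ)
    (h : (Polynomial.X - Polynomial.C w0) ^ μ ∣ Gpoly l U) : U ∈ ptI w0 (-1 / w0) ^ μ := by
  rw [mem_ptI_pow_iff]
  have hG := iso_G hU w0 hw
  have hrec := fun i j => hU.shift_rec w0 (-1 / w0) i j
  have hv0 : ∀ i j, l < i → coeff (ex i j) (shift w0 (-1 / w0) U) = 0 := fun i j hi =>
    coeff_eq_zero_of_deg0 (shift_deg0 _ _ hU.deg0) hi
  have hv1 : ∀ i j, l < j → coeff (ex i j) (shift w0 (-1 / w0) U) = 0 := fun i j hj =>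
    coeff_eq_zero_of_deg1 (shift_deg1 _ _ hU.deg1) hj
  generalize hv : (fun i j => coeff (ex i j) (shift w0 (-1 / w0) U)) = v at *
  have hv' : ∀ i j, coeff (ex i j) (shift w0 (-1 / w0) U) = v i j := fun i j => by rw [← hv]
  simp only [hv'] at *
  have key : ∀ d, d ≤ μ → ∀ i j, i + j < d → v i j = 0 := by
    intro d
    induction d with
    | zero => intro _ i j hij; omega
    | succ d ih =>
      intro hd
      have ih' := ih (by omega)
      have hQ : Gpoly l U = (Polynomial.X - Polynomial.C w0) ^ d *
          ∑ i ∈ Finset.range (l + 1), ∑ j ∈ Finset.range (l + 1),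
            Polynomial.C (v i j * w0⁻¹ ^ j) *
              (Polynomial.X - Polynomial.C w0) ^ (i + j - d) * Polynomial.X ^ (l - j) := by
        rw [hG, Finset.mul_sum]
        refine Finset.sum_congr rfl fun i _ => ?_
        rw [Finset.mul_sum]
        refine Finset.sum_congr rfl fun j _ => ?_
        by_cases hij : i + j < d
        · rw [ih' i j hij]
          simp
        · obtain ⟨k, hk⟩ := Nat.exists_eq_add_of_le (not_lt.1 hij)
          rw [hk, Nat.add_sub_cancel_left, pow_add]
          ring
      have hne : (Polynomial.X - Polynomial.C w0) ^ d ≠ 0 :=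
        pow_ne_zero _ (Polynomial.X_sub_C_ne_zero w0)
      have hdvd : (Polynomial.X - Polynomial.C w0) ∣
          ∑ i ∈ Finset.range (l + 1), ∑ j ∈ Finset.range (l + 1),
            Polynomial.C (v i j * w0⁻¹ ^ j) *
              (Polynomial.X - Polynomial.C w0) ^ (i + j - d) * Polynomial.X ^ (l - j) := by
        have h1 : (Polynomial.X - Polynomial.C w0) ^ (d + 1) ∣ Gpoly l U :=
          (pow_dvd_pow _ hd).trans h
        rw [hQ, pow_succ] at h1
        exact (mul_dvd_mul_iff_left hne).1 h1
      rw [Polynomial.dvd_iff_isRoot, Polynomial.IsRoot.def, Polynomial.eval_finsetSum] at hdvd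
      simp only [Polynomial.eval_finsetSum, Polynomial.eval_mul, Polynomial.eval_C,
        Polynomial.eval_pow, Polynomial.eval_sub, Polynomial.eval_X, sub_self] at hdvd
      have hin : ∀ i, ∑ j ∈ Finset.range (l + 1),
          v i j * w0⁻¹ ^ j * 0 ^ (i + j - d) * w0 ^ (l - j) =
          w0 ^ l * (if i ≤ d then v i (d - i) * w0⁻¹ ^ (2 * (d - i)) else 0) := by
        intro i
        by_cases hi : i ≤ d
        · rw [if_pos hi]
          by_cases hl : d - i ≤ l
          · rw [Finset.sum_eq_single_of_mem (d - i) (Finset.mem_range.2 (by omega))]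
            · have e : i + (d - i) - d = 0 := by omega
              rw [e, pow_zero, mul_one, pow_sub₀ w0 hw hl, two_mul, pow_add, inv_pow]
              ring
            · intro j _ hj
              by_cases hij : i + j < d
              · rw [ih' i j hij]
                simp
              · rw [zero_pow (by omega)]
                simp
          · rw [hv1 i (d - i) (by omega)]
            rw [Finset.sum_eq_zero]
            · simp
            · intro j hj
              have := Finset.mem_range.1 hj
              rw [ih' i j (by omega)]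
              simp
        · rw [if_neg hi, mul_zero]
          apply Finset.sum_eq_zero
          intro j _
          rw [zero_pow (by omega)]
          simp
      simp only [hin] at hdvd
      rw [← Finset.mul_sum] at hdvd
      have hs := (mul_eq_zero.1 hdvd).resolve_left (pow_ne_zero _ hw)
      have hy := iso_alg l d
        (fun i => if i ≤ d then v i (d - i) * w0⁻¹ ^ (2 * (d - i)) else 0) ?_ ?_ ?_ ?_ hs
      · intro i j hij
        by_cases hij' : i + j < d
        · exact ih' i j hij'
        · have e := hy i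
          have e1 : d - i = j := by omega
          simp only [if_pos (by omega : i ≤ d), e1] at e
          exact (mul_eq_zero.1 e).resolve_right (pow_ne_zero _ (inv_ne_zero hw))
      · intro i hi
        simp only [hv0 i _ hi, zero_mul, ite_self]
      · intro i hi
        simp only [hv1 i _ hi, zero_mul, ite_self]
      · intro i hi
        simp only [if_neg (not_le.2 hi)]
      · intro i j hij
        have e := hrec i j
        have e1 : d - (i + 1) = j := by omega
        have e2 : d - i = j + 1 := by omega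
        have e3 : 1 + w0 * (-1 / w0) = 0 := by
          field_simp
          ring
        rw [e3, ih' i j (by omega), mul_zero, sub_zero, zero_mul, zero_mul] at e
        simp only [if_pos (by omega : i + 1 ≤ d), if_pos (by omega : i ≤ d), e1, e2]
        have e4 : w0⁻¹ ^ (2 * (j + 1)) = w0⁻¹ ^ (2 * j) * (w0⁻¹ * w0⁻¹) := by
          rw [mul_add, pow_add]
          ring
        have e5 : w0 * w0⁻¹ = 1 := mul_inv_cancel₀ hw
        have e6 : (-1 : ℂ) / w0 = -w0⁻¹ := by
          rw [neg_div, one_div]
        rw [e6] at e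
        rw [e4]
        linear_combination (-(w0⁻¹ ^ (2 * j) * w0⁻¹)) * e +
          (-(((i : ℂ) + 1) * ((l : ℂ) - j) * v (i + 1) j * w0⁻¹ ^ (2 * j))) * e5
  exact key μ le_rfl

end Pool.Agent.SHB
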