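import Pool.Agent.SHB.GZero

/-!
# Project SHB (MP_f77893_an), module IsoT: roots of `fIso u` and roots of `Gpoly`

PLAN. Let `s1 = 1 + C a * X`, `s2 = X - C b` (polynomials in one variable), `G = Gpoly l (UU u a b)`.
(1) `G = aeval ![s1^2 - s2^2, C I * (s1^2 + s2^2), 2 * s1 * s2] u`: both sides agree at every `w ≠ 0`: by `G_eval` (degree bounds of `UU`:
hypotheses `h0 h1`) `G(w) = w^l u(Φ(w, -1/w))` and `w Φ(w, -1/w) = w^2 A - B + 2 w P = (s1^2 - s2^2, i (s1^2 + s2^2), 2 s1 s2)(w)`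
(3 ring identities; check: `(1 + a w)^2 - (w - b)^2 = w^2 (a^2 - 1) - (b^2 - 1) + 2 w (a + b)`), `u` homogeneous of degree `l`:
`w^l u(x) = u(w x)`. Two polynomials equal at infinitely many points are equal.
(2) For `w` with `s1(w) ≠ 0`: `(s1^2 - s2^2, i(s1^2+s2^2), 2 s1 s2) = s1^2 (1 - t^2, i (1+t^2), 2t)`, `t = s2/s1`, so
`G(w) = s1(w)^(2l) f(s2(w)/s1(w))`, `f = fIso u`, `natDegree f ≤ 2l`.
(3) `root_transfer`: `f = (X - C t)^μ * g`, (if `f = 0` then `G = 0`, trivial), `natDegree g + μ ≤ 2 l`; let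
`Q = ∑_{k ≤ 2l - μ} C (g.coeff k) s2^k s1^(2l - μ - k)`; then `G = (s2 - C t * s1)^μ * Q` (equal at all `w` with `s1(w) ≠ 0`; infinitely
many, `s1 ≠ 0`), and `s2 - C t s1 = C (1 - t a) * (X - C ((b + t)/(1 - t a)))`.
(4) `inf_transfer`: `natDegree f + μ ≤ 2l`: `G = s1^μ * ∑_{k ≤ 2l - μ} C (f.coeff k) s2^k s1^(2l-μ-k)`, `s1 = C a * (X - C (-1/a))`.
-/

set_option autoImplicit false

namespace Pool.Agent.SHB

open MvPolynomial

private theorem isot_homog {A : Type*} [CommRing A] [Algebra ℂ A]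
    (u : MvPolynomial (Fin 3) ℂ) (l : ℕ) (hu : u.IsHomogeneous l) (c : A) (x : Fin 3 → A) :
    aeval (fun i => c * x i) u = c ^ l * aeval x u := by
  rw [aeval_def, aeval_def, eval₂_eq, eval₂_eq, Finset.mul_sum]
  refine Finset.sum_congr rfl fun d hd => ?_
  have hdeg : d.degree = l := by
    by_contra h
    exact (mem_support_iff.1 hd) (hu.coeff_eq_zero h)
  have hdl : ∑ i ∈ d.support, d i = l := hdeg
  have e : ∏ i ∈ d.support, (c * x i) ^ d i = c ^ l * ∏ i ∈ d.support, x i ^ d i := by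
    rw [← hdl, ← Finset.prod_pow_eq_pow_sum, ← Finset.prod_mul_distrib]
    refine Finset.prod_congr rfl fun i _ => ?_
    rw [mul_pow]
  rw [e]
  ring

theorem natDegree_fIso (u : MvPolynomial (Fin 3) ℂ) (l : ℕ) (hu : u.IsHomogeneous l) :
    (fIso u).natDegree ≤ 2 * l := by
  rw [fIso, aeval_def, eval₂_eq]
  refine Polynomial.natDegree_sum_le_of_forall_le _ _ fun d hd => ?_
  have hdeg : d.degree = l := by
    by_contra h
    exact (mem_support_iff.1 hd) (hu.coeff_eq_zero h)
  have hi : ∀ i : Fin 3, (![1 - Polynomial.X ^ 2, Polynomial.C Complex.I * (1 + Polynomial.X ^ 2),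
      2 * Polynomial.X] i : Polynomial ℂ).natDegree ≤ 2 := by
    intro i
    fin_cases i
    · change (1 - Polynomial.X ^ 2 : Polynomial ℂ).natDegree ≤ 2
      compute_degree
    · change (Polynomial.C Complex.I * (1 + Polynomial.X ^ 2) : Polynomial ℂ).natDegree ≤ 2
      compute_degree
    · change (2 * Polynomial.X : Polynomial ℂ).natDegree ≤ 2
      have : (2 * Polynomial.X : Polynomial ℂ) = Polynomial.C 2 * Polynomial.X := by
        rw [map_ofNat]
      rw [this]
      compute_degree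
      norm_num
  refine (Polynomial.natDegree_mul_le).trans ?_
  have h1 : (algebraMap ℂ (Polynomial ℂ) (coeff d u)).natDegree = 0 := Polynomial.natDegree_C _
  rw [h1, zero_add]
  refine (Polynomial.natDegree_prod_le _ _).trans ?_
  have h2 : ∑ i ∈ d.support, 2 * d i = 2 * l := by
    rw [← Finset.mul_sum, ← hdeg]
    rfl
  rw [← h2]
  refine Finset.sum_le_sum fun i _ => ?_
  refine (Polynomial.natDegree_pow_le).trans ?_
  rw [mul_comm 2 (d i)]
  exact Nat.mul_le_mul_left _ (hi i)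

private theorem isot_eval_fIso (u : MvPolynomial (Fin 3) ℂ) (t : ℂ) :
    (fIso u).eval t = aeval ![1 - t ^ 2, Complex.I * (1 + t ^ 2), 2 * t] u := by
  rw [fIso, ← Polynomial.coe_aeval_eq_eval, ← AlgHom.comp_apply]
  congr 1
  apply MvPolynomial.algHom_ext
  intro i
  fin_cases i <;> simp

private theorem isot_G (u : MvPolynomial (Fin 3) ℂ) (l : ℕ) (hu : u.IsHomogeneous l) (a b : ℂ)
    (h0 : degreeOf 0 (UU u a b) ≤ l) (h1 : degreeOf 1 (UU u a b) ≤ l) (w : ℂ) (hw : w ≠ 0)
    (hs : 1 + a * w ≠ 0) :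
    (Gpoly l (UU u a b)).eval w =
      (1 + a * w) ^ (2 * l) * (fIso u).eval ((w - b) / (1 + a * w)) := by
  rw [G_eval l _ h0 h1 w hw, isot_eval_fIso, UU, pow_mul,
    ← isot_homog u l hu ((1 + a * w) ^ 2)]
  have e1 : eval ![w, -1 / w] (aeval (phi a b) u) =
      aeval (fun i => eval ![w, -1 / w] (phi a b i)) u := by
    rw [← MvPolynomial.coe_aeval_eq_eval, RingHom.coe_coe, ← AlgHom.comp_apply]
    congr 1
    apply MvPolynomial.algHom_ext
    intro i
    simp
  rw [e1, ← isot_homog u l hu w]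
  congr 2
  funext i
  have hr : (w - b) / (1 + a * w) * (1 + a * w) = w - b := div_mul_cancel₀ _ hs
  have hq : w * (-1 / w) = -1 := by field_simp
  generalize (w - b) / (1 + a * w) = r at hr
  generalize -1 / w = q at hq
  fin_cases i
  · simp [phi, frA, frB, frP]
    linear_combination (r * (1 + a * w) + (w - b)) * hr + ((b ^ 2 - 1) - w * (a + b)) * hq
  · simp [phi, frA, frB, frP]
    linear_combination (-Complex.I * (r * (1 + a * w) + (w - b))) * hr +
      (-Complex.I * (b ^ 2 + 1) - w * Complex.I * (a - b)) * hq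
  · simp [phi, frA, frB, frP]
    linear_combination (-2 * (1 + a * w)) * hr + (2 * b - w * (1 - a * b)) * hq

private theorem isot_ext (a : ℂ) (G H : Polynomial ℂ)
    (h : ∀ w : ℂ, w ≠ 0 → 1 + a * w ≠ 0 → G.eval w = H.eval w) : G = H := by
  have hP : (Polynomial.X * (1 + Polynomial.C a * Polynomial.X) : Polynomial ℂ) ≠ 0 := by
    apply mul_ne_zero Polynomial.X_ne_zero
    intro h0
    have := congrArg (Polynomial.eval 0) h0
    simp at this
  have key : (Polynomial.X * (1 + Polynomial.C a * Polynomial.X)) * (G - H) = 0 := by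
    apply Polynomial.funext
    intro w
    simp only [Polynomial.eval_mul, Polynomial.eval_X, Polynomial.eval_add, Polynomial.eval_one,
      Polynomial.eval_C, Polynomial.eval_sub, Polynomial.eval_zero]
    by_cases hw : w = 0
    · rw [hw]; ring
    · by_cases hs : 1 + a * w = 0
      · rw [hs]; ring
      · rw [h w hw hs]; ring
  rcases mul_eq_zero.1 key with h1 | h1
  · exact absurd h1 hP
  · exact sub_eq_zero.1 h1

private theorem isot_zero (u : MvPolynomial (Fin 3) ℂ) (l : ℕ) (hu : u.IsHomogeneous l) (a b : ℂ)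
    (h0 : degreeOf 0 (UU u a b) ≤ l) (h1 : degreeOf 1 (UU u a b) ≤ l) (hf : fIso u = 0) :
    Gpoly l (UU u a b) = 0 := by
  apply isot_ext a
  intro w hw hs
  rw [isot_G u l hu a b h0 h1 w hw hs, hf]
  simp

/-- homogenisation -/
private noncomputable def isot_hom (a b : ℂ) (g : Polynomial ℂ) (m : ℕ) : Polynomial ℂ :=
  ∑ k ∈ Finset.range (m + 1), Polynomial.C (g.coeff k) * (Polynomial.X - Polynomial.C b) ^ k *
    (1 + Polynomial.C a * Polynomial.X) ^ (m - k)

private theorem isot_hom_eval (a b : ℂ) (g : Polynomial ℂ) (m : ℕ) (hm : g.natDegree ≤ m) (w : ℂ)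
    (hs : 1 + a * w ≠ 0) :
    (isot_hom a b g m).eval w = (1 + a * w) ^ m * g.eval ((w - b) / (1 + a * w)) := by
  rw [isot_hom, Polynomial.eval_finsetSum, Polynomial.eval_eq_sum_range' (Nat.lt_succ_of_le hm),
    Finset.mul_sum]
  refine Finset.sum_congr rfl fun k hk => ?_
  rw [Finset.mem_range] at hk
  simp only [Polynomial.eval_mul, Polynomial.eval_C, Polynomial.eval_pow, Polynomial.eval_sub,
    Polynomial.eval_X, Polynomial.eval_add, Polynomial.eval_one]
  have e : (1 + a * w) ^ m = (1 + a * w) ^ (m - k) * (1 + a * w) ^ k := by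
    rw [← pow_add]
    congr 1
    omega
  have hk0 : (1 + a * w) ^ k * ((w - b) / (1 + a * w)) ^ k = (w - b) ^ k := by
    rw [← mul_pow, mul_div_cancel₀ _ hs]
  rw [e, ← hk0]
  ring

theorem root_transfer (u : MvPolynomial (Fin 3) ℂ) (l : ℕ) (hu : u.IsHomogeneous l) (a b : ℂ)
    (h0 : degreeOf 0 (UU u a b) ≤ l) (h1 : degreeOf 1 (UU u a b) ≤ l) (t : ℂ)
    (ht : 1 - t * a ≠ 0) (μ : ℕ) (hμ : (Polynomial.X - Polynomial.C t) ^ μ ∣ fIso u) :
    (Polynomial.X - Polynomial.C ((b + t) / (1 - t * a))) ^ μ ∣ Gpoly l (UU u a b) := by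
  by_cases hf : fIso u = 0
  · rw [isot_zero u l hu a b h0 h1 hf]
    exact dvd_zero _
  obtain ⟨g, hg⟩ := hμ
  have hg0 : g ≠ 0 := by
    rintro rfl
    rw [mul_zero] at hg
    exact hf hg
  have hdeg := natDegree_fIso u l hu
  have hmon : ((Polynomial.X - Polynomial.C t) ^ μ : Polynomial ℂ) ≠ 0 :=
    pow_ne_zero _ (Polynomial.X_sub_C_ne_zero t)
  rw [hg, Polynomial.natDegree_mul hmon hg0, Polynomial.natDegree_pow,
    Polynomial.natDegree_X_sub_C, mul_one] at hdeg
  have key : Gpoly l (UU u a b) =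
      (Polynomial.C (1 - t * a) * (Polynomial.X - Polynomial.C ((b + t) / (1 - t * a)))) ^ μ *
        isot_hom a b g (2 * l - μ) := by
    apply isot_ext a
    intro w hw hs
    rw [isot_G u l hu a b h0 h1 w hw hs, hg, Polynomial.eval_mul, Polynomial.eval_mul,
      isot_hom_eval a b g (2 * l - μ) (by omega) w hs]
    simp only [Polynomial.eval_pow, Polynomial.eval_sub, Polynomial.eval_X, Polynomial.eval_C,
      Polynomial.eval_mul]
    have e : (1 + a * w) ^ (2 * l) = (1 + a * w) ^ μ * (1 + a * w) ^ (2 * l - μ) := by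
      rw [← pow_add]
      congr 1
      omega
    have e2 : (1 - t * a) * (w - (b + t) / (1 - t * a)) =
        (1 + a * w) * ((w - b) / (1 + a * w) - t) := by
      field_simp
      ring
    rw [e, e2, mul_pow]
    ring
  rw [key, mul_pow, mul_assoc]
  exact Dvd.dvd.mul_left (Dvd.intro _ rfl) _

theorem inf_transfer (u : MvPolynomial (Fin 3) ℂ) (l : ℕ) (hu : u.IsHomogeneous l) (a b : ℂ)
    (h0 : degreeOf 0 (UU u a b) ≤ l) (h1 : degreeOf 1 (UU u a b) ≤ l)
    (ha : a ≠ 0) (μ : ℕ) (hμ : (fIso u).natDegree + μ ≤ 2 * l) :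
    (Polynomial.X - Polynomial.C (-1 / a)) ^ μ ∣ Gpoly l (UU u a b) := by
  have key : Gpoly l (UU u a b) =
      (Polynomial.C a * (Polynomial.X - Polynomial.C (-1 / a))) ^ μ *
        isot_hom a b (fIso u) (2 * l - μ) := by
    apply isot_ext a
    intro w hw hs
    rw [isot_G u l hu a b h0 h1 w hw hs, Polynomial.eval_mul,
      isot_hom_eval a b (fIso u) (2 * l - μ) (by omega) w hs]
    simp only [Polynomial.eval_pow, Polynomial.eval_sub, Polynomial.eval_X, Polynomial.eval_C,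
      Polynomial.eval_mul]
    have e : (1 + a * w) ^ (2 * l) = (1 + a * w) ^ μ * (1 + a * w) ^ (2 * l - μ) := by
      rw [← pow_add]
      congr 1
      omega
    have e2 : a * (w - -1 / a) = 1 + a * w := by
      field_simp
      ring
    rw [e, e2]
    ring
  rw [key, mul_pow, mul_assoc]
  exact Dvd.dvd.mul_left (Dvd.intro _ rfl) _

theorem fIso_ne_zero (u : MvPolynomial (Fin 3) ℂ) (l : ℕ) (hu : u.IsHomogeneous l) (a b : ℂ)
    (h0 : degreeOf 0 (UU u a b) ≤ l) (h1 : degreeOf 1 (UU u a b) ≤ l)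
    (hG : Gpoly l (UU u a b) ≠ 0) : fIso u ≠ 0 :=
  fun hf => hG (isot_zero u l hu a b h0 h1 hf)

end Pool.Agent.SHB
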