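import Pool.Agent.SHB.Ex

/-!
# Project SHB (MP_f77893_an), module PtI: powers of the ideal of a point

Membership in `ptI a b ^ m` in terms of the Taylor coefficients at `(a, b)`; derivatives, coprimality,
order of vanishing.
-/

set_option autoImplicit false

namespace Pool.Agent.SHB

open MvPolynomial

theorem shift_injective (a b : ℂ) : Function.Injective (shift a b) := by
  intro U V h
  have h1 : shift (-a) (-b) (shift a b U) = shift (-a) (-b) (shift a b V) := by rw [h]
  rw [shift_shift, shift_shift, neg_add_cancel, neg_add_cancel, shift_zero, shift_zero] at h1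
  exact h1

private theorem ptI_surj (a b : ℂ) : Function.Surjective (shift a b) := by
  intro U
  refine ⟨shift (-a) (-b) U, ?_⟩
  rw [shift_shift, add_neg_cancel, add_neg_cancel, shift_zero]

/-- the shift as an algebra homomorphism -/
private noncomputable def shA (a b : ℂ) : P2 →ₐ[ℂ] P2 := aeval ![X 0 + C a, X 1 + C b]

private theorem shA_eq (a b : ℂ) (U : P2) : shA a b U = shift a b U := rfl

private theorem map_ptI (a b : ℂ) : (ptI a b).map (shA a b) = idealOfVars (Fin 2) ℂ := by
  rw [ptI, Ideal.map_span, idealOfVars]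
  congr 1
  have h0 : shA a b (X 0 - C a) = X 0 := by
    rw [shA, map_sub, aeval_X, aeval_C]
    simp
  have h1 : shA a b (X 1 - C b) = X 1 := by
    rw [shA, map_sub, aeval_X, aeval_C]
    simp
  rw [Set.image_pair, h0, h1]
  ext p
  simp only [Set.mem_insert_iff, Set.mem_singleton_iff, Set.mem_range]
  constructor
  · rintro (h | h)
    · exact ⟨0, h.symm⟩
    · exact ⟨1, h.symm⟩
  · rintro ⟨i, rfl⟩
    fin_cases i
    · exact Or.inl rfl
    · exact Or.inr rfl

theorem mem_ptI_pow_iff (a b : ℂ) (m : ℕ) (U : P2) :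
    U ∈ ptI a b ^ m ↔ ∀ i j, i + j < m → coeff (ex i j) (shift a b U) = 0 := by
  have hb : Function.Bijective (shA a b) := ⟨shift_injective a b, ptI_surj a b⟩
  have h1 : U ∈ ptI a b ^ m ↔ shA a b U ∈ idealOfVars (Fin 2) ℂ ^ m := by
    rw [← map_ptI a b, ← Ideal.map_pow]
    constructor
    · exact fun h => Ideal.mem_map_of_mem _ h
    · intro h
      have h2 : U ∈ ((ptI a b ^ m).map (shA a b)).comap (shA a b) := h
      rwa [Ideal.comap_map_of_bijective _ hb] at h2
  rw [h1, mem_pow_idealOfVars_iff']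
  constructor
  · intro h i j hij
    exact h (ex i j) (by rw [ex_degree]; exact hij)
  · intro h x hx
    rw [← ex_eta x]
    refine h _ _ ?_
    rw [← ex_degree, ex_eta]
    exact hx

theorem mem_ptI_iff (a b : ℂ) (U : P2) : U ∈ ptI a b ↔ eval ![a, b] U = 0 := by
  have h1 : eval ![a, b] U = coeff (ex 0 0) (shift a b U) := by
    have h2 := eval_shift a b 0 0 U
    rw [zero_add, zero_add] at h2
    rw [← h2, ex_00]
    have h3 : (![0, 0] : Fin 2 → ℂ) = 0 := by
      ext i
      fin_cases i <;> rfl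
    rw [h3, eval_zero, constantCoeff_eq]
  rw [h1]
  have h2 := mem_ptI_pow_iff a b 1 U
  rw [pow_one] at h2
  rw [h2]
  constructor
  · intro h
    exact h 0 0 (by norm_num)
  · intro h i j hij
    obtain ⟨rfl, rfl⟩ : i = 0 ∧ j = 0 := by omega
    exact h

private theorem pderiv_shift (a b : ℂ) (i : Fin 2) (U : P2) :
    pderiv i (shift a b U) = shift a b (pderiv i U) := by
  have hX : ∀ v : Fin 2, pderiv i (shA a b (X v)) = shA a b (pderiv i (X v)) := by
    intro v
    rw [shA, aeval_X]
    fin_cases v <;> fin_cases i <;> simp [pderiv_X, Pi.single_apply]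
  rw [← shA_eq, ← shA_eq]
  induction U using MvPolynomial.induction_on with
  | C c => simp [shA]
  | add p q hp hq => rw [map_add, map_add, map_add, map_add, hp, hq]
  | mul_X p v hp =>
    rw [map_mul, Derivation.leibniz, Derivation.leibniz, hp, hX, map_add, smul_eq_mul,
      smul_eq_mul, smul_eq_mul, smul_eq_mul, map_mul, map_mul]

theorem pderiv_mem (a b : ℂ) (m : ℕ) (U : P2) (h : U ∈ ptI a b ^ (m + 1)) (i : Fin 2) :
    pderiv i U ∈ ptI a b ^ m := by
  rw [mem_ptI_pow_iff] at h ⊢
  intro i' j' hij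
  rw [← pderiv_shift]
  fin_cases i
  · have h1 := coeff_pderiv0 i' j' (shift a b U)
    rw [h (i' + 1) j' (by omega), mul_zero] at h1
    exact h1
  · have h1 := coeff_pderiv1 i' j' (shift a b U)
    rw [h i' (j' + 1) (by omega), mul_zero] at h1
    exact h1

theorem rotW_mem (a b : ℂ) (m : ℕ) (U : P2) (h : U ∈ ptI a b ^ (m + 1)) :
    rotW U ∈ ptI a b ^ m :=
  Ideal.sub_mem _ (Ideal.mul_mem_left _ _ (pderiv_mem a b m U h 0))
    (Ideal.mul_mem_left _ _ (pderiv_mem a b m U h 1))

theorem ptI_isCoprime {a b a' b' : ℂ} (h : (a, b) ≠ (a', b')) :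
    IsCoprime (ptI a b) (ptI a' b') := by
  rw [Ideal.isCoprime_iff_sup_eq]
  have hC : ∀ c : ℂ, c ≠ 0 → (C c : P2) ∈ ptI a b ⊔ ptI a' b' → ptI a b ⊔ ptI a' b' = ⊤ := by
    intro c hc hm
    exact Ideal.eq_top_of_isUnit_mem _ hm (isUnit_iff_ne_zero.2 hc |>.map C)
  by_cases ha : a = a'
  · have hb : b ≠ b' := by
      intro hb
      exact h (by rw [ha, hb])
    refine hC (b' - b) (sub_ne_zero.2 hb.symm) ?_
    have h1 : (C (b' - b) : P2) = (X 1 - C b) - (X 1 - C b') := by
      rw [C_sub]
      ring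
    rw [h1]
    refine Ideal.sub_mem _ (Ideal.mem_sup_left (Ideal.subset_span ?_))
      (Ideal.mem_sup_right (Ideal.subset_span ?_))
    · exact Set.mem_insert_of_mem _ rfl
    · exact Set.mem_insert_of_mem _ rfl
  · refine hC (a' - a) (sub_ne_zero.2 (Ne.symm ha)) ?_
    have h1 : (C (a' - a) : P2) = (X 0 - C a) - (X 0 - C a') := by
      rw [C_sub]
      ring
    rw [h1]
    refine Ideal.sub_mem _ (Ideal.mem_sup_left (Ideal.subset_span ?_))
      (Ideal.mem_sup_right (Ideal.subset_span ?_))
    · exact Set.mem_insert _ _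
    · exact Set.mem_insert _ _

theorem exists_order {U : P2} (hU : U ≠ 0) (a b : ℂ) :
    ∃ m, U ∈ ptI a b ^ m ∧ U ∉ ptI a b ^ (m + 1) := by
  classical
  have h1 : shift a b U ≠ 0 := by
    intro h
    apply hU
    apply shift_injective a b
    rw [h]
    exact (map_zero (shA a b)).symm
  have h2 : ∃ n, ∃ i j, i + j = n ∧ coeff (ex i j) (shift a b U) ≠ 0 := by
    by_contra hcon
    push Not at hcon
    apply h1
    apply ext_coeff
    intro i j
    rw [hcon (i + j) i j rfl, coeff_zero]
  refine ⟨Nat.find h2, ?_, ?_⟩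
  · rw [mem_ptI_pow_iff]
    intro i j hij
    by_contra hne
    exact Nat.find_min h2 hij ⟨i, j, rfl, hne⟩
  · rw [mem_ptI_pow_iff]
    intro hcon
    obtain ⟨i, j, hij, hne⟩ := Nat.find_spec h2
    exact hne (hcon i j (by omega))

end Pool.Agent.SHB
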