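import Pool.Agent.SHB.Shf
import Pool.Agent.SHB.PtI

/-!
# Project SHB (MP_f77893_an), module Line: a real `U` has no factor `w' - c` or `w - c`

After a shift to the point `(s, conj s)` the coefficients on one axis vanish, by reality they vanish on both
axes, and the recursion of `Spin.shift_rec` kills all other coefficients.
-/

set_option autoImplicit false

namespace Pool.Agent.SHB

open MvPolynomial

private theorem line_rec {l : ℕ} {U : P2} (hU : Spin l U) (s : ℂ)
    (h0 : ∀ i, coeff (ex i 0) (shift s ((starRingEnd ℂ) s) U) = 0)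
    (h1 : ∀ j, coeff (ex 0 j) (shift s ((starRingEnd ℂ) s) U) = 0) :
    ∀ n i j : ℕ, i + j = n → coeff (ex i j) (shift s ((starRingEnd ℂ) s) U) = 0 := by
  intro n
  induction n using Nat.strong_induction_on with
  | _ n ih =>
    intro i j hij
    rcases i with _ | i
    · exact h1 j
    rcases j with _ | j
    · exact h0 _
    have hr := hU.shift_rec s ((starRingEnd ℂ) s) i j
    rw [ih (i + 1 + j) (by omega) (i + 1) j rfl, ih (i + (j + 1)) (by omega) i (j + 1) rfl,
      ih (i + j) (by omega) i j rfl, mul_zero, mul_zero, mul_zero, add_zero, sub_zero] at hr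
    have c1 : (1 + s * (starRingEnd ℂ) s : ℂ) ≠ 0 := by
      rw [Complex.mul_conj]
      have h2 : (0 : ℝ) < 1 + Complex.normSq s := by
        have := Complex.normSq_nonneg s
        linarith
      have h3 : (1 + (Complex.normSq s : ℂ) : ℂ) = ((1 + Complex.normSq s : ℝ) : ℂ) := by
        push_cast
        ring
      rw [h3]
      exact_mod_cast h2.ne'
    have c2 : ((i : ℂ) + 1) ≠ 0 := Nat.cast_add_one_ne_zero i
    have c3 : ((j : ℂ) + 1) ≠ 0 := Nat.cast_add_one_ne_zero j
    exact (mul_eq_zero.1 hr).resolve_left (mul_ne_zero c1 (mul_ne_zero c2 c3))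

private theorem line_aux {l : ℕ} {U : P2} (hU : Spin l U) (hR : RealP U) (h : U ≠ 0) (s : ℂ)
    (h0 : (∀ i, coeff (ex i 0) (shift s ((starRingEnd ℂ) s) U) = 0) ∨
      ∀ j, coeff (ex 0 j) (shift s ((starRingEnd ℂ) s) U) = 0) : False := by
  have hV := hR.shift s
  have key : (∀ i, coeff (ex i 0) (shift s ((starRingEnd ℂ) s) U) = 0) ∧
      ∀ j, coeff (ex 0 j) (shift s ((starRingEnd ℂ) s) U) = 0 := by
    rcases h0 with h0 | h0
    · refine ⟨h0, fun j => ?_⟩
      rw [← hV j 0, h0 j, map_zero]
    · refine ⟨fun i => ?_, h0⟩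
      rw [← hV 0 i, h0 i, map_zero]
  apply h
  apply shift_injective s ((starRingEnd ℂ) s)
  have h2 : shift s ((starRingEnd ℂ) s) 0 = 0 := by
    rw [shift, map_zero]
  rw [h2]
  apply ext_coeff
  intro i j
  rw [line_rec hU s key.1 key.2 _ i j rfl, coeff_zero]

private theorem shift_mul' (a b : ℂ) (p q : P2) :
    shift a b (p * q) = shift a b p * shift a b q := by
  rw [shift, shift, shift, map_mul]

theorem Spin.not_dvd_line {l : ℕ} {U : P2} (hU : Spin l U) (hR : RealP U) (h : U ≠ 0) (c : ℂ) :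
    ¬ ((X 1 - C c : P2) ∣ U) ∧ ¬ ((X 0 - C c : P2) ∣ U) := by
  constructor
  · rintro ⟨W, hW⟩
    refine line_aux hU hR h ((starRingEnd ℂ) c) (Or.inl fun i => ?_)
    rw [Complex.conj_conj, hW, shift_mul']
    have h1 : shift ((starRingEnd ℂ) c) c (X 1 - C c) = X 1 := by
      simp [shift]
    rw [h1, coeff_X1_mul_zero]
  · rintro ⟨W, hW⟩
    refine line_aux hU hR h c (Or.inr fun j => ?_)
    rw [hW, shift_mul']
    have h1 : shift c ((starRingEnd ℂ) c) (X 0 - C c) = X 0 := by
      simp [shift]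
    rw [h1, coeff_X0_mul_zero]

end Pool.Agent.SHB
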