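import Mathlib

/-!
# Project SHB (MP_f77893_an): definitions for the planar count of nodal domains

`V : ℂ → ℝ` is a continuous function.
* `LocExp V s b c`: near `s`, `V (s + r e^{it}) = r^b Re (c e^{ibt}) + O(r^{b+1})`, and the same for the
  derivative with respect to `t`;
* `Cc V` : the components of `{V ≠ 0}`; `cset V D` : the component `D` as a subset of `ℂ`;
* `Out V s` : the components `D` with `s` in the closure of `D` and `‖s‖ < ‖y‖` for all `y ∈ D`;
* `Inn V s` : the components `D` with `s` in the closure of `D` and `‖y‖ < ‖s‖` for all `y ∈ D`.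
-/

set_option autoImplicit false

namespace Pool.Agent.SHB

/-- local expansion at a zero of order `b` -/
def LocExp (V : ℂ → ℝ) (s : ℂ) (b : ℕ) (c : ℂ) : Prop :=
  ∃ (D : ℝ → ℝ → ℝ) (K : ℝ), 0 ≤ K ∧
    (∀ r t : ℝ, HasDerivAt (fun t' : ℝ => V (s + r * Complex.exp (t' * Complex.I))) (D r t) t) ∧
    (∀ r t : ℝ, 0 ≤ r → r ≤ 1 →
      |V (s + r * Complex.exp (t * Complex.I)) - r ^ b * (c * Complex.exp (b * t * Complex.I)).re|
        ≤ K * r ^ (b + 1)) ∧
    (∀ r t : ℝ, 0 ≤ r → r ≤ 1 →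
      |D r t + b * r ^ b * (c * Complex.exp (b * t * Complex.I)).im| ≤ K * r ^ (b + 1))

/-- the components of the complement of the zero set -/
abbrev Cc (V : ℂ → ℝ) := ConnectedComponents {w : ℂ // V w ≠ 0}

/-- a component as a subset of the plane -/
def cset (V : ℂ → ℝ) (D : Cc V) : Set ℂ :=
  {w | ∃ h : V w ≠ 0, ConnectedComponents.mk (⟨w, h⟩ : {w : ℂ // V w ≠ 0}) = D}

/-- the components with innermost point `s` -/
def Out (V : ℂ → ℝ) (s : ℂ) : Set (Cc V) := {D | s ∈ closure (cset V D) ∧ ∀ y ∈ cset V D, ‖s‖ < ‖y‖}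

/-- the components with outermost point `s` -/
def Inn (V : ℂ → ℝ) (s : ℂ) : Set (Cc V) := {D | s ∈ closure (cset V D) ∧ ∀ y ∈ cset V D, ‖y‖ < ‖s‖}

end Pool.Agent.SHB
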