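import Pool.Agent.SHB.Rec

/-!
# Project SHB (MP_f77893_an), module VfB: basic facts on `Vf U w = Re U(w, conj w)`

PLAN. `im_eq_zero`: by `eval_eq_sum` (degree bounds: `l = max (degreeOf 0 U) (degreeOf 1 U)`) the conjugate of
`U(w, conj w) = ∑ u i j w^i (conj w)^j` is `∑ conj (u i j) (conj w)^i w^j = ∑ u j i w^j (conj w)^i`, the same sum with `i, j`
exchanged (`Finset.sum_comm`), so it is real. `eval_eq`: hence `eval ![w, conj w] U = (Vf U w : ℂ)`.
`continuous`: finite sum of continuous functions (`eval_eq_sum`).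
`large`: `U(w, conj w) = ∑ u i j w^i (conj w)^j`, the term `i = j = l` is `u l l ‖w‖^(2l)`, `u l l ≠ 0` (`Spin.coeff_top`), all other terms
are bounded by `‖u i j‖ ‖w‖^(2l-1)` for `‖w‖ ≥ 1`; so for `‖w‖ ≥ R := 1 + ∑ ‖u i j‖ / ‖u l l‖` the sum is nonzero; it is
real (`im_eq_zero`), so `Vf U w ≠ 0`. (The case `l = 0` is included: then `U` is a constant.)
-/

set_option autoImplicit false

namespace Pool.Agent.SHB

open MvPolynomial

theorem RealP.im_eq_zero {U : P2} (h : RealP U) (w : ℂ) :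
    (eval ![w, (starRingEnd ℂ) w] U).im = 0 := by
  rw [← Complex.conj_eq_iff_im]
  have e := eval_eq_sum (U := U) (l := max (degreeOf 0 U) (degreeOf 1 U)) (le_max_left _ _)
    (le_max_right _ _) w ((starRingEnd ℂ) w)
  rw [e, map_sum]
  simp only [map_sum, map_mul, map_pow, Complex.conj_conj]
  rw [Finset.sum_comm]
  refine Finset.sum_congr rfl fun i _ => Finset.sum_congr rfl fun j _ => ?_
  rw [h j i]
  ring

theorem RealP.eval_eq {U : P2} (h : RealP U) (w : ℂ) :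
    eval ![w, (starRingEnd ℂ) w] U = (Vf U w : ℂ) := by
  apply Complex.ext
  · rw [Complex.ofReal_re, Vf]
  · rw [Complex.ofReal_im, h.im_eq_zero w]

theorem Vf_continuous (U : P2) : Continuous (Vf U) := by
  have e : Vf U = fun w => (∑ i ∈ Finset.range (max (degreeOf 0 U) (degreeOf 1 U) + 1),
      ∑ j ∈ Finset.range (max (degreeOf 0 U) (degreeOf 1 U) + 1),
      coeff (ex i j) U * w ^ i * ((starRingEnd ℂ) w) ^ j).re := by
    funext w
    rw [Vf, eval_eq_sum (U := U) (l := max (degreeOf 0 U) (degreeOf 1 U)) (le_max_left _ _)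
      (le_max_right _ _)]
  rw [e]
  refine Complex.continuous_re.comp ?_
  refine continuous_finsetSum _ fun i _ => continuous_finsetSum _ fun j _ => ?_
  exact (continuous_const.mul (continuous_id.pow i)).mul (Complex.continuous_conj.pow j)

theorem Vf_large {l : ℕ} {U : P2} (hU : Spin l U) (hR : RealP U) (h0 : coeff (ex 0 0) U ≠ 0) :
    ∃ R : ℝ, 0 < R ∧ ∀ w : ℂ, R ≤ ‖w‖ → Vf U w ≠ 0 := by
  have htop : coeff (ex l l) U ≠ 0 := by
    rw [hU.coeff_top]
    exact mul_ne_zero (pow_ne_zero _ (by norm_num)) h0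
  have hct : 0 < ‖coeff (ex l l) U‖ := norm_pos_iff.2 htop
  set s : Finset (ℕ × ℕ) := Finset.range (l + 1) ×ˢ Finset.range (l + 1) with hs
  set S : ℝ := ∑ p ∈ s, ‖coeff (ex p.1 p.2) U‖ with hS
  have hS0 : 0 ≤ S := Finset.sum_nonneg fun _ _ => norm_nonneg _
  refine ⟨1 + S / ‖coeff (ex l l) U‖, by positivity, fun w hw hV => ?_⟩
  have hw1 : 1 ≤ ‖w‖ := le_trans (le_add_of_nonneg_right (by positivity)) hw
  have hwS : S < ‖coeff (ex l l) U‖ * ‖w‖ := by
    have h1 : S / ‖coeff (ex l l) U‖ < ‖w‖ := by linarith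
    rw [div_lt_iff₀ hct] at h1
    linarith [mul_comm ‖w‖ ‖coeff (ex l l) U‖]
  have hz : eval ![w, (starRingEnd ℂ) w] U = 0 := by
    rw [hR.eval_eq w, hV]; simp
  rw [eval_eq_sum hU.deg0 hU.deg1, ← Finset.sum_product'] at hz
  have hmem : (l, l) ∈ s := by simp [hs]
  rw [← Finset.add_sum_erase s (fun p : ℕ × ℕ => coeff (ex p.1 p.2) U * w ^ p.1 *
    ((starRingEnd ℂ) w) ^ p.2) hmem] at hz
  have hle : ‖∑ p ∈ s.erase (l, l), coeff (ex p.1 p.2) U * w ^ p.1 *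
      ((starRingEnd ℂ) w) ^ p.2‖ ≤ ∑ p ∈ s.erase (l, l), ‖coeff (ex p.1 p.2) U‖ * (‖w‖ ^ (2 * l) / ‖w‖) := by
    refine (norm_sum_le _ _).trans (Finset.sum_le_sum fun p hp => ?_)
    rw [norm_mul, norm_mul, norm_pow, norm_pow, RCLike.norm_conj, mul_assoc, ← pow_add]
    refine mul_le_mul_of_nonneg_left ?_ (norm_nonneg _)
    rw [le_div_iff₀ (by linarith), ← pow_succ]
    refine pow_le_pow_right₀ hw1 ?_
    rw [Finset.mem_erase] at hp
    obtain ⟨hne, hp⟩ := hp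
    simp only [hs, Finset.mem_product, Finset.mem_range] at hp
    have : ¬ (p.1 = l ∧ p.2 = l) := fun h => hne (Prod.ext h.1 h.2)
    omega
  have hle2 : ∑ p ∈ s.erase (l, l), ‖coeff (ex p.1 p.2) U‖ * (‖w‖ ^ (2 * l) / ‖w‖) ≤
      S * (‖w‖ ^ (2 * l) / ‖w‖) := by
    rw [← Finset.sum_mul]
    refine mul_le_mul_of_nonneg_right ?_ (by positivity)
    exact Finset.sum_le_sum_of_subset_of_nonneg (Finset.erase_subset _ _)
      fun _ _ _ => norm_nonneg _
  have hnorm : ‖coeff (ex l l) U * w ^ l * ((starRingEnd ℂ) w) ^ l‖ =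
      ‖coeff (ex l l) U‖ * ‖w‖ ^ (2 * l) := by
    rw [norm_mul, norm_mul, norm_pow, norm_pow, RCLike.norm_conj, mul_assoc, ← pow_add, two_mul]
  have heq : ‖coeff (ex l l) U * w ^ l * ((starRingEnd ℂ) w) ^ l‖ =
      ‖∑ p ∈ s.erase (l, l), coeff (ex p.1 p.2) U * w ^ p.1 * ((starRingEnd ℂ) w) ^ p.2‖ := by
    rw [eq_neg_of_add_eq_zero_left hz, norm_neg]
  rw [hnorm] at heq
  have hfin : ‖coeff (ex l l) U‖ * ‖w‖ ^ (2 * l) ≤ S * (‖w‖ ^ (2 * l) / ‖w‖) := by
    rw [heq]; exact hle.trans hle2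
  have hwp : 0 < ‖w‖ := by linarith
  have hpp : 0 < ‖w‖ ^ (2 * l) := pow_pos hwp _
  have : ‖coeff (ex l l) U‖ * ‖w‖ ≤ S := by
    rw [← mul_div_assoc, le_div_iff₀ hwp] at hfin
    have : (‖coeff (ex l l) U‖ * ‖w‖) * ‖w‖ ^ (2 * l) ≤ S * ‖w‖ ^ (2 * l) := by linarith
    exact le_of_mul_le_mul_right this hpp
  linarith

end Pool.Agent.SHB
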