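import Pool.Agent.SHB.PtI
import Pool.Agent.SHB.Shf
import Pool.Agent.SHB.VfB
import Pool.Agent.SHB.TDefs

/-!
# Project SHB (MP_f77893_an), module LocP: the local expansion of `Vf U` at a zero of order `b`

PLAN. `V = shift s (conj s) U`, `v i j = coeff (ex i j) V`; `V` is `RealP` (`RealP.shift`): `v j i = conj (v i j)`; degrees `≤ l`
(`shift_deg0/1`). By `eval_shift`, `eval_eq_sum`:
`Vf U (s + r e^{it}) = Re ∑_{i,j ≤ l} v i j (r e^{it})^i (r e^{-it})^j = ∑ r^(i+j) Re (v i j e^{i(i-j)t})`.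
`v i j = 0` for `i + j < b` (`mem_ptI_pow_iff`). For `i + j = b`, `i, j ≥ 1`: `Spin.shift_rec` at `(i-1, j-1)` with `1 + s conj s ≠ 0`: the right
side only has coefficients of total degree `b - 1` and `b - 2`, which vanish: `v i j = 0`. So the part of degree `b` is
`v b 0 e^{ibt} + v 0 b e^{-ibt}`, with real part `Re (2 v b 0 e^{ibt})` (`b ≥ 1`): `c = 2 v b 0`. `c ≠ 0`: otherwise all
coefficients of degree `≤ b` vanish and `U ∈ ptI ^ (b+1)`.
`D r t = ∑ r^(i+j) Re (I (i - j) v i j e^{i(i-j)t})` (`HasDerivAt` of a finite sum); its part of degree `b` is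
`Re (I b v b 0 e^{ibt} - I b v 0 b e^{-ibt}) = - b Im (c e^{ibt})`. Remaining terms: `≤ K r^(b+1)` for `0 ≤ r ≤ 1` with
`K = ∑ (1 + |i - j|) ‖v i j‖`.
(If `b > l` or so, all sums are still fine: indices `i, j ≤ l`.)
`rotW_of_tangent`: for `b = 1`: `c = 2 v 1 0 = 2 (∂_w U)(s, conj s)`, `(∂_w' U)(s, conj s) = v 0 1 = conj (v 1 0)`, and
`rotW U (s, conj s) = s v 1 0 - conj s * v 0 1 = 2 i Im (s v 1 0)`, `Re (c (I s)) = - 2 Im (s v 1 0)`. Use `mem_ptI_iff` and
`coeff (ex 1 0) (shift s s' U) = eval ![s, s'] (pderiv 0 U)` (`shift_pderiv`, `coeff_pderiv0`, `eval_shift` at `(0, 0)`).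
-/

set_option autoImplicit false

namespace Pool.Agent.SHB

open MvPolynomial

private lemma lp_zz (r t : ℝ) (i j : ℕ) :
    ((r : ℂ) * Complex.exp (t * Complex.I)) ^ i *
      ((starRingEnd ℂ) ((r : ℂ) * Complex.exp (t * Complex.I))) ^ j =
      ((r ^ (i + j) : ℝ) : ℂ) * Complex.exp ((((i : ℝ) - j) * t : ℝ) * Complex.I) := by
  rw [map_mul, Complex.conj_ofReal, ← Complex.exp_conj, map_mul, Complex.conj_ofReal,
    Complex.conj_I, mul_pow, mul_pow, ← Complex.exp_nat_mul, ← Complex.exp_nat_mul]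
  have h : Complex.exp ((((i : ℝ) - j) * t : ℝ) * Complex.I) =
      Complex.exp (i * (t * Complex.I)) * Complex.exp (j * (t * -Complex.I)) := by
    rw [← Complex.exp_add]
    congr 1
    push_cast
    ring
  rw [h]
  push_cast
  ring

/-- a term of the expansion -/
private noncomputable def lpf (v : ℂ) (m t : ℝ) : ℝ :=
  (v * Complex.exp ((m * t : ℝ) * Complex.I)).re

private lemma lpf_bd (v : ℂ) (m t : ℝ) : |lpf v m t| ≤ ‖v‖ := by
  unfold lpf
  refine (Complex.abs_re_le_norm _).trans (le_of_eq ?_)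
  rw [norm_mul, Complex.norm_exp_ofReal_mul_I, mul_one]

private lemma lpf_zero (m t : ℝ) : lpf 0 m t = 0 := by
  unfold lpf
  simp

/-- the derivative of a term -/
private noncomputable def lpg (v : ℂ) (m t : ℝ) : ℝ :=
  -(m * (v * Complex.exp ((m * t : ℝ) * Complex.I)).im)

private lemma lpg_bd (v : ℂ) (m t : ℝ) : |lpg v m t| ≤ |m| * ‖v‖ := by
  unfold lpg
  rw [abs_neg, abs_mul]
  refine mul_le_mul_of_nonneg_left ?_ (abs_nonneg _)
  refine (Complex.abs_im_le_norm _).trans (le_of_eq ?_)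
  rw [norm_mul, Complex.norm_exp_ofReal_mul_I, mul_one]

private lemma lpg_zero (m t : ℝ) : lpg 0 m t = 0 := by
  unfold lpg
  simp

private lemma lpf_deriv (v : ℂ) (m t : ℝ) :
    HasDerivAt (fun t' : ℝ => lpf v m t') (lpg v m t) t := by
  have h1 : ∀ t' : ℝ, lpf v m t' = v.re * Real.cos (m * t') - v.im * Real.sin (m * t') := by
    intro t'
    unfold lpf
    rw [Complex.mul_re, Complex.exp_ofReal_mul_I_re, Complex.exp_ofReal_mul_I_im]
  have h2 : lpg v m t = v.re * (-Real.sin (m * t) * m) - v.im * (Real.cos (m * t) * m) := by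
    unfold lpg
    rw [Complex.mul_im, Complex.exp_ofReal_mul_I_re, Complex.exp_ofReal_mul_I_im]
    ring
  rw [h2]
  have h3 : (fun t' : ℝ => lpf v m t') =
      fun t' => v.re * Real.cos (m * t') - v.im * Real.sin (m * t') := funext h1
  rw [h3]
  have hm : HasDerivAt (fun t' : ℝ => m * t') m t := by
    simpa using (hasDerivAt_id t).const_mul m
  exact (hm.cos.const_mul v.re).sub (hm.sin.const_mul v.im)

private lemma lp_two {b l : ℕ} (hb : 1 ≤ b) (hbl : b ≤ l) (G : ℕ → ℕ → ℝ)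
    (hG : ∀ i j, ¬ (i = b ∧ j = 0) → ¬ (i = 0 ∧ j = b) → G i j = 0) :
    ∑ i ∈ Finset.range (l + 1), ∑ j ∈ Finset.range (l + 1), G i j = G b 0 + G 0 b := by
  have h1 : ∑ j ∈ Finset.range (l + 1), G b j = G b 0 := by
    refine Finset.sum_eq_single_of_mem 0 (by simp) ?_
    intro j _ hj
    exact hG b j (fun h => hj h.2) (fun h => by omega)
  have h2 : ∑ j ∈ Finset.range (l + 1), G 0 j = G 0 b := by
    refine Finset.sum_eq_single_of_mem b (by simp; omega) ?_
    intro j _ hj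
    exact hG 0 j (fun h => by omega) (fun h => hj h.2)
  rw [Finset.sum_eq_add_of_mem b 0 (by simp; omega) (by simp) (by omega), h1, h2]
  intro i _ hi
  refine Finset.sum_eq_zero (fun j _ => hG i j (fun h => hi.1 h.1) (fun h => hi.2 h.1))

theorem Spin.locExp {l : ℕ} {U : P2} (hU : Spin l U) (hR : RealP U) (s : ℂ) (b : ℕ) (hb : 1 ≤ b)
    (h1 : U ∈ ptI s ((starRingEnd ℂ) s) ^ b) (h2 : U ∉ ptI s ((starRingEnd ℂ) s) ^ (b + 1)) :
    2 * coeff (ex b 0) (shift s ((starRingEnd ℂ) s) U) ≠ 0 ∧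
    LocExp (Vf U) s b (2 * coeff (ex b 0) (shift s ((starRingEnd ℂ) s) U)) := by
  set V : P2 := shift s ((starRingEnd ℂ) s) U with hV
  have hVR : RealP V := RealP.shift hR s
  have hd0 : degreeOf 0 V ≤ l := shift_deg0 _ _ hU.deg0
  have hd1 : degreeOf 1 V ≤ l := shift_deg1 _ _ hU.deg1
  have hlow : ∀ i j, i + j < b → coeff (ex i j) V = 0 := (mem_ptI_pow_iff _ _ _ _).1 h1
  have hns : (1 + s * (starRingEnd ℂ) s) ≠ 0 := by
    rw [Complex.mul_conj]
    intro h
    have h3 := congrArg Complex.re h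
    simp at h3
    have h4 := Complex.normSq_nonneg s
    linarith
  have hmid : ∀ i j, (i + 1) + (j + 1) = b → coeff (ex (i + 1) (j + 1)) V = 0 := by
    intro i j hij
    have h3 := hU.shift_rec s ((starRingEnd ℂ) s) i j
    rw [← hV, hlow (i + 1) j (by omega), hlow i (j + 1) (by omega), hlow i j (by omega)] at h3
    have h4 : (1 + s * (starRingEnd ℂ) s) * (((i : ℂ) + 1) * ((j : ℂ) + 1)) ≠ 0 := by
      refine mul_ne_zero hns (mul_ne_zero ?_ ?_)
      · exact_mod_cast Nat.succ_ne_zero i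
      · exact_mod_cast Nat.succ_ne_zero j
    have h5 : (1 + s * (starRingEnd ℂ) s) * (((i : ℂ) + 1) * ((j : ℂ) + 1)) *
        coeff (ex (i + 1) (j + 1)) V = 0 := by
      rw [h3]
      ring
    exact (mul_eq_zero.1 h5).resolve_left h4
  have hvan : ∀ i j, i + j ≤ b → ¬ (i = b ∧ j = 0) → ¬ (i = 0 ∧ j = b) →
      coeff (ex i j) V = 0 := by
    intro i j hij hn1 hn2
    by_cases h3 : i + j < b
    · exact hlow i j h3
    · obtain ⟨i', rfl⟩ : ∃ i', i = i' + 1 := ⟨i - 1, by omega⟩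
      obtain ⟨j', rfl⟩ : ∃ j', j = j' + 1 := ⟨j - 1, by omega⟩
      exact hmid i' j' (by omega)
  have hconj : coeff (ex 0 b) V = (starRingEnd ℂ) (coeff (ex b 0) V) := (hVR b 0).symm
  have hc : coeff (ex b 0) V ≠ 0 := by
    intro h0
    apply h2
    rw [mem_ptI_pow_iff, ← hV]
    intro i j hij
    by_cases c1 : i = b ∧ j = 0
    · rw [c1.1, c1.2, h0]
    · by_cases c2 : i = 0 ∧ j = b
      · rw [c2.1, c2.2, hconj, h0, map_zero]
      · exact hvan i j (by omega) c1 c2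
  have hbl : b ≤ l := by
    by_contra hlt
    exact hc (coeff_eq_zero_of_deg0 hd0 (by omega))
  refine ⟨mul_ne_zero two_ne_zero hc, ?_⟩
  -- the expansion
  have hexp : ∀ r t : ℝ, Vf U (s + r * Complex.exp (t * Complex.I)) =
      ∑ i ∈ Finset.range (l + 1), ∑ j ∈ Finset.range (l + 1),
        r ^ (i + j) * lpf (coeff (ex i j) V) ((i : ℝ) - j) t := by
    intro r t
    unfold Vf
    have e1 : eval ![s + r * Complex.exp (t * Complex.I),
        (starRingEnd ℂ) (s + r * Complex.exp (t * Complex.I))] U =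
        eval ![(r : ℂ) * Complex.exp (t * Complex.I),
          (starRingEnd ℂ) ((r : ℂ) * Complex.exp (t * Complex.I))] V := by
      rw [hV, eval_shift, map_add, add_comm s, add_comm ((starRingEnd ℂ) s)]
    rw [e1, eval_eq_sum hd0 hd1, Complex.re_sum]
    refine Finset.sum_congr rfl (fun i _ => ?_)
    rw [Complex.re_sum]
    refine Finset.sum_congr rfl (fun j _ => ?_)
    rw [mul_assoc, lp_zz]
    unfold lpf
    rw [mul_left_comm, Complex.re_ofReal_mul]
  have hsym : ∀ t : ℝ, lpf (coeff (ex 0 b) V) (((0 : ℕ) : ℝ) - b) t =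
      lpf (coeff (ex b 0) V) ((b : ℝ) - ((0 : ℕ) : ℝ)) t ∧
      lpg (coeff (ex 0 b) V) (((0 : ℕ) : ℝ) - b) t =
      lpg (coeff (ex b 0) V) ((b : ℝ) - ((0 : ℕ) : ℝ)) t := by
    intro t
    have e1 : coeff (ex 0 b) V * Complex.exp (((((0 : ℕ) : ℝ) - b) * t : ℝ) * Complex.I) =
        (starRingEnd ℂ) (coeff (ex b 0) V *
          Complex.exp ((((b : ℝ) - ((0 : ℕ) : ℝ)) * t : ℝ) * Complex.I)) := by
      rw [map_mul, hconj, ← Complex.exp_conj, map_mul, Complex.conj_ofReal, Complex.conj_I]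
      congr 2
      push_cast
      ring
    unfold lpf lpg
    rw [e1, Complex.conj_re, Complex.conj_im]
    refine ⟨rfl, ?_⟩
    push_cast
    ring
  have hmain : ∀ t : ℝ, lpf (coeff (ex b 0) V) ((b : ℝ) - ((0 : ℕ) : ℝ)) t +
      lpf (coeff (ex 0 b) V) (((0 : ℕ) : ℝ) - b) t =
      (2 * coeff (ex b 0) V * Complex.exp (b * t * Complex.I)).re := by
    intro t
    rw [(hsym t).1]
    unfold lpf
    have : ((((b : ℝ) - ((0 : ℕ) : ℝ)) * t : ℝ) : ℂ) * Complex.I = b * t * Complex.I := by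
      push_cast
      ring
    rw [this, mul_assoc 2]
    simp only [Complex.mul_re, Complex.re_ofNat, Complex.im_ofNat]
    ring
  have hmain2 : ∀ t : ℝ, lpg (coeff (ex b 0) V) ((b : ℝ) - ((0 : ℕ) : ℝ)) t +
      lpg (coeff (ex 0 b) V) (((0 : ℕ) : ℝ) - b) t =
      -(b * (2 * coeff (ex b 0) V * Complex.exp (b * t * Complex.I)).im) := by
    intro t
    rw [(hsym t).2]
    unfold lpg
    have : ((((b : ℝ) - ((0 : ℕ) : ℝ)) * t : ℝ) : ℂ) * Complex.I = b * t * Complex.I := by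
      push_cast
      ring
    rw [this, mul_assoc 2]
    simp only [Complex.mul_im, Complex.re_ofNat, Complex.im_ofNat]
    push_cast
    ring
  -- general estimate
  have hest : ∀ (F : ℂ → ℝ → ℝ → ℝ) (hF0 : ∀ m t, F 0 m t = 0)
      (hF : ∀ v m t, |F v m t| ≤ (1 + |m|) * ‖v‖) (r t : ℝ), 0 ≤ r → r ≤ 1 →
      |∑ i ∈ Finset.range (l + 1), ∑ j ∈ Finset.range (l + 1),
        r ^ (i + j) * F (coeff (ex i j) V) ((i : ℝ) - j) t -
        r ^ b * (F (coeff (ex b 0) V) ((b : ℝ) - ((0 : ℕ) : ℝ)) t +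
          F (coeff (ex 0 b) V) (((0 : ℕ) : ℝ) - b) t)| ≤
      (∑ i ∈ Finset.range (l + 1), ∑ j ∈ Finset.range (l + 1),
        (1 + |(i : ℝ) - j|) * ‖coeff (ex i j) V‖) * r ^ (b + 1) := by
    intro F hF0 hF r t hr0 hr1
    have e1 := lp_two hb hbl (fun i j => if i + j = b then
      r ^ (i + j) * F (coeff (ex i j) V) ((i : ℝ) - j) t else 0) (by
        intro i j c1 c2
        by_cases h3 : i + j = b
        · rw [if_pos h3, hvan i j (by omega) c1 c2, hF0, mul_zero]
        · rw [if_neg h3])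
    simp only [add_zero, zero_add, if_true] at e1
    have e2 : r ^ b * (F (coeff (ex b 0) V) ((b : ℝ) - ((0 : ℕ) : ℝ)) t +
          F (coeff (ex 0 b) V) (((0 : ℕ) : ℝ) - b) t) =
        r ^ b * F (coeff (ex b 0) V) ((b : ℝ) - ((0 : ℕ) : ℝ)) t +
        r ^ b * F (coeff (ex 0 b) V) (((0 : ℕ) : ℝ) - b) t := by ring
    rw [e2, ← e1, ← Finset.sum_sub_distrib, Finset.sum_mul]
    refine (Finset.abs_sum_le_sum_abs _ _).trans (Finset.sum_le_sum (fun i _ => ?_))
    rw [← Finset.sum_sub_distrib, Finset.sum_mul]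
    refine (Finset.abs_sum_le_sum_abs _ _).trans (Finset.sum_le_sum (fun j _ => ?_))
    have hnn : 0 ≤ (1 + |(i : ℝ) - j|) * ‖coeff (ex i j) V‖ * r ^ (b + 1) := by positivity
    by_cases h3 : i + j = b
    · rw [if_pos h3, sub_self, abs_zero]
      exact hnn
    · rw [if_neg h3, sub_zero]
      by_cases h4 : i + j < b
      · rw [hlow i j h4, hF0, mul_zero, abs_zero, norm_zero, mul_zero, zero_mul]
      · rw [abs_mul, abs_of_nonneg (pow_nonneg hr0 _), mul_comm]
        refine mul_le_mul (hF _ _ _) (pow_le_pow_of_le_one hr0 hr1 (by omega))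
          (pow_nonneg hr0 _) (by positivity)
  refine ⟨fun r t => ∑ i ∈ Finset.range (l + 1), ∑ j ∈ Finset.range (l + 1),
      r ^ (i + j) * lpg (coeff (ex i j) V) ((i : ℝ) - j) t,
    ∑ i ∈ Finset.range (l + 1), ∑ j ∈ Finset.range (l + 1),
      (1 + |(i : ℝ) - j|) * ‖coeff (ex i j) V‖, by positivity, ?_, ?_, ?_⟩
  · intro r t
    have e1 : (fun t' : ℝ => Vf U (s + r * Complex.exp (t' * Complex.I))) = fun t' : ℝ =>
        ∑ i ∈ Finset.range (l + 1), ∑ j ∈ Finset.range (l + 1),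
        r ^ (i + j) * lpf (coeff (ex i j) V) ((i : ℝ) - j) t' := funext (fun t' => hexp r t')
    rw [e1]
    refine HasDerivAt.fun_sum (fun i _ => HasDerivAt.fun_sum (fun j _ => ?_))
    exact (lpf_deriv _ _ _).const_mul _
  · intro r t hr0 hr1
    have h3 := hest lpf lpf_zero (fun v m t => (lpf_bd v m t).trans (by
      have := norm_nonneg v
      have := abs_nonneg m
      nlinarith)) r t hr0 hr1
    rw [hmain] at h3
    rw [hexp]
    exact h3
  · intro r t hr0 hr1
    have h3 := hest lpg lpg_zero (fun v m t => (lpg_bd v m t).trans (by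
      have := norm_nonneg v
      have := abs_nonneg m
      nlinarith)) r t hr0 hr1
    rw [hmain2] at h3
    have e1 : ∀ S X : ℝ, S - r ^ b * -(b * X) = S + b * r ^ b * X := fun S X => by ring
    rw [e1] at h3
    exact h3

theorem rotW_of_tangent {U : P2} (hR : RealP U) (s : ℂ)
    (h : (2 * coeff (ex 1 0) (shift s ((starRingEnd ℂ) s) U) * (Complex.I * s)).re = 0) :
    rotW U ∈ ptI s ((starRingEnd ℂ) s) := by
  set V : P2 := shift s ((starRingEnd ℂ) s) U with hV
  have hVR : RealP V := RealP.shift hR s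
  have h00 : ∀ W : P2, coeff (ex 0 0) (shift s ((starRingEnd ℂ) s) W) =
      eval ![s, (starRingEnd ℂ) s] W := by
    intro W
    have e1 := eval_shift s ((starRingEnd ℂ) s) 0 0 W
    rw [zero_add, zero_add] at e1
    rw [← e1, ex_00]
    have e2 : (![0, 0] : Fin 2 → ℂ) = 0 := by
      ext i
      fin_cases i <;> simp
    rw [e2, MvPolynomial.eval_zero]
    rfl
  have e0 : eval ![s, (starRingEnd ℂ) s] (pderiv 0 U) = coeff (ex 1 0) V := by
    rw [← h00, ← shift_pderiv, ← hV, coeff_pderiv0]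
    simp
  have e1 : eval ![s, (starRingEnd ℂ) s] (pderiv 1 U) = (starRingEnd ℂ) (coeff (ex 1 0) V) := by
    rw [← h00, ← shift_pderiv, ← hV, coeff_pderiv1, hVR 1 0]
    simp
  rw [mem_ptI_iff, rotW, map_sub, map_mul, map_mul, e0, e1, eval_X, eval_X]
  have e2 : (![s, (starRingEnd ℂ) s] : Fin 2 → ℂ) 0 = s := rfl
  have e3 : (![s, (starRingEnd ℂ) s] : Fin 2 → ℂ) 1 = (starRingEnd ℂ) s := rfl
  rw [e2, e3, ← map_mul, Complex.sub_conj]
  have e4 : (s * coeff (ex 1 0) V).im = 0 := by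
    have e5 : (2 * coeff (ex 1 0) V * (Complex.I * s)) =
        Complex.I * (2 * (s * coeff (ex 1 0) V)) := by ring
    rw [e5, Complex.I_mul_re] at h
    have e6 : (2 * (s * coeff (ex 1 0) V)).im = 2 * (s * coeff (ex 1 0) V).im := by
      simp only [Complex.mul_im, Complex.re_ofNat, Complex.im_ofNat]
      ring
    rw [e6] at h
    linarith
  rw [e4]
  simp

end Pool.Agent.SHB
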