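import Pool.Agent.SHB.RealU
import Pool.Agent.SHB.PtI

/-!
# Project SHB (MP_f77893_an), module RPt: zeros of the harmonic polynomial on the sphere

PLAN. `scale_mem`: for `u` homogeneous and `t ≠ 0`: `u ∈ ptJ x ^ b` implies `u ∈ ptJ (t • x) ^ b`: the algebra automorphism
`σ = aeval (fun i => C t⁻¹ * X i)` maps `ptJ x` into `ptJ (t • x)` (`C t⁻¹ X i - C (x i) = C t⁻¹ (X i - C (t x i))`), so
`σ u ∈ ptJ (t • x) ^ b` (`Ideal.pow_right_mono`, `Ideal.map_pow`), and `σ u = C (t⁻¹)^l * u` (homogeneous).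
`real_pt`: `cx` maps `ptJ y ^ b` into `(span {X i - C (y i : ℂ)})^b`, and `aeval (phi a (conj a))` maps `X i - C (y i)` to
`phi a (conj a) i - C (y i)`, which is in `ptI w (conj w)` for `y = sphV a w` because its value at `(w, conj w)` is `0` (`sphV_eq`,
`mem_ptI_iff`). So `UU (cx u) a (conj a) ∈ ptI w (conj w) ^ b` for `u ∈ ptJ (sphV a w) ^ b` (`Ideal.map_le_iff_le_comap`, `Ideal.map_pow`).
-/

set_option autoImplicit false

namespace Pool.Agent.SHB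

open MvPolynomial

private theorem pow_le_ptJ (x : Fin 3 → ℝ) (b : ℕ) (hb : 1 ≤ b) : ptJ x ^ b ≤ ptJ x :=
  Ideal.pow_le_self (by omega)

/-- the scaling automorphism -/
private noncomputable def rptS (t : ℝ) : MvPolynomial (Fin 3) ℝ →ₐ[ℝ] MvPolynomial (Fin 3) ℝ :=
  aeval fun i => C t⁻¹ * X i

private theorem rptS_homog (u : MvPolynomial (Fin 3) ℝ) (l : ℕ) (hu : u.IsHomogeneous l) (t : ℝ) :
    rptS t u = C (t⁻¹ ^ l) * u := by
  have h1 : ∀ m ∈ u.support, rptS t (monomial m (coeff m u)) =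
      C (t⁻¹ ^ l) * monomial m (coeff m u) := by
    intro m hm
    have h2 : m.degree = l := by
      have := hu (mem_support_iff.mp hm)
      rwa [Finsupp.degree_eq_weight_one]
    rw [rptS, aeval_monomial, algebraMap_eq]
    have h3 : (m.prod fun i k => (C t⁻¹ * X i : MvPolynomial (Fin 3) ℝ) ^ k) =
        C (t⁻¹ ^ l) * m.prod fun i k => (X i : MvPolynomial (Fin 3) ℝ) ^ k := by
      rw [Finsupp.prod, Finsupp.prod]
      simp_rw [mul_pow]
      rw [Finset.prod_mul_distrib, Finset.prod_pow_eq_pow_sum, ← C_pow]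
      congr 3
    rw [h3, monomial_eq]
    ring
  conv_lhs => rw [u.as_sum]
  conv_rhs => rw [u.as_sum]
  rw [map_sum, Finset.mul_sum]
  exact Finset.sum_congr rfl h1

private theorem rptS_map (x : Fin 3 → ℝ) (t : ℝ) (ht : t ≠ 0) :
    (ptJ x).map (rptS t : MvPolynomial (Fin 3) ℝ →+* MvPolynomial (Fin 3) ℝ) ≤ ptJ (t • x) := by
  rw [ptJ, Ideal.map_span, Ideal.span_le]
  rintro _ ⟨_, ⟨i, rfl⟩, rfl⟩
  have h1 : (rptS t : MvPolynomial (Fin 3) ℝ →+* MvPolynomial (Fin 3) ℝ) (X i - C (x i)) =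
      C t⁻¹ * (X i - C ((t • x) i)) := by
    have h2 : (C (x i) : MvPolynomial (Fin 3) ℝ) = C t⁻¹ * C ((t • x) i) := by
      rw [← C_mul, Pi.smul_apply, smul_eq_mul, inv_mul_cancel_left₀ ht]
    have h3 : (rptS t : MvPolynomial (Fin 3) ℝ →+* MvPolynomial (Fin 3) ℝ) (X i - C (x i)) =
        C t⁻¹ * X i - C (x i) := by
      rw [map_sub]
      simp [rptS]
    rw [h3, h2]
    ring
  rw [SetLike.mem_coe, h1]
  exact Ideal.mul_mem_left _ _ (Ideal.subset_span ⟨i, rfl⟩)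

theorem scale_mem (u : MvPolynomial (Fin 3) ℝ) (l : ℕ) (hu : u.IsHomogeneous l) (x : Fin 3 → ℝ)
    (t : ℝ) (ht : t ≠ 0) (b : ℕ) (h : u ∈ ptJ x ^ b) : u ∈ ptJ (t • x) ^ b := by
  have h1 : rptS t u ∈ ptJ (t • x) ^ b := by
    have h2 := Ideal.mem_map_of_mem
      (rptS t : MvPolynomial (Fin 3) ℝ →+* MvPolynomial (Fin 3) ℝ) h
    rw [Ideal.map_pow] at h2
    exact Ideal.pow_right_mono (rptS_map x t ht) b h2
  rw [rptS_homog u l hu t] at h1
  have h2 : u = C (t ^ l) * (C (t⁻¹ ^ l) * u) := by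
    rw [← mul_assoc, ← C_mul, ← mul_pow, mul_inv_cancel₀ ht, one_pow, C_1, one_mul]
  rw [h2]
  exact Ideal.mul_mem_left _ _ h1

/-- `u ↦ UU (cx u) a a'` as a ring homomorphism -/
private noncomputable def rptU (a b : ℂ) : MvPolynomial (Fin 3) ℝ →+* P2 :=
  ((aeval (phi a b) : MvPolynomial (Fin 3) ℂ →ₐ[ℂ] P2) : MvPolynomial (Fin 3) ℂ →+* P2).comp
    (map (algebraMap ℝ ℂ))

private theorem rptU_apply (a b : ℂ) (u : MvPolynomial (Fin 3) ℝ) :
    rptU a b u = UU (cx u) a b := rfl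

private theorem rptU_map (a w : ℂ) :
    (ptJ (sphV a w)).map (rptU a ((starRingEnd ℂ) a)) ≤ ptI w ((starRingEnd ℂ) w) := by
  rw [ptJ, Ideal.map_span, Ideal.span_le]
  rintro _ ⟨_, ⟨i, rfl⟩, rfl⟩
  rw [SetLike.mem_coe, mem_ptI_iff, rptU_apply]
  have h1 := eval_UU (X i - C (sphV a w i)) a w
  rw [h1]
  simp

theorem real_pt (u : MvPolynomial (Fin 3) ℝ) (l : ℕ) (hu : u.IsHomogeneous l) (a w : ℂ)
    (x : Fin 3 → ℝ) (t : ℝ) (ht : t ≠ 0) (hx : sphV a w = t • x) (b : ℕ) (h : u ∈ ptJ x ^ b) :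
    UU (cx u) a ((starRingEnd ℂ) a) ∈ ptI w ((starRingEnd ℂ) w) ^ b := by
  have h1 := scale_mem u l hu x t ht b h
  rw [← hx] at h1
  have h2 := Ideal.mem_map_of_mem (rptU a ((starRingEnd ℂ) a)) h1
  rw [Ideal.map_pow] at h2
  exact Ideal.pow_right_mono (rptU_map a w) b h2

theorem eval_eq_zero_of_mem (u : MvPolynomial (Fin 3) ℝ) (x : Fin 3 → ℝ) (b : ℕ) (hb : 1 ≤ b)
    (h : u ∈ ptJ x ^ b) : eval x u = 0 := by
  have h1 := pow_le_ptJ x b hb h
  have h2 : ptJ x ≤ RingHom.ker (eval x) := by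
    rw [ptJ, Ideal.span_le]
    rintro _ ⟨i, rfl⟩
    rw [SetLike.mem_coe, RingHom.mem_ker]
    simp
  exact RingHom.mem_ker.mp (h2 h1)

end Pool.Agent.SHB
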