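import Pool.Agent.SHB.RealU

/-!
# Project SHB (MP_f77893_an), module Sph: from the sphere to the plane

PLAN. `stereo`: let `x` be on the sphere and `p = sphV a 0 / (1 + |a|^2)` (a unit vector by `norm_sphV`). Put
`ξ = ∑ x i * conj (frA a i) / (1 + |a|^2)` (`conj (frA a i) = frB (conj a) i`), `ζ = ∑ x i p i`, both real-linear in `x`.
By the frame identity (`frame` in `Chain.lean`, or direct expansion) `x i = Re (conj ξ... )`: precisely
`(1+|a|^2)^2 x i = Re (frA a i * conj (∑ x j conj...))`; in the orthonormal frame `(α, β, p)`, `frA a = (1+|a|^2)(α - iβ)`,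
`x = (x·α) α + (x·β) β + ζ p` and `ξ = x·α + i x·β`, `|ξ|^2 + ζ^2 = 1`. If `ζ ≠ -1` put `w = ξ/(1 + ζ)`; then
`1 + |w|^2 = 2/(1 + ζ)`, `sphV a w = (1+|a|^2)(1 + |w|^2) x`. If `ζ = -1` then `x = -p`.
It may be easier to verify the final identities by coordinates: with `a = a1 + i a2` all vectors are explicit.
An alternative for `stereo`: prove surjectivity by the explicit inverse in the standard frame and a rotation; any proof is fine.

`comps_le`: let `V = Vf U`, `U = UU (cx u) a (conj a)`, `V w = eval (sphV a w) u` (`Vf_UU`). The map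
`g w = (1/((1+|a|^2)(1+|w|^2))) • sphV a w` is continuous from the plane to the sphere (`norm_sphV`) and maps `PlaneC U` to `SphC u`
(homogeneity: `eval (t • x) u = t^l eval x u`, `MvPolynomial.IsHomogeneous.eval_smul`-type lemma). It induces
`ConnectedComponents (PlaneC U) → ConnectedComponents (SphC u)` (`Continuous.connectedComponentsMap`), surjective: a point `x` of the
sphere with `u x ≠ 0` is `g w` if `x ≠ -p`; if `x = -p`, then the arc `cos t x + sin t e` (`e` a unit vector orthogonal to `x`), `0 ≤ t ≤ δ`, stays in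
`u ≠ 0` and its end point is not `-p`. Then `Finite.of_surjective`, `Nat.card_le_card_of_surjective`.
-/

set_option autoImplicit false

namespace Pool.Agent.SHB

open MvPolynomial

private theorem sv0 (a w : ℂ) : sphV a w 0 =
    2 * (w.re * (a.re ^ 2 - a.im ^ 2 - 1) - w.im * (2 * a.re * a.im)) +
      (1 - w.re ^ 2 - w.im ^ 2) * (2 * a.re) := by
  simp [sphV, phi, frA, frB, frP, pow_two]
  ring

private theorem sv1 (a w : ℂ) : sphV a w 1 =
    2 * (w.re * (-2 * a.re * a.im) - w.im * (a.re ^ 2 - a.im ^ 2 + 1)) +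
      (1 - w.re ^ 2 - w.im ^ 2) * (-2 * a.im) := by
  simp [sphV, phi, frA, frB, frP, pow_two]
  ring

private theorem sv2 (a w : ℂ) : sphV a w 2 =
    2 * (w.re * (2 * a.re) - w.im * (2 * a.im)) +
      (1 - w.re ^ 2 - w.im ^ 2) * (1 - a.re ^ 2 - a.im ^ 2) := by
  simp [sphV, phi, frA, frB, frP, pow_two]
  ring

private theorem alg (a1 a2 x0 x1 x2 s : ℝ) (hx : x0 ^ 2 + x1 ^ 2 + x2 ^ 2 = 1)
    (hs : s = 1 + a1 ^ 2 + a2 ^ 2 + (x0 * (2 * a1) + x1 * (-2 * a2) + x2 * (1 - a1 ^ 2 - a2 ^ 2)))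
    (hs0 : s ≠ 0) :
    let A0 := a1 ^ 2 - a2 ^ 2 - 1
    let A1 := -2 * a1 * a2
    let A2 := 2 * a1
    let B0 := 2 * a1 * a2
    let B1 := a1 ^ 2 - a2 ^ 2 + 1
    let B2 := 2 * a2
    let w1 := (x0 * A0 + x1 * A1 + x2 * A2) / s
    let w2 := -(x0 * B0 + x1 * B1 + x2 * B2) / s
    let t := 2 * (1 + a1 ^ 2 + a2 ^ 2) ^ 2 / s
    2 * (w1 * A0 - w2 * B0) + (1 - w1 ^ 2 - w2 ^ 2) * (2 * a1) = t * x0 ∧
    2 * (w1 * A1 - w2 * B1) + (1 - w1 ^ 2 - w2 ^ 2) * (-2 * a2) = t * x1 ∧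
    2 * (w1 * A2 - w2 * B2) + (1 - w1 ^ 2 - w2 ^ 2) * (1 - a1 ^ 2 - a2 ^ 2) = t * x2 := by
  intro A0 A1 A2 B0 B1 B2 w1 w2 t
  set q := 1 + a1 ^ 2 + a2 ^ 2 with hq
  set Z := x0 * (2 * a1) + x1 * (-2 * a2) + x2 * (1 - a1 ^ 2 - a2 ^ 2) with hZ
  set X := x0 * A0 + x1 * A1 + x2 * A2 with hX
  set Y := x0 * B0 + x1 * B1 + x2 * B2 with hY
  have h1 : X ^ 2 + Y ^ 2 + Z ^ 2 = q ^ 2 := by
    have : X ^ 2 + Y ^ 2 + Z ^ 2 = q ^ 2 * (x0 ^ 2 + x1 ^ 2 + x2 ^ 2) := by
      simp only [hX, hY, hZ, hq, A0, A1, A2, B0, B1, B2]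
      ring
    rw [this, hx, mul_one]
  have h2 : w1 ^ 2 + w2 ^ 2 = (q - Z) / s := by
    have e : w1 ^ 2 + w2 ^ 2 = (X ^ 2 + Y ^ 2) / s ^ 2 := by
      simp only [w1, w2]
      field_simp
      ring
    rw [e, show X ^ 2 + Y ^ 2 = (q - Z) * s by rw [hs]; linear_combination h1]
    field_simp
  have h3 : 1 - w1 ^ 2 - w2 ^ 2 = 2 * Z / s := by
    have e : 1 - w1 ^ 2 - w2 ^ 2 = 1 - (q - Z) / s := by rw [← h2]; ring
    rw [e]
    field_simp
    rw [hs]
    ring
  have f0 : X * A0 + Y * B0 + Z * (2 * a1) = q ^ 2 * x0 := by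
    simp only [hX, hY, hZ, hq, A0, A1, A2, B0, B1, B2]
    ring
  have f1 : X * A1 + Y * B1 + Z * (-2 * a2) = q ^ 2 * x1 := by
    simp only [hX, hY, hZ, hq, A0, A1, A2, B0, B1, B2]
    ring
  have f2 : X * A2 + Y * B2 + Z * (1 - a1 ^ 2 - a2 ^ 2) = q ^ 2 * x2 := by
    simp only [hX, hY, hZ, hq, A0, A1, A2, B0, B1, B2]
    ring
  rw [h3]
  refine ⟨?_, ?_, ?_⟩
  · have e : 2 * (w1 * A0 - w2 * B0) + 2 * Z / s * (2 * a1) =
        2 * (X * A0 + Y * B0 + Z * (2 * a1)) / s := by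
      simp only [w1, w2]
      field_simp
      ring
    rw [e, f0]
    simp only [t]
    ring
  · have e : 2 * (w1 * A1 - w2 * B1) + 2 * Z / s * (-2 * a2) =
        2 * (X * A1 + Y * B1 + Z * (-2 * a2)) / s := by
      simp only [w1, w2]
      field_simp
      ring
    rw [e, f1]
    simp only [t]
    ring
  · have e : 2 * (w1 * A2 - w2 * B2) + 2 * Z / s * (1 - a1 ^ 2 - a2 ^ 2) =
        2 * (X * A2 + Y * B2 + Z * (1 - a1 ^ 2 - a2 ^ 2)) / s := by
      simp only [w1, w2]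
      field_simp
      ring
    rw [e, f2]
    simp only [t]
    ring

theorem stereo (a : ℂ) (x : Fin 3 → ℝ) (hx : ∑ i : Fin 3, x i ^ 2 = 1) :
    (∃ (w : ℂ) (t : ℝ), 0 < t ∧ sphV a w = t • x) ∨ (∃ t : ℝ, t < 0 ∧ sphV a 0 = t • x) := by
  rw [Fin.sum_univ_three] at hx
  obtain ⟨s, hs⟩ : ∃ s : ℝ, s = 1 + a.re ^ 2 + a.im ^ 2 +
    (x 0 * (2 * a.re) + x 1 * (-2 * a.im) + x 2 * (1 - a.re ^ 2 - a.im ^ 2)) := ⟨_, rfl⟩
  have hq : 0 < 1 + a.re ^ 2 + a.im ^ 2 := by positivity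
  set q := 1 + a.re ^ 2 + a.im ^ 2 with hqd
  set Z := x 0 * (2 * a.re) + x 1 * (-2 * a.im) + x 2 * (1 - a.re ^ 2 - a.im ^ 2) with hZ
  set X := x 0 * (a.re ^ 2 - a.im ^ 2 - 1) + x 1 * (-2 * a.re * a.im) + x 2 * (2 * a.re) with hX
  set Y := x 0 * (2 * a.re * a.im) + x 1 * (a.re ^ 2 - a.im ^ 2 + 1) + x 2 * (2 * a.im) with hY
  have h1 : X ^ 2 + Y ^ 2 + Z ^ 2 = q ^ 2 := by
    have : X ^ 2 + Y ^ 2 + Z ^ 2 = q ^ 2 * (x 0 ^ 2 + x 1 ^ 2 + x 2 ^ 2) := by
      simp only [hX, hY, hZ, hqd]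
      ring
    rw [this, hx, mul_one]
  by_cases hs0 : s = 0
  · right
    have hZq : Z = -q := by linarith
    have h2 : X ^ 2 + Y ^ 2 = 0 := by
      rw [hZq] at h1
      linarith
    have hX0 : X = 0 := by nlinarith [sq_nonneg X, sq_nonneg Y]
    have hY0 : Y = 0 := by nlinarith [sq_nonneg X, sq_nonneg Y]
    have f0 : X * (a.re ^ 2 - a.im ^ 2 - 1) + Y * (2 * a.re * a.im) + Z * (2 * a.re) =
        q ^ 2 * x 0 := by
      simp only [hX, hY, hZ, hqd]
      ring
    have f1 : X * (-2 * a.re * a.im) + Y * (a.re ^ 2 - a.im ^ 2 + 1) + Z * (-2 * a.im) =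
        q ^ 2 * x 1 := by
      simp only [hX, hY, hZ, hqd]
      ring
    have f2 : X * (2 * a.re) + Y * (2 * a.im) + Z * (1 - a.re ^ 2 - a.im ^ 2) = q ^ 2 * x 2 := by
      simp only [hX, hY, hZ, hqd]
      ring
    rw [hX0, hY0, hZq, zero_mul, zero_mul, zero_add, zero_add] at f0 f1 f2
    refine ⟨-q, by linarith, ?_⟩
    funext i
    show sphV a 0 i = -q * x i
    have e0 : q * (2 * a.re) = q * (-q * x 0) := by linarith
    have e1 : q * (-2 * a.im) = q * (-q * x 1) := by linarith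
    have e2 : q * (1 - a.re ^ 2 - a.im ^ 2) = q * (-q * x 2) := by linarith
    have g0 := mul_left_cancel₀ hq.ne' e0
    have g1 := mul_left_cancel₀ hq.ne' e1
    have g2 := mul_left_cancel₀ hq.ne' e2
    fin_cases i
    · show sphV a 0 0 = -q * x 0
      rw [sv0, ← g0]
      simp
    · show sphV a 0 1 = -q * x 1
      rw [sv1, ← g1]
      simp
    · show sphV a 0 2 = -q * x 2
      rw [sv2, ← g2]
      simp
  · left
    have hspos : 0 < s := by
      have h3 : 0 ≤ s := by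
        have h4 : Z ^ 2 ≤ q ^ 2 := by nlinarith [sq_nonneg X, sq_nonneg Y]
        have h5 := (abs_le_of_sq_le_sq' h4 hq.le).1
        rw [hs]
        linarith
      exact lt_of_le_of_ne h3 (Ne.symm hs0)
    have h6 := alg a.re a.im (x 0) (x 1) (x 2) s hx hs hs0
    simp only at h6
    refine ⟨⟨X / s, -Y / s⟩, 2 * q ^ 2 / s, by positivity, ?_⟩
    funext i
    show sphV a ⟨X / s, -Y / s⟩ i = 2 * q ^ 2 / s * x i
    fin_cases i
    · show sphV a ⟨X / s, -Y / s⟩ 0 = 2 * q ^ 2 / s * x 0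
      rw [sv0]
      exact h6.1
    · show sphV a ⟨X / s, -Y / s⟩ 1 = 2 * q ^ 2 / s * x 1
      rw [sv1]
      exact h6.2.1
    · show sphV a ⟨X / s, -Y / s⟩ 2 = 2 * q ^ 2 / s * x 2
      rw [sv2]
      exact h6.2.2

private theorem eval_smul' (u : MvPolynomial (Fin 3) ℝ) (l : ℕ) (hu : u.IsHomogeneous l) (t : ℝ)
    (x : Fin 3 → ℝ) : eval (t • x) u = t ^ l * eval x u := by
  rw [eval_eq', eval_eq', Finset.mul_sum]
  refine Finset.sum_congr rfl fun d hd => ?_
  have h1 := hu (mem_support_iff.1 hd)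
  rw [Finsupp.weight_apply, Finsupp.sum_fintype _ _ (by simp), Fin.sum_univ_three] at h1
  rw [Fin.prod_univ_three, Fin.prod_univ_three]
  simp only [Pi.one_apply, smul_eq_mul, mul_one] at h1
  simp only [Pi.smul_apply, smul_eq_mul, mul_pow]
  rw [← h1, pow_add, pow_add]
  ring

/-! ### connected components -/

private theorem nearby_of (u : MvPolynomial (Fin 3) ℝ) (x : SphC u) (ρ : ℝ → Fin 3 → ℝ)
    (hρ : Continuous ρ) (h0 : ρ 0 = x.1) (h1 : ∀ s, ∑ i : Fin 3, ρ s i ^ 2 = 1)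
    (h2 : ∀ s : ℝ, 0 < s → s ≤ 1 → ρ s ≠ x.1) :
    ∃ y : SphC u, y ≠ x ∧ (y : ConnectedComponents (SphC u)) = (x : ConnectedComponents (SphC u)) := by
  have hcont : Continuous fun s => eval (ρ s) u := (MvPolynomial.continuous_eval u).comp hρ
  have hne : eval (ρ 0) u ≠ 0 := by rw [h0]; exact x.2.2
  have hev : ∀ᶠ s in nhds (0 : ℝ), eval (ρ s) u ≠ 0 := hcont.continuousAt.eventually_ne hne
  obtain ⟨ε, hε, hball⟩ := Metric.eventually_nhds_iff.1 hev
  obtain ⟨δ, hδ0, hδ1, hδ⟩ : ∃ δ : ℝ, 0 < δ ∧ δ ≤ 1 ∧ δ < ε :=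
    ⟨min 1 (ε / 2), lt_min one_pos (by linarith), min_le_left _ _,
      lt_of_le_of_lt (min_le_right _ _) (by linarith)⟩
  have hin : ∀ r : unitInterval, eval (ρ (r.1 * δ)) u ≠ 0 := by
    intro r
    apply hball
    rw [Real.dist_eq, sub_zero, abs_of_nonneg (mul_nonneg r.2.1 hδ0.le)]
    calc r.1 * δ ≤ 1 * δ := mul_le_mul_of_nonneg_right r.2.2 hδ0.le
      _ < ε := by linarith
  let γ : unitInterval → SphC u := fun r => ⟨ρ (r.1 * δ), h1 _, hin r⟩
  have hγ : Continuous γ :=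
    (hρ.comp (continuous_subtype_val.mul continuous_const)).subtype_mk _
  have hpre := isPreconnected_range hγ
  have hγ0 : γ 0 = x := by
    apply Subtype.ext
    show ρ ((0 : ℝ) * δ) = x.1
    rw [zero_mul, h0]
  refine ⟨γ 1, ?_, ?_⟩
  · intro h
    have h3 := congrArg Subtype.val h
    have h4 : ρ ((1 : ℝ) * δ) = x.1 := h3
    rw [one_mul] at h4
    exact h2 δ hδ0 hδ1 h4
  · apply ConnectedComponents.coe_eq_coe'.2
    have h5 : x ∈ Set.range γ := ⟨0, hγ0⟩
    exact hpre.subset_connectedComponent h5 ⟨1, rfl⟩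

private theorem nearby (u : MvPolynomial (Fin 3) ℝ) (x : SphC u) :
    ∃ y : SphC u, y ≠ x ∧ (y : ConnectedComponents (SphC u)) = (x : ConnectedComponents (SphC u)) := by
  have hx := x.2.1
  rw [Fin.sum_univ_three] at hx
  have hsin : ∀ s : ℝ, 0 < s → s ≤ 1 → Real.sin s ≠ 0 := fun s h1 h2 =>
    (Real.sin_pos_of_pos_of_le_one h1 h2).ne'
  by_cases hxy : x.1 0 ^ 2 + x.1 1 ^ 2 = 0
  · have hx12 : 0 < x.1 1 ^ 2 + x.1 2 ^ 2 := by nlinarith [sq_nonneg (x.1 0), sq_nonneg (x.1 1)]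
    refine nearby_of u x (fun s => ![x.1 0, Real.cos s * x.1 1 - Real.sin s * x.1 2,
      Real.sin s * x.1 1 + Real.cos s * x.1 2]) ?_ ?_ ?_ ?_
    · apply continuous_pi
      intro i
      fin_cases i
      · exact continuous_const
      · exact (Real.continuous_cos.mul continuous_const).sub
          (Real.continuous_sin.mul continuous_const)
      · exact (Real.continuous_sin.mul continuous_const).add
          (Real.continuous_cos.mul continuous_const)
    · funext i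
      fin_cases i
      · rfl
      · simp
      · simp
    · intro s
      rw [Fin.sum_univ_three]
      show x.1 0 ^ 2 + (Real.cos s * x.1 1 - Real.sin s * x.1 2) ^ 2 +
        (Real.sin s * x.1 1 + Real.cos s * x.1 2) ^ 2 = 1
      have hcs := Real.sin_sq_add_cos_sq s
      linear_combination (x.1 1 ^ 2 + x.1 2 ^ 2) * hcs + hx
    · intro s hs0 hs1 h
      have e1 : Real.cos s * x.1 1 - Real.sin s * x.1 2 = x.1 1 := congrFun h 1
      have e2 : Real.sin s * x.1 1 + Real.cos s * x.1 2 = x.1 2 := congrFun h 2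
      have e3 : Real.sin s * (x.1 1 ^ 2 + x.1 2 ^ 2) = 0 := by
        linear_combination x.1 1 * e2 - x.1 2 * e1
      rcases mul_eq_zero.1 e3 with h3 | h3
      · exact hsin s hs0 hs1 h3
      · exact hx12.ne' h3
  · refine nearby_of u x (fun s => ![Real.cos s * x.1 0 - Real.sin s * x.1 1,
      Real.sin s * x.1 0 + Real.cos s * x.1 1, x.1 2]) ?_ ?_ ?_ ?_
    · apply continuous_pi
      intro i
      fin_cases i
      · exact (Real.continuous_cos.mul continuous_const).sub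
          (Real.continuous_sin.mul continuous_const)
      · exact (Real.continuous_sin.mul continuous_const).add
          (Real.continuous_cos.mul continuous_const)
      · exact continuous_const
    · funext i
      fin_cases i
      · simp
      · simp
      · rfl
    · intro s
      rw [Fin.sum_univ_three]
      show (Real.cos s * x.1 0 - Real.sin s * x.1 1) ^ 2 +
        (Real.sin s * x.1 0 + Real.cos s * x.1 1) ^ 2 + x.1 2 ^ 2 = 1
      have hcs := Real.sin_sq_add_cos_sq s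
      linear_combination (x.1 0 ^ 2 + x.1 1 ^ 2) * hcs + hx
    · intro s hs0 hs1 h
      have e1 : Real.cos s * x.1 0 - Real.sin s * x.1 1 = x.1 0 := congrFun h 0
      have e2 : Real.sin s * x.1 0 + Real.cos s * x.1 1 = x.1 1 := congrFun h 1
      have e3 : Real.sin s * (x.1 0 ^ 2 + x.1 1 ^ 2) = 0 := by
        linear_combination x.1 0 * e2 - x.1 1 * e1
      rcases mul_eq_zero.1 e3 with h3 | h3
      · exact hsin s hs0 hs1 h3
      · exact hxy h3

private noncomputable def nn (a w : ℂ) : ℝ := (1 + ‖a‖ ^ 2) * (1 + ‖w‖ ^ 2)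

private theorem nn_pos (a w : ℂ) : 0 < nn a w := by
  unfold nn
  positivity

private theorem sphV_cont (a : ℂ) : Continuous fun w => sphV a w := by
  apply continuous_pi
  intro i
  have h1 := Complex.continuous_re
  have h2 := Complex.continuous_im
  fin_cases i
  · show Continuous fun w => sphV a w 0
    simp only [sv0]
    fun_prop
  · show Continuous fun w => sphV a w 1
    simp only [sv1]
    fun_prop
  · show Continuous fun w => sphV a w 2
    simp only [sv2]
    fun_prop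

private theorem gV_norm (a w : ℂ) : ∑ i : Fin 3, ((nn a w)⁻¹ • sphV a w) i ^ 2 = 1 := by
  have h := norm_sphV a w
  have h1 := nn_pos a w
  simp only [Pi.smul_apply, smul_eq_mul, mul_pow]
  rw [← Finset.mul_sum, h]
  show (nn a w)⁻¹ ^ 2 * (nn a w) ^ 2 = 1
  rw [← mul_pow, inv_mul_cancel₀ h1.ne', one_pow]

private theorem t_eq (a w : ℂ) (x : Fin 3 → ℝ) (hx : ∑ i : Fin 3, x i ^ 2 = 1) (t : ℝ)
    (h : sphV a w = t • x) : t ^ 2 = (nn a w) ^ 2 := by
  have h1 := norm_sphV a w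
  rw [h] at h1
  simp only [Pi.smul_apply, smul_eq_mul, mul_pow] at h1
  rw [← Finset.mul_sum, hx, mul_one, ← mul_pow] at h1
  exact h1

theorem comps_le (u : MvPolynomial (Fin 3) ℝ) (l : ℕ) (hu : u.IsHomogeneous l) (a : ℂ)
    (hfin : Finite (ConnectedComponents (PlaneC (UU (cx u) a ((starRingEnd ℂ) a))))) :
    Finite (ConnectedComponents (SphC u)) ∧
    Nat.card (ConnectedComponents (SphC u)) ≤
      Nat.card (ConnectedComponents (PlaneC (UU (cx u) a ((starRingEnd ℂ) a)))) := by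
  have hV := Vf_UU u a
  have hmem : ∀ w : PlaneC (UU (cx u) a ((starRingEnd ℂ) a)),
      eval ((nn a w.1)⁻¹ • sphV a w.1) u ≠ 0 := by
    intro w
    rw [eval_smul' u l hu, ← hV]
    exact mul_ne_zero (pow_ne_zero _ (inv_ne_zero (nn_pos a w.1).ne')) w.2
  let g : PlaneC (UU (cx u) a ((starRingEnd ℂ) a)) → SphC u :=
    fun w => ⟨(nn a w.1)⁻¹ • sphV a w.1, gV_norm a w.1, hmem w⟩
  have hnn : Continuous fun w : ℂ => nn a w := by
    unfold nn
    fun_prop
  have hg : Continuous g := by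
    refine Continuous.subtype_mk ?_ _
    exact ((hnn.inv₀ fun w => (nn_pos a w).ne').smul (sphV_cont a)).comp continuous_subtype_val
  have key : ∀ y : SphC u, (∃ (w : ℂ) (t : ℝ), 0 < t ∧ sphV a w = t • y.1) →
      ∃ w : PlaneC (UU (cx u) a ((starRingEnd ℂ) a)), g w = y := by
    rintro y ⟨w, t, ht, h⟩
    have h1 := t_eq a w y.1 y.2.1 t h
    have h2 : t = nn a w := by
      have h3 := nn_pos a w
      rcases sq_eq_sq_iff_eq_or_eq_neg.1 h1 with h4 | h4
      · exact h4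
      · linarith
    have h5 : eval (sphV a w) u ≠ 0 := by
      rw [h, eval_smul' u l hu]
      exact mul_ne_zero (pow_ne_zero _ ht.ne') y.2.2
    refine ⟨⟨w, by rw [hV]; exact h5⟩, ?_⟩
    apply Subtype.ext
    show (nn a w)⁻¹ • sphV a w = y.1
    rw [h, h2, smul_smul, inv_mul_cancel₀ (nn_pos a w).ne', one_smul]
  have hsurj : Function.Surjective hg.connectedComponentsMap := by
    intro c
    obtain ⟨x, rfl⟩ := ConnectedComponents.surjective_coe c
    rcases stereo a x.1 x.2.1 with h | ⟨t, ht, hx⟩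
    · obtain ⟨w, hw⟩ := key x h
      refine ⟨.mk w, ?_⟩
      rw [Continuous.connectedComponentsMap_mk, hw]
    · obtain ⟨y, hyx, hyc⟩ := nearby u x
      rcases stereo a y.1 y.2.1 with h | ⟨t', ht', hy⟩
      · obtain ⟨w, hw⟩ := key y h
        refine ⟨.mk w, ?_⟩
        rw [Continuous.connectedComponentsMap_mk, hw]
        exact hyc
      · exfalso
        apply hyx
        apply Subtype.ext
        have e1 := t_eq a 0 x.1 x.2.1 t hx
        have e2 := t_eq a 0 y.1 y.2.1 t' hy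
        have e3 : t = t' := by
          rcases sq_eq_sq_iff_eq_or_eq_neg.1 (e1.trans e2.symm) with h4 | h4
          · exact h4
          · linarith
        rw [hx, e3] at hy
        exact (smul_right_injective _ ht'.ne hy).symm
  haveI : Finite (ConnectedComponents (PlaneC (UU (cx u) a ((starRingEnd ℂ) a)))) := hfin
  exact ⟨Finite.of_surjective _ hsurj, Nat.card_le_card_of_surjective _ hsurj⟩

end Pool.Agent.SHB
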