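import Pool.Agent.SHB.Planar
import Pool.Agent.SHB.Chain
import Pool.Agent.SHB.Sph
import Pool.Agent.SHB.RPt
import Pool.Agent.SHB.IsoT
import Pool.Agent.SHB.Gen

/-!
# Project SHB (MP_f77893_an), module Main: the theorem (assembly)
-/

set_option autoImplicit false

namespace Pool.Agent.SHB

open MvPolynomial

lemma cx_homog {u : MvPolynomial (Fin 3) ℝ} {l : ℕ} (hu : u.IsHomogeneous l) :
    (cx u).IsHomogeneous l := by
  rw [cx]; exact hu.map _

lemma cx_harm {u : MvPolynomial (Fin 3) ℝ}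
    (hh : ∑ i : Fin 3, pderiv i (pderiv i u) = 0) :
    ∑ i : Fin 3, pderiv i (pderiv i (cx u)) = 0 := by
  have h : (MvPolynomial.map (algebraMap ℝ ℂ)) (∑ i : Fin 3, pderiv i (pderiv i u)) = 0 := by
    rw [hh, map_zero]
  rw [map_sum] at h
  simpa only [cx, pderiv_map] using h

lemma eval_smul_hom {u : MvPolynomial (Fin 3) ℝ} {l : ℕ} (hu : u.IsHomogeneous l) (t : ℝ)
    (x : Fin 3 → ℝ) : eval (t • x) u = t ^ l * eval x u := by
  rw [eval_eq', eval_eq', Finset.mul_sum]
  apply Finset.sum_congr rfl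
  intro d hd
  have hdeg : ∑ i : Fin 3, d i = l := by
    have h1 := hu (mem_support_iff.1 hd)
    rw [Finsupp.weight_apply, Finsupp.sum_fintype] at h1
    · simpa using h1
    · intro i; simp
  have : ∏ i : Fin 3, (t • x) i ^ d i = t ^ l * ∏ i : Fin 3, x i ^ d i := by
    simp only [Pi.smul_apply, smul_eq_mul, mul_pow]
    rw [Finset.prod_mul_distrib, Finset.prod_pow_eq_pow_sum, hdeg]
  rw [this]; ring

lemma coeff00 (U : P2) : coeff (ex 0 0) U = eval ![(0 : ℂ), (starRingEnd ℂ) 0] U := by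
  rw [map_zero, ex_00]
  have : (![(0 : ℂ), 0] : Fin 2 → ℂ) = 0 := by
    ext i; fin_cases i <;> rfl
  rw [this, ← constantCoeff_eq]
  simp [MvPolynomial.eval_zero]

theorem main_bound (u : MvPolynomial (Fin 3) ℝ) (l : ℕ) (hl : 1 ≤ l) (hu : u.IsHomogeneous l)
    (hh : ∑ i : Fin 3, pderiv i (pderiv i u) = 0) (h : u ≠ 0)
    (S : Finset (Fin 3 → ℝ)) (b : (Fin 3 → ℝ) → ℕ)
    (hS : ∀ x ∈ S, ∑ i : Fin 3, x i ^ 2 = 1 ∧ u ∈ ptJ x ^ b x) :
    fIso (cx u) ≠ 0 ∧ Finite (ConnectedComponents (SphC u)) ∧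
    2 * Nat.card (ConnectedComponents (SphC u)) +
      ∑ t ∈ (fIso (cx u)).roots.toFinset,
        (fIso (cx u)).rootMultiplicity t * ((fIso (cx u)).rootMultiplicity t - 1) +
      (2 * l - (fIso (cx u)).natDegree) * (2 * l - (fIso (cx u)).natDegree - 1) +
      ∑ x ∈ S, (b x - 1) * (b x - 2) ≤ 2 * l ^ 2 + 2 := by
  classical
  have huc := cx_homog hu
  have hhc := cx_harm hh
  set f := fIso (cx u) with hf
  set T := f.roots.toFinset with hT
  obtain ⟨a, ha0, hc0, hc1, hgen⟩ := exists_generic u l hl hu (spin_UU (cx u) l huc hhc 0 0) h T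
  set β := (starRingEnd ℂ) a with hβ
  set U := UU (cx u) a β with hUdef
  have hsp : Spin l U := spin_UU (cx u) l huc hhc a β
  have hR : RealP U := real_UU u a
  have hU0 : U ≠ 0 := by
    intro h0
    apply hc0
    rw [h0]; simp
  have hG : Gpoly l U ≠ 0 := hsp.G_ne_zero hU0
  have hf0 : f ≠ 0 := fIso_ne_zero (cx u) l huc a β hsp.deg0 hsp.deg1 hG
  have hdet : (1 : ℂ) + a * β ≠ 0 := by
    rw [hβ, Complex.mul_conj]
    intro h0
    have h1 : (1 : ℝ) + Complex.normSq a = 0 := by exact_mod_cast h0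
    have := Complex.normSq_nonneg a
    linarith
  -- isotropic points
  set g : ℂ → ℂ := fun t => (β + t) / (1 - t * a) with hg
  have hginj : Set.InjOn g T := by
    intro t ht t' ht' heq
    have h1 := (hgen t ht).1
    have h1' := (hgen t' ht').1
    simp only [hg] at heq
    rw [div_eq_div_iff h1 h1'] at heq
    have : (t - t') * (1 + a * β) = 0 := by linear_combination heq
    rcases mul_eq_zero.1 this with h2 | h2
    · exact sub_eq_zero.1 h2
    · exact absurd h2 hdet
  have hgne : ∀ t ∈ T, g t ≠ -1 / a := by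
    intro t ht heq
    have h1 := (hgen t ht).1
    simp only [hg] at heq
    rw [div_eq_div_iff h1 ha0] at heq
    apply hdet
    linear_combination heq
  set K : Finset ℂ := insert (-1 / a) (T.image g) with hK
  have hnotin : (-1 / a) ∉ T.image g := by
    intro hmem
    rw [Finset.mem_image] at hmem
    obtain ⟨t, ht, he⟩ := hmem
    exact hgne t ht he
  -- multiplicity function on K
  set gi : ℂ → ℂ := Function.invFunOn g T with hgi
  have hgiv : ∀ t ∈ T, gi (g t) = t := fun t ht => by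
    have hmem : g t ∈ g '' (T : Set ℂ) := ⟨t, ht, rfl⟩
    exact hginj (Function.invFunOn_mem hmem) ht (Function.invFunOn_eq hmem)
  set μ : ℂ → ℕ := fun w => if w = -1 / a then 2 * l - f.natDegree else f.rootMultiplicity (gi w)
    with hμ
  have hK0 : ∀ w ∈ K, w ≠ 0 := by
    intro w hw
    rw [hK, Finset.mem_insert] at hw
    rcases hw with rfl | hw
    · exact div_ne_zero (by norm_num) ha0
    · rw [Finset.mem_image] at hw
      obtain ⟨t, ht, rfl⟩ := hw
      exact div_ne_zero (hgen t ht).2 (hgen t ht).1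
  have hnd : f.natDegree ≤ 2 * l := natDegree_fIso (cx u) l huc
  have hKd : ∀ w ∈ K, (Polynomial.X - Polynomial.C w) ^ μ w ∣ Gpoly l U := by
    intro w hw
    rw [hK, Finset.mem_insert] at hw
    rcases hw with rfl | hw
    · rw [hμ]; simp only [if_true]
      exact inf_transfer (cx u) l huc a β hsp.deg0 hsp.deg1 ha0 _ (by rw [← hf]; omega)
    · rw [Finset.mem_image] at hw
      obtain ⟨t, ht, rfl⟩ := hw
      rw [hμ]; simp only [if_neg (hgne t ht)]
      rw [hgiv t ht]
      exact root_transfer (cx u) l huc a β hsp.deg0 hsp.deg1 t (hgen t ht).1 _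
        (Polynomial.pow_rootMultiplicity_dvd f t)
  have hsumK : ∑ w ∈ K, μ w * (μ w - 1) =
      (2 * l - f.natDegree) * (2 * l - f.natDegree - 1) +
      ∑ t ∈ T, f.rootMultiplicity t * (f.rootMultiplicity t - 1) := by
    rw [hK, Finset.sum_insert hnotin, Finset.sum_image hginj]
    congr 1
    · rw [hμ]; simp only [if_true]
    · apply Finset.sum_congr rfl
      intro t ht
      rw [hμ]; simp only [if_neg (hgne t ht)]
      rw [hgiv t ht]
  -- real points
  set S1 := S.filter (fun x => 1 ≤ b x) with hS1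
  have hex : ∀ x ∈ S1, ∃ (w : ℂ) (t : ℝ), 0 < t ∧ sphV a w = t • x := by
    intro x hx
    rw [hS1, Finset.mem_filter] at hx
    obtain ⟨hxS, hbx⟩ := hx
    obtain ⟨hx1, hxm⟩ := hS x hxS
    rcases stereo a x hx1 with h1 | ⟨t, ht, h1⟩
    · exact h1
    · exfalso
      apply hc0
      have hz : eval x u = 0 := eval_eq_zero_of_mem u x (b x) hbx hxm
      rw [coeff00, hUdef, hβ, eval_UU, h1, eval_smul_hom hu, hz, mul_zero]
      simp
  choose! wx tx htx hwx using hex
  have hwinj : Set.InjOn wx S1 := by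
    intro x hx x' hx' heq
    have e1 := hwx x hx
    have e2 := hwx x' hx'
    rw [heq, e2] at e1
    have hx1 : ∑ i : Fin 3, x i ^ 2 = 1 := (hS x (Finset.mem_filter.1 hx).1).1
    have hx1' : ∑ i : Fin 3, x' i ^ 2 = 1 := (hS x' (Finset.mem_filter.1 hx').1).1
    have hn : ∀ (t : ℝ) (y : Fin 3 → ℝ), ∑ i : Fin 3, y i ^ 2 = 1 →
        ∑ i : Fin 3, (t • y) i ^ 2 = t ^ 2 := by
      intro t y hy
      simp only [Pi.smul_apply, smul_eq_mul, mul_pow]
      rw [← Finset.mul_sum, hy, mul_one]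
    have h1 := hn (tx x) x hx1
    have h2 := hn (tx x') x' hx1'
    rw [e1] at h2
    rw [h1] at h2
    have ht : tx x = tx x' := by
      have p1 := htx x hx
      have p2 := htx x' hx'
      nlinarith
    rw [ht] at e1
    have p2 := htx x' hx'
    funext i
    have := congrFun e1 i
    simp only [Pi.smul_apply, smul_eq_mul] at this
    exact (mul_left_cancel₀ p2.ne' this).symm
  have hpl := planar hsp hl hR hc0 hc1 (S1.image wx) (fun w => b (Function.invFunOn wx S1 w))
    (by
      intro w hw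
      rw [Finset.mem_image] at hw
      obtain ⟨x, hx, rfl⟩ := hw
      have hmem : wx x ∈ wx '' (S1 : Set (Fin 3 → ℝ)) := ⟨x, hx, rfl⟩
      have hinv : Function.invFunOn wx S1 (wx x) = x :=
        hwinj (Function.invFunOn_mem hmem) hx (Function.invFunOn_eq hmem)
      simp only [hinv]
      exact real_pt u l hu a (wx x) x (tx x) (htx x hx).ne' (hwx x hx) (b x)
        (hS x (Finset.mem_filter.1 hx).1).2)
    K μ hK0 hKd
  rw [Finset.sum_image hwinj, hsumK] at hpl
  have hsum : ∑ x ∈ S1, (b (Function.invFunOn wx S1 (wx x)) - 1) *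
      (b (Function.invFunOn wx S1 (wx x)) - 2) = ∑ x ∈ S, (b x - 1) * (b x - 2) := by
    have e1 : ∑ x ∈ S1, (b (Function.invFunOn wx S1 (wx x)) - 1) *
        (b (Function.invFunOn wx S1 (wx x)) - 2) = ∑ x ∈ S1, (b x - 1) * (b x - 2) := by
      apply Finset.sum_congr rfl
      intro x hx
      have hmem : wx x ∈ wx '' (S1 : Set (Fin 3 → ℝ)) := ⟨x, hx, rfl⟩
      have hinv : Function.invFunOn wx S1 (wx x) = x :=
        hwinj (Function.invFunOn_mem hmem) hx (Function.invFunOn_eq hmem)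
      rw [hinv]
    rw [e1, hS1]
    apply Finset.sum_subset (Finset.filter_subset _ _)
    intro x hx hx2
    have : ¬ 1 ≤ b x := fun hb => hx2 (Finset.mem_filter.2 ⟨hx, hb⟩)
    have : b x - 1 = 0 := by omega
    rw [this, zero_mul]
  rw [hsum] at hpl
  obtain ⟨hfin, hbound⟩ := hpl
  obtain ⟨hfin2, hcard⟩ := comps_le u l hu a hfin
  refine ⟨hf0, hfin2, ?_⟩
  have hcard' : Nat.card (ConnectedComponents (SphC u)) ≤ Nat.card (ConnectedComponents (PlaneC U)) := hcard
  omega

end Pool.Agent.SHB
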