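import Pool.Agent.SHB.Ex

/-!
# Project SHB (MP_f77893_an), module Sq: multiple factors of a solution of the equation

PLAN. Let `q` be irreducible (hence prime, `P2` is a UFD), `q^2 ∣ U`, `U ≠ 0`. Let `k ≥ 2` be the multiplicity:
`U = q^k * r`, `¬ q ∣ r` (`exists_eq_pow_mul_and_not_dvd` / `FiniteMultiplicity`, `WfDvdMonoid.max_power_factor`).
With `D0 = pderiv 0`, `D1 = pderiv 1` (Leibniz): `D1 U = k q^(k-1) (D1 q) r + q^k D1 r`,
`D0 D1 U = k (k-1) q^(k-2) (D0 q)(D1 q) r + q^(k-1) * (...)`, and the right side of `hU.pde` is divisible by `q^(k-1)`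
(`q^(k-1) ∣ U, D0 U, D1 U`). So `q^(k-1)` divides `(1 + X 0 X 1) k (k-1) q^(k-2) (D0 q)(D1 q) r`, hence `q` divides
`(1 + X 0 X 1) (D0 q) (D1 q) r` (cancel `q^(k-2)`; `k (k-1)` is a unit constant), and `q` does not divide `r`.
`dvd_pderiv0`: `degreeOf 0 (pderiv 0 q) < degreeOf 0 q` if `degreeOf 0 q ≠ 0`
(coefficients, `coeff_pderiv0`), so `q ∣ pderiv 0 q` forces `pderiv 0 q = 0` (`degreeOf_mul_eq` for a nonzero product:
`degreeOf 0 (q * t) = degreeOf 0 q + degreeOf 0 t`). If `degreeOf 0 q = 0` then `pderiv 0 q = 0` anyway.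
`linear0`: `pderiv 1 q = 0` means that `q` has no monomial with `w'`: `q = aeval (X 0) g` for a polynomial `g : Polynomial ℂ`
(`g = ∑ coeff (ex i 0) q X^i`), `g` has a root `c` (`IsAlgClosed.exists_root`, `g` is not constant as `q` is not a unit and
not zero), so `X 0 - C c ∣ q` and they are associated (`q` irreducible, `X 0 - C c` not a unit).
-/

set_option autoImplicit false

namespace Pool.Agent.SHB

open MvPolynomial

private lemma dz0 {p : P2} (h : degreeOf 0 p = 0) (i j : ℕ) : coeff (ex (i + 1) j) p = 0 := by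
  by_contra hc
  have h1 := monomial_le_degreeOf (0 : Fin 2) (mem_support_iff.2 hc)
  rw [h, ex_zero_apply] at h1
  omega

private lemma dz1 {p : P2} (h : degreeOf 1 p = 0) (i j : ℕ) : coeff (ex i (j + 1)) p = 0 := by
  by_contra hc
  have h1 := monomial_le_degreeOf (1 : Fin 2) (mem_support_iff.2 hc)
  rw [h, ex_one_apply] at h1
  omega

private lemma pd0 {q : P2} (hq : q ≠ 0) (h : q ∣ pderiv 0 q) : pderiv 0 q = 0 := by
  by_contra hc
  obtain ⟨t, ht⟩ := h
  have ht0 : t ≠ 0 := by
    rintro rfl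
    rw [mul_zero] at ht
    exact hc ht
  have h1 : degreeOf 0 (pderiv 0 q) = degreeOf 0 q + degreeOf 0 t := by
    rw [ht, degreeOf_mul_eq hq ht0]
  by_cases h2 : degreeOf 0 q = 0
  · apply hc
    apply ext_coeff
    intro i j
    rw [coeff_pderiv0, dz0 h2, mul_zero, coeff_zero]
  · have h3 : degreeOf 0 (pderiv 0 q) < degreeOf 0 q := by
      rw [degreeOf_lt_iff (Nat.pos_of_ne_zero h2)]
      intro m hm
      rw [mem_support_iff, ← ex_eta m, coeff_pderiv0] at hm
      have h4 := monomial_le_degreeOf (0 : Fin 2) (mem_support_iff.2 (right_ne_zero_of_mul hm))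
      rw [ex_zero_apply] at h4
      omega
    omega

private lemma pd1 {q : P2} (hq : q ≠ 0) (h : q ∣ pderiv 1 q) : pderiv 1 q = 0 := by
  by_contra hc
  obtain ⟨t, ht⟩ := h
  have ht0 : t ≠ 0 := by
    rintro rfl
    rw [mul_zero] at ht
    exact hc ht
  have h1 : degreeOf 1 (pderiv 1 q) = degreeOf 1 q + degreeOf 1 t := by
    rw [ht, degreeOf_mul_eq hq ht0]
  by_cases h2 : degreeOf 1 q = 0
  · apply hc
    apply ext_coeff
    intro i j
    rw [coeff_pderiv1, dz1 h2, mul_zero, coeff_zero]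
  · have h3 : degreeOf 1 (pderiv 1 q) < degreeOf 1 q := by
      rw [degreeOf_lt_iff (Nat.pos_of_ne_zero h2)]
      intro m hm
      rw [mem_support_iff, ← ex_eta m, coeff_pderiv1] at hm
      have h4 := monomial_le_degreeOf (1 : Fin 2) (mem_support_iff.2 (right_ne_zero_of_mul hm))
      rw [ex_one_apply] at h4
      omega
    omega

private lemma rep0 {p : P2} (h : ∀ i j, coeff (ex i (j + 1)) p = 0) :
    ∃ g : Polynomial ℂ, p = Polynomial.aeval (X 0 : P2) g := by
  refine ⟨∑ i ∈ Finset.range (degreeOf 0 p + 1),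
    Polynomial.C (coeff (ex i 0) p) * Polynomial.X ^ i, ?_⟩
  rw [map_sum]
  apply ext_coeff
  intro a b
  rw [coeff_sum]
  have h1 : ∀ i, coeff (ex a b) ((Polynomial.aeval (X 0 : P2))
      (Polynomial.C (coeff (ex i 0) p) * Polynomial.X ^ i)) =
      if i = a ∧ 0 = b then coeff (ex i 0) p else 0 := by
    intro i
    rw [map_mul, Polynomial.aeval_C, map_pow, Polynomial.aeval_X, algebraMap_eq, coeff_C_mul,
      coeff_X_pow, single0]
    by_cases hab : i = a ∧ 0 = b
    · rw [if_pos hab, if_pos (ex_inj.2 hab), mul_one]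
    · rw [if_neg hab, if_neg (fun hc => hab (ex_inj.1 hc)), mul_zero]
  rw [Finset.sum_congr rfl fun i _ => h1 i]
  rcases b with _ | b
  · by_cases ha : a ∈ Finset.range (degreeOf 0 p + 1)
    · rw [Finset.sum_eq_single a]
      · simp
      · intro i _ hia
        rw [if_neg (fun hc => hia hc.1)]
      · intro hc
        exact absurd ha hc
    · rw [Finset.sum_eq_zero]
      · by_contra hc
        have h2 := monomial_le_degreeOf (0 : Fin 2) (mem_support_iff.2 hc)
        rw [ex_zero_apply] at h2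
        apply ha
        rw [Finset.mem_range]
        omega
      · intro i hi
        rw [if_neg]
        rintro ⟨rfl, -⟩
        exact ha hi
  · rw [h, Finset.sum_eq_zero]
    intro i _
    rw [if_neg]
    rintro ⟨-, hc⟩
    omega

private lemma rep1 {p : P2} (h : ∀ i j, coeff (ex (i + 1) j) p = 0) :
    ∃ g : Polynomial ℂ, p = Polynomial.aeval (X 1 : P2) g := by
  refine ⟨∑ i ∈ Finset.range (degreeOf 1 p + 1),
    Polynomial.C (coeff (ex 0 i) p) * Polynomial.X ^ i, ?_⟩
  rw [map_sum]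
  apply ext_coeff
  intro a b
  rw [coeff_sum]
  have h1 : ∀ i, coeff (ex a b) ((Polynomial.aeval (X 1 : P2))
      (Polynomial.C (coeff (ex 0 i) p) * Polynomial.X ^ i)) =
      if 0 = a ∧ i = b then coeff (ex 0 i) p else 0 := by
    intro i
    rw [map_mul, Polynomial.aeval_C, map_pow, Polynomial.aeval_X, algebraMap_eq, coeff_C_mul,
      coeff_X_pow, single1]
    by_cases hab : 0 = a ∧ i = b
    · rw [if_pos hab, if_pos (ex_inj.2 hab), mul_one]
    · rw [if_neg hab, if_neg (fun hc => hab (ex_inj.1 hc)), mul_zero]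
  rw [Finset.sum_congr rfl fun i _ => h1 i]
  rcases a with _ | a
  · by_cases hb : b ∈ Finset.range (degreeOf 1 p + 1)
    · rw [Finset.sum_eq_single b]
      · simp
      · intro i _ hib
        rw [if_neg (fun hc => hib hc.2)]
      · intro hc
        exact absurd hb hc
    · rw [Finset.sum_eq_zero]
      · by_contra hc
        have h2 := monomial_le_degreeOf (1 : Fin 2) (mem_support_iff.2 hc)
        rw [ex_one_apply] at h2
        apply hb
        rw [Finset.mem_range]
        omega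
      · intro i hi
        rw [if_neg]
        rintro ⟨-, rfl⟩
        exact hb hi
  · rw [h, Finset.sum_eq_zero]
    intro i _
    rw [if_neg]
    rintro ⟨hc, -⟩
    omega

private lemma isUnit_const {p : P2} (hp : p ≠ 0) (h0 : degreeOf 0 p = 0) (h1 : degreeOf 1 p = 0) :
    IsUnit p := by
  have h2 : p = C (coeff (ex 0 0) p) := by
    apply ext_coeff
    intro i j
    rw [coeff_C, ex_00]
    rcases i with _ | i
    · rcases j with _ | j
      · rw [ex_00, if_pos rfl]
      · rw [dz1 h1, if_neg]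
        rw [← ex_00, ex_inj]
        omega
    · rw [dz0 h0, if_neg]
      rw [← ex_00, ex_inj]
      omega
  rw [h2]
  apply IsUnit.map
  rw [isUnit_iff_ne_zero]
  intro hc
  rw [hc, map_zero] at h2
  exact hp h2

theorem Spin.sq_case {l : ℕ} {U : P2} (hU : Spin l U) (h : U ≠ 0) {q : P2} (hq : Irreducible q)
    (h2 : q ^ 2 ∣ U) : q ∣ (1 + X 0 * X 1) ∨ pderiv 0 q = 0 ∨ pderiv 1 q = 0 := by
  have hp : Prime q := hq.prime
  obtain ⟨r, hr, hqr⟩ := (FiniteMultiplicity.of_not_isUnit hq.not_isUnit h).exists_eq_pow_mul_and_not_dvd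
  obtain ⟨m, hm⟩ : ∃ m, multiplicity q U = m + 2 := by
    rcases hk : multiplicity q U with _ | _ | m
    · exfalso
      rw [hk, pow_zero, one_mul] at hr
      rw [hr] at h2
      exact hqr ((dvd_pow_self q two_ne_zero).trans h2)
    · exfalso
      rw [hk, zero_add, pow_one] at hr
      rw [hr, pow_two] at h2
      exact hqr ((mul_dvd_mul_iff_left hp.ne_zero).1 h2)
    · exact ⟨m, rfl⟩
  rw [hm] at hr
  set S1 : P2 := ((m : P2) + 2) * pderiv 1 q * r + q * pderiv 1 r with hS1
  set S0 : P2 := ((m : P2) + 2) * pderiv 0 q * r + q * pderiv 0 r with hS0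
  have e1 : pderiv 1 U = q ^ (m + 1) * S1 := by
    rw [hr, Derivation.leibniz, Derivation.leibniz_pow, hS1]
    simp only [smul_eq_mul, nsmul_eq_mul]
    push_cast
    ring
  have e0 : pderiv 0 U = q ^ (m + 1) * S0 := by
    rw [hr, Derivation.leibniz, Derivation.leibniz_pow, hS0]
    simp only [smul_eq_mul, nsmul_eq_mul]
    push_cast
    ring
  have e2 : pderiv 0 (pderiv 1 U) =
      q ^ m * (((m : P2) + 1) * pderiv 0 q * S1 + q * pderiv 0 S1) := by
    rw [e1, Derivation.leibniz, Derivation.leibniz_pow]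
    simp only [smul_eq_mul, nsmul_eq_mul]
    push_cast
    ring
  have e3 := hU.pde
  rw [e2, e1, e0] at e3
  have e4 : (1 + X 0 * X 1) * (((m : P2) + 1) * pderiv 0 q * S1 + q * pderiv 0 S1) =
      q * (C (l : ℂ) * (X 0 * S0 + X 1 * S1 - C (l : ℂ) * (q * r))) := by
    apply mul_left_cancel₀ (pow_ne_zero m hp.ne_zero)
    calc q ^ m * ((1 + X 0 * X 1) * (((m : P2) + 1) * pderiv 0 q * S1 + q * pderiv 0 S1))
        = (1 + X 0 * X 1) *
          (q ^ m * (((m : P2) + 1) * pderiv 0 q * S1 + q * pderiv 0 S1)) := by ring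
      _ = _ := e3
      _ = _ := by
        rw [hr]
        ring
  have e5 : q ∣ (1 + X 0 * X 1) * ((((m : P2) + 1) * ((m : P2) + 2)) *
      (pderiv 0 q * (pderiv 1 q * r))) := by
    refine ⟨C (l : ℂ) * (X 0 * S0 + X 1 * S1 - C (l : ℂ) * (q * r)) -
      (1 + X 0 * X 1) * (pderiv 0 S1 + ((m : P2) + 1) * pderiv 0 q * pderiv 1 r), ?_⟩
    rw [mul_sub, ← e4, hS1]
    ring
  rcases hp.dvd_or_dvd e5 with e6 | e6
  · exact Or.inl e6
  right
  rcases hp.dvd_or_dvd e6 with e7 | e7
  · exfalso
    apply hp.not_unit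
    refine isUnit_of_dvd_unit e7 ?_
    have e8 : ((m : P2) + 1) * ((m : P2) + 2) = C (((m : ℂ) + 1) * ((m : ℂ) + 2)) := by
      have e9 : (C (2 : ℂ) : P2) = 2 := map_ofNat C 2
      rw [map_mul, map_add, map_add, map_natCast, map_one, e9]
    rw [e8]
    apply IsUnit.map
    rw [isUnit_iff_ne_zero]
    have h5 : ((m : ℂ) + 1) ≠ 0 := by exact_mod_cast Nat.succ_ne_zero m
    have h6 : ((m : ℂ) + 2) ≠ 0 := by exact_mod_cast Nat.succ_ne_zero (m + 1)
    exact mul_ne_zero h5 h6
  rcases hp.dvd_or_dvd e7 with e8 | e8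
  · exact Or.inl (pd0 hp.ne_zero e8)
  rcases hp.dvd_or_dvd e8 with e9 | e9
  · exact Or.inr (pd1 hp.ne_zero e9)
  · exact absurd e9 hqr

private lemma lin_aux {q : P2} (hq : Irreducible q) (k : Fin 2) {g : Polynomial ℂ}
    (hg : q = Polynomial.aeval (X k : P2) g) : ∃ c : ℂ, Associated q (X k - C c) := by
  have h0 : g.degree ≠ 0 := by
    intro h0
    rw [Polynomial.eq_C_of_degree_eq_zero h0, Polynomial.aeval_C] at hg
    have hc : g.coeff 0 ≠ 0 := by
      intro hc
      rw [hc, map_zero] at hg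
      exact hq.ne_zero hg
    apply hq.not_isUnit
    rw [hg]
    exact (isUnit_iff_ne_zero.2 hc).map _
  obtain ⟨c, hc⟩ := IsAlgClosed.exists_root g h0
  refine ⟨c, ?_⟩
  have h1 : (X k - C c : P2) ∣ q := by
    obtain ⟨g', hg'⟩ := Polynomial.dvd_iff_isRoot.2 hc
    rw [hg, hg', map_mul, map_sub, Polynomial.aeval_X, Polynomial.aeval_C]
    exact dvd_mul_right _ _
  rcases hq.dvd_iff.1 h1 with h2 | h2
  · exfalso
    have h3 := h2.map (eval (fun _ : Fin 2 => c))
    rw [map_sub, eval_X, eval_C, sub_self] at h3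
    exact not_isUnit_zero h3
  · exact h2

theorem linear0 {q : P2} (hq : Irreducible q) (h : pderiv 1 q = 0) :
    ∃ c : ℂ, Associated q (X 0 - C c) := by
  obtain ⟨g, hg⟩ := rep0 (p := q) (by
    intro i j
    have h1 := coeff_pderiv1 i j q
    rw [h, coeff_zero] at h1
    have h5 : ((j : ℂ) + 1) ≠ 0 := by exact_mod_cast Nat.succ_ne_zero j
    exact (mul_eq_zero.1 h1.symm).resolve_left h5)
  exact lin_aux hq 0 hg

theorem linear1 {q : P2} (hq : Irreducible q) (h : pderiv 0 q = 0) :
    ∃ c : ℂ, Associated q (X 1 - C c) := by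
  obtain ⟨g, hg⟩ := rep1 (p := q) (by
    intro i j
    have h1 := coeff_pderiv0 i j q
    rw [h, coeff_zero] at h1
    have h5 : ((i : ℂ) + 1) ≠ 0 := by exact_mod_cast Nat.succ_ne_zero i
    exact (mul_eq_zero.1 h1.symm).resolve_left h5)
  exact lin_aux hq 1 hg

private lemma one_add_aux {p r : P2} (h : 1 + X 0 * X 1 = p * r) (h0 : degreeOf 0 p = 0)
    (h1 : degreeOf 1 r = 0) : False := by
  obtain ⟨g, hg⟩ := rep1 (p := p) (dz0 h0)
  obtain ⟨g', hg'⟩ := rep0 (p := r) (dz1 h1)
  have key : ∀ x y : ℂ, 1 + x * y = g.eval y * g'.eval x := by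
    intro x y
    have h2 := congrArg (eval ![x, y]) h
    have h3 : eval ![x, y] p = g.eval y := by
      rw [hg]
      have := Polynomial.hom_eval₂ g (algebraMap ℂ P2) (eval ![x, y]) (X 1)
      rw [Polynomial.aeval_def, this]
      have h4 : (eval ![x, y]).comp (algebraMap ℂ P2) = RingHom.id ℂ := by
        ext a
        simp
      rw [h4, eval_X]
      rfl
    have h5 : eval ![x, y] r = g'.eval x := by
      rw [hg']
      have := Polynomial.hom_eval₂ g' (algebraMap ℂ P2) (eval ![x, y]) (X 0)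
      rw [Polynomial.aeval_def, this]
      have h4 : (eval ![x, y]).comp (algebraMap ℂ P2) = RingHom.id ℂ := by
        ext a
        simp
      rw [h4, eval_X]
      rfl
    rw [map_mul, h3, h5] at h2
    rw [← h2]
    simp
  have k1 := key 0 0
  have k2 := key 1 0
  have k3 := key 0 1
  have k4 := key 1 1
  norm_num at k1 k2 k3 k4
  have k5 : (2 : ℂ) = 1 := by
    calc (2 : ℂ) = 2 * (g.eval 0 * g'.eval 0) := by rw [← k1]; ring
      _ = (g.eval 1 * g'.eval 1) * (g.eval 0 * g'.eval 0) := by rw [← k4]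
      _ = (g.eval 0 * g'.eval 1) * (g.eval 1 * g'.eval 0) := by ring
      _ = 1 := by rw [← k2, ← k3]; ring
  norm_num at k5

theorem irreducible_one_add : Irreducible (1 + X 0 * X 1 : P2) := by
  have hne : (1 + X 0 * X 1 : P2) ≠ 0 := by
    intro hc
    have := congrArg (eval ![(0 : ℂ), 0]) hc
    simp at this
  constructor
  · intro hc
    have h1 := hc.map (eval ![(1 : ℂ), -1])
    have h2 : eval ![(1 : ℂ), -1] (1 + X 0 * X 1 : P2) = 0 := by simp
    rw [h2] at h1
    exact not_isUnit_zero h1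
  · intro p r h
    have hp : p ≠ 0 := by
      rintro rfl
      rw [zero_mul] at h
      exact hne h
    have hr : r ≠ 0 := by
      rintro rfl
      rw [mul_zero] at h
      exact hne h
    have d0 : degreeOf 0 p + degreeOf 0 r ≤ 1 := by
      rw [← degreeOf_mul_eq hp hr, ← h]
      refine (degreeOf_add_le _ _ _).trans ?_
      rw [degreeOf_one]
      refine max_le (Nat.zero_le _) ((degreeOf_mul_le _ _ _).trans ?_)
      rw [degreeOf_X, degreeOf_X]
      simp
    have d1 : degreeOf 1 p + degreeOf 1 r ≤ 1 := by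
      rw [← degreeOf_mul_eq hp hr, ← h]
      refine (degreeOf_add_le _ _ _).trans ?_
      rw [degreeOf_one]
      refine max_le (Nat.zero_le _) ((degreeOf_mul_le _ _ _).trans ?_)
      rw [degreeOf_X, degreeOf_X]
      simp
    by_cases a0 : degreeOf 0 p = 0
    · by_cases a1 : degreeOf 1 p = 0
      · exact Or.inl (isUnit_const hp a0 a1)
      · exact absurd (one_add_aux h a0 (by omega)) not_false
    · have b0 : degreeOf 0 r = 0 := by omega
      by_cases a1 : degreeOf 1 r = 0
      · exact Or.inr (isUnit_const hr b0 a1)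
      · exact absurd (one_add_aux (p := r) (r := p) (by rw [h, mul_comm]) b0 (by omega)) not_false

end Pool.Agent.SHB
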