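import Pool.Agent.SHB.Ex

/-!
# Project SHB (MP_f77893_an), module Wt: irreducible polynomials dividing their image under `rotW`

All exponents `(i, j)` in the support of such a polynomial have the same difference `m = i - j`;
it is divisible by `X 0` if `m > 0`, by `X 1` if `m < 0`, and it is a polynomial in `X 0 * X 1`
if `m = 0`.
-/

set_option autoImplicit false

namespace Pool.Agent.SHB

open MvPolynomial

private lemma not_unit_of_eval {p : P2} (x : Fin 2 → ℂ) (h : eval x p = 0) : ¬ IsUnit p := by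
  intro hu
  have := hu.map (eval x)
  rw [h] at this
  exact not_isUnit_zero this

private lemma X_dvd_of {q : P2} (k : Fin 2) (h : ∀ d : Fin 2 →₀ ℕ, d k = 0 → coeff d q = 0) :
    (X k : P2) ∣ q := by
  rw [X_dvd_iff_modMonomial_eq_zero]
  ext d
  rw [coeff_zero]
  by_cases hd : Finsupp.single k 1 ≤ d
  · exact coeff_modMonomial_of_le q hd
  · rw [coeff_modMonomial_of_not_le q hd]
    apply h
    by_contra hne
    exact hd (Finsupp.single_le_iff.2 (by omega))

private lemma exists_diff {q : P2} (hq : q ≠ 0) (h : q ∣ rotW q) :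
    ∃ m : ℤ, ∀ d : Fin 2 →₀ ℕ, coeff d q ≠ 0 → (d 0 : ℤ) - d 1 = m := by
  have hrot : ∀ d : Fin 2 →₀ ℕ, coeff d (rotW q) = ((d 0 : ℂ) - d 1) * coeff d q := by
    intro d
    rw [← ex_eta d, coeff_rotW, ex_zero_apply, ex_one_apply]
  obtain ⟨g, hg⟩ := h
  by_cases h0 : rotW q = 0
  · refine ⟨0, fun d hd => ?_⟩
    have h1 := hrot d
    rw [h0, coeff_zero] at h1
    rcases mul_eq_zero.1 h1.symm with h2 | h2
    · have h3 : (d 0 : ℂ) = (d 1 : ℂ) := sub_eq_zero.1 h2
      have h4 : d 0 = d 1 := by exact_mod_cast h3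
      omega
    · exact absurd h2 hd
  · have hg0 : g ≠ 0 := by
      rintro rfl
      exact h0 (by rw [hg, mul_zero])
    have hdeg : ∀ k : Fin 2, degreeOf k (rotW q) ≤ degreeOf k q := by
      intro k
      rw [degreeOf_le_iff]
      intro d hd
      rw [mem_support_iff, hrot] at hd
      have : coeff d q ≠ 0 := right_ne_zero_of_mul hd
      exact monomial_le_degreeOf k (mem_support_iff.2 this)
    have hgk : ∀ k : Fin 2, degreeOf k g = 0 := by
      intro k
      have h1 := hdeg k
      rw [hg, degreeOf_mul_eq hq hg0] at h1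
      omega
    have hgC : g = C (coeff 0 g) := by
      ext d
      rw [coeff_C]
      split_ifs with hd
      · rw [hd]
      · by_contra hne
        apply hd
        ext k
        have h1 := monomial_le_degreeOf k (mem_support_iff.2 hne)
        rw [hgk k] at h1
        rw [Finsupp.coe_zero, Pi.zero_apply]
        omega
    have hval : ∀ d : Fin 2 →₀ ℕ, coeff d q ≠ 0 → (d 0 : ℂ) - d 1 = coeff 0 g := by
      intro d hd
      have h1 := hrot d
      have h5 : coeff d (q * g) = coeff 0 g * coeff d q := by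
        conv_lhs => rw [hgC]
        rw [mul_comm, coeff_C_mul]
      rw [hg, h5] at h1
      have h2 : (((d 0 : ℂ) - d 1) - coeff 0 g) * coeff d q = 0 := by
        rw [sub_mul, ← h1, sub_self]
      rcases mul_eq_zero.1 h2 with h3 | h3
      · exact sub_eq_zero.1 h3
      · exact absurd h3 hd
    obtain ⟨d0, hd0⟩ : ∃ d0, coeff d0 q ≠ 0 := by
      by_contra hcon
      push Not at hcon
      apply hq
      ext d
      rw [hcon d, coeff_zero]
    refine ⟨(d0 0 : ℤ) - d0 1, fun d hd => ?_⟩
    have h1 := (hval d hd).trans (hval d0 hd0).symm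
    exact_mod_cast h1

private lemma eq_aeval_prod {q : P2} (h : ∀ d : Fin 2 →₀ ℕ, coeff d q ≠ 0 → d 0 = d 1) :
    ∃ g : Polynomial ℂ, q = Polynomial.aeval (X 0 * X 1 : P2) g := by
  refine ⟨∑ d ∈ q.support, Polynomial.C (coeff d q) * Polynomial.X ^ (d 0), ?_⟩
  rw [map_sum]
  conv_lhs => rw [q.as_sum]
  refine Finset.sum_congr rfl fun d hd => ?_
  have h1 := h d (mem_support_iff.1 hd)
  rw [map_mul, Polynomial.aeval_C, map_pow, Polynomial.aeval_X, mul_pow]
  rw [monomial_eq]
  have h2 : (d.prod fun n e => (X n : P2) ^ e) = X 0 ^ (d 0) * X 1 ^ (d 0) := by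
    rw [Finsupp.prod_fintype _ _ (fun i => by simp)]
    rw [Fin.prod_univ_two, ← h1]
  rw [h2]
  rfl

theorem weight_case {q : P2} (hq : Irreducible q) (h : q ∣ rotW q) :
    Associated q (X 0) ∨ Associated q (X 1) ∨ ∃ c : ℂ, c ≠ 0 ∧ Associated q (X 0 * X 1 - C c) := by
  have hX : ∀ k : Fin 2, (X k : P2) ∣ q → Associated q (X k) := by
    intro k hk
    rcases hq.dvd_iff.1 hk with h1 | h1
    · exact absurd h1 (not_unit_of_eval (fun _ => 0) (by simp))
    · exact h1
  obtain ⟨m, hm⟩ := exists_diff hq.ne_zero h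
  rcases lt_trichotomy m 0 with hm0 | hm0 | hm0
  · refine Or.inr (Or.inl (hX 1 (X_dvd_of 1 fun d hd => ?_)))
    by_contra hne
    have := hm d hne
    omega
  · have h1 : ∀ d : Fin 2 →₀ ℕ, coeff d q ≠ 0 → d 0 = d 1 := by
      intro d hd
      have := hm d hd
      omega
    obtain ⟨g, hg⟩ := eq_aeval_prod h1
    have hgd : g.degree ≠ 0 := by
      intro hd0
      obtain ⟨a, ha⟩ : ∃ a, g = Polynomial.C a := ⟨_, Polynomial.eq_C_of_degree_le_zero hd0.le⟩
      have hqa : q = C a := by
        rw [hg, ha, Polynomial.aeval_C]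
        rfl
      by_cases ha0 : a = 0
      · exact hq.ne_zero (by rw [hqa, ha0, map_zero])
      · exact hq.not_isUnit (by
          rw [hqa]
          exact (IsUnit.mk0 a ha0).map C)
    obtain ⟨c, hc⟩ := IsAlgClosed.exists_root g hgd
    have hdvd : (X 0 * X 1 - C c : P2) ∣ q := by
      have h2 := (Polynomial.dvd_iff_isRoot.2 hc)
      have h3 := map_dvd (Polynomial.aeval (X 0 * X 1 : P2)) h2
      rw [← hg, map_sub, Polynomial.aeval_X, Polynomial.aeval_C] at h3
      exact h3
    by_cases hc0 : c = 0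
    · left
      apply hX 0
      rw [hc0, map_zero, sub_zero] at hdvd
      exact (dvd_mul_right _ _).trans hdvd
    · refine Or.inr (Or.inr ⟨c, hc0, ?_⟩)
      rcases hq.dvd_iff.1 hdvd with h4 | h4
      · exact absurd h4 (not_unit_of_eval ![c, 1] (by simp))
      · exact h4
  · refine Or.inl (hX 0 (X_dvd_of 0 fun d hd => ?_))
    by_contra hne
    have := hm d hne
    omega

end Pool.Agent.SHB
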