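import Pool.Agent.SHB.Line
import Pool.Agent.SHB.Hyp
import Pool.Agent.SHB.Sq
import Pool.Agent.SHB.Wt

/-!
# Project SHB (MP_f77893_an), module Rel: `U` and `rotW U` are relatively prime

PLAN. `U ≠ 0` (`h0`). By `WfDvdMonoid.isRelPrime_of_no_irreducible_factors` (needs `¬ (U = 0 ∧ rotW U = 0)`): let `q` be
irreducible with `q ∣ U`, `q ∣ rotW U`. First exclude a list of factors `q'` of `U` (up to associates, `Associated.dvd_iff_dvd_left`):
`X 0`, `X 1`, `X 0 - C c`, `X 1 - C c` (`Spin.not_dvd_line`, with `c = 0` for `X 0`), `1 + X 0 X 1` (`Spin.not_dvd_one_add`;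
if `q ∣ 1 + X 0 X 1` then they are associated by `irreducible_one_add`), `X 0 X 1 - C c`, `c ≠ 0` (`Spin.not_dvd_hyp`).
(a) If `q^2 ∣ U`: `Spin.sq_case`, `linear0`, `linear1` give one of the excluded factors.
(b) Otherwise `U = q * r` with `¬ q ∣ r`; `rotW` is a derivation: `rotW (q * r) = q * rotW r + rotW q * r` (unfold, `Derivation.leibniz`),
so `q ∣ rotW q * r`, `q` prime, `q ∣ rotW q`, and `weight_case` gives an excluded factor.
-/

set_option autoImplicit false

namespace Pool.Agent.SHB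

open MvPolynomial

private lemma rotW_mul (q r : P2) : rotW (q * r) = q * rotW r + rotW q * r := by
  simp only [rotW, Derivation.leibniz, smul_eq_mul]
  ring

theorem Spin.relPrime {l : ℕ} {U : P2} (hU : Spin l U) (hl : 1 ≤ l) (hR : RealP U)
    (h0 : coeff (ex 0 0) U ≠ 0) (h1 : coeff (ex 1 0) U ≠ 0) : IsRelPrime U (rotW U) := by
  have hU0 : U ≠ 0 := by
    rintro rfl
    exact h0 (coeff_zero _)
  apply WfDvdMonoid.isRelPrime_of_no_irreducible_factors
  · rintro ⟨h, _⟩
    exact hU0 h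
  intro q hq hqU hqR
  have eX1 : ∀ c : ℂ, ¬ Associated q (X 1 - C c) := fun c hc =>
    (hU.not_dvd_line hR hU0 c).1 ((hc.dvd_iff_dvd_left).1 hqU)
  have eX0 : ∀ c : ℂ, ¬ Associated q (X 0 - C c) := fun c hc =>
    (hU.not_dvd_line hR hU0 c).2 ((hc.dvd_iff_dvd_left).1 hqU)
  have eH : ∀ c : ℂ, c ≠ 0 → ¬ Associated q (X 0 * X 1 - C c) := fun c hc0 hc =>
    hU.not_dvd_hyp hl h0 h1 c hc0 ((hc.dvd_iff_dvd_left).1 hqU)
  have e1 : ¬ q ∣ (1 + X 0 * X 1 : P2) := by
    intro hd
    have ha : Associated q (1 + X 0 * X 1 : P2) := hq.associated_of_dvd irreducible_one_add hd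
    exact hU.not_dvd_one_add hU0 ((ha.dvd_iff_dvd_left).1 hqU)
  by_cases h2 : q ^ 2 ∣ U
  · rcases hU.sq_case hU0 hq h2 with h | h | h
    · exact e1 h
    · obtain ⟨c, hc⟩ := linear1 hq h
      exact eX1 c hc
    · obtain ⟨c, hc⟩ := linear0 hq h
      exact eX0 c hc
  · obtain ⟨r, hr⟩ := hqU
    have hp : Prime q := hq.prime
    have hnr : ¬ q ∣ r := by
      rintro ⟨t, ht⟩
      apply h2
      refine ⟨t, ?_⟩
      rw [hr, ht]
      ring
    have hd : q ∣ rotW q * r := by
      have h3 : q ∣ q * rotW r + rotW q * r := by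
        rw [← rotW_mul, ← hr]
        exact hqR
      exact (dvd_add_right (Dvd.intro _ rfl)).1 h3
    have hqq : q ∣ rotW q := (hp.dvd_or_dvd hd).resolve_right hnr
    rcases weight_case hq hqq with h | h | ⟨c, hc0, h⟩
    · apply eX0 0
      rw [C_0, sub_zero]
      exact h
    · apply eX1 0
      rw [C_0, sub_zero]
      exact h
    · exact eH c hc0 h

end Pool.Agent.SHB
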