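import Pool.Agent.SHB.TDefs

/-!
# Project SHB (MP_f77893_an), module TExt: innermost and outermost points of the components

PLAN. `ℂ` is locally connected and `{V ≠ 0}` is open, so every `cset V D` is open in `ℂ`
(`isOpen_..connectedComponent` in the locally connected subtype, `Subtype.val` is an open map), connected and nonempty.
`innermost`: let `D` be a component with `0 ∉ cset V D`. The closed nonempty set `closure (cset V D)` has a point `s` of minimal norm
(`IsClosed.exists_infDist_eq_dist`-type, or `ProperSpace`: intersect with a closed ball). `V s = 0`: otherwise `s` is in the open set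
`{V ≠ 0}`, and being in the closure of the component `D` it lies in `cset V D` (the component of `s` is open and
meets `cset V D`), so `s ≠ 0` and a small neighbourhood of `s` is in `cset V D`, in particular `(1 - δ) s`, of smaller norm.
Same argument: no point `y` of `cset V D` has `‖y‖ = ‖s‖` (`(1-δ) y` would be a point of `D` of norm `< ‖s‖`), so `‖s‖ < ‖y‖` for all `y ∈ cset V D`.
`outermost`: if `cset V D` is bounded, take `s` of maximal norm in the compact closure; use `(1 + δ) y` (and for `y = 0` a small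
nonzero point).
`bounded`: `{w | R ≤ ‖w‖}` (`R > 0`) is path connected / connected (`isPreconnected` of the complement of a ball in dimension 2:
`isPathConnected_compl_..` or the image of `[R, ∞) × ℝ` under `(r, t) ↦ r e^{it}`) and `V ≠ 0` there, so it lies in one component `D∞`,
and every other component is in the ball of radius `R`.
-/

set_option autoImplicit false

namespace Pool.Agent.SHB

private theorem isOpen_cset' (V : ℂ → ℝ) (hV : Continuous V) (D : Cc V) : IsOpen (cset V D) := by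
  have hU : IsOpen {w : ℂ | V w ≠ 0} := isOpen_ne_fun hV continuous_const
  have hemb : Topology.IsOpenEmbedding (Subtype.val : {w : ℂ // V w ≠ 0} → ℂ) :=
    hU.isOpenEmbedding_subtypeVal
  haveI : LocallyConnectedSpace {w : ℂ // V w ≠ 0} := hemb.locallyConnectedSpace
  have h1 : IsOpen ((ConnectedComponents.mk : {w : ℂ // V w ≠ 0} → Cc V) ⁻¹' {D}) :=
    (isOpen_discrete _).preimage ConnectedComponents.continuous_coe
  have h2 := hemb.isOpenMap _ h1
  have h3 : cset V D = Subtype.val '' ((ConnectedComponents.mk : {w : ℂ // V w ≠ 0} → Cc V) ⁻¹' {D}) := by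
    ext w
    simp only [cset, Set.mem_setOf_eq, Set.mem_image, Set.mem_preimage, Set.mem_singleton_iff]
    constructor
    · rintro ⟨h, e⟩
      exact ⟨⟨w, h⟩, e, rfl⟩
    · rintro ⟨⟨x, hx⟩, e, rfl⟩
      exact ⟨hx, e⟩
  rw [h3]
  exact h2

private theorem mem_cset_of_closure (V : ℂ → ℝ) (hV : Continuous V) (D : Cc V) (s : ℂ)
    (hs : s ∈ closure (cset V D)) (h0 : V s ≠ 0) : s ∈ cset V D := by
  have hs' : s ∈ cset V (ConnectedComponents.mk ⟨s, h0⟩) := ⟨h0, rfl⟩
  obtain ⟨y, hy1, hy2⟩ := mem_closure_iff.1 hs _ (isOpen_cset' V hV _) hs'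
  obtain ⟨hy, e1⟩ := hy1
  obtain ⟨_, e2⟩ := hy2
  exact ⟨h0, e1.symm.trans e2⟩

/-- a point of an open set can be moved towards the origin -/
private theorem shrink (S : Set ℂ) (hS : IsOpen S) (y : ℂ) (hy : y ∈ S) (hy0 : y ≠ 0) :
    ∃ z ∈ S, ‖z‖ < ‖y‖ := by
  obtain ⟨ε, hε, hb⟩ := Metric.isOpen_iff.1 hS y hy
  have hn : 0 < ‖y‖ := norm_pos_iff.2 hy0
  set δ : ℝ := min (1 / 2) (ε / (2 * ‖y‖)) with hδ
  have hδ0 : 0 < δ := by positivity
  have hδ1 : δ ≤ 1 / 2 := min_le_left _ _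
  have hδ2 : δ ≤ ε / (2 * ‖y‖) := min_le_right _ _
  refine ⟨((1 - δ : ℝ) : ℂ) * y, hb ?_, ?_⟩
  · rw [Metric.mem_ball, dist_eq_norm]
    have : ((1 - δ : ℝ) : ℂ) * y - y = ((-δ : ℝ) : ℂ) * y := by push_cast; ring
    rw [this, norm_mul, Complex.norm_real, Real.norm_eq_abs, abs_neg, abs_of_pos hδ0]
    have h3 : δ * ‖y‖ ≤ ε / (2 * ‖y‖) * ‖y‖ := mul_le_mul_of_nonneg_right hδ2 hn.le
    have h4 : ε / (2 * ‖y‖) * ‖y‖ = ε / 2 := by field_simp
    linarith
  · rw [norm_mul, Complex.norm_real, Real.norm_eq_abs, abs_of_pos (by linarith)]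
    nlinarith

/-- a point of an open set can be moved away from the origin -/
private theorem expand (S : Set ℂ) (hS : IsOpen S) (y : ℂ) (hy : y ∈ S) :
    ∃ z ∈ S, ‖y‖ < ‖z‖ := by
  obtain ⟨ε, hε, hb⟩ := Metric.isOpen_iff.1 hS y hy
  by_cases hy0 : y = 0
  · subst hy0
    refine ⟨((ε / 2 : ℝ) : ℂ), hb ?_, ?_⟩
    · rw [Metric.mem_ball, dist_eq_norm, sub_zero, Complex.norm_real, Real.norm_eq_abs, abs_of_pos (by linarith)]
      linarith
    · rw [norm_zero, Complex.norm_real, Real.norm_eq_abs, abs_of_pos (by linarith)]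
      linarith
  have hn : 0 < ‖y‖ := norm_pos_iff.2 hy0
  set δ : ℝ := ε / (2 * ‖y‖) with hδ
  have hδ0 : 0 < δ := by positivity
  refine ⟨((1 + δ : ℝ) : ℂ) * y, hb ?_, ?_⟩
  · rw [Metric.mem_ball, dist_eq_norm]
    have : ((1 + δ : ℝ) : ℂ) * y - y = ((δ : ℝ) : ℂ) * y := by push_cast; ring
    rw [this, norm_mul, Complex.norm_real, Real.norm_eq_abs, abs_of_pos hδ0]
    have h4 : ε / (2 * ‖y‖) * ‖y‖ = ε / 2 := by field_simp
    rw [hδ, h4]
    linarith
  · rw [norm_mul, Complex.norm_real, Real.norm_eq_abs, abs_of_pos (by linarith)]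
    nlinarith

private theorem cset_nonempty' (V : ℂ → ℝ) (D : Cc V) : (cset V D).Nonempty := by
  obtain ⟨⟨w, hw⟩, rfl⟩ := ConnectedComponents.surjective_coe D
  exact ⟨w, hw, rfl⟩

theorem innermost (V : ℂ → ℝ) (hV : Continuous V) (D : Cc V) (h : (0 : ℂ) ∉ cset V D) :
    ∃ s : ℂ, V s = 0 ∧ D ∈ Out V s := by
  have hne : (closure (cset V D)).Nonempty := (cset_nonempty' V D).closure
  obtain ⟨s, hs, hmin⟩ := isClosed_closure.exists_infDist_eq_dist hne (0 : ℂ)
  have hle : ∀ y ∈ closure (cset V D), ‖s‖ ≤ ‖y‖ := by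
    intro y hy
    have h1 := Metric.infDist_le_dist_of_mem (x := (0 : ℂ)) hy
    rw [hmin, dist_zero_left, dist_zero_left] at h1
    exact h1
  have hlt : ∀ y ∈ cset V D, ‖s‖ < ‖y‖ := by
    intro y hy
    have hy0 : y ≠ 0 := by
      rintro rfl
      exact h hy
    obtain ⟨z, hz, hzy⟩ := shrink _ (isOpen_cset' V hV D) y hy hy0
    exact lt_of_le_of_lt (hle z (subset_closure hz)) hzy
  refine ⟨s, ?_, hs, hlt⟩
  by_contra h0
  exact lt_irrefl _ (hlt s (mem_cset_of_closure V hV D s hs h0))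

theorem outermost (V : ℂ → ℝ) (hV : Continuous V) (D : Cc V)
    (h : ∃ R : ℝ, ∀ y ∈ cset V D, ‖y‖ ≤ R) : ∃ s : ℂ, V s = 0 ∧ D ∈ Inn V s := by
  obtain ⟨R, hR⟩ := h
  have hne : (closure (cset V D)).Nonempty := (cset_nonempty' V D).closure
  have hbd : Bornology.IsBounded (cset V D) := by
    refine (Metric.isBounded_closedBall (x := (0 : ℂ)) (r := R)).subset ?_
    intro y hy
    rw [mem_closedBall_zero_iff]
    exact hR y hy
  have hcomp : IsCompact (closure (cset V D)) := hbd.isCompact_closure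
  obtain ⟨s, hs, hmax⟩ := hcomp.exists_isMaxOn hne continuous_norm.continuousOn
  have hle : ∀ y ∈ closure (cset V D), ‖y‖ ≤ ‖s‖ := fun y hy => hmax hy
  have hlt : ∀ y ∈ cset V D, ‖y‖ < ‖s‖ := by
    intro y hy
    obtain ⟨z, hz, hzy⟩ := expand _ (isOpen_cset' V hV D) y hy
    exact lt_of_lt_of_le hzy (hle z (subset_closure hz))
  refine ⟨s, ?_, hs, hlt⟩
  by_contra h0
  exact lt_irrefl _ (hlt s (mem_cset_of_closure V hV D s hs h0))

private theorem preconn_compl (R : ℝ) : IsPreconnected {w : ℂ | R ≤ ‖w‖} := by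
  by_cases hR0 : 0 < R
  · have h1 : {w : ℂ | R ≤ ‖w‖} =
        (fun p : ℝ × ℝ => (p.1 : ℂ) * Complex.exp (p.2 * Complex.I)) '' (Set.Ici R ×ˢ Set.univ) := by
      ext w
      simp only [Set.mem_setOf_eq, Set.mem_image, Set.mem_prod, Set.mem_Ici, Set.mem_univ, and_true,
        Prod.exists]
      constructor
      · intro hw
        exact ⟨‖w‖, w.arg, hw, Complex.norm_mul_exp_arg_mul_I w⟩
      · rintro ⟨r, t, hr, rfl⟩
        rw [norm_mul, Complex.norm_exp_ofReal_mul_I, mul_one, Complex.norm_real, Real.norm_eq_abs,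
          abs_of_pos (by linarith)]
        exact hr
    rw [h1]
    refine IsPreconnected.image (isPreconnected_Ici.prod isPreconnected_univ) _ ?_
    fun_prop
  · have h1 : {w : ℂ | R ≤ ‖w‖} = Set.univ := by
      ext w
      simp only [Set.mem_setOf_eq, Set.mem_univ, iff_true]
      linarith [norm_nonneg w]
    rw [h1]
    exact isPreconnected_univ

theorem bounded_comps (V : ℂ → ℝ) (hV : Continuous V) (R : ℝ) (hR0 : 0 < R)
    (hR : ∀ w : ℂ, R ≤ ‖w‖ → V w ≠ 0) :
    ∃ D0 : Cc V, ∀ D : Cc V, D ≠ D0 → ∀ y ∈ cset V D, ‖y‖ ≤ R := by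
  have hRn : R ≤ ‖(R : ℂ)‖ := by
    rw [Complex.norm_real, Real.norm_eq_abs, abs_of_pos hR0]
  refine ⟨ConnectedComponents.mk ⟨(R : ℂ), hR _ hRn⟩, ?_⟩
  intro D hD y hy
  by_contra hlt
  rw [not_le] at hlt
  apply hD
  obtain ⟨hy0, rfl⟩ := hy
  have hpre : IsPreconnected ((Subtype.val : {w : ℂ // V w ≠ 0} → ℂ) ⁻¹' {w : ℂ | R ≤ ‖w‖}) := by
    have hemb : Topology.IsInducing (Subtype.val : {w : ℂ // V w ≠ 0} → ℂ) := Topology.IsInducing.subtypeVal
    rw [← hemb.isPreconnected_image]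
    have h1 : (Subtype.val : {w : ℂ // V w ≠ 0} → ℂ) '' ((Subtype.val : {w : ℂ // V w ≠ 0} → ℂ) ⁻¹' {w : ℂ | R ≤ ‖w‖})
        = {w : ℂ | R ≤ ‖w‖} := by
      rw [Set.image_preimage_eq_iff]
      intro w hw
      exact ⟨⟨w, hR w hw⟩, rfl⟩
    rw [h1]
    exact preconn_compl R
  rw [ConnectedComponents.coe_eq_coe']
  have hmem : (⟨y, hy0⟩ : {w : ℂ // V w ≠ 0}) ∈
      ((Subtype.val : {w : ℂ // V w ≠ 0} → ℂ) ⁻¹' {w : ℂ | R ≤ ‖w‖}) := hlt.le
  exact hpre.subset_connectedComponent (x := ⟨(R : ℂ), hR _ hRn⟩) hRn hmem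

theorem cset_nonempty (V : ℂ → ℝ) (D : Cc V) : (cset V D).Nonempty := cset_nonempty' V D

end Pool.Agent.SHB
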