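import Pool.Agent.SHB.TCnt
import Pool.Agent.SHB.TExt

set_option autoImplicit false

namespace Pool.Agent.SHB

theorem top_count (V : ℂ → ℝ) (hV : Continuous V) (hV0 : V 0 ≠ 0) (R : ℝ) (hR0 : 0 < R)
    (hR : ∀ w : ℂ, R ≤ ‖w‖ → V w ≠ 0) (b : ℂ → ℕ) (c : ℂ → ℂ)
    (hloc : ∀ s, V s = 0 → 1 ≤ b s ∧ c s ≠ 0 ∧ LocExp V s (b s) (c s)) (E : Finset ℂ)
    (hE : ∀ s, V s = 0 → (2 ≤ b s ∨ (c s * (Complex.I * s)).re = 0) → s ∈ E) :
    Finite (Cc V) ∧
    2 * Nat.card (Cc V) ≤ 2 + ∑ s ∈ E, (if b s = 1 then 1 else 2 * b s - 2) := by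
  classical
  set D0 : Cc V := ConnectedComponents.mk (⟨0, hV0⟩ : {w : ℂ // V w ≠ 0}) with hD0
  obtain ⟨D1, hD1⟩ := bounded_comps V hV R hR0 hR
  set E' : Finset ℂ := E.filter (fun s => V s = 0 ∧ s ≠ 0) with hE'
  have hmemE' : ∀ s, V s = 0 → ∀ D, D ∈ Out V s ∪ Inn V s → s ∈ E' := by
    intro s hs D hD
    have hs0 : s ≠ 0 := by
      rintro rfl; exact hV0 hs
    rw [hE', Finset.mem_filter]
    refine ⟨?_, hs, hs0⟩
    by_contra hne
    have h1 : ¬ (2 ≤ b s ∨ (c s * (Complex.I * s)).re = 0) := fun h => hne (hE s hs h)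
    push Not at h1
    have hb := (hloc s hs).1
    have hb1 : b s = 1 := by omega
    have hemp := (local_count V hV b c hloc E hE s hs0 hs).2.1 hb1 h1.2
    rw [hemp] at hD
    exact hD
  have hout : {D : Cc V | D ≠ D0} ⊆ ⋃ s ∈ E', Out V s := by
    intro D hD
    have h0 : (0 : ℂ) ∉ cset V D := by
      rintro ⟨h, hm⟩
      exact hD (hm.symm)
    obtain ⟨s, hs, hDs⟩ := innermost V hV D h0
    rw [Set.mem_iUnion₂]
    exact ⟨s, hmemE' s hs D (Or.inl hDs), hDs⟩
  have hinn : {D : Cc V | D ≠ D1} ⊆ ⋃ s ∈ E', Inn V s := by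
    intro D hD
    obtain ⟨s, hs, hDs⟩ := outermost V hV D ⟨R, hD1 D hD⟩
    rw [Set.mem_iUnion₂]
    exact ⟨s, hmemE' s hs D (Or.inr hDs), hDs⟩
  have hfinu : ∀ s ∈ E', (Out V s ∪ Inn V s).Finite := by
    intro s hs
    rw [hE', Finset.mem_filter] at hs
    exact (local_count V hV b c hloc E hE s hs.2.2 hs.2.1).1
  have hfo : (⋃ s ∈ E', Out V s).Finite :=
    E'.finite_toSet.biUnion (fun s hs => (hfinu s hs).subset Set.subset_union_left)
  have hfi : (⋃ s ∈ E', Inn V s).Finite :=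
    E'.finite_toSet.biUnion (fun s hs => (hfinu s hs).subset Set.subset_union_right)
  have hfin : Finite (Cc V) := by
    have h1 : (Set.univ : Set (Cc V)).Finite := by
      have h2 : (Set.univ : Set (Cc V)) ⊆ {D : Cc V | D ≠ D0} ∪ {D0} := by
        intro D _
        by_cases h : D = D0
        · right; exact h
        · left; exact h
      exact ((hfo.subset hout).union (Set.finite_singleton D0)).subset h2
    exact Set.finite_univ_iff.1 h1
  refine ⟨hfin, ?_⟩
  have hcardne : ∀ D : Cc V, Nat.card (Cc V) ≤ ({D' : Cc V | D' ≠ D}).ncard + 1 := by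
    intro D
    have h1 : (Set.univ : Set (Cc V)) ⊆ insert D {D' : Cc V | D' ≠ D} := by
      intro D' _
      by_cases h : D' = D
      · left; exact h
      · right; exact h
    have h2 := Set.ncard_le_ncard h1 (Set.toFinite _)
    rw [Set.ncard_univ] at h2
    exact h2.trans (Set.ncard_insert_le _ _)
  have hU : ∀ (X : ℂ → Set (Cc V)), (⋃ s ∈ E', X s).ncard ≤ ∑ s ∈ E', (X s).ncard := by
    intro X
    induction E' using Finset.induction_on with
    | empty => simp
    | insert a t ha ih =>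
      rw [Finset.set_biUnion_insert, Finset.sum_insert ha]
      exact (Set.ncard_union_le _ _).trans (Nat.add_le_add_left ih _)
  have h1 := (hcardne D0).trans (Nat.add_le_add_right
    ((Set.ncard_le_ncard hout (Set.toFinite _)).trans (hU (Out V))) 1)
  have h2 := (hcardne D1).trans (Nat.add_le_add_right
    ((Set.ncard_le_ncard hinn (Set.toFinite _)).trans (hU (Inn V))) 1)
  have h3 : ∑ s ∈ E', (Out V s).ncard + ∑ s ∈ E', (Inn V s).ncard ≤
      ∑ s ∈ E, (if b s = 1 then 1 else 2 * b s - 2) := by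
    rw [← Finset.sum_add_distrib]
    refine le_trans (Finset.sum_le_sum (g := fun s => if b s = 1 then 1 else 2 * b s - 2) ?_) ?_
    · intro s hs
      have hs' := hs
      rw [hE', Finset.mem_filter] at hs'
      obtain ⟨hf, -, hc1, hc2⟩ := local_count V hV b c hloc E hE s hs'.2.2 hs'.2.1
      rw [← Set.ncard_union_eq (out_disjoint_inn V s) (Set.toFinite _) (Set.toFinite _)]
      have hb := (hloc s hs'.2.1).1
      by_cases hb1 : b s = 1
      · simp only [hb1, if_true]; exact hc1 hb1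
      · simp only [hb1, if_false]; exact hc2 (by omega)
    · exact Finset.sum_le_sum_of_subset (Finset.filter_subset _ _)
  omega

end Pool.Agent.SHB
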