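import Pool.Agent.SHB.Bez
import Pool.Agent.SHB.Iso
import Pool.Agent.SHB.Rel
import Pool.Agent.SHB.LocP
import Pool.Agent.SHB.TGlob

/-!
# Project SHB (MP_f77893_an), module Planar: the planar theorem (assembly)
-/

set_option autoImplicit false

namespace Pool.Agent.SHB

open MvPolynomial

theorem planar {l : ℕ} {U : P2} (hU : Spin l U) (hl : 1 ≤ l) (hR : RealP U)
    (h0 : coeff (ex 0 0) U ≠ 0) (h1 : coeff (ex 1 0) U ≠ 0)
    (S : Finset ℂ) (bS : ℂ → ℕ) (hS : ∀ s ∈ S, U ∈ ptI s ((starRingEnd ℂ) s) ^ bS s)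
    (K : Finset ℂ) (μ : ℂ → ℕ) (hK0 : ∀ w ∈ K, w ≠ 0)
    (hK : ∀ w ∈ K, (Polynomial.X - Polynomial.C w) ^ μ w ∣ Gpoly l U) :
    Finite (ConnectedComponents (PlaneC U)) ∧
    2 * Nat.card (ConnectedComponents (PlaneC U)) + ∑ w ∈ K, μ w * (μ w - 1) +
      ∑ s ∈ S, (bS s - 1) * (bS s - 2) ≤ 2 * l ^ 2 + 2 := by
  classical
  have hU0 : U ≠ 0 := by
    rintro rfl; simp at h0
  have hrel := hU.relPrime hl hR h0 h1
  have hd0 := hU.deg0_eq h0
  have hd1 := hU.deg1_eq h0
  have hw0 := degreeOf_rotW_le hU.deg0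
  have hw1 := degreeOf_rotW_le' hU.deg1
  -- the set of common zeros
  set Z : Set ℂ := {w | U ∈ ptI w ((starRingEnd ℂ) w) ∧ rotW U ∈ ptI w ((starRingEnd ℂ) w)}
    with hZ
  have hinj : Function.Injective (fun w : ℂ => (w, (starRingEnd ℂ) w)) := by
    intro w w' h
    exact congrArg Prod.fst h
  have hZfin : Z.Finite := by
    by_contra hinf
    have hinf' : Z.Infinite := hinf
    obtain ⟨T, hT, hcard⟩ := hinf'.exists_subset_card_eq (2 * l ^ 2 + 1)
    have := bezout l U (rotW U) hd0 hd1 hw0 hw1 hrel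
      (T.map ⟨fun w : ℂ => (w, (starRingEnd ℂ) w), hinj⟩) (fun _ => 1) (fun _ => 1)
      (by
        intro s hs
        rw [Finset.mem_map] at hs
        obtain ⟨w, hw, rfl⟩ := hs
        rw [pow_one]
        exact (hT hw).1)
      (by
        intro s hs
        rw [Finset.mem_map] at hs
        obtain ⟨w, hw, rfl⟩ := hs
        rw [pow_one]
        exact (hT hw).2)
    simp only [mul_one, Finset.sum_const, Finset.card_map, smul_eq_mul, hcard] at this
    omega
  set E : Finset ℂ := hZfin.toFinset with hE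
  have hEmem : ∀ w, w ∈ E ↔ U ∈ ptI w ((starRingEnd ℂ) w) ∧ rotW U ∈ ptI w ((starRingEnd ℂ) w) := by
    intro w
    rw [hE, Set.Finite.mem_toFinset, hZ, Set.mem_ofPred_eq]
  -- the orders
  choose b hb1 hb2 using fun w : ℂ => exists_order hU0 w ((starRingEnd ℂ) w)
  have hb_pos : ∀ w, U ∈ ptI w ((starRingEnd ℂ) w) → 1 ≤ b w := by
    intro w hw
    by_contra hlt
    have hb0 : b w = 0 := by omega
    apply hb2 w
    rw [hb0, zero_add, pow_one]
    exact hw
  have hb_le : ∀ w n, U ∈ ptI w ((starRingEnd ℂ) w) ^ n → n ≤ b w := by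
    intro w n hn
    by_contra hlt
    apply hb2 w
    exact Ideal.pow_le_pow_right (by omega) hn
  have hb_memE : ∀ w, 2 ≤ b w → w ∈ E := by
    intro w hw
    rw [hEmem]
    constructor
    · have := Ideal.pow_le_pow_right (I := ptI w ((starRingEnd ℂ) w)) (show 1 ≤ b w by omega) (hb1 w)
      rwa [pow_one] at this
    · have h2 : U ∈ ptI w ((starRingEnd ℂ) w) ^ (1 + 1) :=
        Ideal.pow_le_pow_right (by omega) (hb1 w)
      have := rotW_mem _ _ 1 U h2
      rwa [pow_one] at this
  -- topological part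
  obtain ⟨R, hR0, hRl⟩ := Vf_large hU hR h0
  have hV0 : Vf U 0 ≠ 0 := by
    intro hv
    have h2 := hR.eval_eq 0
    rw [hv] at h2
    apply h0
    have h3 : eval ![(0 : ℂ), (starRingEnd ℂ) 0] U = coeff (ex 0 0) U := by
      rw [map_zero, ex_00]
      have : (![(0 : ℂ), 0] : Fin 2 → ℂ) = 0 := by
        ext i; fin_cases i <;> rfl
      rw [this, ← constantCoeff_eq]
      simp [MvPolynomial.eval_zero]
    rw [← h3, h2]; simp
  set c : ℂ → ℂ := fun w => 2 * coeff (ex (b w) 0) (shift w ((starRingEnd ℂ) w) U) with hc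
  have hloc : ∀ s, Vf U s = 0 → 1 ≤ b s ∧ c s ≠ 0 ∧ LocExp (Vf U) s (b s) (c s) := by
    intro s hs
    have hmem : U ∈ ptI s ((starRingEnd ℂ) s) := by
      rw [mem_ptI_iff, hR.eval_eq, hs]; simp
    have hb := hb_pos s hmem
    exact ⟨hb, hU.locExp hR s (b s) hb (hb1 s) (hb2 s)⟩
  have hEE : ∀ s, Vf U s = 0 → (2 ≤ b s ∨ (c s * (Complex.I * s)).re = 0) → s ∈ E := by
    intro s hs hor
    rcases le_or_gt 2 (b s) with h2 | h2
    · exact hb_memE s h2
    · have hmem : U ∈ ptI s ((starRingEnd ℂ) s) := by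
        rw [mem_ptI_iff, hR.eval_eq, hs]; simp
      have hb := hb_pos s hmem
      have hb1' : b s = 1 := by omega
      rcases hor with h3 | h3
      · omega
      · rw [hEmem]
        refine ⟨hmem, rotW_of_tangent hR s ?_⟩
        rw [hc] at h3
        simp only [hb1'] at h3
        exact h3
  obtain ⟨hfin, hcount⟩ := top_count (Vf U) (Vf_continuous U) hV0 R hR0 hRl b c hloc E hEE
  refine ⟨hfin, ?_⟩
  -- algebraic part
  have hinj2 : Function.Injective (fun w : ℂ => (w, -1 / w)) := by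
    intro w w' h
    exact congrArg Prod.fst h
  set E2 : Finset (ℂ × ℂ) := E.map ⟨fun w : ℂ => (w, (starRingEnd ℂ) w), hinj⟩ with hE2
  set K2 : Finset (ℂ × ℂ) := K.map ⟨fun w : ℂ => (w, -1 / w), hinj2⟩ with hK2
  have hdisj : Disjoint E2 K2 := by
    rw [Finset.disjoint_left]
    intro s hs1 hs2
    rw [hE2, Finset.mem_map] at hs1
    rw [hK2, Finset.mem_map] at hs2
    obtain ⟨w, hw, rfl⟩ := hs1
    obtain ⟨w', hw', he⟩ := hs2
    simp only [Function.Embedding.coeFn_mk, Prod.mk.injEq] at he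
    obtain ⟨rfl, he2⟩ := he
    have hne := hK0 _ hw'
    have h3 : w' * (starRingEnd ℂ) w' = -1 := by
      rw [← he2]; field_simp
    rw [Complex.mul_conj] at h3
    have h4 : (Complex.normSq w' : ℝ) = -1 := by exact_mod_cast h3
    have := Complex.normSq_nonneg w'
    linarith
  set m : ℂ × ℂ → ℕ := fun s => if s ∈ K2 then μ s.1 else b s.1 with hm
  set k : ℂ × ℂ → ℕ := fun s => if s ∈ K2 then μ s.1 - 1 else (if b s.1 = 1 then 1 else b s.1 - 1)
    with hk
  have hbz := bezout l U (rotW U) hd0 hd1 hw0 hw1 hrel (E2 ∪ K2) m k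
    (by
      intro s hs
      by_cases hsK : s ∈ K2
      · rw [hm]; simp only [if_pos hsK]
        rw [hK2, Finset.mem_map] at hsK
        obtain ⟨w, hw, rfl⟩ := hsK
        exact hU.iso_order w (hK0 w hw) (μ w) (hK w hw)
      · have hsE : s ∈ E2 := by
          rcases Finset.mem_union.1 hs with h | h
          · exact h
          · exact absurd h hsK
        rw [hm]; simp only [if_neg hsK]
        rw [hE2, Finset.mem_map] at hsE
        obtain ⟨w, hw, rfl⟩ := hsE
        exact hb1 w)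
    (by
      intro s hs
      by_cases hsK : s ∈ K2
      · rw [hk]; simp only [if_pos hsK]
        rw [hK2, Finset.mem_map] at hsK
        obtain ⟨w, hw, rfl⟩ := hsK
        simp only [Function.Embedding.coeFn_mk]
        rcases Nat.eq_zero_or_pos (μ w) with hz | hpos
        · rw [hz]; simp
        · apply rotW_mem
          rw [Nat.sub_add_cancel hpos]
          exact hU.iso_order w (hK0 w hw) (μ w) (hK w hw)
      · have hsE : s ∈ E2 := by
          rcases Finset.mem_union.1 hs with h | h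
          · exact h
          · exact absurd h hsK
        rw [hk]; simp only [if_neg hsK]
        rw [hE2, Finset.mem_map] at hsE
        obtain ⟨w, hw, rfl⟩ := hsE
        simp only [Function.Embedding.coeFn_mk]
        split_ifs with h
        · rw [pow_one]; exact ((hEmem w).1 hw).2
        · have hbp := hb_pos w ((hEmem w).1 hw).1
          apply rotW_mem
          rw [Nat.sub_add_cancel hbp]
          exact hb1 w)
  rw [Finset.sum_union hdisj] at hbz
  have hs1 : ∑ s ∈ E2, m s * k s = ∑ w ∈ E, b w * (if b w = 1 then 1 else b w - 1) := by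
    rw [hE2, Finset.sum_map]
    apply Finset.sum_congr rfl
    intro w hw
    have hnot : ((⟨fun w : ℂ => (w, (starRingEnd ℂ) w), hinj⟩ : ℂ ↪ ℂ × ℂ) w) ∉ K2 := by
      intro h
      exact Finset.disjoint_left.1 hdisj (by rw [hE2]; exact Finset.mem_map_of_mem _ hw) h
    rw [hm, hk]
    simp only [if_neg hnot]
    rfl
  have hs2 : ∑ s ∈ K2, m s * k s = ∑ w ∈ K, μ w * (μ w - 1) := by
    rw [hK2, Finset.sum_map]
    apply Finset.sum_congr rfl
    intro w hw
    have hin : ((⟨fun w : ℂ => (w, -1 / w), hinj2⟩ : ℂ ↪ ℂ × ℂ) w) ∈ K2 := by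
      rw [hK2]; exact Finset.mem_map_of_mem _ hw
    rw [hm, hk]
    simp only [if_pos hin]
    rfl
  rw [hs1, hs2] at hbz
  have hs3 : ∑ w ∈ E, b w * (if b w = 1 then 1 else b w - 1) =
      ∑ w ∈ E, (if b w = 1 then 1 else 2 * b w - 2) + ∑ w ∈ E, (b w - 1) * (b w - 2) := by
    rw [← Finset.sum_add_distrib]
    apply Finset.sum_congr rfl
    intro w hw
    have hbp := hb_pos w ((hEmem w).1 hw).1
    split_ifs with h
    · rw [h]
    · obtain ⟨n, hn⟩ : ∃ n, b w = n + 2 := ⟨b w - 2, by omega⟩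
      rw [hn]
      have e1 : n + 2 - 1 = n + 1 := by omega
      have e2 : n + 2 - 2 = n := by omega
      have e3 : 2 * (n + 2) - 2 = 2 * n + 2 := by omega
      rw [e1, e2, e3]; ring
  have hs4 : ∑ s ∈ S, (bS s - 1) * (bS s - 2) ≤ ∑ w ∈ E, (b w - 1) * (b w - 2) := by
    have : ∑ s ∈ S, (bS s - 1) * (bS s - 2) ≤ ∑ s ∈ S, (b s - 1) * (b s - 2) := by
      apply Finset.sum_le_sum
      intro s hs
      have := hb_le s (bS s) (hS s hs)
      exact Nat.mul_le_mul (by omega) (by omega)
    refine this.trans ?_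
    rw [← Finset.sum_filter_add_sum_filter_not S (fun s => s ∈ E)]
    have hz : ∑ s ∈ S.filter (fun s => ¬ s ∈ E), (b s - 1) * (b s - 2) = 0 := by
      apply Finset.sum_eq_zero
      intro s hs
      rw [Finset.mem_filter] at hs
      have : ¬ 2 ≤ b s := fun h => hs.2 (hb_memE s h)
      have : b s - 1 = 0 := by omega
      rw [this, zero_mul]
    rw [hz, add_zero]
    apply Finset.sum_le_sum_of_subset
    intro s hs
    exact (Finset.mem_filter.1 hs).2
  have hcc : Nat.card (ConnectedComponents (PlaneC U)) = Nat.card (Cc (Vf U)) := rfl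
  rw [hcc]
  omega

end Pool.Agent.SHB
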