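import Pool.Agent.SHB.Ex

/-!
# Project SHB (MP_f77893_an), module Rec: the coefficient recursion of `Spin`

Comparing coefficients in the equation gives a recursion along the diagonals; so `U` is determined
by its coefficients on the edges, and the diagonal coefficients are explicit.
-/

set_option autoImplicit false

namespace Pool.Agent.SHB

open MvPolynomial

theorem Spin.rec_coeff {l : ℕ} {U : P2} (hU : Spin l U) (i j : ℕ) :
    ((i : ℂ) + 1) * ((j : ℂ) + 1) * coeff (ex (i + 1) (j + 1)) U =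
      -(((l : ℂ) - i) * ((l : ℂ) - j)) * coeff (ex i j) U := by
  have h := congrArg (coeff (ex i j)) hU.pde
  rw [add_mul, one_mul, coeff_add, coeff_pderiv01, coeff_XX_pderiv01, coeff_C_mul, coeff_sub,
    coeff_add, coeff_X0_pderiv, coeff_X1_pderiv, coeff_C_mul] at h
  linear_combination h

theorem Spin.eq_zero_of_edges {l : ℕ} {U : P2} (hU : Spin l U)
    (h0 : ∀ i, coeff (ex i 0) U = 0) (h1 : ∀ j, coeff (ex 0 j) U = 0) : U = 0 := by
  have h : ∀ i j, coeff (ex i j) U = 0 := by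
    intro i
    induction i with
    | zero => exact h1
    | succ i ih =>
      intro j
      rcases j with _ | j
      · exact h0 _
      · have h2 := hU.rec_coeff i j
        rw [ih j, mul_zero] at h2
        have hi : ((i : ℂ) + 1) ≠ 0 := Nat.cast_add_one_ne_zero i
        have hj : ((j : ℂ) + 1) ≠ 0 := Nat.cast_add_one_ne_zero j
        exact (mul_eq_zero.1 h2).resolve_left (mul_ne_zero hi hj)
  apply ext_coeff
  intro i j
  rw [h, coeff_zero]

private lemma Rec_choose (l k : ℕ) :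
    (l.choose (k + 1) : ℂ) * ((k : ℂ) + 1) = l.choose k * ((l : ℂ) - k) := by
  have h := Nat.choose_succ_right_eq l k
  rcases le_or_gt k l with hk | hk
  · have h1 := congrArg (Nat.cast : ℕ → ℂ) h
    rw [Nat.cast_mul, Nat.cast_mul, Nat.cast_sub hk] at h1
    push_cast at h1
    exact h1
  · rw [Nat.choose_eq_zero_of_lt hk, Nat.choose_eq_zero_of_lt (by omega : l < k + 1)]
    simp

theorem Spin.coeff_diag {l : ℕ} {U : P2} (hU : Spin l U) (k : ℕ) :
    coeff (ex k k) U = (-1) ^ k * (l.choose k : ℂ) ^ 2 * coeff (ex 0 0) U := by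
  induction k with
  | zero => simp
  | succ k ih =>
    have h := hU.rec_coeff k k
    rw [ih] at h
    have hk : ((k : ℂ) + 1) ≠ 0 := Nat.cast_add_one_ne_zero k
    have h1 := Rec_choose l k
    have h2 : ((k : ℂ) + 1) * ((k : ℂ) + 1) * coeff (ex (k + 1) (k + 1)) U =
        ((k : ℂ) + 1) * ((k : ℂ) + 1) *
          ((-1) ^ (k + 1) * (l.choose (k + 1) : ℂ) ^ 2 * coeff (ex 0 0) U) := by
      rw [h]
      have h3 : ((k : ℂ) + 1) * ((k : ℂ) + 1) *
          ((-1) ^ (k + 1) * (l.choose (k + 1) : ℂ) ^ 2 * coeff (ex 0 0) U) =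
          (-1) ^ (k + 1) * ((l.choose (k + 1) : ℂ) * ((k : ℂ) + 1)) ^ 2 * coeff (ex 0 0) U := by
        ring
      rw [h3, h1]
      ring
    exact mul_left_cancel₀ (mul_ne_zero hk hk) h2

theorem Spin.coeff_top {l : ℕ} {U : P2} (hU : Spin l U) :
    coeff (ex l l) U = (-1) ^ l * coeff (ex 0 0) U := by
  rw [hU.coeff_diag l, Nat.choose_self]
  simp

private lemma Rec_top_ne {l : ℕ} {U : P2} (hU : Spin l U) (h : coeff (ex 0 0) U ≠ 0) :
    coeff (ex l l) U ≠ 0 := by
  rw [hU.coeff_top]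
  exact mul_ne_zero (pow_ne_zero _ (neg_ne_zero.2 one_ne_zero)) h

theorem Spin.deg0_eq {l : ℕ} {U : P2} (hU : Spin l U) (h : coeff (ex 0 0) U ≠ 0) :
    degreeOf 0 U = l := by
  refine le_antisymm hU.deg0 ?_
  by_contra hlt
  exact Rec_top_ne hU h (coeff_eq_zero_of_deg0 le_rfl (not_le.1 hlt))

theorem Spin.deg1_eq {l : ℕ} {U : P2} (hU : Spin l U) (h : coeff (ex 0 0) U ≠ 0) :
    degreeOf 1 U = l := by
  refine le_antisymm hU.deg1 ?_
  by_contra hlt
  exact Rec_top_ne hU h (coeff_eq_zero_of_deg1 le_rfl (not_le.1 hlt))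

theorem degreeOf_rotW_le {l : ℕ} {U : P2} (h : degreeOf 0 U ≤ l) : degreeOf 0 (rotW U) ≤ l := by
  rw [deg0_le_iff] at h ⊢
  intro i j hi
  rw [coeff_rotW, h i j hi, mul_zero]

theorem degreeOf_rotW_le' {l : ℕ} {U : P2} (h : degreeOf 1 U ≤ l) : degreeOf 1 (rotW U) ≤ l := by
  rw [deg1_le_iff] at h ⊢
  intro i j hj
  rw [coeff_rotW, h i j hj, mul_zero]

end Pool.Agent.SHB
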