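import Pool.Agent.SHB.TDefs

/-!
# Project SHB (MP_f77893_an), module TArc: behaviour along the circle `‖w‖ = ‖s‖`

PLAN. `circle_tangent`: if `V (q e^{iτ}) = 0` for all small `|τ|`... it is enough that it vanishes for all `τ` in some
`(0, ε)`: write `q e^{iτ} = q + r e^{it}` with `r = ‖q‖ * 2 sin(τ/2)`, `r e^{it} = q (e^{iτ} - 1) = i q τ + O(τ^2)`;
`LocExp` with `b = 1` says `V (q + z) = Re (c z) + O(‖z‖^2)` for `‖z‖ ≤ 1` (`z = r e^{it}`, `r = ‖z‖`, `t = arg z`), so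
`0 = τ Re (c i q) + O(τ^2)`; divide by `τ → 0+`.
`arc_nonzero`: if `V (s e^{iη}) = 0` for all `η ∈ (0, ε)` (or all `η ∈ (-ε, 0)`), then every point `q = s e^{iη}` of this arc is a zero
with either `b q ≥ 2` or `Re (c q * (i q)) = 0` (`circle_tangent` at `q`), so it is in `E`: infinitely many points
in a finite set (`η ↦ s e^{iη}` is injective on a small interval, `s ≠ 0`; shrink `ε ≤ 1`).
`nontangent`: `b s = 1`, `Re (c i s) ≠ 0`: `V (s e^{iη}) = η Re (c i s) + O(η^2)`, so for small `η > 0`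
`V (s e^{iη}) * V (s e^{-iη}) < 0`.
-/

set_option autoImplicit false

namespace Pool.Agent.SHB

private theorem loc_one {V : ℂ → ℝ} {q c : ℂ} (h : LocExp V q 1 c) :
    ∃ K : ℝ, 0 ≤ K ∧ ∀ z : ℂ, ‖z‖ ≤ 1 → |V (q + z) - (c * z).re| ≤ K * ‖z‖ ^ 2 := by
  obtain ⟨D, K, hK, -, h2, -⟩ := h
  refine ⟨K, hK, fun z hz => ?_⟩
  have h3 := h2 ‖z‖ z.arg (norm_nonneg z) hz
  have h4 : (‖z‖ : ℂ) * Complex.exp (z.arg * Complex.I) = z := Complex.norm_mul_exp_arg_mul_I z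
  rw [h4] at h3
  have h5 : ‖z‖ ^ 1 * (c * Complex.exp (((1 : ℕ) : ℂ) * z.arg * Complex.I)).re = (c * z).re := by
    rw [pow_one, Nat.cast_one, one_mul]
    conv_rhs => rw [← h4]
    rw [← mul_assoc, mul_comm c (‖z‖ : ℂ), mul_assoc, Complex.re_ofReal_mul]
  rw [h5] at h3
  exact h3

private theorem arc_exp {V : ℂ → ℝ} {q c : ℂ} (h : LocExp V q 1 c) :
    ∃ K : ℝ, 0 ≤ K ∧ ∀ τ : ℝ, |τ| ≤ 1 / (2 * ‖q‖ + 1) →
      |V (q * Complex.exp (τ * Complex.I)) - τ * (c * (Complex.I * q)).re| ≤ K * τ ^ 2 := by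
  obtain ⟨K, hK, h1⟩ := loc_one h
  refine ⟨4 * K * ‖q‖ ^ 2 + ‖c‖ * ‖q‖, by positivity, fun τ hτ => ?_⟩
  have hq : 0 < 2 * ‖q‖ + 1 := by positivity
  have hτ1 : |τ| * (2 * ‖q‖ + 1) ≤ 1 := by rwa [le_div_iff₀ hq] at hτ
  have hτ0 : 0 ≤ |τ| := abs_nonneg τ
  have hq0 : 0 ≤ ‖q‖ := norm_nonneg q
  have hτ2 : |τ| ≤ 1 := by nlinarith
  have hx : ‖(τ : ℂ) * Complex.I‖ = |τ| := by
    rw [norm_mul, Complex.norm_I, mul_one, Complex.norm_real, Real.norm_eq_abs]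
  have e1 : ‖Complex.exp (τ * Complex.I) - 1‖ ≤ 2 * |τ| := by
    have := Complex.norm_exp_sub_one_le (x := (τ : ℂ) * Complex.I) (by rw [hx]; exact hτ2)
    rwa [hx] at this
  have e2 : ‖Complex.exp (τ * Complex.I) - 1 - τ * Complex.I‖ ≤ |τ| ^ 2 := by
    have := Complex.norm_exp_sub_one_sub_id_le (x := (τ : ℂ) * Complex.I) (by rw [hx]; exact hτ2)
    rwa [hx] at this
  set z : ℂ := q * (Complex.exp (τ * Complex.I) - 1) with hz
  have hzn : ‖z‖ ≤ 2 * ‖q‖ * |τ| := by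
    rw [hz, norm_mul]
    nlinarith
  have hz1 : ‖z‖ ≤ 1 := by nlinarith
  have h2 := h1 z hz1
  have h3 : q + z = q * Complex.exp (τ * Complex.I) := by rw [hz]; ring
  rw [h3] at h2
  have h4 : (c * z).re - τ * (c * (Complex.I * q)).re =
      (c * (q * (Complex.exp (τ * Complex.I) - 1 - τ * Complex.I))).re := by
    rw [← Complex.re_ofReal_mul, ← Complex.sub_re]
    congr 1
    rw [hz]
    ring
  have h5 : |(c * z).re - τ * (c * (Complex.I * q)).re| ≤ ‖c‖ * ‖q‖ * |τ| ^ 2 := by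
    rw [h4]
    refine (Complex.abs_re_le_norm _).trans ?_
    rw [norm_mul, norm_mul, ← mul_assoc]
    exact mul_le_mul_of_nonneg_left e2 (by positivity)
  have h6 : K * ‖z‖ ^ 2 ≤ 4 * K * ‖q‖ ^ 2 * |τ| ^ 2 := by
    have h7 : ‖z‖ ^ 2 ≤ (2 * ‖q‖ * |τ|) ^ 2 := pow_le_pow_left₀ (norm_nonneg z) hzn 2
    calc K * ‖z‖ ^ 2 ≤ K * (2 * ‖q‖ * |τ|) ^ 2 := mul_le_mul_of_nonneg_left h7 hK
      _ = 4 * K * ‖q‖ ^ 2 * |τ| ^ 2 := by ring
  have h8 : |V (q * Complex.exp (τ * Complex.I)) - τ * (c * (Complex.I * q)).re| ≤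
      |V (q * Complex.exp (τ * Complex.I)) - (c * z).re| +
      |(c * z).re - τ * (c * (Complex.I * q)).re| := by
    have := abs_add_le (V (q * Complex.exp (τ * Complex.I)) - (c * z).re)
      ((c * z).re - τ * (c * (Complex.I * q)).re)
    rwa [sub_add_sub_cancel] at this
  rw [← sq_abs τ]
  calc _ ≤ _ := h8
    _ ≤ K * ‖z‖ ^ 2 + ‖c‖ * ‖q‖ * |τ| ^ 2 := add_le_add h2 h5
    _ ≤ 4 * K * ‖q‖ ^ 2 * |τ| ^ 2 + ‖c‖ * ‖q‖ * |τ| ^ 2 := by gcongr
    _ = (4 * K * ‖q‖ ^ 2 + ‖c‖ * ‖q‖) * |τ| ^ 2 := by ring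

/-- a small parameter -/
private theorem small_param (q : ℂ) (R K ε : ℝ) (hR : R ≠ 0) (hK : 0 ≤ K) (hε : 0 < ε) :
    ∃ τ : ℝ, 0 < τ ∧ τ < ε ∧ τ ≤ 1 / (2 * ‖q‖ + 1) ∧ K * τ ^ 2 < τ * |R| := by
  have hR' : 0 < |R| := abs_pos.mpr hR
  have hq : 0 < 1 / (2 * ‖q‖ + 1) := by positivity
  have hr : 0 < |R| / (2 * (K + 1)) := by positivity
  refine ⟨min (ε / 2) (min (1 / (2 * ‖q‖ + 1)) (|R| / (2 * (K + 1)))), ?_, ?_, ?_, ?_⟩
  · exact lt_min (by positivity) (lt_min hq hr)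
  · exact lt_of_le_of_lt (min_le_left _ _) (by linarith)
  · exact (min_le_right _ _).trans (min_le_left _ _)
  · set τ := min (ε / 2) (min (1 / (2 * ‖q‖ + 1)) (|R| / (2 * (K + 1)))) with hτ
    have h0 : 0 < τ := lt_min (by positivity) (lt_min hq hr)
    have h1 : τ ≤ |R| / (2 * (K + 1)) := (min_le_right _ _).trans (min_le_right _ _)
    rw [le_div_iff₀ (by positivity)] at h1
    have h2 : K * τ < |R| := by nlinarith
    calc K * τ ^ 2 = τ * (K * τ) := by ring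
      _ < τ * |R| := mul_lt_mul_of_pos_left h2 h0

theorem circle_tangent (V : ℂ → ℝ) (q c : ℂ) (h : LocExp V q 1 c) (ε : ℝ) (hε : 0 < ε)
    (h0 : ∀ τ : ℝ, 0 < τ → τ < ε → V (q * Complex.exp (τ * Complex.I)) = 0) :
    (c * (Complex.I * q)).re = 0 := by
  by_contra hR
  obtain ⟨K, hK, h1⟩ := arc_exp h
  obtain ⟨τ, t1, t2, t3, t4⟩ := small_param q _ K ε hR hK hε
  have h2 := h1 τ (by rwa [abs_of_pos t1])
  rw [h0 τ t1 t2, zero_sub, abs_neg, abs_mul, abs_of_pos t1] at h2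
  linarith

/-- an arc on which `V` vanishes gives infinitely many points of `E` -/
private theorem arc_aux (V : ℂ → ℝ) (b : ℂ → ℕ) (c : ℂ → ℂ)
    (hloc : ∀ s, V s = 0 → 1 ≤ b s ∧ c s ≠ 0 ∧ LocExp V s (b s) (c s)) (E : Finset ℂ)
    (hE : ∀ s, V s = 0 → (2 ≤ b s ∨ (c s * (Complex.I * s)).re = 0) → s ∈ E)
    (s : ℂ) (hs : s ≠ 0) (x y : ℝ) (hxy : x < y) (hx : -1 ≤ x) (hy : y ≤ 1)
    (h0 : ∀ η : ℝ, x < η → η < y → V (s * Complex.exp (η * Complex.I)) = 0) : False := by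
  have h1 : (Set.Ioo x y).Infinite := Set.Ioo_infinite hxy
  have h2 : Set.InjOn (fun η : ℝ => s * Complex.exp (η * Complex.I)) (Set.Ioo x y) := by
    intro η hη η' hη' h
    have h3 : Complex.exp (η * Complex.I) = Complex.exp (η' * Complex.I) :=
      mul_left_cancel₀ hs h
    have hpi : (3 : ℝ) < Real.pi := Real.pi_gt_three
    have h4 := Complex.exp_inj_of_neg_pi_lt_of_le_pi (x := (η : ℂ) * Complex.I)
      (y := (η' : ℂ) * Complex.I) (by simp; linarith [hη.1]) (by simp; linarith [hη.2])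
      (by simp; linarith [hη'.1]) (by simp; linarith [hη'.2]) h3
    have h5 : (η : ℂ) = η' := mul_right_cancel₀ Complex.I_ne_zero h4
    exact_mod_cast h5
  have h3 : Set.MapsTo (fun η : ℝ => s * Complex.exp (η * Complex.I)) (Set.Ioo x y) (E : Set ℂ) := by
    intro η hη
    have hV : V (s * Complex.exp (η * Complex.I)) = 0 := h0 η hη.1 hη.2
    obtain ⟨l1, _, l3⟩ := hloc _ hV
    apply hE _ hV
    rcases Nat.lt_or_ge 1 (b (s * Complex.exp (η * Complex.I))) with h4 | h4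
    · exact Or.inl h4
    · right
      have h5 : b (s * Complex.exp (η * Complex.I)) = 1 := le_antisymm h4 l1
      rw [h5] at l3
      refine circle_tangent V _ _ l3 (y - η) (by linarith [hη.2]) fun τ t1 t2 => ?_
      have h6 : s * Complex.exp (η * Complex.I) * Complex.exp (τ * Complex.I) =
          s * Complex.exp (((η + τ : ℝ) : ℂ) * Complex.I) := by
        rw [mul_assoc, ← Complex.exp_add]
        congr 2
        push_cast
        ring
      rw [h6]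
      exact h0 _ (by linarith [hη.1]) (by linarith)
  exact (Set.infinite_of_injOn_mapsTo h2 h3 h1) E.finite_toSet

theorem arc_nonzero (V : ℂ → ℝ) (b : ℂ → ℕ) (c : ℂ → ℂ)
    (hloc : ∀ s, V s = 0 → 1 ≤ b s ∧ c s ≠ 0 ∧ LocExp V s (b s) (c s)) (E : Finset ℂ)
    (hE : ∀ s, V s = 0 → (2 ≤ b s ∨ (c s * (Complex.I * s)).re = 0) → s ∈ E)
    (s : ℂ) (hs : s ≠ 0) (ε : ℝ) (hε : 0 < ε) :
    (∃ η : ℝ, 0 < η ∧ η < ε ∧ V (s * Complex.exp (η * Complex.I)) ≠ 0) ∧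
    (∃ η : ℝ, 0 < η ∧ η < ε ∧ V (s * Complex.exp (-η * Complex.I)) ≠ 0) := by
  have hm : 0 < min ε 1 := lt_min hε one_pos
  constructor
  · by_contra hcon
    push Not at hcon
    exact arc_aux V b c hloc E hE s hs 0 (min ε 1) hm (by norm_num) (min_le_right _ _)
      fun η h1 h2 => hcon η h1 (lt_of_lt_of_le h2 (min_le_left _ _))
  · by_contra hcon
    push Not at hcon
    refine arc_aux V b c hloc E hE s hs (-(min ε 1)) 0 (by linarith)
      (by linarith [min_le_right ε 1]) (by norm_num) fun η h1 h2 => ?_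
    have h3 := hcon (-η) (by linarith) (by linarith [min_le_left ε 1])
    have h4 : (-((-η : ℝ) : ℂ)) * Complex.I = (η : ℂ) * Complex.I := by push_cast; ring
    rwa [h4] at h3

theorem nontangent (V : ℂ → ℝ) (s c : ℂ) (h : LocExp V s 1 c) (hs : s ≠ 0)
    (hne : (c * (Complex.I * s)).re ≠ 0) (ε : ℝ) (hε : 0 < ε) :
    ∃ η : ℝ, 0 < η ∧ η < ε ∧
      V (s * Complex.exp (η * Complex.I)) * V (s * Complex.exp (-η * Complex.I)) < 0 := by
  obtain ⟨K, hK, h1⟩ := arc_exp h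
  obtain ⟨τ, t1, t2, t3, t4⟩ := small_param s _ K ε hne hK hε
  refine ⟨τ, t1, t2, ?_⟩
  have h2 := h1 τ (by rwa [abs_of_pos t1])
  have h3 := h1 (-τ) (by rwa [abs_neg, abs_of_pos t1])
  have h4 : (((-τ : ℝ) : ℂ)) * Complex.I = (-(τ : ℂ)) * Complex.I := by push_cast; ring
  rw [h4, neg_sq] at h3
  rw [abs_le] at h2 h3
  rcases lt_or_gt_of_ne hne with hR | hR
  · rw [abs_of_neg hR] at t4
    have a1 : V (s * Complex.exp (τ * Complex.I)) < 0 := by nlinarith [h2.2]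
    have a2 : 0 < V (s * Complex.exp (-τ * Complex.I)) := by nlinarith [h3.1]
    exact mul_neg_of_neg_of_pos a1 a2
  · rw [abs_of_pos hR] at t4
    have a1 : 0 < V (s * Complex.exp (τ * Complex.I)) := by nlinarith [h2.1]
    have a2 : V (s * Complex.exp (-τ * Complex.I)) < 0 := by nlinarith [h3.2]
    exact mul_neg_of_pos_of_neg a1 a2

end Pool.Agent.SHB
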