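import Pool.Agent.SHB.TLocB
import Pool.Agent.SHB.TArc

/-!
# Project SHB (MP_f77893_an), module TCnt: number of components with innermost or outermost point `s`

All components of `Out V s ∪ Inn V s` are among the `2 b` components near `s`, and those which contain a point of
the circle `‖w‖ = ‖s‖` near `s` are excluded; for `b ≥ 2` the components of the points on both sides of `s` are
different.
-/

set_option autoImplicit false

namespace Pool.Agent.SHB

private theorem tcnt_dist (s : ℂ) (τ : ℝ) (h : |τ| ≤ 1) :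
    ‖s * Complex.exp (τ * Complex.I) - s‖ ≤ 2 * ‖s‖ * |τ| := by
  have h1 : ‖((τ : ℂ) * Complex.I)‖ = |τ| := by
    rw [norm_mul, Complex.norm_I, mul_one, Complex.norm_real, Real.norm_eq_abs]
  have h2 := Complex.norm_exp_sub_one_le (x := (τ : ℂ) * Complex.I) (by rw [h1]; exact h)
  rw [h1] at h2
  have h3 : s * Complex.exp (τ * Complex.I) - s = s * (Complex.exp (τ * Complex.I) - 1) := by ring
  rw [h3, norm_mul]
  nlinarith [norm_nonneg s]

private theorem tcnt_norm (s : ℂ) (τ : ℝ) : ‖s * Complex.exp (τ * Complex.I)‖ = ‖s‖ := by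
  rw [norm_mul, Complex.norm_exp_ofReal_mul_I, mul_one]

private theorem tcnt_re (s e : ℂ) (he : ‖e‖ = 1) (τ : ℝ) (h : |τ| ≤ 1)
    (hz : 1 / 2 * ‖s * Complex.exp (τ * Complex.I) - s‖ ≤
      ((s * Complex.exp (τ * Complex.I) - s) * (starRingEnd ℂ) e).re) :
    ‖s‖ * (1 / 2 * |τ| - 3 / 2 * τ ^ 2) ≤ τ * (Complex.I * s * (starRingEnd ℂ) e).re := by
  have h1 : ‖((τ : ℂ) * Complex.I)‖ = |τ| := by
    rw [norm_mul, Complex.norm_I, mul_one, Complex.norm_real, Real.norm_eq_abs]
  have h2 := Complex.norm_exp_sub_one_sub_id_le (x := (τ : ℂ) * Complex.I) (by rw [h1]; exact h)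
  rw [h1, sq_abs] at h2
  set R : ℂ := Complex.exp (τ * Complex.I) - 1 - τ * Complex.I with hR
  have h3 : s * Complex.exp (τ * Complex.I) - s = s * (τ * Complex.I) + s * R := by
    rw [hR]
    ring
  have h4 : ‖s * R‖ ≤ ‖s‖ * τ ^ 2 := by
    rw [norm_mul]
    exact mul_le_mul_of_nonneg_left h2 (norm_nonneg _)
  have h5 : ‖s * ((τ : ℂ) * Complex.I)‖ = ‖s‖ * |τ| := by rw [norm_mul, h1]
  have h6 : ‖s‖ * |τ| - ‖s‖ * τ ^ 2 ≤ ‖s * Complex.exp (τ * Complex.I) - s‖ := by
    rw [h3]
    have h7 := norm_sub_norm_le (s * ((τ : ℂ) * Complex.I)) (-(s * R))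
    rw [norm_neg, sub_neg_eq_add, h5] at h7
    linarith
  have h8 : ((s * Complex.exp (τ * Complex.I) - s) * (starRingEnd ℂ) e).re =
      τ * (Complex.I * s * (starRingEnd ℂ) e).re + (s * R * (starRingEnd ℂ) e).re := by
    rw [h3]
    have h9 : (s * (τ * Complex.I) + s * R) * (starRingEnd ℂ) e =
        (τ : ℂ) * (Complex.I * s * (starRingEnd ℂ) e) + s * R * (starRingEnd ℂ) e := by ring
    rw [h9, Complex.add_re, Complex.re_ofReal_mul]
  have h10 : (s * R * (starRingEnd ℂ) e).re ≤ ‖s‖ * τ ^ 2 := by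
    refine (Complex.re_le_norm _).trans ?_
    rw [norm_mul, Complex.norm_conj, he, mul_one]
    exact h4
  rw [h8] at hz
  nlinarith

private theorem tcnt_cos (b : ℕ) (hb : 2 ≤ b) : 1 / 2 ≤ Real.cos (2 * Real.pi / (3 * b)) := by
  rw [← Real.cos_pi_div_three]
  have hb' : (2 : ℝ) ≤ b := by exact_mod_cast hb
  have hp := Real.pi_pos
  apply Real.cos_le_cos_of_nonneg_of_le_pi
  · positivity
  · linarith
  · rw [div_le_div_iff₀ (by positivity) (by norm_num)]
    nlinarith

private theorem tcnt_sign (V : ℂ → ℝ) (hV : Continuous V) (x y : {w : ℂ // V w ≠ 0})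
    (h : V x * V y < 0) :
    (ConnectedComponents.mk x : Cc V) ≠ ConnectedComponents.mk y := by
  intro hxy
  have hx : x ∈ connectedComponent y := ConnectedComponents.coe_eq_coe'.mp hxy
  have key : ∀ (u v : {w : ℂ // V w ≠ 0}), u ∈ connectedComponent v → 0 < V v → 0 < V u := by
    intro u v huv hv
    have hcl : IsClopen {w : {w : ℂ // V w ≠ 0} | 0 < V w} := by
      constructor
      · have h1 : {w : {w : ℂ // V w ≠ 0} | 0 < V w} = {w : {w : ℂ // V w ≠ 0} | 0 ≤ V w} := by
          ext w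
          constructor
          · intro h
            exact le_of_lt (show 0 < V w from h)
          · intro h
            exact lt_of_le_of_ne (show 0 ≤ V w from h) (Ne.symm w.2)
        rw [h1]
        exact isClosed_le continuous_const (hV.comp continuous_subtype_val)
      · exact isOpen_lt continuous_const (hV.comp continuous_subtype_val)
    exact hcl.connectedComponent_subset hv huv
  rcases lt_or_gt_of_ne y.2 with hy | hy
  · have hx0 : 0 < V x := by
      rcases lt_or_gt_of_ne x.2 with h1 | h1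
      · nlinarith [mul_pos_of_neg_of_neg h1 hy]
      · exact h1
    have hyx : y ∈ connectedComponent x := ConnectedComponents.coe_eq_coe'.mp hxy.symm
    have := key y x hyx hx0
    linarith
  · have := key x y hx hy
    nlinarith [mul_pos this hy]

theorem local_count (V : ℂ → ℝ) (hV : Continuous V) (b : ℂ → ℕ) (c : ℂ → ℂ)
    (hloc : ∀ s, V s = 0 → 1 ≤ b s ∧ c s ≠ 0 ∧ LocExp V s (b s) (c s)) (E : Finset ℂ)
    (hE : ∀ s, V s = 0 → (2 ≤ b s ∨ (c s * (Complex.I * s)).re = 0) → s ∈ E)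
    (s : ℂ) (hs : s ≠ 0) (h0 : V s = 0) :
    (Out V s ∪ Inn V s).Finite ∧
    (b s = 1 → (c s * (Complex.I * s)).re ≠ 0 → Out V s ∪ Inn V s = ∅) ∧
    (b s = 1 → (Out V s ∪ Inn V s).ncard ≤ 1) ∧
    (2 ≤ b s → (Out V s ∪ Inn V s).ncard ≤ 2 * b s - 2) := by
  classical
  obtain ⟨hb, hc, hexp⟩ := hloc s h0
  obtain ⟨ρ, C, e, hρ, he, hC⟩ := loc_comps V hV s (b s) (c s) hb hc hexp
  have hs0 : 0 < ‖s‖ := norm_pos_iff.mpr hs
  have hmem : ∀ D ∈ Out V s ∪ Inn V s, ∃ j, C j = D := by
    intro D hD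
    have hcl : s ∈ closure (cset V D) := by
      rcases hD with h | h
      · exact h.1
      · exact h.1
    obtain ⟨y, ⟨hy, hyD⟩, hdist⟩ := Metric.mem_closure_iff.mp hcl ρ hρ
    have hys : y ≠ s := by
      intro h
      rw [h] at hy
      exact hy h0
    obtain ⟨j, hj, _⟩ := hC ⟨y, hy⟩ hys (by
      rw [dist_comm, dist_eq_norm] at hdist
      exact hdist)
    exact ⟨j, by rw [← hj, hyD]⟩
  -- points of the circle
  have hpt : ∀ τ : ℝ, |τ| < 1 / 3 → |τ| < ρ / (2 * ‖s‖) →
      ∀ hq : V (s * Complex.exp (τ * Complex.I)) ≠ 0,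
      ∃ j, (ConnectedComponents.mk (⟨s * Complex.exp (τ * Complex.I), hq⟩ :
          {w : ℂ // V w ≠ 0}) : Cc V) = C j ∧
        Real.cos (2 * Real.pi / (3 * (b s : ℕ))) * ‖s * Complex.exp (τ * Complex.I) - s‖ ≤
          ((s * Complex.exp (τ * Complex.I) - s) * (starRingEnd ℂ) (e j)).re ∧
        C j ∉ Out V s ∪ Inn V s := by
    intro τ h1 h2 hq
    have hqs : s * Complex.exp (τ * Complex.I) ≠ s := by
      intro h
      rw [h] at hq
      exact hq h0
    have hd : ‖s * Complex.exp (τ * Complex.I) - s‖ < ρ := by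
      refine lt_of_le_of_lt (tcnt_dist s τ (by linarith)) ?_
      rw [lt_div_iff₀ (by positivity)] at h2
      linarith
    obtain ⟨j, hj, hj2⟩ := hC ⟨_, hq⟩ hqs hd
    refine ⟨j, hj, hj2, ?_⟩
    intro hD
    have hin : s * Complex.exp (τ * Complex.I) ∈ cset V (C j) := ⟨hq, hj⟩
    have hn := tcnt_norm s τ
    rcases hD with h | h
    · have := h.2 _ hin
      linarith
    · have := h.2 _ hin
      linarith
  have hfin : (Out V s ∪ Inn V s).Finite := by
    refine (Set.finite_range C).subset ?_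
    intro D hD
    exact hmem D hD
  set ε : ℝ := min (1 / 3) (ρ / (2 * ‖s‖)) with hε
  have hε0 : 0 < ε := by
    rw [hε]
    exact lt_min (by norm_num) (by positivity)
  have hneg : ∀ η : ℝ, (-(η : ℂ)) * Complex.I = ((-η : ℝ) : ℂ) * Complex.I := by
    intro η
    push_cast
    ring
  refine ⟨hfin, ?_, ?_, ?_⟩
  · intro hb1 hne
    have hexp1 : LocExp V s 1 (c s) := by
      rw [hb1] at hexp
      exact hexp
    obtain ⟨η, hη0, hη1, hη2⟩ := nontangent V s (c s) hexp1 hs hne ε hε0
    have hm : |η| < ε := by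
      rw [abs_of_pos hη0]
      exact hη1
    have hm' : |(-η)| < ε := by
      rw [abs_neg]
      exact hm
    have hq1 : V (s * Complex.exp (η * Complex.I)) ≠ 0 := by
      intro h
      rw [h, zero_mul] at hη2
      exact lt_irrefl _ hη2
    have hq2 : V (s * Complex.exp ((-η : ℝ) * Complex.I)) ≠ 0 := by
      intro h
      rw [hneg, h, mul_zero] at hη2
      exact lt_irrefl _ hη2
    obtain ⟨j1, hj1, _, hn1⟩ := hpt η (lt_of_lt_of_le hm (min_le_left _ _))
      (lt_of_lt_of_le hm (min_le_right _ _)) hq1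
    obtain ⟨j2, hj2, _, hn2⟩ := hpt (-η) (lt_of_lt_of_le hm' (min_le_left _ _))
      (lt_of_lt_of_le hm' (min_le_right _ _)) hq2
    have hdiff : j1 ≠ j2 := by
      intro h
      rw [h, ← hj2] at hj1
      refine tcnt_sign V hV _ _ ?_ hj1
      rw [hneg] at hη2
      exact hη2
    rw [Set.eq_empty_iff_forall_notMem]
    intro D hD
    obtain ⟨j, hj⟩ := hmem D hD
    have hjj1 : j ≠ j1 := by
      intro h
      rw [h] at hj
      rw [← hj] at hD
      exact hn1 hD
    have hjj2 : j ≠ j2 := by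
      intro h
      rw [h] at hj
      rw [← hj] at hD
      exact hn2 hD
    have hcard : ({j, j1, j2} : Finset (Fin (2 * b s))).card = 3 := by
      rw [Finset.card_insert_of_notMem (by simp [hjj1, hjj2]),
        Finset.card_insert_of_notMem (by simp [hdiff]), Finset.card_singleton]
    have hle := Finset.card_le_univ ({j, j1, j2} : Finset (Fin (2 * b s)))
    rw [hcard, Fintype.card_fin, hb1] at hle
    omega
  · intro hb1
    obtain ⟨⟨η, hη0, hη1, hη2⟩, _⟩ := arc_nonzero V b c hloc E hE s hs ε hε0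
    have hm : |η| < ε := by
      rw [abs_of_pos hη0]
      exact hη1
    obtain ⟨j1, hj1, _, hn1⟩ := hpt η (lt_of_lt_of_le hm (min_le_left _ _))
      (lt_of_lt_of_le hm (min_le_right _ _)) hη2
    have hsub : Out V s ∪ Inn V s ⊆ C '' ((Finset.univ.erase j1 : Finset (Fin (2 * b s))) : Set _) := by
      intro D hD
      obtain ⟨j, hj⟩ := hmem D hD
      refine ⟨j, ?_, hj⟩
      rw [Finset.mem_coe, Finset.mem_erase]
      refine ⟨?_, Finset.mem_univ _⟩
      intro h
      rw [h] at hj
      rw [← hj] at hD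
      exact hn1 hD
    have h1 := Set.ncard_le_ncard hsub (Set.toFinite _)
    have h2 := Set.ncard_image_le (f := C)
      (s := ((Finset.univ.erase j1 : Finset (Fin (2 * b s))) : Set (Fin (2 * b s)))) (Set.toFinite _)
    rw [Set.ncard_coe_finset, Finset.card_erase_of_mem (Finset.mem_univ _), Finset.card_univ,
      Fintype.card_fin] at h2
    omega
  · intro hb2
    obtain ⟨⟨η, hη0, hη1, hη2⟩, ⟨ζ, hζ0, hζ1, hζ2⟩⟩ := arc_nonzero V b c hloc E hE s hs ε hε0
    rw [hneg] at hζ2
    have hm : |η| < ε := by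
      rw [abs_of_pos hη0]
      exact hη1
    have hm' : |(-ζ)| < ε := by
      rw [abs_neg, abs_of_pos hζ0]
      exact hζ1
    have hη3 : |η| < 1 / 3 := lt_of_lt_of_le hm (min_le_left _ _)
    have hζ3 : |(-ζ)| < 1 / 3 := lt_of_lt_of_le hm' (min_le_left _ _)
    obtain ⟨j1, hj1, hr1, hn1⟩ := hpt η hη3 (lt_of_lt_of_le hm (min_le_right _ _)) hη2
    obtain ⟨j2, hj2, hr2, hn2⟩ := hpt (-ζ) hζ3 (lt_of_lt_of_le hm' (min_le_right _ _)) hζ2
    have hcos := tcnt_cos (b s) hb2
    have hdiff : j1 ≠ j2 := by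
      intro h
      rw [← h] at hr2
      have e1 := tcnt_re s (e j1) (he j1) η (by linarith)
        (le_trans (mul_le_mul_of_nonneg_right hcos (norm_nonneg _)) hr1)
      have e2 := tcnt_re s (e j1) (he j1) (-ζ) (by linarith)
        (le_trans (mul_le_mul_of_nonneg_right hcos (norm_nonneg _)) hr2)
      rw [abs_of_pos hη0] at e1 hη3
      rw [abs_neg, abs_of_pos hζ0] at e2 hζ3
      set r := (Complex.I * s * (starRingEnd ℂ) (e j1)).re with hr
      have e3 : ‖s‖ * (1 / 2 - 3 / 2 * η) ≤ r := by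
        have e4 : η * (‖s‖ * (1 / 2 - 3 / 2 * η)) ≤ η * r := by
          refine le_trans (le_of_eq ?_) e1
          ring
        exact le_of_mul_le_mul_left e4 hη0
      have e5 : ‖s‖ * (1 / 2 - 3 / 2 * ζ) ≤ -r := by
        have e6 : ζ * (‖s‖ * (1 / 2 - 3 / 2 * ζ)) ≤ ζ * (-r) := by
          refine le_trans (le_of_eq ?_) (e2.trans (le_of_eq ?_))
          · ring
          · ring
        exact le_of_mul_le_mul_left e6 hζ0
      nlinarith
    have hsub : Out V s ∪ Inn V s ⊆
        C '' (((Finset.univ.erase j1).erase j2 : Finset (Fin (2 * b s))) : Set _) := by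
      intro D hD
      obtain ⟨j, hj⟩ := hmem D hD
      refine ⟨j, ?_, hj⟩
      rw [Finset.mem_coe, Finset.mem_erase, Finset.mem_erase]
      refine ⟨?_, ?_, Finset.mem_univ _⟩
      · intro h
        rw [h] at hj
        rw [← hj] at hD
        exact hn2 hD
      · intro h
        rw [h] at hj
        rw [← hj] at hD
        exact hn1 hD
    have h1 := Set.ncard_le_ncard hsub (Set.toFinite _)
    have h2 := Set.ncard_image_le (f := C)
      (s := (((Finset.univ.erase j1).erase j2 : Finset (Fin (2 * b s))) : Set (Fin (2 * b s))))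
      (Set.toFinite _)
    rw [Set.ncard_coe_finset, Finset.card_erase_of_mem
      (Finset.mem_erase.mpr ⟨hdiff.symm, Finset.mem_univ _⟩),
      Finset.card_erase_of_mem (Finset.mem_univ _), Finset.card_univ, Fintype.card_fin] at h2
    omega

theorem out_disjoint_inn (V : ℂ → ℝ) (s : ℂ) : Disjoint (Out V s) (Inn V s) := by
  rw [Set.disjoint_left]
  intro D h1 h2
  obtain ⟨x, hx⟩ := ConnectedComponents.surjective_coe D
  have hin : (x : ℂ) ∈ cset V D := ⟨x.2, hx⟩
  have e1 := h1.2 _ hin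
  have e2 := h2.2 _ hin
  exact lt_irrefl _ (e1.trans e2)

end Pool.Agent.SHB
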