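import Pool.Agent.SHB.TDefs

/-!
# Project SHB (MP_f77893_an), module TLocA: signs near a zero

PLAN. With `z = c e^{ibt}`, `|z| = ‖c‖`. Take `ρ = min 1 (‖c‖ / (4 (K + 1)))` (any smaller number is fine).
For `0 < r < ρ`: `K r^(b+1) < r^b ‖c‖/4`.
(i) if `|Re z| ≥ ‖c‖/2` then `V` has the sign of `Re z` and is nonzero: `V * Re z > 0`.
(ii) if `|Re z| ≤ ‖c‖/2` then `|Im z| ≥ ‖c‖ √3/2 > ‖c‖/2` and `b ≥ 1`, so `D r t` has the sign of `-Im z`: `D r t * Im z < 0`.
-/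

set_option autoImplicit false

namespace Pool.Agent.SHB

private theorem tla_norm (c : ℂ) (b : ℕ) (t : ℝ) : ‖c * Complex.exp (b * t * Complex.I)‖ = ‖c‖ := by
  have h1 : ((b : ℂ) * (t : ℂ) * Complex.I) = (((b : ℝ) * t : ℝ) : ℂ) * Complex.I := by
    push_cast; ring
  rw [norm_mul, h1, Complex.norm_exp_ofReal_mul_I, mul_one]

private theorem tla_pos (p c x v e : ℝ) (hp : 0 < p) (hc : 0 < c) (hx : c / 2 ≤ |x|)
    (hv : v = p * x + e) (he : |e| < p * c / 4) : 0 < v * x := by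
  have h1 : v * x = p * |x| ^ 2 + e * x := by rw [hv, sq_abs]; ring
  have h2 : -(|e| * |x|) ≤ e * x := by
    have := neg_abs_le (e * x)
    rwa [abs_mul] at this
  have h3 : 0 < |x| := by linarith
  have h4 : p * (c / 2) ≤ p * |x| := mul_le_mul_of_nonneg_left hx hp.le
  have h5 : 0 < p * |x| - |e| := by nlinarith [mul_pos hp hc]
  have h6 := mul_pos h5 h3
  nlinarith

theorem loc_signs (V : ℂ → ℝ) (s : ℂ) (b : ℕ) (c : ℂ) (hb : 1 ≤ b) (hc : c ≠ 0)
    (h : LocExp V s b c) :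
    ∃ (D : ℝ → ℝ → ℝ) (ρ : ℝ), 0 < ρ ∧ ρ ≤ 1 ∧
      (∀ r t : ℝ, HasDerivAt (fun t' : ℝ => V (s + r * Complex.exp (t' * Complex.I))) (D r t) t) ∧
      (∀ r t : ℝ, 0 < r → r < ρ → ‖c‖ / 2 ≤ |(c * Complex.exp (b * t * Complex.I)).re| →
        0 < V (s + r * Complex.exp (t * Complex.I)) * (c * Complex.exp (b * t * Complex.I)).re) ∧
      (∀ r t : ℝ, 0 < r → r < ρ → |(c * Complex.exp (b * t * Complex.I)).re| ≤ ‖c‖ / 2 →
        D r t * (c * Complex.exp (b * t * Complex.I)).im < 0) := by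
  obtain ⟨D, K, hK, hD, h1, h2⟩ := h
  have hcn : 0 < ‖c‖ := norm_pos_iff.mpr hc
  have hK1 : 0 < 4 * (K + 1) := by linarith
  have key : ∀ r : ℝ, 0 < r → r < min 1 (‖c‖ / (4 * (K + 1))) →
      r ≤ 1 ∧ 0 < r ^ b ∧ K * r ^ (b + 1) < r ^ b * ‖c‖ / 4 := by
    intro r hr hrr
    have ha := lt_of_lt_of_le hrr (min_le_left _ _)
    have hb' := lt_of_lt_of_le hrr (min_le_right _ _)
    rw [lt_div_iff₀ hK1] at hb'
    have hp : 0 < r ^ b := pow_pos hr b
    refine ⟨ha.le, hp, ?_⟩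
    have h3 : K * r < ‖c‖ / 4 := by nlinarith
    have h4 := mul_lt_mul_of_pos_left h3 hp
    calc K * r ^ (b + 1) = r ^ b * (K * r) := by ring
      _ < r ^ b * (‖c‖ / 4) := h4
      _ = r ^ b * ‖c‖ / 4 := by ring
  refine ⟨D, min 1 (‖c‖ / (4 * (K + 1))), lt_min one_pos (div_pos hcn hK1), min_le_left _ _, hD,
    ?_, ?_⟩
  · intro r t hr hrr hre
    obtain ⟨hr1, hp, hk⟩ := key r hr hrr
    have he := h1 r t hr.le hr1
    exact tla_pos (r ^ b) ‖c‖ _ _
      (V (s + r * Complex.exp (t * Complex.I)) - r ^ b * (c * Complex.exp (b * t * Complex.I)).re)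
      hp hcn hre (by ring) (lt_of_le_of_lt he hk)
  · intro r t hr hrr hre
    obtain ⟨hr1, hp, hk⟩ := key r hr hrr
    have he := h2 r t hr.le hr1
    have hn := tla_norm c b t
    have him : ‖c‖ / 2 ≤ |(c * Complex.exp (b * t * Complex.I)).im| := by
      by_contra hlt
      push Not at hlt
      have hs : ‖c‖ ^ 2 = (c * Complex.exp (b * t * Complex.I)).re ^ 2 +
          (c * Complex.exp (b * t * Complex.I)).im ^ 2 := by
        rw [← hn, Complex.sq_norm, Complex.normSq_apply]; ring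
      have ha : (c * Complex.exp (b * t * Complex.I)).re ^ 2 ≤ (‖c‖ / 2) ^ 2 := by
        rw [← sq_abs]; exact pow_le_pow_left₀ (abs_nonneg _) hre 2
      have hb2 : (c * Complex.exp (b * t * Complex.I)).im ^ 2 ≤ (‖c‖ / 2) ^ 2 := by
        rw [← sq_abs]; exact pow_le_pow_left₀ (abs_nonneg _) hlt.le 2
      nlinarith [pow_pos hcn 2]
    have hb1 : (1 : ℝ) ≤ b := by exact_mod_cast hb
    have hbp : 0 < (b : ℝ) * r ^ b := by positivity
    have hk2 : |-(D r t + b * r ^ b * (c * Complex.exp (b * t * Complex.I)).im)| <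
        (b * r ^ b) * ‖c‖ / 4 := by
      rw [abs_neg]
      refine lt_of_le_of_lt he (lt_of_lt_of_le hk ?_)
      have : r ^ b * ‖c‖ ≤ b * (r ^ b * ‖c‖) := le_mul_of_one_le_left (by positivity) hb1
      linarith
    have := tla_pos (b * r ^ b) ‖c‖ _ (-D r t) _ hbp hcn him
      (by ring : -D r t = b * r ^ b * (c * Complex.exp (b * t * Complex.I)).im +
        -(D r t + b * r ^ b * (c * Complex.exp (b * t * Complex.I)).im)) hk2
    linarith

end Pool.Agent.SHB
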