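import Pool.Agent.SHB.TLocA

/-!
# Project SHB (MP_f77893_an), module TLocB: the components near a zero of order `b`

PLAN. Let `ρ, D` be as in `loc_signs`, `α = arg c`, `t_k = (π k - α)/b` (`k : ℤ`), so that
`c e^{i b t_k} = (-1)^k ‖c‖`. For `k = j : Fin (2 b)` and `0 < r < ρ` the point `s + r e^{i t_j}` has `V ≠ 0`, and for fixed `j` all
these points are in one component (the segment; `IsPreconnected` image of `Set.Ioo 0 ρ`, which is connected): this
defines `C j` (e.g. as the component at `r = ρ/2`).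
Let `y = s + r e^{it}`, `0 < r < ρ`, `V y ≠ 0`; let `σ = sign (V y)`. Choose an integer `k` with `(-1)^k = σ` and
`|b t + α - π k| ≤ π` (round `(b t + α)/(2π)` resp. `(b t + α - π)/(2π)`). Put `δ = b t + α - π k`; then
`Re (c e^{ibt}) = σ ‖c‖ cos δ`, `Im (c e^{ibt}) = σ ‖c‖ sin δ`.
* `|δ| ≤ 2π/3`: otherwise `cos δ < -1/2` and (i) of `loc_signs` gives `σ V y < 0`, contradiction.
* On the arc from `t` to `t_k` (i.e. `δ` moves monotonically to `0`) we have `σ V > 0`: where `|δ'| ≤ π/3` by (i); where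
`π/3 ≤ |δ'| ≤ 2π/3` by (ii): the derivative of `σ V` in `t` has the sign of `- sin δ'`, so `σ V` increases when `|δ'|` decreases
(`antitoneOn`/`monotoneOn` from the derivative, `antitoneOn_of_deriv_nonpos` on the interval), and `σ V (y) > 0` at the start.
So `y` and `s + r e^{i t_k}` are in the same component of `{V ≠ 0}` (image of an interval), i.e. `mk y = C (k mod 2b)`;
`t_k - t_{k mod 2b}` is a multiple of `2π`.
* `|t - t_k| = |δ|/b ≤ 2π/(3b)`, so `((y - s) * conj (e^{i t_j})).re = r cos (t - t_j) ≥ r cos (2π/(3b))`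
(`cos` even and decreasing on `[0, π]`).
Every `y` with `0 < ‖y - s‖` is `s + r e^{it}` with `r = ‖y - s‖`, `t = arg (y - s)` (`Complex.norm_mul_exp_arg_mul_I`).
-/

set_option autoImplicit false

namespace Pool.Agent.SHB

private lemma reim (c : ℂ) (b : ℕ) (t : ℝ) :
    (c * Complex.exp (b * t * Complex.I)).re = ‖c‖ * Real.cos (b * t + Complex.arg c) ∧
    (c * Complex.exp (b * t * Complex.I)).im = ‖c‖ * Real.sin (b * t + Complex.arg c) := by
  have h : c * Complex.exp (b * t * Complex.I) =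
      (‖c‖ : ℂ) * Complex.exp (((b * t + Complex.arg c : ℝ) : ℂ) * Complex.I) := by
    conv_lhs => rw [← Complex.norm_mul_exp_arg_mul_I c]
    rw [mul_assoc, ← Complex.exp_add]
    congr 2
    push_cast
    ring
  rw [h]
  constructor
  · rw [Complex.re_ofReal_mul, Complex.exp_ofReal_mul_I_re]
  · rw [Complex.im_ofReal_mul, Complex.exp_ofReal_mul_I_im]

private lemma mk_eq_of_preconn (V : ℂ → ℝ) (g : ℝ → ℂ) (hg : Continuous g) (S : Set ℝ)
    (hS : IsPreconnected S) (hne : ∀ u ∈ S, V (g u) ≠ 0) (x y : ℝ) (hx : x ∈ S) (hy : y ∈ S) :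
    (ConnectedComponents.mk (⟨g x, hne x hx⟩ : {w : ℂ // V w ≠ 0}) : Cc V) =
      ConnectedComponents.mk ⟨g y, hne y hy⟩ := by
  have hps : PreconnectedSpace S := Subtype.preconnectedSpace hS
  let f : S → {w : ℂ // V w ≠ 0} := fun u => ⟨g u, hne u u.2⟩
  have hf : Continuous f := (hg.comp continuous_subtype_val).subtype_mk _
  have h1 : IsPreconnected (Set.range f) := isPreconnected_range hf
  have h2 := h1.subset_connectedComponent (x := f ⟨y, hy⟩) ⟨_, rfl⟩
  exact ConnectedComponents.coe_eq_coe'.mpr (h2 ⟨⟨x, hx⟩, rfl⟩)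

private lemma arc_pos (V : ℂ → ℝ) (s : ℂ) (b : ℕ) (c : ℂ) (hc : c ≠ 0)
    (D : ℝ → ℝ → ℝ) (r : ℝ)
    (hD : ∀ t : ℝ, HasDerivAt (fun t' : ℝ => V (s + r * Complex.exp (t' * Complex.I))) (D r t) t)
    (h1 : ∀ t : ℝ, ‖c‖ / 2 ≤ |(c * Complex.exp (b * t * Complex.I)).re| →
        0 < V (s + r * Complex.exp (t * Complex.I)) * (c * Complex.exp (b * t * Complex.I)).re)
    (h2 : ∀ t : ℝ, |(c * Complex.exp (b * t * Complex.I)).re| ≤ ‖c‖ / 2 →
        D r t * (c * Complex.exp (b * t * Complex.I)).im < 0)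
    (σ ε : ℝ) (hσ : σ = 1 ∨ σ = -1) (hε : ε = 1 ∨ ε = -1) (tk u0 : ℝ)
    (hbu : b * u0 ≤ 2 * Real.pi / 3)
    (hcos : ∀ u : ℝ, Real.cos (b * (tk + ε * u) + Complex.arg c) = σ * Real.cos (b * u))
    (hsin : ∀ u : ℝ, Real.sin (b * (tk + ε * u) + Complex.arg c) = σ * ε * Real.sin (b * u))
    (hpos : 0 < σ * V (s + r * Complex.exp ((tk + ε * u0 : ℝ) * Complex.I))) :
    ∀ u ∈ Set.Icc 0 u0, 0 < σ * V (s + r * Complex.exp ((tk + ε * u : ℝ) * Complex.I)) := by
  have hn : 0 < ‖c‖ := norm_pos_iff.mpr hc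
  have hpi := Real.pi_pos
  have hb0 : (0 : ℝ) ≤ b := Nat.cast_nonneg b
  have hre : ∀ u : ℝ, (c * Complex.exp (b * (tk + ε * u : ℝ) * Complex.I)).re =
      ‖c‖ * (σ * Real.cos (b * u)) := by
    intro u
    rw [(reim c b _).1, hcos]
  have him : ∀ u : ℝ, (c * Complex.exp (b * (tk + ε * u : ℝ) * Complex.I)).im =
      ‖c‖ * (σ * ε * Real.sin (b * u)) := by
    intro u
    rw [(reim c b _).2, hsin]
  have hσa : |σ| = 1 := by rcases hσ with h | h <;> simp [h]
  intro u hu
  have hbu0 : (0 : ℝ) ≤ b * u := mul_nonneg hb0 hu.1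
  have hbule : b * u ≤ b * u0 := mul_le_mul_of_nonneg_left hu.2 hb0
  rcases le_total (b * u) (Real.pi / 3) with hsmall | hbig
  · have hc1 : 1 / 2 ≤ Real.cos (b * u) := by
      rw [← Real.cos_pi_div_three]
      exact Real.cos_le_cos_of_nonneg_of_le_pi hbu0 (by linarith) hsmall
    have h3 := h1 (tk + ε * u) (by
      rw [hre, abs_mul, abs_mul, hσa, one_mul, abs_of_pos hn, abs_of_pos (by linarith)]
      nlinarith)
    rw [hre] at h3
    have h4 : 0 < (σ * V (s + r * Complex.exp ((tk + ε * u : ℝ) * Complex.I))) *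
        (‖c‖ * Real.cos (b * u)) := by
      calc (0 : ℝ) < _ := h3
        _ = _ := by ring
    exact (pos_iff_pos_of_mul_pos h4).mpr (mul_pos hn (by linarith))
  · set W : ℝ → ℝ := fun v => σ * V (s + r * Complex.exp ((tk + ε * v : ℝ) * Complex.I)) with hW
    have hW' : ∀ v : ℝ, HasDerivAt W (σ * (D r (tk + ε * v) * ε)) v := by
      intro v
      have e1 : HasDerivAt (fun v : ℝ => tk + ε * v) ε v := by
        simpa using ((hasDerivAt_id v).const_mul ε).const_add tk
      have e2 := (hD (tk + ε * v)).comp v e1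
      exact e2.const_mul σ
    have hanti : AntitoneOn W (Set.Icc u u0) := by
      apply antitoneOn_of_deriv_nonpos (convex_Icc u u0)
      · exact fun v _ => (hW' v).continuousAt.continuousWithinAt
      · exact fun v _ => (hW' v).differentiableAt.differentiableWithinAt
      · intro v hv
        rw [interior_Icc] at hv
        rw [(hW' v).deriv]
        have hv1 : Real.pi / 3 ≤ b * v :=
          hbig.trans (mul_le_mul_of_nonneg_left hv.1.le hb0)
        have hv2 : b * v ≤ 2 * Real.pi / 3 :=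
          (mul_le_mul_of_nonneg_left hv.2.le hb0).trans hbu
        have c1 : Real.cos (b * v) ≤ 1 / 2 := by
          rw [← Real.cos_pi_div_three]
          exact Real.cos_le_cos_of_nonneg_of_le_pi (by linarith) (by linarith) hv1
        have c2 : -(1 / 2) ≤ Real.cos (b * v) := by
          have : Real.cos (2 * Real.pi / 3) = -(1 / 2) := by
            rw [show 2 * Real.pi / 3 = Real.pi - Real.pi / 3 by ring, Real.cos_pi_sub,
              Real.cos_pi_div_three]
          rw [← this]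
          exact Real.cos_le_cos_of_nonneg_of_le_pi (by linarith) (by linarith) hv2
        have hs : 0 < Real.sin (b * v) := Real.sin_pos_of_pos_of_lt_pi (by linarith) (by linarith)
        have h3 := h2 (tk + ε * v) (by
          rw [hre, abs_mul, abs_mul, hσa, one_mul, abs_of_pos hn]
          have : |Real.cos (b * v)| ≤ 1 / 2 := abs_le.mpr ⟨c2, c1⟩
          nlinarith)
        rw [him] at h3
        have h4 : (σ * (D r (tk + ε * v) * ε)) * (‖c‖ * Real.sin (b * v)) < 0 := by
          calc _ = D r (tk + ε * v) * (‖c‖ * (σ * ε * Real.sin (b * v))) := by ring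
            _ < 0 := h3
        by_contra hcon
        push Not at hcon
        have := mul_pos hcon (mul_pos hn hs)
        linarith
    have h5 := hanti (Set.left_mem_Icc.mpr hu.2) (Set.right_mem_Icc.mpr hu.2) hu.2
    exact lt_of_lt_of_le hpos h5

theorem loc_comps (V : ℂ → ℝ) (hV : Continuous V) (s : ℂ) (b : ℕ) (c : ℂ) (hb : 1 ≤ b)
    (hc : c ≠ 0) (h : LocExp V s b c) :
    ∃ (ρ : ℝ) (C : Fin (2 * b) → Cc V) (e : Fin (2 * b) → ℂ), 0 < ρ ∧ (∀ j, ‖e j‖ = 1) ∧
      ∀ (y : {w : ℂ // V w ≠ 0}), (y : ℂ) ≠ s → ‖(y : ℂ) - s‖ < ρ →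
        ∃ j, ConnectedComponents.mk y = C j ∧
          Real.cos (2 * Real.pi / (3 * b)) * ‖(y : ℂ) - s‖ ≤
            (((y : ℂ) - s) * (starRingEnd ℂ) (e j)).re := by
  obtain ⟨D, ρ, hρ, hρ1, hD, h1, h2⟩ := loc_signs V s b c hb hc h
  have hn : 0 < ‖c‖ := norm_pos_iff.mpr hc
  have hpi := Real.pi_pos
  have hbR : (0 : ℝ) < b := by exact_mod_cast hb
  set α := Complex.arg c with hα
  -- the rays
  let tt : ℤ → ℝ := fun k => (Real.pi * k - α) / b
  have htt : ∀ k : ℤ, b * tt k + α = Real.pi * k := by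
    intro k
    simp only [tt]
    field_simp
    ring
  have hcospik : ∀ (k : ℤ) (x : ℝ), Real.cos (Real.pi * k + x) = (-1) ^ k * Real.cos x := by
    intro k x
    rw [add_comm, mul_comm Real.pi]
    exact Real.cos_add_int_mul_pi x k
  have hsinpik : ∀ (k : ℤ) (x : ℝ), Real.sin (Real.pi * k + x) = (-1) ^ k * Real.sin x := by
    intro k x
    rw [add_comm, mul_comm Real.pi]
    exact Real.sin_add_int_mul_pi x k
  have hray : ∀ (k : ℤ) (r : ℝ), 0 < r → r < ρ →
      V (s + r * Complex.exp ((tt k : ℝ) * Complex.I)) ≠ 0 := by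
    intro k r hr hr'
    have h3 := h1 r (tt k) hr hr' (by
      rw [(reim c b _).1, ← hα, htt, show Real.pi * k = Real.pi * k + 0 by ring, hcospik,
        Real.cos_zero, mul_one, abs_mul, abs_of_pos hn]
      have : |((-1 : ℝ)) ^ k| = 1 := by rw [abs_zpow]; simp
      rw [this]
      linarith)
    intro h4
    rw [h4, zero_mul] at h3
    exact lt_irrefl _ h3
  have hρ2 : (0 : ℝ) < ρ / 2 := by linarith
  have hρ3 : ρ / 2 < ρ := by linarith
  let C : Fin (2 * b) → Cc V := fun j =>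
    ConnectedComponents.mk ⟨_, hray ((j : ℕ) : ℤ) (ρ / 2) hρ2 hρ3⟩
  let e : Fin (2 * b) → ℂ := fun j => Complex.exp ((tt ((j : ℕ) : ℤ) : ℝ) * Complex.I)
  refine ⟨ρ, C, e, hρ, fun j => Complex.norm_exp_ofReal_mul_I _, ?_⟩
  intro y hys hyρ
  set r := ‖(y : ℂ) - s‖ with hr
  have hr0 : 0 < r := norm_pos_iff.mpr (sub_ne_zero.mpr hys)
  set t := Complex.arg ((y : ℂ) - s) with ht
  have hy : (y : ℂ) - s = r * Complex.exp (t * Complex.I) :=
    (Complex.norm_mul_exp_arg_mul_I _).symm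
  have hy' : (y : ℂ) = s + r * Complex.exp (t * Complex.I) := by
    rw [← hy]; ring
  -- the sign and the integer k
  obtain ⟨σ, k, hσ, hσV, hσk, hk⟩ : ∃ (σ : ℝ) (k : ℤ), (σ = 1 ∨ σ = -1) ∧ 0 < σ * V y ∧
      ((-1 : ℝ)) ^ k = σ ∧ |b * t + α - Real.pi * k| ≤ Real.pi := by
    rcases lt_or_gt_of_ne y.2 with hneg | hpos
    · refine ⟨-1, 2 * round ((b * t + α - Real.pi) / (2 * Real.pi)) + 1, Or.inr rfl,
        by linarith, ?_, ?_⟩
      · rw [zpow_add₀ (by norm_num), zpow_mul]
        norm_num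
      · have h3 := abs_sub_round ((b * t + α - Real.pi) / (2 * Real.pi))
        have h4 : b * t + α - Real.pi *
            ((2 * round ((b * t + α - Real.pi) / (2 * Real.pi)) + 1 : ℤ) : ℝ) =
            (2 * Real.pi) * ((b * t + α - Real.pi) / (2 * Real.pi) -
              (round ((b * t + α - Real.pi) / (2 * Real.pi)) : ℝ)) := by
          push_cast
          field_simp
          ring
        rw [h4, abs_mul, abs_of_pos (by positivity)]
        nlinarith
    · refine ⟨1, 2 * round ((b * t + α) / (2 * Real.pi)), Or.inl rfl,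
        by linarith, ?_, ?_⟩
      · rw [zpow_mul]
        norm_num
      · have h3 := abs_sub_round ((b * t + α) / (2 * Real.pi))
        have h4 : b * t + α - Real.pi *
            ((2 * round ((b * t + α) / (2 * Real.pi)) : ℤ) : ℝ) =
            (2 * Real.pi) * ((b * t + α) / (2 * Real.pi) -
              (round ((b * t + α) / (2 * Real.pi)) : ℝ)) := by
          push_cast
          field_simp
        rw [h4, abs_mul, abs_of_pos (by positivity)]
        nlinarith
  set δ := b * t + α - Real.pi * k with hδ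
  have hσ2 : σ * σ = 1 := by rcases hσ with h | h <;> rw [h] <;> norm_num
  -- |δ| ≤ 2π/3
  have hδ3 : |δ| ≤ 2 * Real.pi / 3 := by
    by_contra hcon
    push Not at hcon
    have hcosδ : Real.cos δ < -(1 / 2) := by
      have h3 : Real.cos (2 * Real.pi / 3) = -(1 / 2) := by
        rw [show 2 * Real.pi / 3 = Real.pi - Real.pi / 3 by ring, Real.cos_pi_sub,
          Real.cos_pi_div_three]
      rw [← Real.cos_abs δ, ← h3]
      exact Real.cos_lt_cos_of_nonneg_of_le_pi (by positivity) hk hcon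
    have h3 : (c * Complex.exp (b * t * Complex.I)).re = ‖c‖ * (σ * Real.cos δ) := by
      rw [(reim c b t).1, ← hα, show b * t + α = Real.pi * k + δ by rw [hδ]; ring, hcospik, hσk]
    have h4 := h1 r t hr0 hyρ (by
      rw [h3, abs_mul, abs_mul, abs_of_pos hn, abs_of_neg (show Real.cos δ < 0 by linarith)]
      have : |σ| = 1 := by rcases hσ with h | h <;> simp [h]
      rw [this]
      nlinarith)
    rw [h3, ← hy'] at h4
    have h5 : 0 < (σ * V y) * (‖c‖ * Real.cos δ) := by
      calc (0 : ℝ) < _ := h4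
        _ = _ := by ring
    have h6 : 0 < ‖c‖ * Real.cos δ := (pos_iff_pos_of_mul_pos h5).mp hσV
    have h7 : ‖c‖ * Real.cos δ < 0 := mul_neg_of_pos_of_neg hn (by linarith)
    linarith
  -- the arc
  obtain ⟨ε, hε, hεδ⟩ : ∃ ε : ℝ, (ε = 1 ∨ ε = -1) ∧ δ = ε * |δ| := by
    rcases le_total 0 δ with hd | hd
    · exact ⟨1, Or.inl rfl, by rw [abs_of_nonneg hd]; ring⟩
    · exact ⟨-1, Or.inr rfl, by rw [abs_of_nonpos hd]; ring⟩
  set u0 := |δ| / b with hu0
  have hu0n : 0 ≤ u0 := by positivity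
  have hbu0 : b * u0 = |δ| := by rw [hu0]; field_simp
  have htk : tt k + ε * u0 = t := by
    have h3 : (b : ℝ) * (tt k + ε * u0) = b * t := by
      have h4 := htt k
      have h5 : b * (ε * u0) = δ := by
        rw [mul_left_comm, hbu0, ← hεδ]
      rw [mul_add, h5, hδ]
      linarith
    exact mul_left_cancel₀ hbR.ne' h3
  have harc := arc_pos V s b c hc D r (fun t' => hD r t') (fun t' => h1 r t' hr0 hyρ)
    (fun t' => h2 r t' hr0 hyρ) σ ε hσ hε (tt k) u0 (by rw [hbu0]; exact hδ3)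
    (by
      intro u
      rw [← hα, show b * (tt k + ε * u) + α = Real.pi * k + ε * (b * u) by
        rw [← htt k]; ring, hcospik, hσk]
      rcases hε with h | h <;> rw [h] <;> simp)
    (by
      intro u
      rw [← hα, show b * (tt k + ε * u) + α = Real.pi * k + ε * (b * u) by
        rw [← htt k]; ring, hsinpik, hσk]
      rcases hε with h | h <;> rw [h] <;> simp)
    (by rw [htk, ← hy']; exact hσV)
  have hmk1 : (ConnectedComponents.mk y : Cc V) =
      ConnectedComponents.mk ⟨_, hray k r hr0 hyρ⟩ := by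
    have hne : ∀ u ∈ Set.Icc (0 : ℝ) u0,
        V ((fun v : ℝ => s + r * Complex.exp ((tt k + ε * v : ℝ) * Complex.I)) u) ≠ 0 := by
      intro u hu h3
      have h4 := harc u hu
      simp only at h3
      rw [h3, mul_zero] at h4
      exact lt_irrefl _ h4
    have h3 := mk_eq_of_preconn V
      (fun v : ℝ => s + r * Complex.exp ((tt k + ε * v : ℝ) * Complex.I)) (by fun_prop)
      (Set.Icc 0 u0) isPreconnected_Icc hne u0 0 (Set.right_mem_Icc.mpr hu0n)
      (Set.left_mem_Icc.mpr hu0n)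
    have e1 : (⟨_, hne u0 (Set.right_mem_Icc.mpr hu0n)⟩ : {w : ℂ // V w ≠ 0}) = y := by
      apply Subtype.ext
      simp only
      rw [htk, ← hy']
    have e2 : (⟨_, hne 0 (Set.left_mem_Icc.mpr hu0n)⟩ : {w : ℂ // V w ≠ 0}) =
        ⟨_, hray k r hr0 hyρ⟩ := by
      apply Subtype.ext
      simp only [mul_zero, add_zero]
    rw [e1, e2] at h3
    exact h3
  have hmk2 : (ConnectedComponents.mk (⟨_, hray k r hr0 hyρ⟩ : {w : ℂ // V w ≠ 0}) : Cc V) =
      ConnectedComponents.mk ⟨_, hray k (ρ / 2) hρ2 hρ3⟩ := by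
    have h3 := mk_eq_of_preconn V
      (fun r' : ℝ => s + r' * Complex.exp ((tt k : ℝ) * Complex.I)) (by fun_prop)
      (Set.Ioo 0 ρ) isPreconnected_Ioo (fun r' hr' => hray k r' hr'.1 hr'.2) r (ρ / 2)
      ⟨hr0, hyρ⟩ ⟨hρ2, hρ3⟩
    exact h3
  -- reduction of k modulo 2b
  have h2b : (0 : ℤ) < 2 * b := by omega
  have hm0 : 0 ≤ k % (2 * b : ℤ) := Int.emod_nonneg _ (by omega)
  have hm1 : k % (2 * b : ℤ) < 2 * b := Int.emod_lt_of_pos _ h2b
  let j : Fin (2 * b) := ⟨(k % (2 * b : ℤ)).toNat, by omega⟩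
  have hj : (((j : ℕ) : ℤ)) = k % (2 * b : ℤ) := by
    simp only [j]
    exact Int.toNat_of_nonneg hm0
  have hkj : k = ((j : ℕ) : ℤ) + 2 * b * (k / (2 * b : ℤ)) := by
    rw [hj]
    have := Int.emod_add_mul_ediv k (2 * b : ℤ)
    linarith
  have httj : tt k = tt ((j : ℕ) : ℤ) + (k / (2 * b : ℤ) : ℤ) * (2 * Real.pi) := by
    have h3 : (b : ℝ) * tt k = b * (tt ((j : ℕ) : ℤ) + (k / (2 * b : ℤ) : ℤ) * (2 * Real.pi)) := by
      have e1 := htt k
      have e2 := htt ((j : ℕ) : ℤ)
      have e3 : (k : ℝ) = (((j : ℕ) : ℤ) : ℝ) + 2 * b * ((k / (2 * b : ℤ) : ℤ) : ℝ) := by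
        exact_mod_cast congrArg (Int.cast : ℤ → ℝ) hkj
      rw [mul_add]
      have e4 : b * tt k = Real.pi * k - α := by linarith
      have e5 : b * tt ((j : ℕ) : ℤ) = Real.pi * (((j : ℕ) : ℤ) : ℝ) - α := by linarith
      rw [e4, e5, e3]
      ring
    exact mul_left_cancel₀ hbR.ne' h3
  have hexp : Complex.exp ((tt k : ℝ) * Complex.I) =
      Complex.exp ((tt ((j : ℕ) : ℤ) : ℝ) * Complex.I) := by
    rw [httj]
    push_cast
    rw [add_mul, show ((k / (2 * b : ℤ) : ℤ) : ℂ) * (2 * (Real.pi : ℂ)) * Complex.I =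
      ((k / (2 * b : ℤ) : ℤ) : ℂ) * (2 * Real.pi * Complex.I) by ring]
    exact Complex.exp_periodic.int_mul _ _
  refine ⟨j, ?_, ?_⟩
  · rw [hmk1, hmk2]
    simp only [C]
    congr 1
    apply Subtype.ext
    simp only
    rw [hexp]
  · simp only [e]
    rw [← hexp, hy, ← Complex.exp_conj]
    have h3 : (r : ℂ) * Complex.exp (t * Complex.I) *
        Complex.exp ((starRingEnd ℂ) ((tt k : ℝ) * Complex.I)) =
        (r : ℂ) * Complex.exp (((t - tt k : ℝ) : ℂ) * Complex.I) := by
      rw [mul_assoc, ← Complex.exp_add]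
      congr 2
      simp only [map_mul, Complex.conj_ofReal, Complex.conj_I]
      push_cast
      ring
    rw [h3, Complex.re_ofReal_mul, Complex.exp_ofReal_mul_I_re]
    have h4 : t - tt k = ε * u0 := by linarith
    have h5 : Real.cos (t - tt k) = Real.cos u0 := by
      rw [h4]
      rcases hε with h | h <;> rw [h] <;> simp
    rw [h5, mul_comm]
    apply mul_le_mul_of_nonneg_left _ hr0.le
    have h6 : u0 ≤ 2 * Real.pi / (3 * b) := by
      rw [hu0, div_le_div_iff₀ hbR (by positivity)]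
      nlinarith
    apply Real.cos_le_cos_of_nonneg_of_le_pi hu0n _ h6
    rw [div_le_iff₀ (by positivity)]
    have : (1 : ℝ) ≤ b := by exact_mod_cast hb
    nlinarith

end Pool.Agent.SHB
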